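import Pool.Agent.Lib_helper17.QR.Defs
import Pool.Agent.Lib_helper35.RG.Defs
/-! # QR, block QF1 (helper67): quadratic extensions -/

set_option autoImplicit false
set_option linter.unusedSectionVars false
set_option linter.unusedVariables false

namespace Pool.Agent.QR

open Pool.Agent.RSK Pool.Agent.RG
open NumberField IsDedekindDomain

section Quad

variable {F K : Type} [Field F] [NumberField F] [Field K] [NumberField K] [Algebra F K]
  [IsGalois F K] {a : Fˣ} {α : K}

theorem qf_fd : FiniteDimensional F K := by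
  have : IsScalarTower ℚ F K := inferInstance
  exact Module.Finite.of_restrictScalars_finite ℚ F K

theorem qf_cases (h : QE F K a α) {σ : K ≃ₐ[F] K} (hσ : σ ≠ 1) (τ : K ≃ₐ[F] K) :
    τ = 1 ∨ τ = σ := by
  classical
  by_contra hc
  push Not at hc
  have hfin : Finite (K ≃ₐ[F] K) := Nat.finite_of_card_ne_zero (by rw [h.card]; norm_num)
  have : Fintype (K ≃ₐ[F] K) := Fintype.ofFinite _
  have h3 : ({1, σ, τ} : Finset (K ≃ₐ[F] K)).card = 3 := by
    rw [Finset.card_insert_of_notMem, Finset.card_insert_of_notMem, Finset.card_singleton]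
    · simpa using fun e => hc.2 e.symm
    · simp only [Finset.mem_insert, Finset.mem_singleton, not_or]
      exact ⟨fun e => hσ e.symm, fun e => hc.1 e.symm⟩
  have h4 := Finset.card_le_univ ({1, σ, τ} : Finset (K ≃ₐ[F] K))
  rw [h3, ← Nat.card_eq_fintype_card, h.card] at h4
  omega

theorem qf_exists (h : QE F K a α) : ∃ σ : K ≃ₐ[F] K, σ ≠ 1 := by
  by_contra hc
  push Not at hc
  have hs : Subsingleton (K ≃ₐ[F] K) := ⟨fun x y => by rw [hc x, hc y]⟩
  have h1 : Nat.card (K ≃ₐ[F] K) = 1 := Nat.card_of_subsingleton 1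
  rw [h.card] at h1
  omega

theorem qf_sq (h : QE F K a α) {σ : K ≃ₐ[F] K} (hσ : σ ≠ 1) : σ * σ = 1 := by
  rcases qf_cases h hσ (σ * σ) with h1 | h1
  · exact h1
  · exact absurd (mul_eq_left.1 h1) hσ

theorem qf_fixed (h : QE F K a α) {σ : K ≃ₐ[F] K} (hσ : σ ≠ 1) {x : K} (hx : σ x = x) :
    ∃ y : F, algebraMap F K y = x := by
  have := qf_fd (F := F) (K := K)
  have h1 := (IsGalois.mem_range_algebraMap_iff_fixed (F := F) (E := K) x).mpr fun τ => by
    rcases qf_cases h hσ τ with rfl | rfl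
    · rfl
    · exact hx
  exact h1

theorem qf_ne_zero (h : QE F K a α) : α ≠ 0 := fun e => h.nb 0 (by rw [map_zero, e])

theorem qe_conj (h : QE F K a α) {σ : K ≃ₐ[F] K} (hσ : σ ≠ 1) : σ α = -α := by
  have h1 : (σ α) ^ 2 = α ^ 2 := by
    rw [← map_pow, h.sq]
    exact σ.commutes _
  rcases sq_eq_sq_iff_eq_or_eq_neg.1 h1 with h2 | h2
  · obtain ⟨y, hy⟩ := qf_fixed h hσ h2
    exact absurd hy (h.nb y)
  · exact h2

theorem qe_basis (h : QE F K a α) (β : K) :
    ∃ x y : F, β = algebraMap F K x + algebraMap F K y * α := by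
  obtain ⟨σ, hσ⟩ := qf_exists h
  have hss : ∀ x : K, σ (σ x) = x := fun x => by
    have := congrArg (fun τ : K ≃ₐ[F] K => τ x) (qf_sq h hσ)
    exact this
  have hα0 := qf_ne_zero h
  have hc := qe_conj h hσ
  have h2 : (2 : K) ≠ 0 := two_ne_zero
  obtain ⟨x, hx⟩ := qf_fixed h hσ (x := (β + σ β) / 2) (by
    rw [map_div₀, map_add, hss, map_ofNat, add_comm])
  obtain ⟨y, hy⟩ := qf_fixed h hσ (x := (β - σ β) / (2 * α)) (by
    rw [map_div₀, map_sub, hss, map_mul, map_ofNat, hc]
    field_simp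
    ring)
  refine ⟨x, y, ?_⟩
  rw [hx, hy]
  field_simp
  ring

theorem qe_norm_mul (h : QE F K a α) {σ : K ≃ₐ[F] K} (hσ : σ ≠ 1) (β : K) :
    algebraMap F K (Algebra.norm F β) = β * σ β := by
  classical
  have := qf_fd (F := F) (K := K)
  rw [Algebra.norm_eq_prod_automorphisms]
  have hu : (Finset.univ : Finset (K ≃ₐ[F] K)) = {1, σ} := by
    ext τ
    simp only [Finset.mem_univ, Finset.mem_insert, Finset.mem_singleton, true_iff]
    exact qf_cases h hσ τ
  rw [hu, Finset.prod_pair (fun e => hσ e.symm)]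
  rfl

theorem qe_norm (h : QE F K a α) (x y : F) :
    Algebra.norm F (algebraMap F K x + algebraMap F K y * α) = x ^ 2 - a * y ^ 2 := by
  obtain ⟨σ, hσ⟩ := qf_exists h
  apply (algebraMap F K).injective
  rw [qe_norm_mul h hσ, map_add, map_mul, σ.commutes, σ.commutes, qe_conj h hσ, map_sub,
    map_mul, map_pow, map_pow, ← h.sq]
  ring

theorem qe_not_sq (h : QE F K a α) (y : Fˣ) : a ≠ y ^ 2 := by
  intro e
  have h1 : α ^ 2 = (algebraMap F K (y : F)) ^ 2 := by
    rw [h.sq, e, ← map_pow, Units.val_pow_eq_pow_val]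
  rcases sq_eq_sq_iff_eq_or_eq_neg.1 h1 with h2 | h2
  · exact h.nb _ h2.symm
  · exact h.nb (-(y : F)) (by rw [map_neg, h2])

theorem nm_iff (h : QE F K a α) (b : Fˣ) :
    b ∈ Nm a ↔ ∃ β : Kˣ, Algebra.norm F (β : K) = (b : F) := by
  constructor
  · rintro ⟨x, y, hxy⟩
    have h1 : Algebra.norm F (algebraMap F K x + algebraMap F K y * α) = (b : F) := by
      rw [qe_norm h, hxy]
    have h0 : algebraMap F K x + algebraMap F K y * α ≠ 0 := by
      intro e
      have := qf_fd (F := F) (K := K)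
      rw [e, Algebra.norm_zero] at h1
      exact b.ne_zero h1.symm
    exact ⟨Units.mk0 _ h0, h1⟩
  · rintro ⟨β, hβ⟩
    obtain ⟨x, y, hxy⟩ := qe_basis h (β : K)
    refine ⟨x, y, ?_⟩
    rw [← hβ, hxy, qe_norm h]








end Quad

end Pool.Agent.QR
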