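import Pool.Agent.Lib_helper17.QR.Defs
import Pool.Agent.Lib_helper35.RG.Defs
import Pool.Agent.Lib_helper17.RS.P_UP1
import Pool.Agent.Lib_helper17.QRF.P_QF1
/-!
# QR, block SF1: the places above `v` are split if `a` is a square at `v`
-/

set_option autoImplicit false
set_option linter.unusedSectionVars false

namespace Pool.Agent.QR

open Pool.Agent.RSK Pool.Agent.RG
open NumberField IsDedekindDomain

section SF1

variable {F K : Type} [Field F] [NumberField F] [Field K] [NumberField K] [Algebra F K]
  [IsGalois F K] {a : Fˣ} {α : K}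

theorem split_fin1 (h : QE F K a α) (W : HeightOneSpectrum (𝓞 K))
    (ha : a ∈ Sqf (W.under (𝓞 F))) (σ : K ≃ₐ[F] K) (hσ : act σ (Sum.inr W) = Sum.inr W) :
    σ = 1 := by
  by_contra hne
  have hconj := qe_conj h hne
  obtain ⟨c, hc⟩ := ha
  have h4 : (4 : F) ≠ 0 := by norm_num
  have h4v : (W.under (𝓞 F)).valuation F 4 ≠ 0 := (map_ne_zero _).2 h4
  set ε : F := (a : F) * (c : F) ^ 2 - 1 with hε
  have hv : (W.under (𝓞 F)).valuation F (ε / 4) < 1 := by
    rw [map_div₀]
    exact (div_lt_one₀ (zero_lt_iff.2 h4v)).2 hc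
  -- the valuation of `K`
  obtain ⟨e, he, hval⟩ := up1_val (F := F) W
  have hW : W.valuation K (algebraMap F K (ε / 4)) < 1 := by
    rw [hval]
    exact pow_lt_one₀ zero_le' hv (by omega)
  have hinv : ∀ x : K, W.valuation K (σ x) = W.valuation K x := by
    intro x
    have h1 := val_equiv σ.toRingEquiv W x
    have h2 : HeightOneSpectrum.equivOfRingEquiv
        (RingOfIntegers.mapRingEquiv σ.toRingEquiv) W = W := Sum.inr_injective hσ
    rw [h2] at h1
    exact h1
  have h2K : (2 : K) ≠ 0 := by norm_num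
  set θ : K := (1 + algebraMap F K (c : F) * α) / 2 with hθ
  have hσθ : σ θ = (1 - algebraMap F K (c : F) * α) / 2 := by
    rw [hθ, map_div₀, map_add, map_mul, hconj, AlgEquiv.commutes, map_one, map_ofNat]
    ring
  have hprod : θ * σ θ = -algebraMap F K (ε / 4) := by
    rw [hσθ, hθ, map_div₀, hε, map_sub, map_mul, map_pow, ← h.sq, map_one, map_ofNat]
    field_simp
    ring
  have hsum : θ + σ θ = 1 := by
    rw [hσθ, hθ]
    field_simp
    ring
  have h5 : W.valuation K θ * W.valuation K θ < 1 := by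
    have h6 : W.valuation K (θ * σ θ) < 1 := by
      rw [hprod, Valuation.map_neg]
      exact hW
    rwa [map_mul, hinv] at h6
  have h7 : W.valuation K θ < 1 := by
    by_contra hcon
    rw [not_lt] at hcon
    exact absurd (one_le_mul hcon hcon) (not_le.2 h5)
  have h8 : W.valuation K (θ + σ θ) < 1 :=
    Valuation.map_add_lt _ h7 (by rw [hinv]; exact h7)
  rw [hsum, map_one] at h8
  exact lt_irrefl _ h8



end SF1

end Pool.Agent.QR
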