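import Pool.Agent.Lib_helper17.QR.Defs
import Pool.Agent.Lib_helper35.RG.Defs
/-!
# QR, block LA: squares, Newton approximation
-/

set_option autoImplicit false
set_option linter.unusedSectionVars false
set_option linter.unusedVariables false

namespace Pool.Agent.QR

open Pool.Agent.RSK Pool.Agent.RG
open NumberField IsDedekindDomain

section Loc

variable {F : Type} [Field F] [NumberField F]

theorem val_four_le (v : HeightOneSpectrum (𝓞 F)) : v.valuation F 4 ≤ 1 := by
  have h : v.valuation F (algebraMap (𝓞 F) F 4) ≤ 1 := v.valuation_le_one 4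
  rwa [map_ofNat] at h

theorem la_two_le (v : HeightOneSpectrum (𝓞 F)) : v.valuation F 2 ≤ 1 := by
  have h : v.valuation F (algebraMap (𝓞 F) F 2) ≤ 1 := v.valuation_le_one 2
  rwa [map_ofNat] at h

theorem la_three_le (v : HeightOneSpectrum (𝓞 F)) : v.valuation F 3 ≤ 1 := by
  have h : v.valuation F (algebraMap (𝓞 F) F 3) ≤ 1 := v.valuation_le_one 3
  rwa [map_ofNat] at h

theorem la_two_odd {v : HeightOneSpectrum (𝓞 F)} (h2 : (2 : 𝓞 F) ∉ v.asIdeal) :
    v.valuation F 2 = 1 := by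
  refine le_antisymm (la_two_le v) ?_
  by_contra h
  push Not at h
  apply h2
  have h3 : v.valuation F (algebraMap (𝓞 F) F 2) < 1 := by
    rw [map_ofNat]
    exact h
  exact (v.valuation_lt_one_iff_mem 2).1 h3

theorem val_four_odd {v : HeightOneSpectrum (𝓞 F)} (h2 : (2 : 𝓞 F) ∉ v.asIdeal) :
    v.valuation F 4 = 1 := by
  have h : (4 : F) = 2 * 2 := by norm_num
  rw [h, map_mul, la_two_odd h2, mul_one]

theorem sq_mem (v : Pl F) (y : Fˣ) : y ^ 2 ∈ Sq v := by
  rcases v with w | v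
  · show w.IsReal → 0 < (w.embedding ((y ^ 2 : Fˣ) : F)).re
    intro hw
    have h3 := InfinitePlace.isReal_iff.1 hw
    have h4 := ComplexEmbedding.isReal_iff.1 h3
    have h5 := congrArg (fun φ : F →+* ℂ => φ (y : F)) h4
    have him : (w.embedding (y : F)).im = 0 := Complex.conj_eq_iff_im.1 h5
    have hne : w.embedding (y : F) ≠ 0 := (map_ne_zero _).2 y.ne_zero
    have hre : (w.embedding (y : F)).re ≠ 0 := by
      intro h0
      exact hne (Complex.ext h0 him)
    rw [Units.val_pow_eq_pow_val, map_pow, sq, Complex.mul_re, him, mul_zero, sub_zero]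
    exact mul_self_pos.2 hre
  · show ∃ z : Fˣ, v.valuation F (((y ^ 2 : Fˣ) : F) * (z : F) ^ 2 - 1) < v.valuation F 4
    refine ⟨y⁻¹, ?_⟩
    have h4 : v.valuation F 4 ≠ 0 := (map_ne_zero _).2 (by norm_num)
    have e : ((y ^ 2 : Fˣ) : F) * ((y⁻¹ : Fˣ) : F) ^ 2 - 1 = 0 := by
      have hy := y.ne_zero
      rw [Units.val_pow_eq_pow_val, Units.val_inv_eq_inv_val]
      field_simp
      ring
    rw [e, map_zero]
    exact zero_lt_iff.2 h4

/-- one step of Newton's method -/
theorem la_step (v : HeightOneSpectrum (𝓞 F)) (c y : Fˣ) (η : F)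
    (h : (c : F) * (y : F) ^ 2 = 1 + 4 * η) (hη : v.valuation F η < 1) :
    ∃ (z : Fˣ) (η' : F), (c : F) * (z : F) ^ 2 = 1 + 4 * η' ∧
      v.valuation F η' ≤ v.valuation F η * v.valuation F η := by
  have h2η : v.valuation F (2 * η) < 1 := by
    rw [map_mul]
    calc v.valuation F 2 * v.valuation F η ≤ 1 * v.valuation F η :=
          mul_le_mul_left (la_two_le v) _
      _ < 1 := by rwa [one_mul]
  have hne : (1 : F) - 2 * η ≠ 0 := by
    intro h0
    have h1 : 2 * η = 1 := by linear_combination -h0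
    rw [h1, map_one] at h2η
    exact lt_irrefl _ h2η
  refine ⟨y * Units.mk0 _ hne, η ^ 2 * (4 * η - 3), ?_, ?_⟩
  · rw [Units.val_mul, Units.val_mk0, mul_pow]
    linear_combination (1 - 2 * η) ^ 2 * h
  · rw [map_mul, map_pow, sq]
    have h5 : v.valuation F (4 * η - 3) ≤ 1 := by
      refine (Valuation.map_sub _ _ _).trans (max_le ?_ (la_three_le v))
      rw [map_mul]
      exact mul_le_one' (val_four_le v) hη.le
    calc v.valuation F η * v.valuation F η * v.valuation F (4 * η - 3)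
        ≤ v.valuation F η * v.valuation F η * 1 := mul_le_mul_right h5 _
      _ = _ := mul_one _

theorem la_iter (v : HeightOneSpectrum (𝓞 F)) {c : Fˣ} (hc : c ∈ Sqf v) (n : ℕ) :
    ∃ (y : Fˣ) (η : F), (c : F) * (y : F) ^ 2 = 1 + 4 * η ∧
      v.valuation F η ≤ WithZero.exp (-((n : ℤ) + 1)) := by
  induction n with
  | zero =>
    obtain ⟨y, hy⟩ := hc
    have h4 : (4 : F) ≠ 0 := by norm_num
    have h40 : v.valuation F 4 ≠ 0 := (map_ne_zero _).2 h4
    refine ⟨y, ((c : F) * (y : F) ^ 2 - 1) / 4, by field_simp; ring, ?_⟩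
    have h1 : v.valuation F (((c : F) * (y : F) ^ 2 - 1) / 4) < 1 := by
      rw [map_div₀]
      rwa [div_lt_one₀ (zero_lt_iff.2 h40)]
    by_cases h0 : v.valuation F (((c : F) * (y : F) ^ 2 - 1) / 4) = 0
    · rw [h0]
      exact zero_le
    · rw [← WithZero.log_le_iff_le_exp h0]
      have h2 := (WithZero.log_lt_iff_lt_exp h0 (a := 0)).2 (by rw [WithZero.exp_zero]; exact h1)
      push_cast
      omega
  | succ n ih =>
    obtain ⟨y, η, h1, h2⟩ := ih
    have hlt : v.valuation F η < 1 := by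
      refine h2.trans_lt ?_
      rw [← WithZero.exp_zero, WithZero.exp_lt_exp]
      omega
    obtain ⟨z, η', h3, h4⟩ := la_step v c y η h1 hlt
    refine ⟨z, η', h3, h4.trans ?_⟩
    have h5 : (WithZero.exp (-(((n + 1 : ℕ) : ℤ) + 1)) : WithZero (Multiplicative ℤ)) =
        WithZero.exp (-((n : ℤ) + 1)) * WithZero.exp (-1) := by
      rw [← WithZero.exp_add]
      congr 1
    rw [h5]
    have h6 : v.valuation F η ≤ WithZero.exp (-1) := by
      refine h2.trans ?_
      rw [WithZero.exp_le_exp]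
      omega
    exact mul_le_mul' h2 h6

theorem sqf_prec {v : HeightOneSpectrum (𝓞 F)} {c : Fˣ} (hc : c ∈ Sqf v) (n : ℕ) :
    ∃ y : Fˣ, v.valuation F ((c : F) * (y : F) ^ 2 - 1) ≤ WithZero.exp (-(n : ℤ)) := by
  obtain ⟨y, η, h1, h2⟩ := la_iter v hc n
  refine ⟨y, ?_⟩
  have e : (c : F) * (y : F) ^ 2 - 1 = 4 * η := by rw [h1]; ring
  rw [e, map_mul]
  calc v.valuation F 4 * v.valuation F η ≤ 1 * v.valuation F η :=
        mul_le_mul_left (val_four_le v) _
    _ = v.valuation F η := one_mul _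
    _ ≤ WithZero.exp (-((n : ℤ) + 1)) := h2
    _ ≤ WithZero.exp (-(n : ℤ)) := by rw [WithZero.exp_le_exp]; omega

theorem sqf_even {v : HeightOneSpectrum (𝓞 F)} {c : Fˣ} (hc : c ∈ Sqf v) :
    Even (ordv v (c : F)) := by
  obtain ⟨y, hy⟩ := hc
  have h1 : v.valuation F ((c : F) * (y : F) ^ 2) = 1 := by
    have e : (c : F) * (y : F) ^ 2 = ((c : F) * (y : F) ^ 2 - 1) + 1 := by ring
    rw [e, Valuation.map_add_eq_of_lt_right _
      (by rw [map_one]; exact hy.trans_le (val_four_le v)), map_one]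
  have h2 : ordv v ((c * (y * y) : Fˣ) : F) = 0 := by
    unfold ordv
    have e : ((c * (y * y) : Fˣ) : F) = (c : F) * (y : F) ^ 2 := by
      push_cast
      ring
    rw [e, h1, WithZero.log_one, neg_zero]
  rw [ordv_mul, ordv_mul] at h2
  exact ⟨-ordv v (y : F), by linarith⟩







end Loc

end Pool.Agent.QR
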