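import Pool.Agent.Lib_helper17.QR.Defs
import Pool.Agent.Lib_helper35.RG.Defs
import Pool.Agent.Lib_helper35.RG.P_SPU
/-!
# QR, block SF2: density of `F` in `K` at split places
-/

set_option autoImplicit false
set_option linter.unusedSectionVars false

namespace Pool.Agent.QR

open Pool.Agent.RSK Pool.Agent.RG
open NumberField IsDedekindDomain

section SF2

variable {F K : Type} [Field F] [NumberField F] [Field K] [NumberField K] [Algebra F K]
  [IsGalois F K]

theorem sf2_exp {γ : WithZero (Multiplicative ℤ)} (hγ : γ ≠ 0) :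
    ∃ n : ℕ, WithZero.exp (-(n : ℤ)) < γ := by
  refine ⟨(1 - WithZero.log γ).toNat, ?_⟩
  rw [← WithZero.exp_log hγ, WithZero.exp_lt_exp]
  have := Int.self_le_toNat (1 - WithZero.log γ)
  rw [WithZero.exp_log hγ]
  omega

theorem sf2_val {k : Type} [Field k] [NumberField k] (W : HeightOneSpectrum (𝓞 k)) (x : 𝓞 k)
    (n : ℕ) : W.valuation k (algebraMap (𝓞 k) k x) ≤ WithZero.exp (-(n : ℤ)) ↔
      x ∈ W.asIdeal ^ n := by
  rw [HeightOneSpectrum.valuation_of_algebraMap, HeightOneSpectrum.intValuation_le_pow_iff_mem]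

/-- the nontrivial automorphism -/
theorem sf2_sigma (hK : Nat.card (K ≃ₐ[F] K) = 2) : ∃ σ : K ≃ₐ[F] K, σ ≠ 1 ∧
    (∀ τ : K ≃ₐ[F] K, τ = 1 ∨ τ = σ) ∧ ∀ x, σ (σ x) = x := by
  classical
  have hfin : Finite (K ≃ₐ[F] K) := Nat.finite_of_card_ne_zero (by rw [hK]; norm_num)
  obtain ⟨σ, hσ⟩ : ∃ σ : K ≃ₐ[F] K, σ ≠ 1 := by
    have : Nontrivial (K ≃ₐ[F] K) := by
      rw [← Finite.one_lt_card_iff_nontrivial, hK]
      norm_num
    exact exists_ne 1
  have htwo : ∀ τ : K ≃ₐ[F] K, τ = 1 ∨ τ = σ := by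
    intro τ
    by_contra hc
    push Not at hc
    have h1 : ({1, σ, τ} : Finset (K ≃ₐ[F] K)).card ≤ 2 := by
      have : Fintype (K ≃ₐ[F] K) := Fintype.ofFinite _
      rw [← hK, Nat.card_eq_fintype_card]
      exact Finset.card_le_univ _
    rw [Finset.card_insert_of_notMem (by simp [hσ.symm, hc.1.symm]),
      Finset.card_insert_of_notMem (by simp [hc.2.symm]), Finset.card_singleton] at h1
    omega
  refine ⟨σ, hσ, htwo, fun x => ?_⟩
  have h1 : σ * σ = 1 := by
    rcases htwo (σ * σ) with h1 | h1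
    · exact h1
    · exact absurd (mul_eq_left.1 h1) hσ
  exact congrArg (fun τ : K ≃ₐ[F] K => τ x) h1

theorem sf2_int (hK : Nat.card (K ≃ₐ[F] K) = 2) (W : HeightOneSpectrum (𝓞 K))
    (hW : ∀ σ : K ≃ₐ[F] K, act σ (Sum.inr W) = Sum.inr W → σ = 1) (a : 𝓞 K) (N : ℕ) :
    ∃ y : F, W.valuation K (2 * ((a : K) - algebraMap F K y)) ≤ WithZero.exp (-(N : ℤ)) := by
  obtain ⟨σ, hσ, htwo, hσσ⟩ := sf2_sigma hK
  set e : 𝓞 K ≃+* 𝓞 K := RingOfIntegers.mapRingEquiv σ.toRingEquiv with he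
  set W' : HeightOneSpectrum (𝓞 K) := HeightOneSpectrum.equivOfRingEquiv e W with hW'
  have hne : W' ≠ W := fun h => hσ (hW σ (by
    show Sum.inr W' = Sum.inr W
    rw [h]))
  obtain ⟨z, hz⟩ := IsDedekindDomain.exists_forall_sub_mem_ideal (s := (Finset.univ : Finset Bool))
    (fun i => if i then W.asIdeal else W'.asIdeal) (fun _ => N)
    (fun i _ => by cases i <;> simp [HeightOneSpectrum.prime])
    (fun i _ j _ hij => by
      cases i <;> cases j
      · exact absurd rfl hij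
      · simp only [Bool.false_eq_true, if_false, if_true]
        exact fun h => hne (HeightOneSpectrum.ext h)
      · simp only [Bool.false_eq_true, if_false, if_true]
        exact fun h => hne (HeightOneSpectrum.ext h.symm)
      · exact absurd rfl hij)
    (fun i => if i.1 then a else e a)
  have h1 : z - a ∈ W.asIdeal ^ N := by simpa using hz true (Finset.mem_univ _)
  have h2 : z - e a ∈ W'.asIdeal ^ N := by simpa using hz false (Finset.mem_univ _)
  have h3 : W.valuation K ((z : K) - (a : K)) ≤ WithZero.exp (-(N : ℤ)) := by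
    have := (sf2_val W (z - a) N).2 h1
    rwa [map_sub] at this
  have h4 : W.valuation K (σ (z : K) - (a : K)) ≤ WithZero.exp (-(N : ℤ)) := by
    have h5 := (sf2_val W' (z - e a) N).2 h2
    have h6 : algebraMap (𝓞 K) K (z - e a) = σ (σ (z : K) - (a : K)) := by
      rw [map_sub, map_sub, hσσ]
      rfl
    rw [h6] at h5
    have h7 := val_equiv σ.toRingEquiv W (σ (z : K) - (a : K))
    have h8 : σ.toRingEquiv (σ (z : K) - (a : K)) = σ (σ (z : K) - (a : K)) := rfl
    rw [h8] at h7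
    rw [← h7]
    exact h5
  obtain ⟨y, hy⟩ : (z : K) + σ (z : K) ∈ Set.range (algebraMap F K) := by
    rw [IsGalois.mem_range_algebraMap_iff_fixed]
    intro τ
    rcases htwo τ with rfl | rfl
    · rfl
    · rw [map_add, hσσ, add_comm]
  refine ⟨y / 2, ?_⟩
  have e1 : 2 * ((a : K) - algebraMap F K (y / 2)) =
      -(((z : K) - (a : K)) + (σ (z : K) - (a : K))) := by
    rw [map_div₀, hy, map_ofNat]
    ring
  rw [e1, Valuation.map_neg]
  exact Valuation.map_add_le _ h3 h4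

theorem split_dense (hK : Nat.card (K ≃ₐ[F] K) = 2) (W : HeightOneSpectrum (𝓞 K))
    (hW : ∀ σ : K ≃ₐ[F] K, act σ (Sum.inr W) = Sum.inr W → σ = 1) (x : K) (n : ℕ) :
    ∃ y : F, W.valuation K (x - algebraMap F K y) ≤ WithZero.exp (-(n : ℤ)) := by
  obtain ⟨a, b, hb, hx⟩ := IsFractionRing.div_surjective (A := 𝓞 K) x
  have hb0 : b ≠ 0 := nonZeroDivisors.ne_zero hb
  have hbk : algebraMap (𝓞 K) K b ≠ 0 := by simpa using hb0
  obtain ⟨m, hm0, c, hc⟩ : ∃ m : ℕ, m ≠ 0 ∧ ∃ c : 𝓞 K, (m : 𝓞 K) = b * c := by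
    refine ⟨Ideal.absNorm (Ideal.span {b}), ?_, ?_⟩
    · rw [Ne, Ideal.absNorm_eq_zero_iff, Ideal.span_singleton_eq_bot]
      exact hb0
    · exact (Ideal.mem_span_singleton.1 (Ideal.absNorm_mem (Ideal.span {b})))
  have hmk : (m : K) ≠ 0 := by exact_mod_cast hm0
  have hmx : x = ((a * c : 𝓞 K) : K) / m := by
    have h1 : (m : K) = (b : K) * (c : K) := by
      have h2 := congrArg (algebraMap (𝓞 K) K) hc
      rwa [map_natCast, map_mul] at h2
    have hck : (c : K) ≠ 0 := by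
      intro h0
      rw [h0, mul_zero] at h1
      exact hmk h1
    rw [h1, ← hx]
    have e2 : ((a * c : 𝓞 K) : K) = (a : K) * (c : K) := map_mul (algebraMap (𝓞 K) K) a c
    rw [e2]
    field_simp
  have h2 : W.valuation K 2 ≠ 0 := (map_ne_zero _).2 (by norm_num)
  have hm : W.valuation K (m : K) ≠ 0 := (map_ne_zero _).2 hmk
  obtain ⟨N, hN⟩ := sf2_exp (γ := WithZero.exp (-(n : ℤ)) * (W.valuation K 2 * W.valuation K (m : K)))
    (mul_ne_zero WithZero.exp_ne_zero (mul_ne_zero h2 hm))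
  obtain ⟨y, hy⟩ := sf2_int hK W hW (a * c) N
  refine ⟨y / m, ?_⟩
  have e3 : 2 * (((a * c : 𝓞 K) : K) - algebraMap F K y) =
      (x - algebraMap F K (y / m)) * (2 * m) := by
    rw [map_div₀, map_natCast, hmx]
    field_simp
  rw [e3, map_mul, map_mul] at hy
  have h3 := hy.trans hN.le
  exact le_of_mul_le_mul_right h3 (zero_lt_iff.2 (mul_ne_zero h2 hm))

theorem split_val (hK : Nat.card (K ≃ₐ[F] K) = 2) (W : HeightOneSpectrum (𝓞 K))
    (hW : ∀ σ : K ≃ₐ[F] K, act σ (Sum.inr W) = Sum.inr W → σ = 1) (x : F) :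
    W.valuation K (algebraMap F K x) = (W.under (𝓞 F)).valuation F x := by
  have hun := spl_unram (K := F) W hW
  have : W.asIdeal.LiesOver (W.under (𝓞 F)).asIdeal := ⟨rfl⟩
  have : W.asIdeal.IsPrime := W.isPrime
  have h1 := HeightOneSpectrum.valuation_liesOver (K := F) K (W.under (𝓞 F)) W x
  have h2 : (W.under (𝓞 F)).asIdeal.ramificationIdx' W.asIdeal = 1 := by
    rw [Ideal.ramificationIdx'_eq_ramificationIdx _ _ (W.under (𝓞 F)).ne_bot]
    exact Ideal.ramificationIdx_eq_one _ _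
  rw [h2, pow_one] at h1
  exact h1.symm

end SF2




end Pool.Agent.QR
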