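import Pool.Agent.Lib_helper17.QR.Defs
import Pool.Agent.Lib_helper35.RG.Defs
import Pool.Agent.Lib_helper17.QRF.P_LA
import Pool.Agent.Lib_helper17.QRF.P_SF2
/-!
# QR, block SF3: `a` is a square at the split places
-/

set_option autoImplicit false
set_option linter.unusedSectionVars false

namespace Pool.Agent.QR

open Pool.Agent.RSK Pool.Agent.RG
open NumberField IsDedekindDomain

section SF3

variable {F K : Type} [Field F] [NumberField F] [Field K] [NumberField K] [Algebra F K]
  [IsGalois F K] {a : Fˣ} {α : K}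

theorem sf3_exp {γ : WithZero (Multiplicative ℤ)} (hγ : γ ≠ 0) :
    ∃ n : ℕ, WithZero.exp (-(n : ℤ)) < γ := by
  refine ⟨(1 - WithZero.log γ).toNat, ?_⟩
  rw [← WithZero.exp_log hγ, WithZero.exp_lt_exp]
  have := Int.self_le_toNat (1 - WithZero.log γ)
  rw [WithZero.exp_log hγ]
  omega

theorem split_fin2 (h : QE F K a α) (W : HeightOneSpectrum (𝓞 K))
    (hW : ∀ σ : K ≃ₐ[F] K, act σ (Sum.inr W) = Sum.inr W → σ = 1) :
    a ∈ Sqf (W.under (𝓞 F)) := by
  have hα0 : α ≠ 0 := by
    rintro rfl
    have h1 := h.sq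
    rw [zero_pow two_ne_zero] at h1
    exact (map_ne_zero (algebraMap F K)).2 a.ne_zero h1.symm
  have hWα : W.valuation K α ≠ 0 := (map_ne_zero _).2 hα0
  have hW4 : W.valuation K 4 ≠ 0 := (map_ne_zero _).2 (by norm_num)
  have h4 : W.valuation K 4 ≤ 1 := val_four_le W
  obtain ⟨n, hn⟩ := sf3_exp (γ := W.valuation K 4 * W.valuation K α) (mul_ne_zero hW4 hWα)
  obtain ⟨y, hy⟩ := split_dense h.card W hW α n
  have hlt : W.valuation K (α - algebraMap F K y) < W.valuation K 4 * W.valuation K α :=
    hy.trans_lt hn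
  have hlt' : W.valuation K (α - algebraMap F K y) < W.valuation K α :=
    hlt.trans_le (mul_le_of_le_one_left' h4)
  have hWy : W.valuation K (algebraMap F K y) = W.valuation K α := by
    have e : algebraMap F K y = α - (α - algebraMap F K y) := by ring
    rw [e]
    exact Valuation.map_sub_eq_of_lt_left _ hlt'
  have hy0 : y ≠ 0 := by
    rintro rfl
    rw [map_zero, map_zero] at hWy
    exact hWα hWy.symm
  refine ⟨(Units.mk0 y hy0)⁻¹, ?_⟩
  rw [← split_val h.card W hW, ← split_val h.card W hW, map_ofNat, Units.val_inv_eq_inv_val,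
    Units.val_mk0]
  have hky : algebraMap F K y ≠ 0 := (map_ne_zero _).2 hy0
  have e : algebraMap F K ((a : F) * y⁻¹ ^ 2 - 1) =
      (α - algebraMap F K y) * (α + algebraMap F K y) * ((algebraMap F K y)⁻¹ *
        (algebraMap F K y)⁻¹) := by
    rw [map_sub, map_mul, map_pow, map_inv₀, ← h.sq, map_one]
    field_simp
    ring
  rw [e, map_mul, map_mul, map_mul, map_inv₀, hWy]
  have h5 : W.valuation K (α + algebraMap F K y) ≤ W.valuation K α :=
    Valuation.map_add_le _ le_rfl hWy.le
  calc W.valuation K (α - algebraMap F K y) * W.valuation K (α + algebraMap F K y) *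
        ((W.valuation K α)⁻¹ * (W.valuation K α)⁻¹)
      ≤ W.valuation K (α - algebraMap F K y) * W.valuation K α *
        ((W.valuation K α)⁻¹ * (W.valuation K α)⁻¹) := by gcongr
    _ = W.valuation K (α - algebraMap F K y) * (W.valuation K α)⁻¹ := by
        rw [mul_assoc, ← mul_assoc (W.valuation K α), mul_inv_cancel₀ hWα, one_mul]
    _ < W.valuation K 4 := by
        rw [mul_inv_lt_iff₀ (zero_lt_iff.2 hWα)]
        exact hlt

end SF3



end Pool.Agent.QR
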