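import Pool.Agent.Lib_helper17.QR.Defs
import Pool.Agent.Lib_helper35.RG.Defs
import Pool.Agent.Lib_helper35.RG.P_DS
import Pool.Agent.Lib_helper35.RG.P_DZ
import Pool.Agent.Lib_helper17.QRF.P_SF1
import Pool.Agent.Lib_helper17.QRF.P_SF3
/-!
# Project QR, block DQ: `dens_quad` (helper36)
-/

set_option autoImplicit false
set_option linter.unusedSectionVars false
set_option linter.unusedVariables false

namespace Pool.Agent.QR

open Pool.Agent.RSK Pool.Agent.RG
open NumberField IsDedekindDomain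

section Quad

variable {F K : Type} [Field F] [NumberField F] [Field K] [NumberField K] [Algebra F K]
  [IsGalois F K] {a : Fˣ} {α : K}

theorem dq_spl (h : QE F K a α) {G : Type} [CommGroup G] (ι : G ≃* (K ≃ₐ[F] K))
    (v : HeightOneSpectrum (𝓞 F)) : Spl ι ⊥ v ↔ a ∈ Sqf v := by
  constructor
  · intro hs
    obtain ⟨W, hW⟩ : ∃ W : HeightOneSpectrum (𝓞 K), W.under (𝓞 F) = v := by
      obtain ⟨W, hW⟩ := dn_surj (F := F) (H := K) (Sum.inr v)
      rcases W with W | W
      · exact absurd hW (by simp [dn])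
      · exact ⟨W, by simpa [dn] using hW⟩
    subst hW
    refine split_fin2 h W fun σ hσ => ?_
    have h1 := hs W rfl (ι.symm σ) (by rw [ι.apply_symm_apply]; exact hσ)
    rw [Subgroup.mem_bot] at h1
    rw [← ι.apply_symm_apply σ, h1, map_one]
  · intro ha W hW g hg
    subst hW
    have h1 := split_fin1 h W ha (ι g) hg
    rw [Subgroup.mem_bot]
    exact (map_eq_one_iff ι ι.injective).1 h1

theorem dens_quad (h : QE F K a α) : ∃ C : ℝ, ∀ s : ℝ, 1 < s → s ≤ 2 →
    |∑' v : HeightOneSpectrum (𝓞 F), (open scoped Classical in if a ∈ Sqf v then (1 : ℝ) else -1) *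
      (nv v : ℝ) ^ (-s)| ≤ C := by
  classical
  have : Fact (Nat.Prime 2) := ⟨Nat.prime_two⟩
  let ι : Multiplicative (ZMod 2) ≃* (K ≃ₐ[F] K) :=
    mulEquivOfPrimeCardEq (p := 2) (by simp) h.card
  obtain ⟨C1, h1⟩ := dens_spl ι ⊥
  obtain ⟨C2, h2⟩ := dens_all F
  have hidx : ((⊥ : Subgroup (Multiplicative (ZMod 2))).index : ℝ) = 2 := by
    rw [Subgroup.index_bot]
    simp
  refine ⟨2 * C1 + C2, fun s hs hs2 => ?_⟩
  have e1 := h1 s hs hs2
  have e2 := h2 s hs hs2
  rw [hidx] at e1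
  have hsum := nv_summable F hs
  have hsum1 : Summable fun v : HeightOneSpectrum (𝓞 F) =>
      if Spl ι ⊥ v then (nv v : ℝ) ^ (-s) else 0 := by
    refine Summable.of_nonneg_of_le (fun v => ?_) (fun v => ?_) hsum
    · split_ifs
      · positivity
      · exact le_refl _
    · split_ifs
      · exact le_refl _
      · positivity
  have key : ∑' v : HeightOneSpectrum (𝓞 F), (if a ∈ Sqf v then (1 : ℝ) else -1) *
      (nv v : ℝ) ^ (-s) = 2 * (∑' v : HeightOneSpectrum (𝓞 F),
        if Spl ι ⊥ v then (nv v : ℝ) ^ (-s) else 0) -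
        ∑' v : HeightOneSpectrum (𝓞 F), (nv v : ℝ) ^ (-s) := by
    rw [← tsum_mul_left, ← (hsum1.mul_left 2).tsum_sub hsum]
    refine tsum_congr fun v => ?_
    by_cases hv : a ∈ Sqf v
    · rw [if_pos hv, if_pos ((dq_spl h ι v).2 hv)]
      ring
    · rw [if_neg hv, if_neg fun h' => hv ((dq_spl h ι v).1 h')]
      ring
  rw [key]
  have e3 := abs_le.1 e1
  have e4 := abs_le.1 e2
  rw [abs_le]
  constructor <;> linarith [e3.1, e3.2, e4.1, e4.2]

end Quad



end Pool.Agent.QR
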