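import Pool.Agent.Lib_helper17.QR.Defs
import Pool.Agent.Lib_helper35.RG.Defs
import Pool.Agent.Lib_helper17.QRF.P_LA
set_option autoImplicit false
set_option linter.unusedSectionVars false

namespace Pool.Agent.QR

open Pool.Agent.RSK Pool.Agent.RG
open NumberField IsDedekindDomain

variable {F : Type} [Field F] [NumberField F]

theorem lo_v (v : HeightOneSpectrum (𝓞 F)) (x : Fˣ) :
    v.valuation F (x : F) = WithZero.exp (-ordv v (x : F)) := by
  have hx : v.valuation F (x : F) ≠ 0 := (map_ne_zero _).2 x.ne_zero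
  rw [ordv, neg_neg, WithZero.exp_log hx]

theorem lo_ord_iff (v : HeightOneSpectrum (𝓞 F)) (x : Fˣ) :
    ordv v (x : F) = 0 ↔ v.valuation F (x : F) = 1 := by
  rw [lo_v]
  constructor
  · intro h
    rw [h, neg_zero, WithZero.exp_zero]
  · intro h
    rw [← WithZero.exp_zero, WithZero.exp_inj] at h
    omega

theorem lo_pi (v : HeightOneSpectrum (𝓞 F)) : ∃ π : Fˣ, ordv v (π : F) = 1 := by
  obtain ⟨π, hπ⟩ := v.valuation_exists_uniformizer F
  have h0 : π ≠ 0 := by
    rintro rfl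
    rw [map_zero] at hπ
    exact WithZero.exp_ne_zero hπ.symm
  refine ⟨Units.mk0 π h0, ?_⟩
  rw [Units.val_mk0, ordv, hπ, WithZero.log_exp]
  norm_num

/-- the valuation as a homomorphism -/
noncomputable def lo_h (v : HeightOneSpectrum (𝓞 F)) : Fˣ →* Multiplicative ℤ where
  toFun x := Multiplicative.ofAdd (ordv v (x : F))
  map_one' := by rw [Units.val_one, ordv_one]; rfl
  map_mul' x y := by rw [ordv_mul]; rfl

theorem lo_zpow (v : HeightOneSpectrum (𝓞 F)) (x : Fˣ) (k : ℤ) :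
    ordv v ((x ^ k : Fˣ) : F) = k * ordv v (x : F) := by
  have h := map_zpow (lo_h v) x k
  have h1 : Multiplicative.toAdd (lo_h v (x ^ k)) = Multiplicative.toAdd ((lo_h v x) ^ k) := by
    rw [h]
  rw [toAdd_zpow, smul_eq_mul] at h1
  exact h1

theorem lo_sq (v : HeightOneSpectrum (𝓞 F)) (y : Fˣ) : y ^ 2 ∈ Sqf v := by
  refine ⟨y⁻¹, ?_⟩
  have h4 : v.valuation F 4 ≠ 0 := (map_ne_zero _).2 (by norm_num)
  have e : ((y ^ 2 : Fˣ) : F) * ((y⁻¹ : Fˣ) : F) ^ 2 - 1 = 0 := by
    have hy := y.ne_zero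
    rw [Units.val_inv_eq_inv_val, Units.val_pow_eq_pow_val]
    field_simp
    ring
  rw [e, map_zero]
  exact zero_lt_iff.2 h4

theorem lo_sq_iff (v : HeightOneSpectrum (𝓞 F)) (c y : Fˣ) : c * y ^ 2 ∈ Sqf v ↔ c ∈ Sqf v :=
  ⟨fun h => by
    have h1 := (Sqf v).mul_mem h ((Sqf v).inv_mem (lo_sq v y))
    rwa [mul_inv_cancel_right] at h1, fun h => (Sqf v).mul_mem h (lo_sq v y)⟩

/-- an element of even valuation is a unit times a square -/
theorem lo_even (v : HeightOneSpectrum (𝓞 F)) {c : Fˣ} (hc : Even (ordv v (c : F))) :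
    ∃ y : Fˣ, v.valuation F ((c * y ^ 2 : Fˣ) : F) = 1 := by
  obtain ⟨π, hπ⟩ := lo_pi v
  obtain ⟨k, hk⟩ := hc
  refine ⟨π ^ (-k), (lo_ord_iff v _).1 ?_⟩
  have e : (π ^ (-k)) ^ 2 = π ^ (-k) * π ^ (-k) := sq _
  rw [e, ordv_mul, ordv_mul, lo_zpow, hπ, hk]
  ring

/-- reduction -/
theorem lo_red (v : HeightOneSpectrum (𝓞 F)) {x : F} (hx : v.valuation F x ≤ 1) :
    ∃ a : 𝓞 F, v.valuation F ((algebraMap (𝓞 F) F a) - x) < 1 := by
  obtain ⟨a, ha⟩ := v.exists_valuation_sub_lt_of_integer hx 1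
  exact ⟨a, by simpa using ha⟩

theorem lo_mem (v : HeightOneSpectrum (𝓞 F)) (a b : 𝓞 F) :
    v.valuation F (algebraMap (𝓞 F) F a - algebraMap (𝓞 F) F b) < 1 ↔
      (Ideal.Quotient.mk v.asIdeal a) = Ideal.Quotient.mk v.asIdeal b := by
  rw [← map_sub, HeightOneSpectrum.valuation_lt_one_iff_mem, Ideal.Quotient.eq]

theorem lo_two (v : HeightOneSpectrum (𝓞 F)) (h2 : (2 : 𝓞 F) ∉ v.asIdeal) :
    ringChar (𝓞 F ⧸ v.asIdeal) ≠ 2 := by
  intro h
  apply h2
  rw [← Ideal.Quotient.eq_zero_iff_mem, map_ofNat]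
  have h1 := ringChar.Nat.cast_ringChar (R := 𝓞 F ⧸ v.asIdeal)
  rw [h] at h1
  exact_mod_cast h1

/-- the criterion for units -/
theorem lo_unit {v : HeightOneSpectrum (𝓞 F)} (h2 : (2 : 𝓞 F) ∉ v.asIdeal) {c : Fˣ}
    (hc : v.valuation F (c : F) = 1) {a : 𝓞 F}
    (ha : v.valuation F ((algebraMap (𝓞 F) F a) - c) < 1) :
    c ∈ Sqf v ↔ IsSquare (Ideal.Quotient.mk v.asIdeal a) := by
  have h4 := val_four_odd h2
  have hm : ∀ x : 𝓞 F, v.valuation F (algebraMap (𝓞 F) F x) ≤ 1 := fun x => v.valuation_le_one x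
  constructor
  · rintro ⟨y, hy⟩
    rw [h4] at hy
    have h1 : v.valuation F ((c : F) * (y : F) ^ 2) = 1 := by
      have e : (c : F) * (y : F) ^ 2 = ((c : F) * (y : F) ^ 2 - 1) + 1 := by ring
      rw [e, Valuation.map_add_eq_of_lt_right _ (by rw [map_one]; exact hy), map_one]
    have h3 : v.valuation F (y : F) = 1 := by
      rw [map_mul, hc, one_mul, map_pow] at h1
      exact (pow_eq_one_iff_of_nonneg zero_le (by norm_num)).1 h1
    have h5 : v.valuation F ((y : F)⁻¹) ≤ 1 := by rw [map_inv₀, h3, inv_one]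
    obtain ⟨b, hb⟩ := lo_red v h5
    refine ⟨Ideal.Quotient.mk v.asIdeal b, ?_⟩
    rw [← map_mul, ← lo_mem, map_mul]
    have hy0 := y.ne_zero
    have e : algebraMap (𝓞 F) F a - algebraMap (𝓞 F) F b * algebraMap (𝓞 F) F b =
        (algebraMap (𝓞 F) F a - c) + (((c : F) * (y : F) ^ 2 - 1) * ((y : F)⁻¹) ^ 2 -
          (algebraMap (𝓞 F) F b - (y : F)⁻¹) * (algebraMap (𝓞 F) F b + (y : F)⁻¹)) := by
      field_simp
      ring
    rw [e]
    refine Valuation.map_add_lt _ ha (Valuation.map_sub_lt _ ?_ ?_)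
    · rw [map_mul, map_pow, map_inv₀, h3, inv_one, one_pow, mul_one]
      exact hy
    · rw [map_mul]
      exact mul_lt_one_of_lt_of_le hb (Valuation.map_add_le _ (hm b) h5)
  · rintro ⟨b', hb'⟩
    obtain ⟨b, rfl⟩ := Ideal.Quotient.mk_surjective b'
    rw [← map_mul, ← lo_mem, map_mul] at hb'
    set β : F := algebraMap (𝓞 F) F b
    have h1 : v.valuation F ((c : F) - β * β) < 1 := by
      have e : (c : F) - β * β = (algebraMap (𝓞 F) F a - β * β) - (algebraMap (𝓞 F) F a - c) := by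
        ring
      rw [e]
      exact Valuation.map_sub_lt _ hb' ha
    have h3 : v.valuation F (β * β) = 1 := by
      have e : β * β = -((c : F) - β * β) + c := by ring
      rw [e, Valuation.map_add_eq_of_lt_right _ (by rw [Valuation.map_neg, hc]; exact h1), hc]
    have h0 : β ≠ 0 := by
      intro h
      rw [h, mul_zero, map_zero] at h3
      exact zero_ne_one h3
    refine ⟨(Units.mk0 β h0)⁻¹, ?_⟩
    have e : (c : F) * (((Units.mk0 β h0)⁻¹ : Fˣ) : F) ^ 2 - 1 = ((c : F) - β * β) * (β * β)⁻¹ := by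
      rw [Units.val_inv_eq_inv_val, Units.val_mk0]
      field_simp
    rw [e, map_mul, map_inv₀, h3, inv_one, mul_one, h4]
    exact h1

theorem lo_nz {v : HeightOneSpectrum (𝓞 F)} {c : F}
    (hc : v.valuation F (c : F) = 1) {a : 𝓞 F}
    (ha : v.valuation F ((algebraMap (𝓞 F) F a) - c) < 1) :
    Ideal.Quotient.mk v.asIdeal a ≠ 0 := by
  intro h
  rw [Ideal.Quotient.eq_zero_iff_mem, ← HeightOneSpectrum.valuation_lt_one_iff_mem (K := F)] at h
  have e : c = algebraMap (𝓞 F) F a - (algebraMap (𝓞 F) F a - c) := by ring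
  have h1 : v.valuation F c < 1 := by
    rw [e]
    exact Valuation.map_sub_lt _ h ha
  rw [hc] at h1
  exact lt_irrefl _ h1

/-- in a finite field of odd characteristic the product of two nonsquares is a square -/
theorem lo_prod {k : Type} [Field k] [Finite k] (hk : ringChar k ≠ 2) {a b : k}
    (ha : ¬ IsSquare a) (hb : ¬ IsSquare b) : IsSquare (a * b) := by
  have := Fintype.ofFinite k
  have ha0 : a ≠ 0 := by
    rintro rfl
    exact ha (IsSquare.zero)
  have hb0 : b ≠ 0 := by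
    rintro rfl
    exact hb (IsSquare.zero)
  rw [FiniteField.isSquare_iff hk ha0] at ha
  rw [FiniteField.isSquare_iff hk hb0] at hb
  rw [FiniteField.isSquare_iff hk (mul_ne_zero ha0 hb0), mul_pow]
  have h1 := (FiniteField.pow_dichotomy hk ha0).resolve_left ha
  have h2 := (FiniteField.pow_dichotomy hk hb0).resolve_left hb
  rw [h1, h2]
  norm_num

/-- every element of a finite field is of the form `x² - a y²` -/
theorem lo_norm {k : Type} [Field k] [Finite k] (hk : ringChar k ≠ 2) {a : k} (ha : a ≠ 0) (x : k) :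
    ∃ s t : k, x = s ^ 2 - a * t ^ 2 := by
  have := Fintype.ofFinite k
  have h1 : (Polynomial.X ^ 2 - Polynomial.C x : Polynomial k).degree = 2 :=
    Polynomial.degree_X_pow_sub_C (by norm_num) _
  have h2 : (Polynomial.C (-a) * Polynomial.X ^ 2 : Polynomial k).degree = 2 := by
    rw [Polynomial.degree_C_mul_X_pow 2 (neg_ne_zero.2 ha)]
    rfl
  have hodd : Fintype.card k % 2 = 1 := FiniteField.odd_card_of_char_ne_two hk
  obtain ⟨s, t, hst⟩ := FiniteField.exists_root_sum_quadratic h1 h2 hodd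
  refine ⟨s, t, ?_⟩
  simp only [Polynomial.eval_sub, Polynomial.eval_pow, Polynomial.eval_X, Polynomial.eval_C,
    Polynomial.eval_mul] at hst
  linear_combination -hst

theorem lo_fin (v : HeightOneSpectrum (𝓞 F)) : Finite (𝓞 F ⧸ v.asIdeal) :=
  Ideal.finiteQuotientOfFreeOfNeBot v.asIdeal v.ne_bot

theorem odd_units {v : HeightOneSpectrum (𝓞 F)} (h2 : (2 : 𝓞 F) ∉ v.asIdeal) {c d : Fˣ}
    (hc : Even (ordv v (c : F))) (hd : Even (ordv v (d : F))) (hc' : c ∉ Sqf v) (hd' : d ∉ Sqf v) :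
    c * d ∈ Sqf v := by
  have := v.isMaximal
  let _ := Ideal.Quotient.field v.asIdeal
  have := lo_fin v
  obtain ⟨y, hy⟩ := lo_even v hc
  obtain ⟨z, hz⟩ := lo_even v hd
  rw [← lo_sq_iff v c y] at hc'
  rw [← lo_sq_iff v d z] at hd'
  obtain ⟨a, ha⟩ := lo_red v hy.le
  obtain ⟨b, hb⟩ := lo_red v hz.le
  rw [lo_unit h2 hy ha] at hc'
  rw [lo_unit h2 hz hb] at hd'
  have h3 := lo_prod (lo_two v h2) hc' hd'
  rw [← map_mul] at h3
  have e : c * y ^ 2 * (d * z ^ 2) = c * d * (y * z) ^ 2 := by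
    rw [mul_pow]
    simp only [mul_comm, mul_left_comm, mul_assoc]
  rw [← lo_sq_iff v (c * d) (y * z), ← e]
  have h5 : v.valuation F (((c * y ^ 2) * (d * z ^ 2) : Fˣ) : F) = 1 := by
    rw [Units.val_mul, map_mul, hy, hz, mul_one]
  refine (lo_unit h2 h5 (a := a * b) ?_).2 h3
  have e2 : algebraMap (𝓞 F) F (a * b) - (((c * y ^ 2) * (d * z ^ 2) : Fˣ) : F) =
      (algebraMap (𝓞 F) F a - ((c * y ^ 2 : Fˣ) : F)) * algebraMap (𝓞 F) F b +
        ((c * y ^ 2 : Fˣ) : F) * (algebraMap (𝓞 F) F b - ((d * z ^ 2 : Fˣ) : F)) := by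
    rw [map_mul, Units.val_mul (c * y ^ 2)]
    ring
  rw [e2]
  refine Valuation.map_add_lt _ ?_ ?_
  · rw [map_mul]
    exact mul_lt_one_of_lt_of_le ha (v.valuation_le_one b)
  · rw [map_mul, hy, one_mul]
    exact hb

theorem odd_exists {v : HeightOneSpectrum (𝓞 F)} (h2 : (2 : 𝓞 F) ∉ v.asIdeal) :
    ∃ c : Fˣ, ordv v (c : F) = 0 ∧ c ∉ Sqf v := by
  have := v.isMaximal
  let _ := Ideal.Quotient.field v.asIdeal
  have := lo_fin v
  obtain ⟨t, ht⟩ := FiniteField.exists_nonsquare (lo_two v h2)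
  obtain ⟨a, rfl⟩ := Ideal.Quotient.mk_surjective t
  have ha : a ∉ v.asIdeal := by
    intro h
    rw [← Ideal.Quotient.eq_zero_iff_mem] at h
    rw [h] at ht
    exact ht IsSquare.zero
  have h1 : v.valuation F (algebraMap (𝓞 F) F a) = 1 := by
    refine le_antisymm (v.valuation_le_one a) (not_lt.1 fun h => ha ?_)
    rwa [HeightOneSpectrum.valuation_lt_one_iff_mem] at h
  have h0 : algebraMap (𝓞 F) F a ≠ 0 := by
    intro h
    rw [h, map_zero] at h1
    exact zero_ne_one h1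
  refine ⟨Units.mk0 _ h0, (lo_ord_iff v _).2 h1, fun h => ht ?_⟩
  refine (lo_unit h2 (c := Units.mk0 _ h0) h1 (a := a) ?_).1 h
  rw [Units.val_mk0, sub_self, map_zero]
  exact zero_lt_one

theorem lo_nm (a c : Fˣ) : Nm (a * c ^ 2) = Nm a := by
  ext x
  constructor
  · rintro ⟨y, z, h⟩
    refine ⟨y, c * z, ?_⟩
    rw [h, Units.val_mul, Units.val_pow_eq_pow_val]
    ring
  · rintro ⟨y, z, h⟩
    refine ⟨y, (c : F)⁻¹ * z, ?_⟩
    have hc := c.ne_zero
    rw [h, Units.val_mul, Units.val_pow_eq_pow_val]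
    field_simp

/-- unramified case: the norms have even valuation -/
theorem lo_nm_even {v : HeightOneSpectrum (𝓞 F)} (h2 : (2 : 𝓞 F) ∉ v.asIdeal) {a : Fˣ}
    (ha : v.valuation F (a : F) = 1) (hav : a ∉ Sqf v) {n : Fˣ} (hn : n ∈ Nm a) :
    Even (ordv v (n : F)) := by
  obtain ⟨x, y, h⟩ := hn
  by_cases hy : y = 0
  · rw [hy] at h
    have hx : x ≠ 0 := by
      rintro rfl
      apply n.ne_zero
      rw [h]
      ring
    have e : n = Units.mk0 x hx * Units.mk0 x hx := by
      apply Units.ext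
      rw [h, Units.val_mul, Units.val_mk0]
      ring
    rw [e, ordv_mul]
    exact ⟨_, rfl⟩
  · set Y := Units.mk0 y hy
    have hn' : ((n * (Y⁻¹) ^ 2 : Fˣ) : F) = (x * y⁻¹) ^ 2 - a := by
      rw [Units.val_mul, Units.val_pow_eq_pow_val, Units.val_inv_eq_inv_val, h]
      change (x ^ 2 - a * y ^ 2) * (y⁻¹) ^ 2 = _
      field_simp
    have key : Even (ordv v ((n * (Y⁻¹) ^ 2 : Fˣ) : F)) := by
      set t := x * y⁻¹
      rcases lt_trichotomy (v.valuation F t) 1 with ht | ht | ht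
      · have h9 : v.valuation F (t ^ 2) < v.valuation F (a : F) := by
          rw [ha, map_pow]
          exact pow_lt_one₀ zero_le ht (by norm_num)
        have h1 : v.valuation F ((n * (Y⁻¹) ^ 2 : Fˣ) : F) = 1 := by
          rw [hn', Valuation.map_sub_eq_of_lt_right _ h9, ha]
        rw [(lo_ord_iff v _).2 h1]
        exact Even.zero
      · have h1 : v.valuation F ((n * (Y⁻¹) ^ 2 : Fˣ) : F) = 1 := by
          refine le_antisymm ?_ (not_lt.1 fun hlt => hav ?_)
          · rw [hn']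
            refine Valuation.map_sub_le _ ?_ ha.le
            rw [map_pow, ht, one_pow]
          · obtain ⟨b, hb⟩ := lo_red v ht.le
            obtain ⟨α, hα⟩ := lo_red v ha.le
            rw [lo_unit h2 ha hα]
            refine ⟨Ideal.Quotient.mk v.asIdeal b, ?_⟩
            rw [← map_mul, ← lo_mem, map_mul]
            rw [hn'] at hlt
            have e : algebraMap (𝓞 F) F α - algebraMap (𝓞 F) F b * algebraMap (𝓞 F) F b =
                (algebraMap (𝓞 F) F α - a) - (t ^ 2 - a) -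
                  (algebraMap (𝓞 F) F b - t) * (algebraMap (𝓞 F) F b + t) - 2 * (a - a) := by
              ring
            rw [e, sub_self, mul_zero, sub_zero]
            refine Valuation.map_sub_lt _ (Valuation.map_sub_lt _ hα hlt) ?_
            rw [map_mul]
            exact mul_lt_one_of_lt_of_le hb (Valuation.map_add_le _ (v.valuation_le_one b) ht.le)
        rw [(lo_ord_iff v _).2 h1]
        exact Even.zero
      · have ht0 : t ≠ 0 := by
          intro h0
          rw [h0, map_zero] at ht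
          exact absurd ht (not_lt.2 zero_le)
        have h9 : v.valuation F (a : F) < v.valuation F (t ^ 2) := by
          rw [ha, map_pow]
          exact one_lt_pow₀ ht (by norm_num)
        have h1 : v.valuation F ((n * (Y⁻¹) ^ 2 : Fˣ) : F) = v.valuation F (t * t) := by
          rw [hn', Valuation.map_sub_eq_of_lt_left _ h9, sq]
        have h3 : ordv v ((n * (Y⁻¹) ^ 2 : Fˣ) : F) = ordv v ((Units.mk0 t ht0 * Units.mk0 t ht0 :
            Fˣ) : F) := by
          rw [ordv, ordv, h1]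
          rfl
        rw [h3, ordv_mul]
        exact ⟨_, rfl⟩
    have e : ordv v ((n * (Y⁻¹) ^ 2 : Fˣ) : F) = ordv v (n : F) + (ordv v ((Y⁻¹ : Fˣ) : F) +
        ordv v ((Y⁻¹ : Fˣ) : F)) := by
      rw [sq, ordv_mul, ordv_mul]
    rw [e] at key
    exact (Int.even_add.1 key).2 ⟨_, rfl⟩

theorem lo_mem_ln {v : HeightOneSpectrum (𝓞 F)} {a x : Fˣ} :
    x ∈ LN (Sum.inr v) a ↔ ∃ s ∈ Sqf v, ∃ n ∈ Nm a, s * n = x := Subgroup.mem_sup

theorem odd_inert {v : HeightOneSpectrum (𝓞 F)} (h2 : (2 : 𝓞 F) ∉ v.asIdeal) {a : Fˣ}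
    (ha : Even (ordv v (a : F))) (hav : a ∉ Sqf v) (x : Fˣ) :
    x ∈ LN (Sum.inr v) a ↔ Even (ordv v (x : F)) := by
  have := v.isMaximal
  let _ := Ideal.Quotient.field v.asIdeal
  have := lo_fin v
  obtain ⟨c, hc⟩ := lo_even v ha
  rw [← lo_sq_iff v a c] at hav
  rw [lo_mem_ln, ← lo_nm a c]
  constructor
  · rintro ⟨s, hs, n, hn, rfl⟩
    rw [ordv_mul]
    exact (sqf_even hs).add (lo_nm_even h2 hc hav hn)
  · intro hx
    obtain ⟨y, hy⟩ := lo_even v hx
    set X := x * y ^ 2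
    set A := a * c ^ 2
    obtain ⟨ξ, hξ⟩ := lo_red v hy.le
    obtain ⟨α, hα⟩ := lo_red v hc.le
    obtain ⟨s', t', hst⟩ := lo_norm (lo_two v h2) (lo_nz hc hα) (Ideal.Quotient.mk v.asIdeal ξ)
    obtain ⟨s, rfl⟩ := Ideal.Quotient.mk_surjective s'
    obtain ⟨t, rfl⟩ := Ideal.Quotient.mk_surjective t'
    rw [← map_pow, ← map_pow, ← map_mul, ← map_sub, ← lo_mem,
      (algebraMap (𝓞 F) F).map_sub (s ^ 2), (algebraMap (𝓞 F) F).map_mul,
      (algebraMap (𝓞 F) F).map_pow, (algebraMap (𝓞 F) F).map_pow] at hst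
    set S : F := algebraMap (𝓞 F) F s
    set T : F := algebraMap (𝓞 F) F t
    have h1 : v.valuation F ((X : F) - (S ^ 2 - A * T ^ 2)) < 1 := by
      have e : (X : F) - (S ^ 2 - A * T ^ 2) =
          (algebraMap (𝓞 F) F ξ - (S ^ 2 - algebraMap (𝓞 F) F α * T ^ 2)) -
            (algebraMap (𝓞 F) F ξ - X) - (algebraMap (𝓞 F) F α - A) * T ^ 2 := by ring
      rw [e]
      refine Valuation.map_sub_lt _ (Valuation.map_sub_lt _ hst hξ) ?_
      rw [map_mul]
      refine mul_lt_one_of_lt_of_le hα ?_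
      rw [map_pow]
      exact pow_le_one₀ zero_le (v.valuation_le_one t)
    have h3 : v.valuation F (S ^ 2 - A * T ^ 2) = 1 := by
      have e : S ^ 2 - A * T ^ 2 = -((X : F) - (S ^ 2 - A * T ^ 2)) + X := by ring
      rw [e, Valuation.map_add_eq_of_lt_right _ (by rw [Valuation.map_neg, hy]; exact h1), hy]
    have h0 : S ^ 2 - A * T ^ 2 ≠ 0 := by
      intro h
      rw [h, map_zero] at h3
      exact zero_ne_one h3
    set n : Fˣ := Units.mk0 _ h0
    have hn : n ∈ Nm A := ⟨S, T, rfl⟩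
    have hXn : X * n⁻¹ ∈ Sqf v := by
      refine ⟨1, ?_⟩
      rw [val_four_odd h2]
      have e : ((X * n⁻¹ : Fˣ) : F) * ((1 : Fˣ) : F) ^ 2 - 1 =
          ((X : F) - (S ^ 2 - A * T ^ 2)) * (S ^ 2 - A * T ^ 2)⁻¹ := by
        rw [Units.val_mul, Units.val_inv_eq_inv_val, Units.val_one]
        change (X : F) * (S ^ 2 - A * T ^ 2)⁻¹ * 1 ^ 2 - 1 = _
        field_simp
      rw [e, map_mul, map_inv₀, h3, inv_one, mul_one]
      exact h1
    refine ⟨x * n⁻¹, ?_, n, hn, by rw [inv_mul_cancel_right]⟩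
    rw [← lo_sq_iff v (x * n⁻¹) y]
    have e : x * n⁻¹ * y ^ 2 = X * n⁻¹ := by
      simp only [X]
      rw [mul_right_comm]
    rw [e]
    exact hXn

theorem odd_ram {v : HeightOneSpectrum (𝓞 F)} (h2 : (2 : 𝓞 F) ∉ v.asIdeal) {a : Fˣ}
    (ha : Odd (ordv v (a : F))) {x : Fˣ} (hx : ordv v (x : F) = 0) :
    x ∈ LN (Sum.inr v) a ↔ x ∈ Sqf v := by
  rw [lo_mem_ln]
  constructor
  · rintro ⟨s, hs, n, hn, rfl⟩
    refine (Sqf v).mul_mem hs ?_
    have hne : Even (ordv v (n : F)) := by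
      rw [ordv_mul] at hx
      have h1 := sqf_even hs
      have h3 : Even (ordv v (s : F) + ordv v (n : F)) := by rw [hx]; exact Even.zero
      exact (Int.even_add.1 h3).1 h1
    obtain ⟨u, w, h⟩ := hn
    have hodd : ∀ (w : Fˣ), Odd (ordv v ((a * (w * w) : Fˣ) : F)) := by
      intro w
      rw [ordv_mul, ordv_mul]
      exact ha.add_even ⟨_, rfl⟩
    by_cases hw : w = 0
    · rw [hw] at h
      have hu : u ≠ 0 := by
        rintro rfl
        apply n.ne_zero
        rw [h]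
        ring
      have e : n = (Units.mk0 u hu) ^ 2 := by
        apply Units.ext
        rw [h, Units.val_pow_eq_pow_val, Units.val_mk0]
        ring
      rw [e]
      exact lo_sq v _
    by_cases hu : u = 0
    · exfalso
      rw [hu] at h
      have h1 : v.valuation F (n : F) = v.valuation F ((a * (Units.mk0 w hw * Units.mk0 w hw) :
          Fˣ) : F) := by
        rw [h, Units.val_mul, Units.val_mul, Units.val_mk0]
        have e : (0 : F) ^ 2 - a * w ^ 2 = -(a * (w * w)) := by ring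
        rw [e, Valuation.map_neg]
      have h3 : ordv v (n : F) = ordv v ((a * (Units.mk0 w hw * Units.mk0 w hw) : Fˣ) : F) := by
        rw [ordv, ordv, h1]
      rw [h3] at hne
      exact (Int.not_even_iff_odd.2 (hodd _)) hne
    · set W := Units.mk0 w hw
      set U := Units.mk0 u hu
      have h' : (n : F) = ((U * U : Fˣ) : F) - ((a * (W * W) : Fˣ) : F) := by
        rw [h, Units.val_mul, Units.val_mul, Units.val_mul]
        change _ = u * u - a * (w * w)
        ring
      rcases lt_trichotomy (v.valuation F ((a * (W * W) : Fˣ) : F))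
        (v.valuation F ((U * U : Fˣ) : F)) with hl | hl | hl
      · refine ⟨U⁻¹, ?_⟩
        rw [val_four_odd h2]
        have hu' : v.valuation F ((U * U : Fˣ) : F) ≠ 0 := (map_ne_zero _).2 (U * U).ne_zero
        have e : (n : F) * ((U⁻¹ : Fˣ) : F) ^ 2 - 1 =
            -(((a * (W * W) : Fˣ) : F) * (((U * U : Fˣ) : F))⁻¹) := by
          rw [h', Units.val_inv_eq_inv_val]
          have hU := U.ne_zero
          rw [Units.val_mul U U]
          field_simp
          ring
        rw [e, Valuation.map_neg, map_mul, map_inv₀]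
        rw [← div_eq_mul_inv]
        exact (div_lt_one₀ (zero_lt_iff.2 hu')).2 hl
      · exfalso
        have h3 : ordv v ((a * (W * W) : Fˣ) : F) = ordv v ((U * U : Fˣ) : F) := by
          rw [ordv, ordv, hl]
        have h4 := hodd W
        rw [h3, ordv_mul] at h4
        exact (Int.not_even_iff_odd.2 h4) ⟨_, rfl⟩
      · exfalso
        have h1 : v.valuation F (n : F) = v.valuation F ((a * (W * W) : Fˣ) : F) := by
          rw [h', Valuation.map_sub_eq_of_lt_right _ hl]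
        have h3 : ordv v (n : F) = ordv v ((a * (W * W) : Fˣ) : F) := by
          rw [ordv, ordv, h1]
        rw [h3] at hne
        exact (Int.not_even_iff_odd.2 (hodd _)) hne
  · intro h
    exact ⟨x, h, 1, (Nm a).one_mem, mul_one x⟩

end Pool.Agent.QR
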