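import Pool.Agent.Lib_helper17.QR.Defs
import Pool.Agent.Lib_helper35.RG.Defs
/-!
# QR: block QF2 (helper1): existence of `F(√a)`
-/

set_option autoImplicit false

namespace Pool.Agent.QR

open Pool.Agent.RSK Pool.Agent.RG
open NumberField IsDedekindDomain

section A

variable {F : Type} [Field F] [NumberField F]
open Polynomial in
/-- existence of `F(√a)` -/
theorem qe_exists (a : Fˣ) (ha : ∀ y : Fˣ, a ≠ y ^ 2) :
    ∃ (K : Type) (_ : Field K) (_ : NumberField K) (_ : Algebra F K) (_ : IsGalois F K) (α : K),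
      QE F K a α := by
  have hirr : Irreducible (X ^ 2 - C (a : F)) := by
    refine X_pow_sub_C_irreducible_of_prime Nat.prime_two fun b hb => ?_
    have hb0 : b ≠ 0 := by
      rintro rfl
      apply a.ne_zero
      rw [← hb]
      ring
    exact ha (Units.mk0 b hb0) (Units.ext (by rw [Units.val_pow_eq_pow_val, Units.val_mk0, hb]))
  have : Fact (Irreducible (X ^ 2 - C (a : F))) := ⟨hirr⟩
  have hmonic : (X ^ 2 - C (a : F)).Monic := monic_X_pow_sub_C _ two_ne_zero
  have hfin : Module.Finite F (AdjoinRoot (X ^ 2 - C (a : F))) :=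
    (AdjoinRoot.powerBasis hirr.ne_zero).finite
  have hnf : NumberField (AdjoinRoot (X ^ 2 - C (a : F))) :=
    NumberField.of_module_finite F (AdjoinRoot (X ^ 2 - C (a : F)))
  have hrk : Module.finrank F (AdjoinRoot (X ^ 2 - C (a : F))) = 2 := by
    rw [(AdjoinRoot.powerBasis hirr.ne_zero).finrank, AdjoinRoot.powerBasis_dim, natDegree_X_pow_sub_C]
  have hq : Algebra.IsQuadraticExtension F (AdjoinRoot (X ^ 2 - C (a : F))) := ⟨hrk⟩
  have hgal : IsGalois F (AdjoinRoot (X ^ 2 - C (a : F))) := { }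
  have hsq : (AdjoinRoot.root (X ^ 2 - C (a : F))) ^ 2 =
      algebraMap F (AdjoinRoot (X ^ 2 - C (a : F))) (a : F) := by
    have h := AdjoinRoot.eval₂_root (X ^ 2 - C (a : F))
    rw [eval₂_sub, eval₂_X_pow, eval₂_C, sub_eq_zero] at h
    exact h
  refine ⟨AdjoinRoot (X ^ 2 - C (a : F)), inferInstance, hnf, inferInstance, hgal,
    AdjoinRoot.root _, ?_, hsq, fun y hy => ?_⟩
  · rw [IsGalois.card_aut_eq_finrank, hrk]
  · rw [← hy, ← map_pow] at hsq
    have h1 : y ^ 2 = (a : F) := (algebraMap F (AdjoinRoot (X ^ 2 - C (a : F)))).injective hsq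
    have hy0 : y ≠ 0 := by
      rintro rfl
      apply a.ne_zero
      rw [← h1]
      ring
    exact ha (Units.mk0 y hy0) (Units.ext (by rw [Units.val_pow_eq_pow_val, Units.val_mk0, h1]))

end A

section B

variable {F K : Type} [Field F] [NumberField F] [Field K] [NumberField K] [Algebra F K]
  [IsGalois F K] {a : Fˣ} {α : K}

/-- a quadratic extension is of the form `F(√a)` -/
theorem qe_of (h : Nat.card (K ≃ₐ[F] K) = 2) : ∃ (a : Fˣ) (α : K), QE F K a α := by
  obtain ⟨σ, hσ, huniv⟩ : ∃ σ : K ≃ₐ[F] K, σ ≠ 1 ∧ ∀ τ : K ≃ₐ[F] K, τ = 1 ∨ τ = σ := by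
    obtain ⟨x, y, hxy, hall⟩ := Nat.card_eq_two_iff.mp h
    have hmem : ∀ τ : K ≃ₐ[F] K, τ = x ∨ τ = y := by
      intro τ
      have : τ ∈ ({x, y} : Set (K ≃ₐ[F] K)) := by rw [hall]; trivial
      simpa using this
    rcases hmem 1 with h1 | h1
    · refine ⟨y, fun hy => hxy (by rw [← h1, ← hy]), fun τ => ?_⟩
      rw [h1]; exact hmem τ
    · refine ⟨x, fun hx => hxy (by rw [← h1, ← hx]), fun τ => ?_⟩
      rw [h1]; exact (hmem τ).symm
  obtain ⟨β, hβ⟩ : ∃ β : K, σ β ≠ β := by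
    by_contra hc
    push Not at hc
    exact hσ (AlgEquiv.ext hc)
  have hσσ : σ * σ = 1 := by
    rcases huniv (σ * σ) with h1 | h1
    · exact h1
    · exact absurd (mul_eq_left.mp h1) hσ
  have hσβ : σ (σ β) = β := by
    have := congrArg (fun τ : K ≃ₐ[F] K => τ β) hσσ
    simpa using this
  have hα : β - σ β ≠ 0 := sub_ne_zero.mpr (Ne.symm hβ)
  have hfix : (β - σ β) ^ 2 ∈ Set.range (algebraMap F K) := by
    rw [IsGalois.mem_range_algebraMap_iff_fixed]
    intro τ
    rcases huniv τ with rfl | rfl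
    · rfl
    · rw [map_pow, map_sub, hσβ]; ring
  obtain ⟨c, hc⟩ := hfix
  have hc0 : c ≠ 0 := by
    rintro rfl
    rw [map_zero] at hc
    exact pow_ne_zero 2 hα hc.symm
  refine ⟨Units.mk0 c hc0, β - σ β, h, by rw [Units.val_mk0, hc], fun y hy => hα ?_⟩
  have h1 : σ (β - σ β) = β - σ β := by rw [← hy, AlgEquiv.commutes]
  rw [map_sub, hσβ] at h1
  have h2 : (2 : K) * (β - σ β) = 0 := by linear_combination -h1
  exact (mul_eq_zero.mp h2).resolve_left two_ne_zero

end B

end Pool.Agent.QR
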