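import Pool.Agent.Lib_helper17.QR.Defs
import Pool.Agent.Lib_helper35.RG.Defs
import Pool.Agent.Lib_helper35.RG.P_DZ
import Pool.Agent.Lib_helper17.QRF.P_DQ
import Pool.Agent.Lib_helper17.QRF.P_LO
import Pool.Agent.Lib_helper17.QRF.P_QF2
/-!
# Block CH of the project QR: Chebotarev for multiquadratic extensions
-/

set_option autoImplicit false
set_option linter.unusedSectionVars false
set_option linter.unusedVariables false

namespace Pool.Agent.QR

open Pool.Agent.RSK Pool.Agent.RG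
open NumberField IsDedekindDomain

section ChAux

variable {F : Type} [Field F] [NumberField F]

open scoped Classical in
/-- the quadratic character of `F(√c)` -/
noncomputable def chX (c : Fˣ) (v : HeightOneSpectrum (𝓞 F)) : ℝ := if c ∈ Sqf v then 1 else -1

theorem chX_abs (c : Fˣ) (v : HeightOneSpectrum (𝓞 F)) : |chX c v| = 1 := by
  unfold chX
  split_ifs <;> simp

theorem chX_one (v : HeightOneSpectrum (𝓞 F)) : chX (1 : Fˣ) v = 1 := by
  unfold chX
  rw [if_pos (Sqf v).one_mem]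

theorem chX_mul {v : HeightOneSpectrum (𝓞 F)} (h2 : (2 : 𝓞 F) ∉ v.asIdeal) {c d : Fˣ}
    (hc : Even (ordv v (c : F))) (hd : Even (ordv v (d : F))) :
    chX (c * d) v = chX c v * chX d v := by
  unfold chX
  by_cases h1 : c ∈ Sqf v
  · by_cases h3 : d ∈ Sqf v
    · rw [if_pos h1, if_pos h3, if_pos ((Sqf v).mul_mem h1 h3)]
      norm_num
    · have h4 : c * d ∉ Sqf v := fun h => h3 (((Sqf v).mul_mem_cancel_left h1).1 h)
      rw [if_pos h1, if_neg h3, if_neg h4]
      norm_num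
  · by_cases h3 : d ∈ Sqf v
    · have h4 : c * d ∉ Sqf v := fun h => h1 (((Sqf v).mul_mem_cancel_right h3).1 h)
      rw [if_neg h1, if_pos h3, if_neg h4]
      norm_num
    · rw [if_neg h1, if_neg h3, if_pos (odd_units h2 hc hd h1 h3)]
      norm_num

theorem chX_prod {v : HeightOneSpectrum (𝓞 F)} (h2 : (2 : 𝓞 F) ∉ v.asIdeal) {k : ℕ}
    (a : Fin k → Fˣ) (ha : ∀ i, ordv v (a i : F) = 0) (I : Finset (Fin k)) :
    ordv v ((∏ i ∈ I, a i : Fˣ) : F) = 0 ∧
      chX (∏ i ∈ I, a i) v = ∏ i ∈ I, chX (a i) v := by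
  classical
  induction I using Finset.induction_on with
  | empty =>
    refine ⟨?_, ?_⟩
    · rw [Finset.prod_empty, Units.val_one, ordv_one]
    · rw [Finset.prod_empty, Finset.prod_empty, chX_one]
  | insert i I hi ih =>
    obtain ⟨h3, h4⟩ := ih
    refine ⟨?_, ?_⟩
    · rw [Finset.prod_insert hi, ordv_mul, ha i, h3, add_zero]
    · rw [Finset.prod_insert hi, Finset.prod_insert hi,
        chX_mul h2 (by rw [ha i]; exact Even.zero) (by rw [h3]; exact Even.zero), h4]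

/-- the support of an element is finite -/
theorem ch_supp (x : Fˣ) : {v : HeightOneSpectrum (𝓞 F) | ordv v (x : F) ≠ 0}.Finite := by
  refine ((HeightOneSpectrum.Support.finite (𝓞 F) (x : F)).union
    (HeightOneSpectrum.Support.finite (𝓞 F) ((x⁻¹ : Fˣ) : F))).subset ?_
  intro v hv
  by_contra hn
  rw [Set.mem_union, not_or] at hn
  apply hv
  have h1 : v.valuation F (x : F) ≤ 1 := not_lt.1 hn.1
  have h2 : v.valuation F ((x⁻¹ : Fˣ) : F) ≤ 1 := not_lt.1 hn.2
  have h3 : v.valuation F (x : F) = 1 := by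
    refine le_antisymm h1 ?_
    rw [Units.val_inv_eq_inv_val, map_inv₀] at h2
    have h0 : v.valuation F (x : F) ≠ 0 := (map_ne_zero _).2 x.ne_zero
    exact (inv_le_one₀ (zero_lt_iff.2 h0)).1 h2
  unfold ordv
  rw [h3]
  simp

/-- finitely many places above 2 -/
theorem ch_two : {v : HeightOneSpectrum (𝓞 F) | (2 : 𝓞 F) ∈ v.asIdeal}.Finite := by
  have h20 : (2 : F) ≠ 0 := by norm_num
  refine (ch_supp (Units.mk0 (2 : F) h20)).subset ?_
  intro v hv
  have h1 : v.valuation F (algebraMap (𝓞 F) F 2) < 1 :=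
    (HeightOneSpectrum.valuation_lt_one_iff_mem v 2).2 hv
  rw [map_ofNat] at h1
  show ordv v ((Units.mk0 (2 : F) h20 : Fˣ) : F) ≠ 0
  rw [Units.val_mk0]
  unfold ordv
  intro h0
  have h2 : v.valuation F (2 : F) ≠ 0 := (map_ne_zero _).2 h20
  have h3 : WithZero.log (v.valuation F (2 : F)) = 0 := by linarith
  have h4 : v.valuation F (2 : F) = 1 := by
    rw [← WithZero.exp_log h2, h3, WithZero.exp_zero]
  rw [h4] at h1
  exact lt_irrefl _ h1

theorem ch_nv_le (v : HeightOneSpectrum (𝓞 F)) {s : ℝ} (hs : 0 ≤ s) :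
    0 ≤ (nv v : ℝ) ^ (-s) ∧ (nv v : ℝ) ^ (-s) ≤ 1 := by
  have h1 : (1 : ℝ) ≤ (nv v : ℝ) := by
    have : nv v ≠ 0 := by
      unfold nv
      exact Ideal.absNorm_ne_zero_iff _ |>.2 (Ideal.finiteQuotientOfFreeOfNeBot v.asIdeal v.ne_bot)
    exact_mod_cast Nat.one_le_iff_ne_zero.2 this
  exact ⟨Real.rpow_nonneg (by linarith) _, Real.rpow_le_one_of_one_le_of_nonpos h1 (by linarith)⟩

end ChAux

section A

variable {F : Type} [Field F] [NumberField F]

theorem cheb {k : ℕ} (a : Fin k → Fˣ)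
    (hind : ∀ I : Finset (Fin k), (∃ y : Fˣ, ∏ i ∈ I, a i = y ^ 2) → I = ∅)
    (e : Fin k → Prop) (B : Finset (HeightOneSpectrum (𝓞 F))) :
    ∃ v : HeightOneSpectrum (𝓞 F), v ∉ B ∧ (2 : 𝓞 F) ∉ v.asIdeal ∧
      ∀ i, ordv v (a i : F) = 0 ∧ (a i ∈ Sqf v ↔ e i) := by
  classical
  by_contra hcon
  push Not at hcon
  -- the exceptional set
  have hfin : ({v : HeightOneSpectrum (𝓞 F) | v ∈ B} ∪
      {v : HeightOneSpectrum (𝓞 F) | (2 : 𝓞 F) ∈ v.asIdeal} ∪
      ⋃ i, {v : HeightOneSpectrum (𝓞 F) | ordv v (a i : F) ≠ 0}).Finite :=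
    ((B.finite_toSet.subset (fun v hv => hv)).union ch_two).union
      (Set.finite_iUnion fun i => ch_supp (a i))
  set B' : Finset (HeightOneSpectrum (𝓞 F)) := hfin.toFinset with hB'
  have hB1 : ∀ v, v ∉ B' → v ∉ B ∧ (2 : 𝓞 F) ∉ v.asIdeal ∧ ∀ i, ordv v (a i : F) = 0 := by
    intro v hv
    rw [hB', Set.Finite.mem_toFinset, Set.mem_union, Set.mem_union, not_or, not_or] at hv
    obtain ⟨⟨h1, h2⟩, h3⟩ := hv
    refine ⟨h1, h2, fun i => ?_⟩
    by_contra h4
    exact h3 (Set.mem_iUnion.2 ⟨i, h4⟩)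
  set t : Fin k → ℝ := fun i => if e i then 1 else -1 with ht
  have hvan : ∀ v, v ∉ B' →
      ∑ I : Finset (Fin k), (∏ i ∈ I, t i) * chX (∏ i ∈ I, a i) v = 0 := by
    intro v hv
    obtain ⟨h1, h2, h3⟩ := hB1 v hv
    have h4 : ∑ I : Finset (Fin k), (∏ i ∈ I, t i) * chX (∏ i ∈ I, a i) v =
        ∏ i : Fin k, (1 + t i * chX (a i) v) := by
      rw [Finset.prod_one_add, Finset.powerset_univ]
      refine Finset.sum_congr rfl fun I _ => ?_
      rw [(chX_prod h2 a h3 I).2, Finset.prod_mul_distrib]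
    rw [h4]
    by_contra hne
    have h5 : ∀ i, 1 + t i * chX (a i) v ≠ 0 := fun i => by
      exact Finset.prod_ne_zero_iff.1 hne i (Finset.mem_univ i)
    have h6 : ∀ i, a i ∈ Sqf v ↔ e i := by
      intro i
      have h7 := h5 i
      simp only [ht, chX] at h7
      by_cases he : e i <;> by_cases hm : a i ∈ Sqf v
      · exact ⟨fun _ => he, fun _ => hm⟩
      · rw [if_pos he, if_neg hm] at h7
        exact absurd (by norm_num) h7
      · rw [if_neg he, if_pos hm] at h7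
        exact absurd (by norm_num) h7
      · exact ⟨fun h => absurd h hm, fun h => absurd h he⟩
    obtain ⟨i, hi⟩ := hcon v h1 h2
    have h8 := hi (h3 i)
    rcases h8 with h8 | h8
    · exact h8.2 ((h6 i).1 h8.1)
    · exact h8.1 ((h6 i).2 h8.2)
  -- the bounds
  obtain ⟨C0, hC0⟩ := dens_all F
  have hCI : ∀ I : Finset (Fin k), ∃ C : ℝ, 0 ≤ C ∧ (I ≠ ∅ → ∀ s : ℝ, 1 < s → s ≤ 2 →
      |∑' v : HeightOneSpectrum (𝓞 F), chX (∏ i ∈ I, a i) v * (nv v : ℝ) ^ (-s)| ≤ C) := by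
    intro I
    by_cases hI : I = ∅
    · exact ⟨0, le_rfl, fun h => absurd hI h⟩
    · obtain ⟨K, i1, i2, i3, i4, α, hK⟩ := qe_exists (∏ i ∈ I, a i)
        (fun y hy => hI (hind I ⟨y, hy⟩))
      obtain ⟨C, hC⟩ := dens_quad hK
      exact ⟨|C|, abs_nonneg C, fun _ s h1 h2 => (hC s h1 h2).trans (le_abs_self C)⟩
  choose CI hCI0 hCI1 using hCI
  set D : ℝ := |C0| + ∑ I : Finset (Fin k), CI I + B'.card * (Fintype.card (Finset (Fin k)) : ℝ)
    with hD
  have hD0 : 0 ≤ D := by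
    have := Finset.sum_nonneg fun I (_ : I ∈ (Finset.univ : Finset (Finset (Fin k)))) => hCI0 I
    positivity
  have htI : ∀ I : Finset (Fin k), |∏ i ∈ I, t i| = 1 := by
    intro I
    rw [Finset.abs_prod]
    refine Finset.prod_eq_one fun i _ => ?_
    simp only [ht]
    split_ifs <;> simp
  have key : ∀ s : ℝ, 1 < s → s ≤ 2 → Real.log (1 / (s - 1)) ≤ D := by
    intro s hs1 hs2
    have hsum : Summable fun v : HeightOneSpectrum (𝓞 F) => (nv v : ℝ) ^ (-s) :=
      nv_summable F hs1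
    have hsI : ∀ I : Finset (Fin k), Summable fun v : HeightOneSpectrum (𝓞 F) =>
        (∏ i ∈ I, t i) * (chX (∏ i ∈ I, a i) v * (nv v : ℝ) ^ (-s)) := by
      intro I
      refine Summable.of_norm_bounded hsum fun v => ?_
      rw [Real.norm_eq_abs, abs_mul, abs_mul, htI, chX_abs, one_mul, one_mul,
        abs_of_nonneg (ch_nv_le v (by linarith)).1]
    have h1 : ∑ I : Finset (Fin k), (∏ i ∈ I, t i) *
        ∑' v : HeightOneSpectrum (𝓞 F), chX (∏ i ∈ I, a i) v * (nv v : ℝ) ^ (-s) =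
        ∑' v : HeightOneSpectrum (𝓞 F),
          (∑ I : Finset (Fin k), (∏ i ∈ I, t i) * chX (∏ i ∈ I, a i) v) * (nv v : ℝ) ^ (-s) := by
      simp_rw [← tsum_mul_left]
      rw [← Summable.tsum_finsetSum (fun I _ => hsI I)]
      refine tsum_congr fun v => ?_
      rw [Finset.sum_mul]
      refine Finset.sum_congr rfl fun I _ => ?_
      ring
    have h2 : |∑' v : HeightOneSpectrum (𝓞 F),
          (∑ I : Finset (Fin k), (∏ i ∈ I, t i) * chX (∏ i ∈ I, a i) v) * (nv v : ℝ) ^ (-s)| ≤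
        B'.card * (Fintype.card (Finset (Fin k)) : ℝ) := by
      rw [tsum_eq_sum (s := B') fun v hv => by rw [hvan v hv, zero_mul]]
      refine (Finset.abs_sum_le_sum_abs _ _).trans ?_
      rw [← nsmul_eq_mul]
      refine Finset.sum_le_card_nsmul _ _ _ fun v _ => ?_
      rw [abs_mul, abs_of_nonneg (ch_nv_le v (by linarith)).1]
      calc |∑ I : Finset (Fin k), (∏ i ∈ I, t i) * chX (∏ i ∈ I, a i) v| * (nv v : ℝ) ^ (-s)
          ≤ |∑ I : Finset (Fin k), (∏ i ∈ I, t i) * chX (∏ i ∈ I, a i) v| * 1 :=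
            mul_le_mul_of_nonneg_left (ch_nv_le v (by linarith)).2 (abs_nonneg _)
        _ ≤ ∑ I : Finset (Fin k), |(∏ i ∈ I, t i) * chX (∏ i ∈ I, a i) v| := by
            rw [mul_one]
            exact Finset.abs_sum_le_sum_abs _ _
        _ = ∑ I : Finset (Fin k), (1 : ℝ) := by
            refine Finset.sum_congr rfl fun I _ => ?_
            rw [abs_mul, htI, chX_abs, one_mul]
        _ = (Fintype.card (Finset (Fin k)) : ℝ) := by
            rw [Finset.sum_const, Finset.card_univ, nsmul_eq_mul, mul_one]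
    rw [← h1] at h2
    have h3 : ∑ I : Finset (Fin k), (∏ i ∈ I, t i) *
        ∑' v : HeightOneSpectrum (𝓞 F), chX (∏ i ∈ I, a i) v * (nv v : ℝ) ^ (-s) =
        ∑' v : HeightOneSpectrum (𝓞 F), (nv v : ℝ) ^ (-s) +
        ∑ I ∈ (Finset.univ : Finset (Finset (Fin k))).erase ∅, (∏ i ∈ I, t i) *
        ∑' v : HeightOneSpectrum (𝓞 F), chX (∏ i ∈ I, a i) v * (nv v : ℝ) ^ (-s) := by
      rw [← Finset.add_sum_erase _ _ (Finset.mem_univ (∅ : Finset (Fin k)))]
      congr 1
      rw [Finset.prod_empty, one_mul]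
      refine tsum_congr fun v => ?_
      rw [Finset.prod_empty, chX_one, one_mul]
    have h4 : |∑ I ∈ (Finset.univ : Finset (Finset (Fin k))).erase ∅, (∏ i ∈ I, t i) *
        ∑' v : HeightOneSpectrum (𝓞 F), chX (∏ i ∈ I, a i) v * (nv v : ℝ) ^ (-s)| ≤
        ∑ I : Finset (Fin k), CI I := by
      refine (Finset.abs_sum_le_sum_abs _ _).trans ?_
      calc ∑ I ∈ (Finset.univ : Finset (Finset (Fin k))).erase ∅, |(∏ i ∈ I, t i) *
            ∑' v : HeightOneSpectrum (𝓞 F), chX (∏ i ∈ I, a i) v * (nv v : ℝ) ^ (-s)|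
          ≤ ∑ I ∈ (Finset.univ : Finset (Finset (Fin k))).erase ∅, CI I := by
            refine Finset.sum_le_sum fun I hI => ?_
            rw [abs_mul, htI, one_mul]
            exact hCI1 I (Finset.ne_of_mem_erase hI) s hs1 hs2
        _ ≤ ∑ I : Finset (Fin k), CI I :=
            Finset.sum_le_sum_of_subset_of_nonneg (Finset.erase_subset _ _)
              fun I _ _ => hCI0 I
    have h5 := hC0 s hs1 hs2
    rw [h3] at h2
    have h6 := abs_le.1 h2
    have h7 := abs_le.1 h4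
    have h8 := abs_le.1 h5
    have h9 := le_abs_self C0
    rw [hD]
    linarith [h6.2, h7.1, h8.1]
  have h10 := key (1 + Real.exp (-(D + 1))) (by linarith [Real.exp_pos (-(D + 1))])
    (by
      have : Real.exp (-(D + 1)) ≤ 1 := Real.exp_le_one_iff.2 (by linarith)
      linarith)
  rw [add_sub_cancel_left, one_div, Real.log_inv, Real.log_exp] at h10
  linarith

end A



end Pool.Agent.QR
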