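import Pool.Agent.Lib_helper17.QR.Defs
import Pool.Agent.Lib_helper35.RG.Defs
import Pool.Agent.Lib_helper35.RG.P_LAT
import Pool.Agent.Lib_helper35.RG.P_QI
/-! QR, block HG: the Herbrand quotient of a finitely generated abelian group -/

set_option autoImplicit false
set_option linter.unusedSectionVars false
set_option linter.unusedVariables false

namespace Pool.Agent.QR

open Pool.Agent.RSK Pool.Agent.RG
open NumberField IsDedekindDomain

/-! ## Restrictions -/

section Res

variable {M : Type} [AddCommGroup M]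

/-- the restriction of an endomorphism to an invariant subgroup -/
def hg_res (τ : M →+ M) (V : AddSubgroup M) (h : ∀ x ∈ V, τ x ∈ V) : V →+ V where
  toFun x := ⟨τ (x : M), h (x : M) x.2⟩
  map_zero' := Subtype.ext (map_zero τ)
  map_add' x y := Subtype.ext (map_add τ (x : M) (y : M))

theorem hg_res_apply (τ : M →+ M) (V : AddSubgroup M) (h : ∀ x ∈ V, τ x ∈ V) (x : V) :
    ((hg_res τ V h x : V) : M) = τ x := rfl

theorem hg_res_iter (τ : M →+ M) (V : AddSubgroup M) (h : ∀ x ∈ V, τ x ∈ V) (i : ℕ) (x : V) :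
    (((hg_res τ V h)^[i] x : V) : M) = τ^[i] (x : M) := by
  induction i with
  | zero => rfl
  | succ i ih => rw [Function.iterate_succ_apply', Function.iterate_succ_apply', hg_res_apply, ih]

theorem hg_res_trc (τ : M →+ M) (V : AddSubgroup M) (h : ∀ x ∈ V, τ x ∈ V) (p : ℕ) (x : V) :
    ((trc p (hg_res τ V h) x : V) : M) = trc p τ (x : M) := by
  rw [trc_apply, trc_apply, AddSubgroup.val_finsetSum]
  exact Finset.sum_congr rfl fun i _ => hg_res_iter τ V h i x

theorem hg_res_dlt (τ : M →+ M) (V : AddSubgroup M) (h : ∀ x ∈ V, τ x ∈ V) (x : V) :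
    ((dlt (hg_res τ V h) x : V) : M) = dlt τ (x : M) := rfl

/-- indices of images in kernels, for a subgroup -/
theorem hg_tr (f g : M →+ M) (V : AddSubgroup M) (f' g' : V →+ V)
    (hf : ∀ x : V, ((f' x : V) : M) = f x) (hg : ∀ x : V, ((g' x : V) : M) = g x) :
    (V.map f).relIndex (g.ker ⊓ V) = f'.range.relIndex g'.ker := by
  rw [← AddSubgroup.relIndex_map_map_of_injective f'.range g'.ker
    (f := V.subtype) Subtype.val_injective]
  have h1 : f'.range.map V.subtype = V.map f := by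
    ext x
    constructor
    · rintro ⟨_, ⟨y, rfl⟩, rfl⟩
      exact ⟨y, y.2, (hf y).symm⟩
    · rintro ⟨y, hy, rfl⟩
      exact ⟨f' ⟨y, hy⟩, ⟨⟨y, hy⟩, rfl⟩, hf ⟨y, hy⟩⟩
  have h2 : g'.ker.map V.subtype = g.ker ⊓ V := by
    ext x
    constructor
    · rintro ⟨y, hy, rfl⟩
      refine ⟨?_, y.2⟩
      show g (y : M) = 0
      rw [← hg y, (AddMonoidHom.mem_ker.1 hy)]
      rfl
    · rintro ⟨hx, hx'⟩
      refine ⟨⟨x, hx'⟩, ?_, rfl⟩
      refine AddMonoidHom.mem_ker.2 (Subtype.ext ?_)
      rw [hg]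
      exact hx
  rw [h1, h2]

end Res

/-! ## Ranks -/

section Rk

/-- the rank does not decrease under a map with torsion kernel -/
theorem hg_rk {A B : Type} [AddCommGroup A] [AddCommGroup B] [Module.Finite ℤ A]
    [Module.Finite ℤ B] (f : A →+ B) (hf : ∀ x, f x = 0 → ∃ k : ℕ, k ≠ 0 ∧ k • x = 0) :
    Module.finrank ℤ A ≤ Module.finrank ℤ B := by
  set F := f.toIntLinearMap with hF
  have h1 := F.ker.finrank_quotient_add_finrank
  have h2 : Module.finrank ℤ F.ker = 0 := by
    rw [Module.finrank_eq_zero_iff_isTorsion]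
    intro x
    obtain ⟨k, hk0, hk⟩ := hf x.1 (by
      have := x.2
      rw [LinearMap.mem_ker] at this
      exact this)
    refine ⟨⟨(k : ℤ), mem_nonZeroDivisors_of_ne_zero (by exact_mod_cast hk0)⟩, ?_⟩
    refine Subtype.ext ?_
    show (k : ℤ) • (x : A) = 0
    rw [natCast_zsmul, hk]
  have h3 : Module.finrank ℤ (A ⧸ F.ker) = Module.finrank ℤ F.range :=
    F.quotKerEquivRange.finrank_eq
  have h4 : Module.finrank ℤ F.range ≤ Module.finrank ℤ B := Submodule.finrank_le _
  omega

theorem hg_rn {A : Type} [AddCommGroup A] [Module.Finite ℤ A] (f : A →+ A) :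
    Module.finrank ℤ f.range + Module.finrank ℤ f.ker = Module.finrank ℤ A := by
  have h1 := f.toIntLinearMap.ker.finrank_quotient_add_finrank
  have h3 : Module.finrank ℤ (A ⧸ f.toIntLinearMap.ker) =
      Module.finrank ℤ f.toIntLinearMap.range :=
    f.toIntLinearMap.quotKerEquivRange.finrank_eq
  rw [h3] at h1
  exact h1

end Rk

/-! ## The Herbrand quotient of a finitely generated group -/

section Her

variable {U : Type} [AddCommGroup U]

theorem hg_dt {p : ℕ} (τ : U →+ U) (hτ : ∀ x, τ^[p] x = x) (x : U) :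
    dlt τ (trc p τ x) = 0 ∧ trc p τ (dlt τ x) = 0 := by
  have h1 : ∀ x, τ (trc p τ x) = trc p τ x := by
    intro x
    rw [trc_apply, map_sum]
    have h2 : ∀ i, τ (τ^[i] x) = τ^[i + 1] x := fun i =>
      (Function.iterate_succ_apply' τ i x).symm
    simp only [h2]
    have h3 := Finset.sum_range_succ (fun i => τ^[i] x) p
    rw [Finset.sum_range_succ' (fun i => τ^[i] x) p] at h3
    simp only [Function.iterate_zero, id, hτ] at h3
    exact add_right_cancel h3
  have h4 : ∀ i (x : U), τ^[i] (τ x) = τ (τ^[i] x) := fun i x => by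
    rw [← Function.iterate_succ_apply, Function.iterate_succ_apply']
  constructor
  · rw [dlt_apply, h1, sub_self]
  · rw [dlt_apply, map_sub, sub_eq_zero]
    have h5 : trc p τ (τ x) = τ (trc p τ x) := by
      rw [trc_apply, trc_apply, map_sum]
      exact Finset.sum_congr rfl fun i _ => h4 i x
    rw [h5, h1]

theorem hg_fix {p : ℕ} (τ : U →+ U) (x : U) (hx : dlt τ x = 0) : trc p τ x = p • x := by
  rw [dlt_apply, sub_eq_zero] at hx
  have h1 : ∀ i : ℕ, τ^[i] x = x := by
    intro i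
    induction i with
    | zero => rfl
    | succ i ih => rw [Function.iterate_succ_apply', ih, hx]
  rw [trc_apply]
  simp only [h1, Finset.sum_const, Finset.card_range]

/-- the torsion is killed by a number -/
theorem hg_tors [Module.Finite ℤ U] :
    ∃ n : ℕ, n ≠ 0 ∧ ∀ x : U, (∃ k : ℕ, k ≠ 0 ∧ k • x = 0) → n • x = 0 := by
  have hfin : Finite (Submodule.torsion ℤ U) :=
    Module.finite_of_fg_torsion _ (Submodule.torsion_isTorsion)
  refine ⟨Nat.card (Submodule.torsion ℤ U), Nat.card_pos.ne', fun x ⟨k, hk0, hk⟩ => ?_⟩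
  have hx : x ∈ Submodule.torsion ℤ U := by
    rw [Submodule.mem_torsion_iff]
    refine ⟨⟨(k : ℤ), mem_nonZeroDivisors_of_ne_zero (by exact_mod_cast hk0)⟩, ?_⟩
    show (k : ℤ) • x = 0
    rw [natCast_zsmul, hk]
  have := card_nsmul_eq_zero' (G := Submodule.torsion ℤ U) (x := ⟨x, hx⟩)
  exact congrArg Subtype.val this

/-- the rank of the kernel of a restriction to `n M` -/
theorem hg_ker [Module.Finite ℤ U] {n : ℕ} (hn0 : n ≠ 0) (f : U →+ U)
    (f' : (nsmulAddMonoidHom (α := U) n).range →+ (nsmulAddMonoidHom (α := U) n).range)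
    (hf : ∀ x, ((f' x : (nsmulAddMonoidHom (α := U) n).range) : U) = f (x : U)) :
    Module.finrank ℤ f'.ker = Module.finrank ℤ f.ker := by
  have hFinM : Module.Finite ℤ (nsmulAddMonoidHom (α := U) n).range := by
    have : Module.Finite ℤ (AddSubgroup.toIntSubmodule (nsmulAddMonoidHom (α := U) n).range) :=
      inferInstance
    exact this
  have fk : Module.Finite ℤ f.ker := by
    have : Module.Finite ℤ (AddSubgroup.toIntSubmodule f.ker) := inferInstance
    exact this
  have fk' : Module.Finite ℤ f'.ker := by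
    have : Module.Finite ℤ (AddSubgroup.toIntSubmodule f'.ker) := inferInstance
    exact this
  refine le_antisymm ?_ ?_
  · refine hg_rk (AddMonoidHom.codRestrict
      ((nsmulAddMonoidHom (α := U) n).range.subtype.comp f'.ker.subtype) f.ker
      fun x => ?_) fun x hx => ⟨1, one_ne_zero, ?_⟩
    · rw [AddMonoidHom.mem_ker]
      show f (((x : f'.ker) : (nsmulAddMonoidHom (α := U) n).range) : U) = 0
      rw [← hf]
      exact congrArg Subtype.val (AddMonoidHom.mem_ker.1 x.2)
    · rw [one_smul]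
      have h5 : (((x : f'.ker) : (nsmulAddMonoidHom (α := U) n).range) : U) = 0 :=
        congrArg Subtype.val hx
      exact Subtype.ext (Subtype.ext h5)
  · refine hg_rk (AddMonoidHom.codRestrict
      ((nsmulAddMonoidHom (α := U) n).rangeRestrict.comp f.ker.subtype)
      f'.ker fun x => ?_) fun x hx => ⟨n, hn0, ?_⟩
    · rw [AddMonoidHom.mem_ker]
      refine Subtype.ext ?_
      have hx := AddMonoidHom.mem_ker.1 x.2
      rw [hf]
      show f (n • (x : U)) = 0
      rw [map_nsmul, hx, smul_zero]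
    · have h5 : ((nsmulAddMonoidHom (α := U) n).rangeRestrict ((x : f.ker) : U)) = 0 :=
        congrArg Subtype.val hx
      have h6 : n • ((x : f.ker) : U) = 0 := congrArg Subtype.val h5
      exact Subtype.ext h6

theorem hb_gen {M : Type} [AddCommGroup M] [Module.Finite ℤ M] (τ : M →+ M)
    (hτ : ∀ x, τ (τ x) = x) :
    (dlt τ).range.relIndex (trc 2 τ).ker ≠ 0 ∧ (trc 2 τ).range.relIndex (dlt τ).ker ≠ 0 ∧
    (dlt τ).range.relIndex (trc 2 τ).ker * 2 ^ Module.finrank ℤ (dlt τ).ker.toIntSubmodule =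
      2 ^ Module.finrank ℤ (trc 2 τ).ker.toIntSubmodule *
        (trc 2 τ).range.relIndex (dlt τ).ker := by
  classical
  have hτ2 : ∀ x, τ^[2] x = x := fun x => hτ x
  obtain ⟨n, hn0, hn⟩ := hg_tors (U := M)
  set m : M →+ M := nsmulAddMonoidHom n with hm
  have hma : ∀ x, m x = n • x := fun x => rfl
  set M' : AddSubgroup M := m.range with hM'
  have hτn : ∀ x, τ (n • x) = n • τ x := fun x => map_nsmul τ n x
  have hres : ∀ x ∈ M', τ x ∈ M' := by
    rintro _ ⟨x, rfl⟩
    exact ⟨τ x, (hτn x).symm⟩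
  have htf : ∀ x ∈ M', ∀ k : ℕ, k ≠ 0 → k • x = 0 → x = 0 := by
    rintro _ ⟨x, rfl⟩ k hk0 hk
    rw [hma] at hk ⊢
    exact hn x ⟨k * n, mul_ne_zero hk0 hn0, by rw [mul_smul, hk]⟩
  have hFinM : Module.Finite ℤ M' := by
    have : Module.Finite ℤ (AddSubgroup.toIntSubmodule M') := inferInstance
    exact this
  have hTF : Module.IsTorsionFree ℤ M' := by
    refine Module.IsTorsionFree.mk fun r hr x y hxy => ?_
    have h0 : r • (x - y) = 0 := by rw [smul_sub, sub_eq_zero]; exact hxy
    have hr0 : r ≠ 0 := hr.ne_zero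
    have h3 : r.natAbs • (x - y) = 0 := by
      rcases Int.natAbs_eq r with h | h
      · rw [h, natCast_zsmul] at h0; exact h0
      · rw [h, neg_smul, neg_eq_zero, natCast_zsmul] at h0; exact h0
    have h4 := htf _ (x - y).2 r.natAbs (Int.natAbs_ne_zero.2 hr0) (congrArg Subtype.val h3)
    exact sub_eq_zero.1 (Subtype.ext h4)
  set τ' := hg_res τ M' hres with hτ'
  have hτ'p : ∀ x, τ'^[2] x = x := fun x => Subtype.ext (by rw [hτ', hg_res_iter, hτ2])
  have hf' : ∀ x : M', ((dlt τ' x : M') : M) = dlt τ (x : M) := fun x => rfl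
  have hg' : ∀ x : M', ((trc 2 τ' x : M') : M) = trc 2 τ (x : M) := fun x =>
    hg_res_trc τ M' hres 2 x
  have r1 : Module.finrank ℤ (dlt τ').ker = Module.finrank ℤ (dlt τ).ker :=
    hg_ker hn0 (dlt τ) (dlt τ') hf'
  have r2 : Module.finrank ℤ (trc 2 τ').ker = Module.finrank ℤ (trc 2 τ).ker :=
    hg_ker hn0 (trc 2 τ) (trc 2 τ') hg'
  obtain ⟨q1, q2, q3⟩ := q_lat Nat.prime_two τ' hτ'p (a := Module.finrank ℤ (dlt τ).ker)
    (b := Module.finrank ℤ (trc 2 τ).ker) r1 (by
      rw [show (2 - 1 : ℕ) = 1 from rfl, mul_one]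
      exact r2)
  have e1 := hg_tr (dlt τ) (trc 2 τ) M' (dlt τ') (trc 2 τ') hf' hg'
  have e2 := hg_tr (trc 2 τ) (dlt τ) M' (trc 2 τ') (dlt τ') hg' hf'
  have hidx : M'.index ≠ 0 := by
    have hfin : Finite (M ⧸ AddSubgroup.toIntSubmodule M') := by
      refine Module.finite_of_fg_torsion _ fun x => ?_
      obtain ⟨y, rfl⟩ := Submodule.Quotient.mk_surjective _ x
      refine ⟨⟨(n : ℤ), mem_nonZeroDivisors_of_ne_zero (by exact_mod_cast hn0)⟩, ?_⟩
      rw [Submonoid.mk_smul, ← Submodule.Quotient.mk_smul, Submodule.Quotient.mk_eq_zero,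
        natCast_zsmul]
      exact ⟨y, rfl⟩
    have hfin' : Finite (M ⧸ M') := hfin
    exact AddSubgroup.index_ne_zero_of_finite
  obtain ⟨i1, i2, i3⟩ := q_index (dlt τ) (trc 2 τ) (fun x => (hg_dt τ hτ2 x).1)
    (fun x => (hg_dt τ hτ2 x).2) M'
    (fun x hx => M'.sub_mem (hres x hx) hx)
    (fun x hx => by
      have := (trc 2 τ' ⟨x, hx⟩).2
      rwa [hg'] at this) hidx (by rw [e1]; exact q1) (by rw [e2]; exact q2)
  refine ⟨i1, i2, ?_⟩
  rw [e1, e2] at i3
  refine Nat.eq_of_mul_eq_mul_right (Nat.pos_of_ne_zero q2) ?_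
  have k1 : (dlt τ).range.relIndex (trc 2 τ).ker *
      2 ^ Module.finrank ℤ (dlt τ).ker.toIntSubmodule *
      (trc 2 τ').range.relIndex (dlt τ').ker =
      ((dlt τ).range.relIndex (trc 2 τ).ker * (trc 2 τ').range.relIndex (dlt τ').ker) *
      2 ^ Module.finrank ℤ (dlt τ).ker.toIntSubmodule := by ring
  rw [k1, i3]
  have k2 : (trc 2 τ).range.relIndex (dlt τ).ker * (dlt τ').range.relIndex (trc 2 τ').ker *
      2 ^ Module.finrank ℤ (dlt τ).ker.toIntSubmodule =
      (trc 2 τ).range.relIndex (dlt τ).ker * ((dlt τ').range.relIndex (trc 2 τ').ker *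
      2 ^ Module.finrank ℤ (dlt τ).ker) := by
    rw [mul_assoc]
    rfl
  rw [k2, q3]
  show _ = 2 ^ Module.finrank ℤ (trc 2 τ).ker * _ * _
  ring

theorem hb_rank {M : Type} [AddCommGroup M] [Module.Finite ℤ M] (τ : M →+ M)
    (hτ : ∀ x, τ (τ x) = x) :
    Module.finrank ℤ (dlt τ).ker.toIntSubmodule + Module.finrank ℤ (trc 2 τ).ker.toIntSubmodule =
      Module.finrank ℤ M := by
  have hτ2 : ∀ x, τ^[2] x = x := fun x => hτ x
  have fk : Module.Finite ℤ (dlt τ).ker := by
    have : Module.Finite ℤ (AddSubgroup.toIntSubmodule (dlt τ).ker) := inferInstance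
    exact this
  have fr : Module.Finite ℤ (trc 2 τ).range := by
    have : Module.Finite ℤ (AddSubgroup.toIntSubmodule (trc 2 τ).range) := inferInstance
    exact this
  have r3 : Module.finrank ℤ (trc 2 τ).range = Module.finrank ℤ (dlt τ).ker := by
    refine le_antisymm ?_ ?_
    · refine hg_rk (AddSubgroup.inclusion ?_) fun x hx => ⟨1, one_ne_zero, ?_⟩
      · rintro _ ⟨x, rfl⟩
        exact AddMonoidHom.mem_ker.2 (hg_dt τ hτ2 x).1
      · rw [one_smul]
        have h5 : ((x : (trc 2 τ).range) : M) = 0 := congrArg Subtype.val hx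
        exact Subtype.ext h5
    · refine hg_rk ((trc 2 τ).rangeRestrict.comp (dlt τ).ker.subtype) fun x hx =>
        ⟨2, two_ne_zero, ?_⟩
      have h3 : trc 2 τ (x : M) = 0 := congrArg Subtype.val hx
      rw [hg_fix τ x (AddMonoidHom.mem_ker.1 x.2)] at h3
      exact Subtype.ext h3
  have h4 := hg_rn (trc 2 τ)
  rw [r3] at h4
  exact h4

theorem fg_two {M : Type} [CommGroup M] [Module.Finite ℤ (Additive M)] :
    (powMonoidHom 2 : M →* M).range.index =
      2 ^ Module.finrank ℤ (Additive M) * Nat.card {x : M // x ^ 2 = 1} := by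
  set τ : Additive M →+ Additive M := AddMonoidHom.id _ with hτ
  obtain ⟨h1, h2, h3⟩ := hb_gen τ (fun x => rfl)
  have hd : ∀ x, dlt τ x = 0 := fun x => by
    rw [dlt_apply, hτ, AddMonoidHom.id_apply, sub_self]
  have ht : ∀ x, trc 2 τ x = 2 • x := fun x => hg_fix τ x (hd x)
  have hdk : (dlt τ).ker = ⊤ := by
    ext x
    simp [AddMonoidHom.mem_ker, hd]
  have hdr : (dlt τ).range = ⊥ := by
    ext x
    constructor
    · rintro ⟨y, rfl⟩
      rw [hd]
      exact AddSubgroup.zero_mem _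
    · intro hx
      rw [AddSubgroup.mem_bot] at hx
      exact ⟨0, by rw [map_zero, hx]⟩
  have hk0 : Module.finrank ℤ (trc 2 τ).ker.toIntSubmodule = 0 := by
    rw [Module.finrank_eq_zero_iff_isTorsion]
    intro x
    refine ⟨⟨(2 : ℤ), mem_nonZeroDivisors_of_ne_zero (by norm_num)⟩, ?_⟩
    refine Subtype.ext ?_
    show (2 : ℤ) • (x : Additive M) = 0
    have hx : trc 2 τ (x : Additive M) = 0 := x.2
    rw [ht] at hx
    rw [← hx]
    exact natCast_zsmul (x : Additive M) 2
  have hk1 : Module.finrank ℤ (dlt τ).ker.toIntSubmodule = Module.finrank ℤ (Additive M) := by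
    rw [hdk]
    exact finrank_top ℤ (Additive M)
  rw [hk0, hk1, hdr, hdk, AddSubgroup.relIndex_bot_left, AddSubgroup.relIndex_top_right, pow_zero,
    one_mul] at h3
  have h4 : Nat.card (trc 2 τ).ker = Nat.card {x : M // x ^ 2 = 1} := by
    refine Nat.card_congr ⟨fun x => ⟨Additive.toMul x.1, ?_⟩, fun x => ⟨Additive.ofMul x.1, ?_⟩,
      fun x => rfl, fun x => rfl⟩
    · have hx : trc 2 τ (x : Additive M) = 0 := x.2
      rw [ht] at hx
      exact hx
    · rw [AddMonoidHom.mem_ker, ht]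
      exact x.2
  have h5 : (trc 2 τ).range.index = (powMonoidHom 2 : M →* M).range.index := by
    have e : (trc 2 τ).range = Subgroup.toAddSubgroup (powMonoidHom 2 : M →* M).range := by
      ext x
      constructor
      · rintro ⟨y, rfl⟩
        rw [ht]
        exact ⟨Additive.toMul y, rfl⟩
      · rintro ⟨y, hy⟩
        refine ⟨Additive.ofMul y, ?_⟩
        rw [ht]
        exact hy
    rw [e]
    rfl
  rw [← h5, ← h3, h4, mul_comm]

end Her

end Pool.Agent.QR
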