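import Pool.Agent.Lib_helper17.QR.Defs
import Pool.Agent.Lib_helper35.RG.Defs
import Pool.Agent.Lib_helper17.RS.P_XD
/-!
# QR, block US: the `V`-unit theorem
-/

set_option autoImplicit false
set_option linter.unusedSectionVars false
set_option linter.unusedVariables false

namespace Pool.Agent.QR

open Pool.Agent.RSK Pool.Agent.RG
open NumberField IsDedekindDomain

section Units

variable {F : Type} [Field F] [NumberField F]

theorem us_eq_un (V : Finset (HeightOneSpectrum (𝓞 F))) : Us V = Un V ∅ := by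
  ext x
  constructor
  · intro h
    refine ⟨fun v hv => (xd_ordv_zero v x.ne_zero).1 (h v hv), fun v hv => ?_⟩
    exact absurd hv (Finset.notMem_empty v)
  · intro h v hv
    exact (xd_ordv_zero v x.ne_zero).2 (h.1 v hv)

theorem us_fin0 : Module.Finite ℤ (Additive (Un (∅ : Finset (HeightOneSpectrum (𝓞 F))) ∅)) :=
  Module.Finite.equiv (xd_e (k := F) ∅).symm

theorem us_rank0 :
    Module.finrank ℤ (Additive (Un (∅ : Finset (HeightOneSpectrum (𝓞 F))) ∅)) =
      NumberField.Units.rank F := by
  rw [(xd_e (k := F) ∅).finrank_eq, xd_finrank, NumberField.Units.finrank_eq]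
  intro x
  obtain ⟨n, hn, _, hx⟩ := Subgroup.exists_pow_mem_of_index_ne_zero (xd_hA_ne (k := F) ∅).2
    (Additive.toMul x)
  exact ⟨n, hn, hx⟩

/-- the kernel of the valuations at `V` -/
noncomputable def us_kerEquiv (V : Finset (HeightOneSpectrum (𝓞 F))) :
    Additive (Un (∅ : Finset (HeightOneSpectrum (𝓞 F))) ∅) ≃ₗ[ℤ] LinearMap.ker (xd_phi V ∅) :=
  (LinearEquiv.ofInjective (xd_f V ∅) (xd_f_inj V ∅)).trans
    (LinearEquiv.ofEq _ _ (by
      ext x
      rw [LinearMap.mem_range, LinearMap.mem_ker]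
      exact (xd_ker V ∅ x).symm))

theorem us_finite_un (V : Finset (HeightOneSpectrum (𝓞 F))) :
    Module.Finite ℤ (Additive (Un V ∅)) := by
  have h1 := us_fin0 (F := F)
  have h2 : Module.Finite ℤ (LinearMap.ker (xd_phi V ∅)) := Module.Finite.equiv (us_kerEquiv V)
  have h3 : Module.Finite ℤ (Additive (Un V ∅) ⧸ LinearMap.ker (xd_phi V ∅)) :=
    Module.Finite.equiv (xd_phi V ∅).quotKerEquivRange.symm
  exact Module.Finite.of_submodule_quotient (LinearMap.ker (xd_phi V ∅))

theorem us_finite (V : Finset (HeightOneSpectrum (𝓞 F))) :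
    Module.Finite ℤ (Additive (Us V)) := by
  rw [us_eq_un V]
  exact us_finite_un V

theorem us_rank_un (V : Finset (HeightOneSpectrum (𝓞 F))) :
    Module.finrank ℤ (Additive (Un V ∅)) = NumberField.Units.rank F + V.card := by
  have hfin := us_finite_un V
  have h1 := (LinearMap.ker (xd_phi V ∅)).finrank_quotient_add_finrank
  have h2 : Module.finrank ℤ (LinearMap.ker (xd_phi V ∅)) = NumberField.Units.rank F := by
    rw [← (us_kerEquiv V).finrank_eq, us_rank0]
  have h3 : Module.finrank ℤ (Additive (Un V ∅) ⧸ LinearMap.ker (xd_phi V ∅)) = V.card := by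
    rw [(xd_phi V ∅).quotKerEquivRange.finrank_eq]
    have hidx := xd_index (S := V) (T := ∅) (Finset.disjoint_empty_right V)
    have hidx0 : (xd_phi V ∅).range.toAddSubgroup.index ≠ 0 := by
      intro h
      rw [h, mul_zero] at hidx
      exact (xd_hA_ne (k := F) ∅).1 hidx.symm
    rw [xd_finrank, Module.finrank_fintype_fun_eq_card, Fintype.card_coe]
    intro x
    obtain ⟨n, hn, _, hx⟩ := AddSubgroup.exists_nsmul_mem_of_index_ne_zero hidx0 x
    exact ⟨n, hn, hx⟩
  omega

theorem us_rank (V : Finset (HeightOneSpectrum (𝓞 F))) :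
    Module.finrank ℤ (Additive (Us V)) + 1 = Fintype.card (PS V) := by
  rw [us_eq_un V, us_rank_un V]
  have h1 : 0 < Fintype.card (InfinitePlace F) := Fintype.card_pos
  rw [Fintype.card_sum, Fintype.card_coe]
  unfold NumberField.Units.rank
  omega




end Units

end Pool.Agent.QR
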