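import Pool.Agent.Lib_helper17.QR.Defs
import Pool.Agent.Lib_helper35.RG.Defs
import Pool.Agent.Lib_helper17.QRF.P_HG
import Pool.Agent.Lib_helper17.QRF.P_US
/-!
# QR: block UB (helper1): the `V`-units modulo squares
-/

set_option autoImplicit false
set_option linter.unusedSectionVars false
set_option linter.unusedVariables false

namespace Pool.Agent.QR

open Pool.Agent.RSK Pool.Agent.RG
open NumberField IsDedekindDomain

section Units

variable {F : Type} [Field F] [NumberField F]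

theorem ub_sq_us (V : Finset (HeightOneSpectrum (𝓞 F))) {y : Fˣ} (hy : y ^ 2 ∈ Us V) : y ∈ Us V := by
  intro v hv
  have h1 := hy v hv
  rw [pow_two] at h1
  have h2 : ordv v ((y * y : Fˣ) : F) = ordv v (y : F) + ordv v (y : F) := ordv_mul v y y
  rw [h2] at h1
  omega

theorem ub_neg_one (V : Finset (HeightOneSpectrum (𝓞 F))) : (-1 : Fˣ) ∈ Us V := by
  refine ub_sq_us V ?_
  rw [neg_one_sq]
  exact one_mem _

/-- Block UB: `#(Us V / squares) = 2^#V` (`fg_two`; `x² = 1` has the solutions `± 1`). -/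
theorem us_sq_index (V : Finset (HeightOneSpectrum (𝓞 F))) :
    ((powMonoidHom 2 : Fˣ →* Fˣ).range).relIndex (Us V) = 2 ^ Fintype.card (PS V) := by
  have hfin := us_finite V
  have hrk := us_rank V
  have h1 : ((powMonoidHom 2 : Fˣ →* Fˣ).range).subgroupOf (Us V) =
      (powMonoidHom 2 : Us V →* Us V).range := by
    ext x
    rw [Subgroup.mem_subgroupOf]
    constructor
    · rintro ⟨y, hy⟩
      have hy' : y ^ 2 = (x : Fˣ) := hy
      have hyU : y ∈ Us V := ub_sq_us V (by rw [hy']; exact x.2)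
      exact ⟨⟨y, hyU⟩, Subtype.ext hy'⟩
    · rintro ⟨y, hy⟩
      have hy' : y ^ 2 = x := hy
      exact ⟨(y : Fˣ), by rw [← hy']; rfl⟩
  have h2 : Nat.card {x : Us V // x ^ 2 = 1} = 2 := by
    rw [Nat.card_eq_two_iff]
    refine ⟨⟨1, one_pow 2⟩, ⟨⟨-1, ub_neg_one V⟩, Subtype.ext (neg_one_sq)⟩, ?_, ?_⟩
    · intro h
      have h3 := congrArg (fun z : {x : Us V // x ^ 2 = 1} => (((z : Us V) : Fˣ) : F)) h
      simp only [Subgroup.coe_one, Units.val_one, Units.val_neg] at h3
      have h4 : (2 : F) = 0 := by linear_combination h3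
      exact two_ne_zero h4
    · ext z
      simp only [Set.mem_insert_iff, Set.mem_singleton_iff, Set.mem_univ, iff_true]
      have h3 : (((z : Us V) : Fˣ) : F) ^ 2 = 1 := by
        have := congrArg (fun u : Us V => ((u : Fˣ) : F)) z.2
        simpa using this
      rcases mul_self_eq_one_iff.mp ((pow_two _).symm.trans h3) with h4 | h4
      · left
        exact Subtype.ext (Subtype.ext (Units.ext h4))
      · right
        refine Subtype.ext (Subtype.ext (Units.ext ?_))
        rw [h4]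
        simp
  rw [Subgroup.relIndex, h1, fg_two, h2, ← hrk, pow_succ]

end Units

section Alg

theorem ub_basis {E : Type} [AddCommGroup E] [Finite E] (h2 : ∀ x : E, 2 • x = 0) (k : ℕ)
    (hcard : Nat.card E = 2 ^ k) (W0 : AddSubgroup E) (aE : E) (haW : aE ∉ W0)
    (hL : ∀ x, x ∉ W0 → x + aE ∈ W0) :
    ∃ (m : ℕ) (w : Fin m → E), k = m + 1 ∧ (∀ i, w i ∈ W0) ∧
      ∀ I : Finset (Fin (m + 1)), ∑ i ∈ I, (Fin.cons aE w : Fin (m + 1) → E) i = 0 → I = ∅ := by
  let _ : Module (ZMod 2) E := AddCommGroup.zmodModule h2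
  have hmfin : Module.Finite (ZMod 2) E := Module.Finite.of_finite
  set W : Submodule (ZMod 2) E := AddSubgroup.toZModSubmodule 2 W0 with hW
  have hmemW : ∀ x, x ∈ W ↔ x ∈ W0 := fun x => Iff.rfl
  let m := Module.finrank (ZMod 2) W
  let w : Module.Basis (Fin m) (ZMod 2) W := Module.finBasis (ZMod 2) W
  let e : Fin (m + 1) → E := Fin.cons aE fun i => (w i : E)
  have hspanW : Submodule.span (ZMod 2) (Set.range fun i => (w i : E)) = W := by
    have h3 := w.span_eq
    have h4 : (Set.range fun i => (w i : E)) = W.subtype '' Set.range w := by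
      rw [← Set.range_comp]; rfl
    rw [h4, Submodule.span_image, h3, Submodule.map_top, Submodule.range_subtype]
  have hli : LinearIndependent (ZMod 2) e := by
    rw [linearIndependent_finCons]
    refine ⟨?_, ?_⟩
    · exact w.linearIndependent.map' W.subtype W.ker_subtype
    · rw [hspanW]; exact haW
  have hspan : ⊤ ≤ Submodule.span (ZMod 2) (Set.range e) := by
    intro x _
    have h0 : aE ∈ Submodule.span (ZMod 2) (Set.range e) :=
      Submodule.subset_span ⟨0, rfl⟩
    have hWle : W ≤ Submodule.span (ZMod 2) (Set.range e) := by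
      rw [← hspanW]
      refine Submodule.span_mono ?_
      rintro _ ⟨i, rfl⟩
      exact ⟨i.succ, rfl⟩
    by_cases hzL : x ∈ W0
    · exact hWle hzL
    · have h6 := Submodule.sub_mem _ (hWle ((hmemW _).mpr (hL x hzL))) h0
      rwa [add_sub_cancel_right] at h6
  have hk : k = m + 1 := by
    have hb := Module.Basis.mk hli hspan
    have h3 : Module.finrank (ZMod 2) E = m + 1 := by
      rw [Module.finrank_eq_card_basis hb, Fintype.card_fin]
    have : Fintype E := Fintype.ofFinite _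
    have h4 := Module.card_eq_pow_finrank (K := ZMod 2) (V := E)
    rw [ZMod.card, h3, ← Nat.card_eq_fintype_card, hcard] at h4
    exact Nat.pow_right_injective le_rfl h4
  refine ⟨m, fun i => (w i : E), hk, fun i => (w i).2, fun I hI => ?_⟩
  by_contra hne
  obtain ⟨i, hi⟩ := Finset.nonempty_iff_ne_empty.mpr hne
  have h4 := linearIndependent_iff'.mp hli I (fun _ => 1) (by simpa using hI) i hi
  exact one_ne_zero h4

end Alg

section Units2

variable {F : Type} [Field F] [NumberField F]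

/-- Block UB: a basis of `Us V` modulo squares, with a prescribed linear form and a prescribed
first element: `L` is a subgroup of index 2 such that ... -/
theorem us_basis (V : Finset (HeightOneSpectrum (𝓞 F))) (a : Fˣ) (ha : a ∈ Us V) (L : Subgroup Fˣ)
    (hL : ∀ x y : Fˣ, x ∈ Us V → y ∈ Us V → x ∉ L → y ∉ L → x * y ∈ L)
    (hsq : ∀ y : Fˣ, y ^ 2 ∈ L) (haL : a ∉ L) :
    ∃ (k : ℕ) (b : Fin k → Fˣ) (i₀ : Fin k), Fintype.card (PS V) = k ∧ b i₀ = a ∧
      (∀ i, b i ∈ Us V) ∧ (∀ i, i ≠ i₀ → b i ∈ L) ∧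
      ∀ I : Finset (Fin k), (∃ y : Fˣ, ∏ i ∈ I, b i = y ^ 2) → I = ∅ := by
  classical
  set U : Subgroup Fˣ := Us V with hU
  set S : Subgroup U := ((powMonoidHom 2 : Fˣ →* Fˣ).range).subgroupOf U with hS
  have hcard : Nat.card (U ⧸ S) = 2 ^ Fintype.card (PS V) := us_sq_index V
  have hfin : Finite (U ⧸ S) := Nat.finite_of_card_ne_zero (by rw [hcard]; positivity)
  have h2 : ∀ x : Additive (U ⧸ S), 2 • x = 0 := by
    intro x
    obtain ⟨u, hu⟩ := QuotientGroup.mk_surjective (Additive.toMul x)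
    have h3 : (Additive.toMul x) ^ 2 = 1 := by
      rw [← hu, ← QuotientGroup.mk_pow, QuotientGroup.eq_one_iff]
      rw [hS, Subgroup.mem_subgroupOf]
      exact ⟨(u : Fˣ), rfl⟩
    exact h3
  set W : AddSubgroup (Additive (U ⧸ S)) :=
    Subgroup.toAddSubgroup ((L.subgroupOf U).map (QuotientGroup.mk' S)) with hW
  have hmemW : ∀ u : U, (Additive.ofMul (QuotientGroup.mk u : U ⧸ S)) ∈ W ↔ (u : Fˣ) ∈ L := by
    intro u
    have h3 : (Additive.ofMul (QuotientGroup.mk u : U ⧸ S)) ∈ W ↔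
        (QuotientGroup.mk u : U ⧸ S) ∈ (L.subgroupOf U).map (QuotientGroup.mk' S) := Iff.rfl
    rw [h3, Subgroup.mem_map]
    constructor
    · rintro ⟨w, hw, hwu⟩
      rw [Subgroup.mem_subgroupOf] at hw
      have h4 : w⁻¹ * u ∈ S := QuotientGroup.eq.mp hwu
      rw [hS, Subgroup.mem_subgroupOf] at h4
      obtain ⟨y, hy⟩ := h4
      have hy' : y ^ 2 = (w : Fˣ)⁻¹ * u := hy
      have h5 : (u : Fˣ) = w * y ^ 2 := by rw [hy', mul_inv_cancel_left]
      rw [h5]
      exact L.mul_mem hw (hsq y)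
    · intro hu
      exact ⟨u, by rw [Subgroup.mem_subgroupOf]; exact hu, rfl⟩
  set aE : Additive (U ⧸ S) := Additive.ofMul (QuotientGroup.mk (⟨a, ha⟩ : U) : U ⧸ S) with haE
  have haW : aE ∉ W := fun h => haL ((hmemW ⟨a, ha⟩).mp h)
  have hLW : ∀ x, x ∉ W → x + aE ∈ W := by
    intro x hx
    obtain ⟨z, hz⟩ := QuotientGroup.mk_surjective (Additive.toMul x)
    have hz' : Additive.ofMul (QuotientGroup.mk z : U ⧸ S) = x := by rw [hz]; rfl
    have hzL : (z : Fˣ) ∉ L := fun h => hx (by rw [← hz']; exact (hmemW z).mpr h)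
    have h3 : (z : Fˣ) * a ∈ L := hL _ _ z.2 ha hzL haL
    have h4 : Additive.ofMul (QuotientGroup.mk (z * ⟨a, ha⟩) : U ⧸ S) ∈ W :=
      (hmemW (z * ⟨a, ha⟩)).mpr h3
    have h5 : Additive.ofMul (QuotientGroup.mk (z * ⟨a, ha⟩) : U ⧸ S) = x + aE := by
      rw [← hz', haE]; rfl
    rwa [h5] at h4
  obtain ⟨m, w, hk, hwW, hind⟩ := ub_basis (E := Additive (U ⧸ S)) h2 _ hcard W aE haW hLW
  have hrep : ∀ i : Fin m, ∃ u : U, (u : Fˣ) ∈ L ∧
      Additive.ofMul (QuotientGroup.mk u : U ⧸ S) = w i := by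
    intro i
    obtain ⟨u, hu⟩ := QuotientGroup.mk_surjective (Additive.toMul (w i))
    have h3 : Additive.ofMul (QuotientGroup.mk u : U ⧸ S) = w i := by
      rw [hu]; rfl
    refine ⟨u, (hmemW u).mp ?_, h3⟩
    rw [h3]
    exact hwW i
  choose u huL hu using hrep
  let β : Fin (m + 1) → U := Fin.cons ⟨a, ha⟩ u
  have hβe : ∀ i, Additive.ofMul (QuotientGroup.mk (β i) : U ⧸ S) =
      (Fin.cons aE w : Fin (m + 1) → Additive (U ⧸ S)) i := by
    intro i
    refine Fin.cases ?_ (fun j => ?_) i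
    · rfl
    · exact hu j
  refine ⟨m + 1, fun i => (β i : Fˣ), 0, hk, rfl, fun i => (β i).2, ?_, ?_⟩
  · intro i hi
    obtain ⟨j, rfl⟩ := Fin.exists_succ_eq.mpr hi
    exact huL j
  · rintro I ⟨y, hy⟩
    refine hind I ?_
    have h4 : ∑ i ∈ I, (Fin.cons aE w : Fin (m + 1) → Additive (U ⧸ S)) i =
        Additive.ofMul (QuotientGroup.mk (∏ i ∈ I, β i) : U ⧸ S) := by
      rw [← QuotientGroup.mk'_apply S (∏ i ∈ I, β i), map_prod, ofMul_prod]
      exact Finset.sum_congr rfl fun i _ => (hβe i).symm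
    rw [h4]
    have h5 : (QuotientGroup.mk (∏ i ∈ I, β i) : U ⧸ S) = 1 := by
      rw [QuotientGroup.eq_one_iff, hS, Subgroup.mem_subgroupOf]
      refine ⟨y, ?_⟩
      have h6 : ((∏ i ∈ I, β i : U) : Fˣ) = ∏ i ∈ I, (β i : Fˣ) := by
        rw [← Subgroup.coe_subtype U, map_prod]
      rw [h6, hy]
      rfl
    rw [h5]; rfl

end Units2

end Pool.Agent.QR
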