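import Pool.Agent.Lib_helper17.QR.Defs
import Pool.Agent.Lib_helper35.RG.Defs
import Pool.Agent.Lib_helper17.QRF.P_CH
import Pool.Agent.Lib_helper17.QRF.P_LA
import Pool.Agent.Lib_helper17.QRF.P_LO
import Pool.Agent.Lib_helper17.QRF.P_UB
/-!
# QR block DU: `dual_exists`, `inert_exists`
-/

set_option autoImplicit false
set_option linter.unusedSectionVars false
set_option linter.unusedVariables false

namespace Pool.Agent.QR

open Pool.Agent.RSK Pool.Agent.RG
open NumberField IsDedekindDomain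

section Units

variable {F : Type} [Field F] [NumberField F]

theorem dual_exists {V : Finset (HeightOneSpectrum (𝓞 F))} (hV : Good V) {a : Fˣ}
    (ha : a ∈ Us V) {t₀ : HeightOneSpectrum (𝓞 F)} (ht : t₀ ∉ V) (hat : a ∉ Sqf t₀)
    (B : Finset (HeightOneSpectrum (𝓞 F))) :
    ∃ (k : ℕ) (b : Fin k → Fˣ) (t : Fin k → HeightOneSpectrum (𝓞 F)) (i₀ : Fin k),
      Dual V b t ∧ b i₀ = a ∧ t i₀ = t₀ ∧ ∀ i, i ≠ i₀ → t i ∉ B := by
  classical
  have h2 : (2 : 𝓞 F) ∉ t₀.asIdeal := fun h => ht (hV.dya t₀ h)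
  have hev : ∀ x : Fˣ, x ∈ Us V → Even (ordv t₀ (x : F)) := fun x hx => by
    have h0 : ordv t₀ (x : F) = 0 := hx t₀ ht
    rw [h0]
    exact Even.zero
  obtain ⟨k, b, i₀, hk, hb0, hbU, hbL, hind⟩ := us_basis V a ha (Sqf t₀)
    (fun x y hx hy hxL hyL => odd_units h2 (hev x hx) (hev y hy) hxL hyL)
    (fun y => sq_mem (Sum.inr t₀) y) hat
  choose u hu using fun i : Fin k => cheb b hind (fun j => j ≠ i) (B ∪ V)
  refine ⟨k, b, fun i => if i = i₀ then t₀ else u i, i₀, ?_, hb0, if_pos rfl, ?_⟩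
  · refine ⟨hk, hbU, fun i => ?_, fun i j => ?_⟩
    · by_cases hi : i = i₀
      · simp only [if_pos hi]
        exact ht
      · simp only [if_neg hi]
        exact fun h => (hu i).1 (Finset.mem_union_right _ h)
    · by_cases hi : i = i₀
      · simp only [if_pos hi]
        subst hi
        constructor
        · rintro h rfl
          rw [hb0] at h
          exact hat h
        · exact fun h => hbL j h
      · simp only [if_neg hi]
        exact ((hu i).2.2 j).2
  · intro i hi
    simp only [if_neg hi]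
    exact fun h => (hu i).1 (Finset.mem_union_left _ h)



theorem inert_exists (a : Fˣ) (ha : ∀ y : Fˣ, a ≠ y ^ 2)
    (B : Finset (HeightOneSpectrum (𝓞 F))) :
    ∃ t : HeightOneSpectrum (𝓞 F), t ∉ B ∧ (2 : 𝓞 F) ∉ t.asIdeal ∧ ordv t (a : F) = 0 ∧
      a ∉ Sqf t := by
  obtain ⟨t, h1, h2, h3⟩ := cheb (k := 1) (fun _ => a) (fun I hI => by
    by_contra hne
    obtain ⟨i, hi⟩ := Finset.nonempty_iff_ne_empty.2 hne
    have e : I = {i} := by
      ext j
      rw [Finset.mem_singleton]
      constructor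
      · intro _
        exact Subsingleton.elim _ _
      · rintro rfl
        exact hi
    obtain ⟨y, hy⟩ := hI
    rw [e, Finset.prod_singleton] at hy
    exact ha y hy) (fun _ => False) B
  exact ⟨t, h1, h2, (h3 0).1, fun h => ((h3 0).2).1 h⟩



end Units

end Pool.Agent.QR
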