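import Pool.Agent.Lib_helper17.QR.Defs
import Pool.Agent.Lib_helper35.RG.Defs
/-!
# QR block DC: `dual_card`
-/

set_option autoImplicit false
set_option linter.unusedSectionVars false
set_option linter.unusedVariables false

namespace Pool.Agent.QR

open Pool.Agent.RSK Pool.Agent.RG
open NumberField IsDedekindDomain

section Units

variable {F : Type} [Field F] [NumberField F]

theorem dual_card {V : Finset (HeightOneSpectrum (𝓞 F))} {k : ℕ} {b : Fin k → Fˣ}
    {t : Fin k → HeightOneSpectrum (𝓞 F)} (hd : Dual V b t) :
    Function.Injective t ∧ Fintype.card (PS (ext2 V t)) = 2 * k := by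
  classical
  have hinj : Function.Injective t := by
    intro i j hij
    by_contra hne
    have h1 : b i ∈ Sqf (t j) := (hd.dual j i).2 hne
    rw [← hij] at h1
    exact (hd.dual i i).1 h1 rfl
  refine ⟨hinj, ?_⟩
  have hcard : (ext2 V t).card = V.card + k := by
    have hdis : Disjoint V (Finset.univ.image t) := by
      rw [Finset.disjoint_left]
      intro v hv hv'
      rw [Finset.mem_image] at hv'
      obtain ⟨i, -, rfl⟩ := hv'
      exact hd.out i hv
    have e : ext2 V t = V ∪ Finset.univ.image t := by
      ext v
      rw [mem_ext2, Finset.mem_union, Finset.mem_image]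
      simp
    rw [e, Finset.card_union_of_disjoint hdis, Finset.card_image_of_injective _ hinj,
      Finset.card_univ, Fintype.card_fin]
  have h1 : Fintype.card (PS (ext2 V t)) = Fintype.card (InfinitePlace F) + (ext2 V t).card := by
    rw [Fintype.card_sum, Fintype.card_coe]
  have h2 : Fintype.card (PS V) = Fintype.card (InfinitePlace F) + V.card := by
    rw [Fintype.card_sum, Fintype.card_coe]
  have h3 := hd.card
  omega



end Units

end Pool.Agent.QR
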