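import Pool.Agent.Lib_helper17.QR.Defs
import Pool.Agent.Lib_helper35.RG.Defs
import Pool.Agent.Lib_helper17.RS.P_XA1
import Pool.Agent.Lib_helper17.RS.P_XA2
/-! # QR, block GV (helper67): good sets of places -/

set_option autoImplicit false
set_option linter.unusedSectionVars false
set_option linter.unusedVariables false

namespace Pool.Agent.QR

open Pool.Agent.RSK Pool.Agent.RG
open NumberField IsDedekindDomain

section Units

variable {F : Type} [Field F] [NumberField F]

theorem gv_dyadic : {v : HeightOneSpectrum (𝓞 F) | (2 : 𝓞 F) ∈ v.asIdeal}.Finite := by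
  have h0 : (Ideal.span {(2 : 𝓞 F)} : Ideal (𝓞 F)) ≠ 0 := by
    rw [Ne, Ideal.zero_eq_bot, Ideal.span_singleton_eq_bot]
    exact two_ne_zero
  refine (Ideal.finite_factors h0).subset fun v hv => ?_
  show v.asIdeal ∣ Ideal.span {(2 : 𝓞 F)}
  rw [Ideal.dvd_span_singleton]
  exact hv

theorem us_exists (x : Fˣ) : ∃ B : Finset (HeightOneSpectrum (𝓞 F)), ∀ V, B ⊆ V → x ∈ Us V := by
  refine ⟨(dvx_finite x).toFinset, fun V hV v hv => ?_⟩
  by_contra h
  exact hv (hV ((Set.Finite.mem_toFinset _).2 h))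

theorem good_mono {V V' : Finset (HeightOneSpectrum (𝓞 F))} (hV : Good V) (h : V ⊆ V') :
    Good V' := by
  refine ⟨fun v hv => h (hV.dya v hv), fun v hv => ?_⟩
  obtain ⟨π, h1, h2⟩ := hV.cls v fun hh => hv (h hh)
  exact ⟨π, h1, fun u hu huv => h2 u (fun hh => hu (h hh)) huv⟩

theorem good_exists (B : Finset (HeightOneSpectrum (𝓞 F))) :
    ∃ V : Finset (HeightOneSpectrum (𝓞 F)), B ⊆ V ∧ Good V := by
  classical
  have hfin : Fintype (ClassGroup (𝓞 F)) := inferInstance
  choose D hD using xa2_surj (k := F) (∅ : Finset (HeightOneSpectrum (𝓞 F)))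
  have hfin2 : Fintype (Additive (ClassGroup (𝓞 F))) := inferInstanceAs (Fintype (ClassGroup (𝓞 F)))
  refine ⟨B ∪ (gv_dyadic (F := F)).toFinset ∪
    (Finset.univ : Finset (Additive (ClassGroup (𝓞 F)))).biUnion fun c => (D c).1.support, ?_, ?_⟩
  · exact fun v hv => Finset.mem_union_left _ (Finset.mem_union_left _ hv)
  · refine ⟨fun v hv => ?_, fun v hv => ?_⟩
    · exact Finset.mem_union_left _ (Finset.mem_union_right _ ((Set.Finite.mem_toFinset _).2 hv))
    · have hDv : ∀ u, u ∉ B ∪ (gv_dyadic (F := F)).toFinset ∪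
          (Finset.univ : Finset (Additive (ClassGroup (𝓞 F)))).biUnion
            (fun c => (D c).1.support) → ∀ c, (D c).1 u = 0 := fun u hu c => by
        by_contra hh
        exact hu (Finset.mem_union_right _ (Finset.mem_biUnion.2
          ⟨c, Finset.mem_univ _, Finsupp.mem_support_iff.2 hh⟩))
      set E : Dv (∅ : Finset (HeightOneSpectrum (𝓞 F))) :=
        ⟨Finsupp.single v 1, fun u hu => absurd hu (Finset.notMem_empty u)⟩ with hE
      set c := xa2Psi ∅ E with hc
      have hker : E + D (-c) ∈ (xa2Psi (k := F) ∅).ker := by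
        rw [AddMonoidHom.mem_ker, map_add, hD, ← hc, add_neg_cancel]
      rw [xa2_ker, AddSubgroup.mem_addSubgroupOf] at hker
      obtain ⟨-, x, -, hx⟩ := hker
      refine ⟨x, ?_, fun u hu huv => ?_⟩
      · rw [← hx v, AddSubgroup.coe_add, Finsupp.add_apply, hDv v hv, add_zero]
        exact Finsupp.single_eq_same
      · rw [← hx u, AddSubgroup.coe_add, Finsupp.add_apply, hDv u hu, add_zero]
        exact Finsupp.single_eq_of_ne huv





end Units

end Pool.Agent.QR
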