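import Pool.Agent.Lib_helper17.QR.Defs
import Pool.Agent.Lib_helper35.RG.Defs
/-!
# QR block IG: index estimates
-/

set_option autoImplicit false

namespace Pool.Agent.QR

open Pool.Agent.RSK Pool.Agent.RG
open NumberField IsDedekindDomain

section Alg

theorem idx_ge {A : Type} [CommGroup A] {I : Type} [Finite I] (N U : Subgroup A)
    (L : I → Subgroup A) (h : ∀ i, N ≤ L i) (hx : ∀ e : I → Prop, ∃ x ∈ U, ∀ i, x ∈ L i ↔ e i)
    (h0 : N.relIndex U ≠ 0) : 2 ^ Nat.card I ≤ N.relIndex U := by
  have hfin : Finite (U ⧸ N.subgroupOf U) := (Nat.card_ne_zero.1 h0).2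
  let f : (U ⧸ N.subgroupOf U) → (I → Prop) := fun q =>
    Quotient.liftOn' q (fun x i => (x : A) ∈ L i) (by
      intro x y hxy
      have h1 : x⁻¹ * y ∈ N.subgroupOf U := QuotientGroup.leftRel_apply.1 hxy
      have h2 : (x : A)⁻¹ * (y : A) ∈ N := h1
      funext i
      have h3 := h i h2
      apply propext
      constructor
      · intro hxi
        have h4 := (L i).mul_mem hxi h3
        rwa [mul_inv_cancel_left] at h4
      · intro hyi
        have h4 := (L i).mul_mem hyi ((L i).inv_mem h3)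
        rwa [mul_inv_rev, inv_inv, mul_inv_cancel_left] at h4)
  have hf : Function.Surjective f := by
    intro e
    obtain ⟨x, hxU, hxe⟩ := hx e
    refine ⟨((⟨x, hxU⟩ : U) : U ⧸ N.subgroupOf U), ?_⟩
    funext i
    exact propext (hxe i)
  have h1 := Nat.card_le_card_of_surjective f hf
  have h2 : Nat.card (I → Prop) = 2 ^ Nat.card I := by
    rw [Nat.card_fun, Nat.card_eq_fintype_card (α := Prop), Fintype.card_prop]
  rw [h2] at h1
  exact h1

theorem idx_two_each {A : Type} [CommGroup A] {I : Type} [Finite I] (L : I → Subgroup A)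
    (hne : ∀ i, L i ≠ ⊤) (honto : ∀ c : I → A, ∃ x : A, ∀ i, x * c i ∈ L i)
    (h : (⨅ i, L i).index ≤ 2 ^ Nat.card I) (h0 : (⨅ i, L i).index ≠ 0) (i : I) :
    (L i).index = 2 := by
  classical
  let _ : Fintype I := Fintype.ofFinite I
  let g : A →* (∀ i, A ⧸ L i) := MonoidHom.pi (fun i => QuotientGroup.mk' (L i))
  have hg : ∀ x i, g x i = (x : A ⧸ L i) := fun x i => rfl
  have hker : g.ker = ⨅ i, L i := by
    ext x
    rw [MonoidHom.mem_ker, Subgroup.mem_iInf]
    constructor
    · intro hx j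
      have h1 := congrFun hx j
      rw [hg] at h1
      exact (QuotientGroup.eq_one_iff x).1 h1
    · intro hx
      funext j
      rw [hg]
      exact (QuotientGroup.eq_one_iff x).2 (hx j)
  have hsurj : Function.Surjective g := by
    intro y
    have h1 : ∀ j, ∃ c : A, ((c⁻¹ : A) : A ⧸ L j) = y j := by
      intro j
      obtain ⟨c, hc⟩ := QuotientGroup.mk_surjective (y j)
      exact ⟨c⁻¹, by rw [inv_inv]; exact hc⟩
    choose c hc using h1
    obtain ⟨x, hx⟩ := honto c
    refine ⟨x, ?_⟩
    funext j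
    rw [hg, ← hc j]
    apply QuotientGroup.eq.2
    have h2 := (L j).inv_mem (hx j)
    rwa [mul_inv_rev, mul_comm] at h2
  have hidx : (⨅ i, L i).index = ∏ j, (L j).index := by
    rw [← hker, Subgroup.index_ker, MonoidHom.range_eq_top.2 hsurj, Subgroup.card_top, Nat.card_pi]
    rfl
  have hpos : ∀ j, 2 ≤ (L j).index := by
    intro j
    have h1 : (L j).index ≠ 0 := by
      intro hz
      apply h0
      rw [hidx]
      exact Finset.prod_eq_zero (Finset.mem_univ j) hz
    have h2 : (L j).index ≠ 1 := fun h3 => hne j (Subgroup.index_eq_one.1 h3)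
    omega
  by_contra hi
  have hi' : 2 < (L i).index := lt_of_le_of_ne (hpos i) (Ne.symm hi)
  have h1 : ∏ j : I, 2 < ∏ j, (L j).index :=
    Finset.prod_lt_prod (fun _ _ => by norm_num) (fun j _ => hpos j) ⟨i, Finset.mem_univ i, hi'⟩
  rw [Finset.prod_const, Finset.card_univ, ← Nat.card_eq_fintype_card, ← hidx] at h1
  exact absurd h (not_le.2 h1)




end Alg

end Pool.Agent.QR
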