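import Pool.Agent.Lib_helper17.QR.Defs
import Pool.Agent.Lib_helper35.RG.Defs
import Pool.Agent.Lib_helper17.QRF.P_QF1
/-!
# QR, block PU: `F(√a)` is unramified at the places not above `2` where `a` has even valuation
-/

set_option autoImplicit false
set_option linter.unusedSectionVars false
set_option linter.unusedVariables false

namespace Pool.Agent.QR

open Pool.Agent.RSK Pool.Agent.RG
open NumberField IsDedekindDomain

section Quad

variable {F K : Type} [Field F] [NumberField F] [Field K] [NumberField K] [Algebra F K]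
  [IsGalois F K] {a : Fˣ} {α : K}

/-- After multiplication by a square, `a` is a quotient of two integers which are not in `v`. -/
theorem pu_frac {v : HeightOneSpectrum (𝓞 F)} (ha : Even (ordv v (a : F))) :
    ∃ (c : F) (m n : 𝓞 F), m ∉ v.asIdeal ∧ n ∉ v.asIdeal ∧
      c ^ 2 * (a : F) * algebraMap (𝓞 F) F m = algebraMap (𝓞 F) F n := by
  obtain ⟨r, hr⟩ := ha
  obtain ⟨c, hc⟩ := v.valuation_surjective (K := F) (WithZero.exp r)
  have ha0 : v.valuation F (a : F) ≠ 0 := (map_ne_zero _).2 a.ne_zero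
  have hva : v.valuation F (a : F) = WithZero.exp (-(r + r)) := by
    rw [← hr, ordv, neg_neg, WithZero.exp_log ha0]
  have h1 : v.valuation F (c ^ 2 * (a : F)) = 1 := by
    rw [map_mul, map_pow, hc, hva, pow_two, ← WithZero.exp_add, ← WithZero.exp_add,
      add_neg_cancel, WithZero.exp_zero]
  obtain ⟨n, m, hmn⟩ := HeightOneSpectrum.exists_primeCompl_mul_eq_of_integer v
    (c ^ 2 * (a : F)) h1.le
  refine ⟨c, m, n, m.2, ?_, hmn⟩
  have h2 : v.valuation F (algebraMap (𝓞 F) F (m : 𝓞 F)) = 1 :=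
    (HeightOneSpectrum.valuation_eq_one_iff_notMem v).2 m.2
  have h3 : v.valuation F (algebraMap (𝓞 F) F n) = 1 := by
    rw [← hmn, map_mul, h1, h2, mul_one]
  exact (HeightOneSpectrum.valuation_eq_one_iff_notMem v).1 h3

open scoped Pointwise in
/-- `K = F(√a)` is unramified at the places not above `2` where `a` has even valuation. -/
theorem unr_of (h : QE F K a α) {v : HeightOneSpectrum (𝓞 F)} (h2 : (2 : 𝓞 F) ∉ v.asIdeal)
    (ha : Even (ordv v (a : F))) (W : HeightOneSpectrum (𝓞 K)) (hW : W.under (𝓞 F) = v) :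
    Algebra.IsUnramifiedAt (𝓞 F) W.asIdeal := by
  have g1 : W.asIdeal.LiesOver (W.under (𝓞 F)).asIdeal := ⟨rfl⟩
  have g2 : (W.under (𝓞 F)).asIdeal.IsPrime := (W.under (𝓞 F)).isPrime
  have g3 : (W.under (𝓞 F)).asIdeal.IsMaximal := (W.under (𝓞 F)).isMaximal
  have g4 : W.asIdeal.IsMaximal := W.isMaximal
  have g5 : W.asIdeal.IsPrime := W.isPrime
  rw [← Ideal.ramificationIdx_eq_one_iff]
  have g6 := Ideal.card_inertia_eq_ramificationIdxIn (G := K ≃ₐ[F] K)
    (W.under (𝓞 F)).asIdeal W.asIdeal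
  rw [Ideal.ramificationIdxIn_eq_ramificationIdx (W.under (𝓞 F)).asIdeal W.asIdeal
    (K ≃ₐ[F] K)] at g6
  rw [← g6, Subgroup.card_eq_one, Subgroup.eq_bot_iff_forall]
  intro σ hσ
  by_contra hσ1
  -- an integer `y` with `y² = m n` and `σ y = -y`
  obtain ⟨c, m, n, hm, hn, hmn⟩ := pu_frac (v := v) ha
  set y : K := algebraMap F K (c * algebraMap (𝓞 F) F m) * α with hy
  have hy2 : y ^ 2 = algebraMap F K (algebraMap (𝓞 F) F (m * n)) := by
    rw [hy, mul_pow, h.sq, ← map_pow, ← map_mul]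
    congr 1
    rw [map_mul, ← hmn]
    ring
  have hyint : IsIntegral ℤ y := by
    have h3 : IsIntegral ℤ (y ^ 2) := by
      rw [hy2]
      exact (RingOfIntegers.isIntegral_coe (m * n)).algebraMap
    exact IsIntegral.of_pow (by norm_num) h3
  obtain ⟨Y, hY⟩ : ∃ Y : 𝓞 K, algebraMap (𝓞 K) K Y = y := ⟨⟨y, hyint⟩, rfl⟩
  have hσy : σ y = -y := by
    rw [hy, map_mul, σ.commutes, qe_conj h hσ1, mul_neg]
  have hin : σ • Y - Y ∈ W.asIdeal := hσ Y
  have hin2 : (2 : 𝓞 K) * Y ∈ W.asIdeal := by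
    have h4 : σ • Y - Y = -(2 * Y) := by
      apply RingOfIntegers.ext
      show algebraMap (𝓞 K) K (σ • Y - Y) = algebraMap (𝓞 K) K (-(2 * Y))
      have h5 : algebraMap (𝓞 K) K (σ • Y) = σ (algebraMap (𝓞 K) K Y) := rfl
      rw [map_sub, h5, hY, hσy, map_neg, map_mul, hY, map_ofNat]
      ring
    rw [h4] at hin
    exact neg_mem_iff.1 hin
  have hin3 : algebraMap (𝓞 F) (𝓞 K) (2 * 2 * (m * n)) ∈ W.asIdeal := by
    have h4 : algebraMap (𝓞 F) (𝓞 K) (2 * 2 * (m * n)) = (2 * Y) * (2 * Y) := by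
      apply RingOfIntegers.ext
      show algebraMap (𝓞 K) K (algebraMap (𝓞 F) (𝓞 K) (2 * 2 * (m * n))) =
        algebraMap (𝓞 K) K ((2 * Y) * (2 * Y))
      have h5 : algebraMap (𝓞 K) K (algebraMap (𝓞 F) (𝓞 K) (2 * 2 * (m * n))) =
        algebraMap F K (algebraMap (𝓞 F) F (2 * 2 * (m * n))) := rfl
      have h7 : algebraMap F K (algebraMap (𝓞 F) F (2 * 2)) = 2 * 2 := by
        rw [map_mul, map_mul, map_ofNat, map_ofNat]
      rw [h5, map_mul (algebraMap (𝓞 F) F) (2 * 2) (m * n), map_mul (algebraMap F K), ← hy2, h7,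
        map_mul, map_mul, hY, map_ofNat]
      ring
    rw [h4]
    exact Ideal.mul_mem_left _ _ hin2
  have hin4 : 2 * 2 * (m * n) ∈ v.asIdeal := by
    rw [← hW]
    exact hin3
  have hvp : v.asIdeal.IsPrime := v.isPrime
  rcases hvp.mem_or_mem hin4 with h5 | h5
  · rcases hvp.mem_or_mem h5 with h6 | h6
    · exact h2 h6
    · exact h2 h6
  · rcases hvp.mem_or_mem h5 with h6 | h6
    · exact hm h6
    · exact hn h6



end Quad

end Pool.Agent.QR
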