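import Pool.Agent.Lib_helper17.QR.Defs
import Pool.Agent.Lib_helper35.RG.Defs
import Pool.Agent.Lib_helper35.RG.P_EQ
import Pool.Agent.Lib_helper17.RS.P_UP1
import Pool.Agent.Lib_helper17.RS.P_UP2
import Pool.Agent.Lib_helper17.RS.P_UP3
import Pool.Agent.Lib_helper17.QRF.P_PU
/-!
# Block HT of QR: Hilbert 90 for `V`-units
-/

set_option autoImplicit false

namespace Pool.Agent.QR

open Pool.Agent.RSK Pool.Agent.RG
open NumberField IsDedekindDomain

section HT

variable {F K : Type} [Field F] [NumberField F] [Field K] [NumberField K] [Algebra F K]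
  [IsGalois F K] {a : Fˣ} {α : K}

/-- the valuation of a power -/
theorem ht_zpow (v : HeightOneSpectrum (𝓞 F)) (x : Fˣ) (m : ℤ) :
    ordv v ((x ^ m : Fˣ) : F) = m * ordv v (x : F) := by
  have h1 : dv F (Additive.ofMul (x ^ m)) v = m * dv F (Additive.ofMul x) v := by
    rw [ofMul_zpow, map_zsmul, Finsupp.smul_apply, smul_eq_mul]
  exact h1

/-- every divisor is principal outside a good set -/
theorem ht_prin {V : Finset (HeightOneSpectrum (𝓞 F))} (hV : Good V) (D : Dvs F) :
    ∃ δ : Fˣ, ∀ u : HeightOneSpectrum (𝓞 F), u ∉ V → ordv u (δ : F) = D u := by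
  classical
  induction D using Finsupp.induction_linear with
  | zero => exact ⟨1, fun u _ => ordv_one u⟩
  | add f g hf hg =>
    obtain ⟨x, hx⟩ := hf
    obtain ⟨y, hy⟩ := hg
    exact ⟨x * y, fun u hu => by rw [ordv_mul, hx u hu, hy u hu, Finsupp.add_apply]⟩
  | single v m =>
    by_cases hv : v ∈ V
    · refine ⟨1, fun u hu => ?_⟩
      have huv : v ≠ u := fun h => hu (h ▸ hv)
      rw [Units.val_one, ordv_one, Finsupp.single_apply, if_neg huv]
    · obtain ⟨π, h1, h2⟩ := hV.cls v hv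
      refine ⟨π ^ m, fun u hu => ?_⟩
      rw [ht_zpow, Finsupp.single_apply]
      by_cases huv : v = u
      · rw [if_pos huv, ← huv, h1, mul_one]
      · rw [if_neg huv, h2 u hu (fun h => huv h.symm), mul_zero]

theorem h90_units (h : QE F K a α) {V : Finset (HeightOneSpectrum (𝓞 F))} (hV : Good V)
    (ha : ∀ v : HeightOneSpectrum (𝓞 F), v ∉ V → Even (ordv v (a : F))) {σ : K ≃ₐ[F] K}
    (hσ : σ ≠ 1) (β : Kˣ)
    (hβ : ∀ W : HeightOneSpectrum (𝓞 K), W.under (𝓞 F) ∉ V → ordv W (β : K) = 0)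
    (hN : (β : K) * σ β = 1) :
    ∃ γ : Kˣ, (∀ W : HeightOneSpectrum (𝓞 K), W.under (𝓞 F) ∉ V → ordv W (γ : K) = 0) ∧
      (β : K) * γ = σ γ := by
  classical
  -- Hilbert 90
  obtain ⟨y, hy⟩ := eac_h90 Nat.prime_two h.card σ hσ (Additive.ofMul β) (by
    rw [trc_apply, Finset.sum_range_succ, Finset.sum_range_one]
    refine Additive.toMul.injective (Units.ext ?_)
    exact hN)
  obtain ⟨y, rfl⟩ := Additive.ofMul.surjective y
  have hy1 : (β : K) * (y : K) = σ (y : K) := by
    rw [dlt_apply, sub_eq_iff_eq_add] at hy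
    have h1 := congrArg (fun z : Additive Kˣ => ((Additive.toMul z : Kˣ) : K)) hy
    exact h1.symm
  -- the places above a place of `F`
  choose w hw using fun v : HeightOneSpectrum (𝓞 F) => up1_surj (H := K) v
  have hwinj : Function.Injective w := fun v v' hvv => by rw [← hw v, ← hw v', hvv]
  -- the divisor of `y`
  let D : Dvs F := Finsupp.ofSupportFinite (fun v => ordv (w v) (y : K))
    (Set.Finite.subset (Set.Finite.preimage hwinj.injOn (dvx_finite y)) fun v hv => hv)
  obtain ⟨δ, hδ⟩ := ht_prin hV D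
  have hD : ∀ v, D v = ordv (w v) (y : K) := fun v => rfl
  have hcard : ∀ τ : K ≃ₐ[F] K, τ = 1 ∨ τ = σ := by
    intro τ
    have h2 := h.card
    have hfin : Finite (K ≃ₐ[F] K) := Nat.finite_of_card_ne_zero (by rw [h2]; norm_num)
    have := Fintype.ofFinite (K ≃ₐ[F] K)
    rw [Nat.card_eq_fintype_card] at h2
    by_contra hcon
    push Not at hcon
    have h3 : ({1, σ, τ} : Finset (K ≃ₐ[F] K)).card ≤ 2 := by
      rw [← h2]
      exact Finset.card_le_univ _
    rw [Finset.card_insert_of_notMem, Finset.card_insert_of_notMem, Finset.card_singleton] at h3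
    · omega
    · simp only [Finset.mem_singleton]
      exact fun h4 => hcon.2 h4.symm
    · simp only [Finset.mem_insert, Finset.mem_singleton, not_or]
      exact ⟨fun h4 => hσ h4.symm, fun h4 => hcon.1 h4.symm⟩
  have hinv : ∀ W : HeightOneSpectrum (𝓞 K), W.under (𝓞 F) ∉ V →
      ordv W (y : K) = ordv (w (W.under (𝓞 F))) (y : K) := by
    intro W hW
    obtain ⟨τ, hτ⟩ := act_trans (F := F) (W := Sum.inr W) (W' := Sum.inr (w (W.under (𝓞 F))))
      (congrArg Sum.inr (hw _).symm)
    rcases hcard τ with rfl | rfl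
    · rw [act_one] at hτ
      rw [← Sum.inr_injective hτ]
    · have h3 : HeightOneSpectrum.equivOfRingEquiv (RingOfIntegers.mapRingEquiv τ.toRingEquiv) W =
          w (W.under (𝓞 F)) := Sum.inr_injective hτ
      have h4 := ordv_act τ W (y : K)
      rw [h3, ← hy1, ← Units.val_mul, ordv_mul, hβ _ (by rw [hw]; exact hW), zero_add] at h4
      exact h4.symm
  refine ⟨y * (Units.map (algebraMap F K : F →* K) δ)⁻¹, fun W hW => ?_, ?_⟩
  · have h2 : (2 : 𝓞 F) ∉ (W.under (𝓞 F)).asIdeal := fun h3 => hW (hV.dya _ h3)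
    have hunr := unr_of h h2 (ha _ hW) W rfl
    rw [ordv_mul, ordv_inv, hinv W hW, ← hD, ← hδ _ hW]
    have h5 : ordv W ((Units.map (algebraMap F K : F →* K) δ : Kˣ) : K) =
        ordv (W.under (𝓞 F)) (δ : F) := ordv_unr hunr (δ : F)
    rw [h5, add_neg_cancel]
  · have h6 : σ ((Units.map (algebraMap F K : F →* K) δ : Kˣ) : K) =
        ((Units.map (algebraMap F K : F →* K) δ : Kˣ) : K) := σ.commutes _
    rw [Units.val_mul, map_mul, ← mul_assoc, hy1, Units.val_inv_eq_inv_val, map_inv₀, h6]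

end HT



end Pool.Agent.QR
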