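import Pool.Agent.Lib_helper17.QR.Defs
import Pool.Agent.Lib_helper35.RG.Defs
import Pool.Agent.Lib_helper17.QRF.P_QF1
import Pool.Agent.Lib_helper17.QRF.P_SF1
import Pool.Agent.Lib_helper17.QRF.P_SF3
/-!
# QR, block PI: `a` is a square at `v` if and only if `v` splits in `F(√a)`
-/

set_option autoImplicit false
set_option linter.unusedSectionVars false
set_option linter.unusedVariables false

namespace Pool.Agent.QR

open Pool.Agent.RSK Pool.Agent.RG
open NumberField IsDedekindDomain

section Quad

variable {F K : Type} [Field F] [NumberField F] [Field K] [NumberField K] [Algebra F K]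
  [IsGalois F K] {a : Fˣ} {α : K}

theorem pi_stab (w : InfinitePlace K) :
    (∀ σ : K ≃ₐ[F] K, act σ (Sum.inl w) = Sum.inl w → σ = 1) ↔ w.IsUnramified F := by
  rw [InfinitePlace.isUnramified_iff_stabilizer_eq_bot, Subgroup.eq_bot_iff_forall]
  refine forall_congr' fun σ => ?_
  rw [MulAction.mem_stabilizer_iff]
  refine imp_congr ?_ Iff.rfl
  show (Sum.inl (σ • w) : Pl K) = Sum.inl w ↔ σ • w = w
  exact ⟨fun h => Sum.inl_injective h, fun h => congrArg Sum.inl h⟩

theorem pi_im {z : ℂ} (h : (z ^ 2).im = 0) (h0 : 0 < (z ^ 2).re) : z.im = 0 := by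
  rw [pow_two, Complex.mul_im] at h
  rw [pow_two, Complex.mul_re] at h0
  have h1 : z.re * z.im = 0 := by linarith
  rcases mul_eq_zero.1 h1 with h2 | h2
  · rw [h2] at h0
    have h3 := mul_self_nonneg z.im
    linarith
  · exact h2

theorem pi_real_im {L : Type} [Field L] {φ : L →+* ℂ} (h : ComplexEmbedding.IsReal φ) (x : L) :
    (φ x).im = 0 := by
  have h4 := ComplexEmbedding.isReal_iff.1 h
  have h5 := congrArg (fun ψ : L →+* ℂ => ψ x) h4
  exact Complex.conj_eq_iff_im.1 h5

/-- Block PI (also `split_iff` of `QR.Exp`): archimedean places. -/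
theorem split_inf (h : QE F K a α) (w : InfinitePlace K) :
    (∀ σ : K ≃ₐ[F] K, act σ (Sum.inl w) = Sum.inl w → σ = 1) ↔
      a ∈ Sqi (w.comap (algebraMap F K)) := by
  rw [pi_stab]
  constructor
  · intro hw hr
    have hwr : w.IsReal := by
      rcases InfinitePlace.isUnramified_iff.1 hw with h1 | h1
      · exact h1
      · exact absurd hr (InfinitePlace.not_isReal_iff_isComplex.2 h1)
    rw [InfinitePlace.comap_embedding_of_isReal _ hr, RingHom.comp_apply, ← h.sq, map_pow]
    have him : (w.embedding α).im = 0 := pi_real_im (InfinitePlace.isReal_iff.1 hwr) α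
    rw [pow_two, Complex.mul_re, him, mul_zero, sub_zero]
    have hα : α ≠ 0 := by
      intro h0
      exact h.nb 0 (by rw [map_zero, h0])
    have h1 : (w.embedding α).re ≠ 0 := by
      intro h2
      apply hα
      have h3 : w.embedding α = 0 := Complex.ext (by rw [h2, Complex.zero_re])
        (by rw [him, Complex.zero_im])
      exact (map_eq_zero _).1 h3
    exact mul_self_pos.2 h1
  · intro ha
    rw [InfinitePlace.isUnramified_iff]
    by_cases hc : (w.comap (algebraMap F K)).IsReal
    · left
      have h1 := ha hc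
      have hemb := InfinitePlace.comap_embedding_of_isReal _ hc
      have hre : ∀ x : F, (w.embedding (algebraMap F K x)).im = 0 := by
        intro x
        have h2 := pi_real_im (InfinitePlace.isReal_iff.1 hc) x
        rwa [hemb, RingHom.comp_apply] at h2
      rw [hemb, RingHom.comp_apply] at h1
      have hα : (w.embedding α).im = 0 := by
        refine pi_im ?_ ?_
        · rw [← map_pow, h.sq]
          exact hre _
        · rw [← map_pow, h.sq]
          exact h1
      rw [InfinitePlace.isReal_iff, ComplexEmbedding.isReal_iff]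
      refine RingHom.ext fun β => ?_
      show (starRingEnd ℂ) (w.embedding β) = w.embedding β
      rw [Complex.conj_eq_iff_im]
      obtain ⟨x, y, rfl⟩ := qe_basis h β
      rw [map_add, map_mul, Complex.add_im, Complex.mul_im, hre, hre, hα, mul_zero, zero_mul,
        add_zero, add_zero]
    · right
      exact InfinitePlace.not_isReal_iff_isComplex.1 hc

/-- (Q5) `a` is a square at `v` if and only if `v` splits in `K = F(√a)`. -/
theorem split_iff (h : QE F K a α) (W : Pl K) :
    (∀ σ : K ≃ₐ[F] K, act σ W = W → σ = 1) ↔ a ∈ Sq (dn F W) := by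
  rcases W with w | W
  · exact split_inf h w
  · exact ⟨fun hW => split_fin2 h W hW, fun ha σ hσ => split_fin1 h W ha σ hσ⟩




end Quad

end Pool.Agent.QR
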