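import Pool.Agent.Lib_helper17.QR.Defs
import Pool.Agent.Lib_helper35.RG.Defs
import Pool.Agent.Lib_helper17.RS.P_UP1
import Pool.Agent.Lib_helper17.RS.P_UP2
import Pool.Agent.Lib_helper17.QRF.P_PI
/-!
# Block PC (QR): the number of the places of `K` above `V`
-/

set_option autoImplicit false
set_option linter.unusedSectionVars false

namespace Pool.Agent.QR

open Pool.Agent.RSK Pool.Agent.RG
open NumberField IsDedekindDomain

section Quad

variable {F K : Type} [Field F] [NumberField F] [Field K] [NumberField K] [Algebra F K]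
  [IsGalois F K] {a : Fˣ} {α : K}

open scoped Classical in
/-- the number of the places of `K` above `v` -/
theorem pc_fib (h : QE F K a α) (v : Pl F) :
    Nat.card {W : Pl K // dn F W = v} + (if a ∉ Sq v then 1 else 0) = 2 := by
  obtain ⟨σ, hσ1, hσ⟩ := (Nat.card_eq_two_iff' (1 : K ≃ₐ[F] K)).1 h.card
  have hall : ∀ τ : K ≃ₐ[F] K, τ = 1 ∨ τ = σ := by
    intro τ
    by_cases h1 : τ = 1
    · exact Or.inl h1
    · exact Or.inr (hσ τ h1)
  obtain ⟨W, hW⟩ := dn_surj (H := K) v
  have hset : {W' : Pl K | dn F W' = v} = {W, act σ W} := by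
    ext W'
    simp only [Set.mem_setOf_eq, Set.mem_insert_iff, Set.mem_singleton_iff]
    constructor
    · intro h1
      obtain ⟨τ, hτ⟩ := act_trans (F := F) (W := W) (W' := W') (hW.trans h1.symm)
      rcases hall τ with rfl | rfl
      · left
        rw [← hτ, act_one]
      · exact Or.inr hτ.symm
    · rintro (rfl | rfl)
      · exact hW
      · rw [dn_act, hW]
  have hcard : Nat.card {W : Pl K // dn F W = v} = ({W, act σ W} : Set (Pl K)).ncard := by
    rw [← hset]
    rfl
  rw [hcard]
  by_cases ha : a ∈ Sq v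
  · rw [if_neg (not_not.2 ha)]
    have hne : W ≠ act σ W := by
      intro h1
      rw [← hW] at ha
      exact hσ1 ((split_iff h W).2 ha σ h1.symm)
    rw [Set.ncard_pair hne]
  · rw [if_pos ha]
    have heq : act σ W = W := by
      by_contra hne
      refine ha ?_
      rw [← hW]
      refine (split_iff h W).1 fun τ hτ => ?_
      rcases hall τ with h1 | h1
      · exact h1
      · rw [h1] at hτ
        exact absurd hτ hne
    rw [heq, Set.pair_eq_singleton, Set.ncard_singleton]

/-- the place of `V` below a place above `V` -/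
noncomputable def pc_dn (V : Finset (HeightOneSpectrum (𝓞 F))) : PS (ovr K V) → PS V
  | Sum.inl w => Sum.inl (w.comap (algebraMap F K))
  | Sum.inr w => Sum.inr ⟨w.1.under (𝓞 F), mem_ovr.1 w.2⟩

theorem pc_dn_pl (V : Finset (HeightOneSpectrum (𝓞 F))) (P : PS (ovr K V)) :
    (pc_dn V P).pl = dn F P.pl := by
  rcases P with w | w
  · rfl
  · rfl

theorem pc_pl_inj {k : Type} [Field k] [NumberField k] {S : Finset (HeightOneSpectrum (𝓞 k))}
    {P Q : PS S} (h : P.pl = Q.pl) : P = Q := by
  rcases P with v | v <;> rcases Q with w | w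
  · exact congrArg Sum.inl (Sum.inl_injective h)
  · exact absurd h (by simp [PS.pl])
  · exact absurd h (by simp [PS.pl])
  · exact congrArg Sum.inr (Subtype.ext (Sum.inr_injective h))

/-- the places of `K` above `P` -/
noncomputable def pc_equiv (V : Finset (HeightOneSpectrum (𝓞 F))) (P : PS V) :
    {Q : PS (ovr K V) // pc_dn V Q = P} ≃ {W : Pl K // dn F W = P.pl} :=
  Equiv.ofBijective (fun Q => ⟨Q.1.pl, by rw [← pc_dn_pl, Q.2]⟩) (by
    constructor
    · rintro ⟨Q, hQ⟩ ⟨Q', hQ'⟩ h
      exact Subtype.ext (pc_pl_inj (congrArg Subtype.val h))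
    · rintro ⟨W, hW⟩
      have key : ∃ Q : PS (ovr K V), Q.pl = W := by
        rcases W with w | w
        · exact ⟨Sum.inl w, rfl⟩
        · rcases P with p | p
          · exact absurd hW (by simp [dn, PS.pl])
          · have h1 : w.under (𝓞 F) = p.1 := Sum.inr_injective hW
            exact ⟨Sum.inr ⟨w, mem_ovr.2 (by rw [h1]; exact p.2)⟩, rfl⟩
      obtain ⟨Q, rfl⟩ := key
      exact ⟨⟨Q, pc_pl_inj (by rw [pc_dn_pl, hW])⟩, rfl⟩)

/-- Block PC: the number of the places of `K` above `V` (2 above the split places, 1 above the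
others; transitivity of the Galois group). -/
theorem card_ovr2 (h : QE F K a α) (V : Finset (HeightOneSpectrum (𝓞 F))) :
    Fintype.card (PS (ovr K V)) + Nat.card {P : PS V // a ∉ Sq P.pl} =
      2 * Fintype.card (PS V) := by
  classical
  have h1 : Fintype.card (PS (ovr K V)) = ∑ P : PS V, Nat.card {W : Pl K // dn F W = P.pl} := by
    rw [← Nat.card_eq_fintype_card, ← Nat.card_congr (Equiv.sigmaFiberEquiv (pc_dn (K := K) V)),
      Nat.card_sigma]
    exact Finset.sum_congr rfl fun P _ => Nat.card_congr (pc_equiv V P)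
  have h2 : Nat.card {P : PS V // a ∉ Sq P.pl} = ∑ P : PS V, if a ∉ Sq P.pl then 1 else 0 := by
    rw [Nat.card_eq_fintype_card, Fintype.card_subtype, Finset.card_filter]
  rw [h1, h2, ← Finset.sum_add_distrib, Finset.sum_congr rfl fun P _ => pc_fib h P.pl,
    Finset.sum_const, Finset.card_univ, smul_eq_mul, mul_comm]

end Quad



end Pool.Agent.QR
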