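import Pool.Agent.Lib_helper17.QR.Defs
import Pool.Agent.Lib_helper35.RG.Defs
import Pool.Agent.Lib_helper17.RS.P_CD
import Pool.Agent.Lib_helper17.RS.P_PH
import Pool.Agent.Lib_helper17.QRF.P_HG
import Pool.Agent.Lib_helper17.QRF.P_HT
import Pool.Agent.Lib_helper17.QRF.P_PC
import Pool.Agent.Lib_helper17.QRF.P_PU
import Pool.Agent.Lib_helper17.QRF.P_QF1
import Pool.Agent.Lib_helper17.QRF.P_US
/-!
# QR, block L1: the index of the norms of `V`-units
-/

set_option autoImplicit false
set_option linter.unusedSectionVars false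

namespace Pool.Agent.QR

open Pool.Agent.RSK Pool.Agent.RG
open NumberField IsDedekindDomain

section L1

variable {F K : Type} [Field F] [NumberField F] [Field K] [NumberField K] [Algebra F K]
  [IsGalois F K] {a : Fˣ} {α : K}

theorem l1_act_mem {V : Finset (HeightOneSpectrum (𝓞 F))} (σ : K ≃ₐ[F] K) {x : Kˣ}
    (hx : x ∈ Us (ovr K V)) : σ • x ∈ Us (ovr K V) := by
  intro W hW
  rw [cd_ordv_smul]
  refine hx _ ?_
  rw [mem_ovr, under_equiv]
  rwa [mem_ovr] at hW

/-- the action of `σ` on the `V`-units of `K` -/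
noncomputable def l1_t (V : Finset (HeightOneSpectrum (𝓞 F))) (σ : K ≃ₐ[F] K) :
    Us (ovr K V) →* Us (ovr K V) where
  toFun x := ⟨σ • (x : Kˣ), l1_act_mem σ x.2⟩
  map_one' := by
    ext
    simp
  map_mul' x y := by
    ext
    simp

theorem l1_j_mem {V : Finset (HeightOneSpectrum (𝓞 F))}
    (hun : ∀ W : HeightOneSpectrum (𝓞 K), W.under (𝓞 F) ∉ V →
      Algebra.IsUnramifiedAt (𝓞 F) W.asIdeal) (x : Fˣ) :
    Units.map (algebraMap F K : F →* K) x ∈ Us (ovr K V) ↔ x ∈ Us V := by
  constructor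
  · intro h v hv
    obtain ⟨W, hW⟩ : ∃ W : HeightOneSpectrum (𝓞 K), W.under (𝓞 F) = v := by
      obtain ⟨W, hW⟩ := dn_surj (F := F) (H := K) (Sum.inr v)
      rcases W with W | W
      · exact absurd hW (by simp [dn])
      · exact ⟨W, by simpa [dn] using hW⟩
    have h1 := h W (by rw [mem_ovr, hW]; exact hv)
    have h2 := ordv_unr (hun W (by rw [hW]; exact hv)) (x : F)
    rw [hW] at h2
    rw [← h2]
    exact h1
  · intro h W hW
    rw [mem_ovr] at hW
    have h2 := ordv_unr (hun W hW) (x : F)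
    have h3 : ((Units.map (algebraMap F K : F →* K) x : Kˣ) : K) = algebraMap F K (x : F) := rfl
    rw [h3, h2]
    exact h _ hW

/-- the inclusion of the `V`-units -/
noncomputable def l1_g {V : Finset (HeightOneSpectrum (𝓞 F))}
    (hun : ∀ W : HeightOneSpectrum (𝓞 K), W.under (𝓞 F) ∉ V →
      Algebra.IsUnramifiedAt (𝓞 F) W.asIdeal) : Us V →* Us (ovr K V) where
  toFun x := ⟨Units.map (algebraMap F K : F →* K) (x : Fˣ), (l1_j_mem hun _).2 x.2⟩
  map_one' := by
    ext
    simp
  map_mul' x y := by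
    ext
    simp

theorem l1_g_inj {V : Finset (HeightOneSpectrum (𝓞 F))}
    (hun : ∀ W : HeightOneSpectrum (𝓞 K), W.under (𝓞 F) ∉ V →
      Algebra.IsUnramifiedAt (𝓞 F) W.asIdeal) : Function.Injective (l1_g hun) := by
  intro x y hxy
  have h1 := congrArg (fun z : Us (ovr K V) => ((z : Kˣ) : K)) hxy
  have h2 : algebraMap F K ((x : Fˣ) : F) = algebraMap F K ((y : Fˣ) : F) := h1
  ext
  exact (algebraMap F K).injective h2

theorem l1_arith (n m N i : ℕ) (hn : 1 ≤ n) (h : 2 ^ (n - 1) = 2 ^ N * i) (h2 : N + (n - 1) + 1 + m = 2 * n) :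
    2 * i = 2 ^ m := by
  have h3 : n = N + m := by omega
  have h4 : 2 ^ N * (2 * i) = 2 ^ N * 2 ^ m := by
    calc 2 ^ N * (2 * i) = 2 * (2 ^ N * i) := by ring
      _ = 2 * 2 ^ (n - 1) := by rw [h]
      _ = 2 ^ n := by
        obtain ⟨n', rfl⟩ := Nat.exists_eq_add_of_le hn
        rw [Nat.add_sub_cancel_left, pow_add, pow_one]
      _ = 2 ^ N * 2 ^ m := by rw [h3, pow_add]
  exact Nat.eq_of_mul_eq_mul_left (by positivity) h4

theorem L1 (h : QE F K a α) {V : Finset (HeightOneSpectrum (𝓞 F))} (hV : Good V)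
    (ha : ∀ v : HeightOneSpectrum (𝓞 F), v ∉ V → Even (ordv v (a : F))) :
    2 * (NmU K V).relIndex (Us V) = 2 ^ Nat.card {P : PS V // a ∉ Sq P.pl} := by
  classical
  -- the nontrivial automorphism
  have hfin : Finite (K ≃ₐ[F] K) := Nat.finite_of_card_ne_zero (by rw [h.card]; norm_num)
  obtain ⟨σ, hσ⟩ : ∃ σ : K ≃ₐ[F] K, σ ≠ 1 := by
    have : Nontrivial (K ≃ₐ[F] K) := by
      rw [← Finite.one_lt_card_iff_nontrivial, h.card]
      norm_num
    exact exists_ne 1
  have htwo : ∀ τ : K ≃ₐ[F] K, τ = 1 ∨ τ = σ := by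
    intro τ
    by_contra hc
    push Not at hc
    have h1 : ({1, σ, τ} : Finset (K ≃ₐ[F] K)).card ≤ 2 := by
      have : Fintype (K ≃ₐ[F] K) := Fintype.ofFinite _
      rw [← h.card, Nat.card_eq_fintype_card]
      exact Finset.card_le_univ _
    rw [Finset.card_insert_of_notMem (by simp [hσ.symm, hc.1.symm]),
      Finset.card_insert_of_notMem (by simp [hc.2.symm]), Finset.card_singleton] at h1
    omega
  have hσσ : ∀ x : K, σ (σ x) = x := by
    intro x
    have h1 : σ * σ = 1 := by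
      rcases htwo (σ * σ) with h1 | h1
      · exact h1
      · exact absurd (mul_eq_left.1 h1) hσ
    have h2 := congrArg (fun τ : K ≃ₐ[F] K => τ x) h1
    exact h2
  have hun : ∀ W : HeightOneSpectrum (𝓞 K), W.under (𝓞 F) ∉ V →
      Algebra.IsUnramifiedAt (𝓞 F) W.asIdeal := by
    intro W hW
    exact unr_of h (v := W.under (𝓞 F)) (fun h2 => hW (hV.dya _ h2)) (ha _ hW) W rfl
  -- the module
  have hMf : Module.Finite ℤ (Additive (Us (ovr K V))) := us_finite _
  set τ : Additive (Us (ovr K V)) →+ Additive (Us (ovr K V)) := MonoidHom.toAdditive (l1_t V σ)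
    with hτdef
  have hτv : ∀ x : Additive (Us (ovr K V)), (((Additive.toMul (τ x) : Us (ovr K V)) : Kˣ) : K) =
      σ (((Additive.toMul x : Us (ovr K V)) : Kˣ) : K) := fun x => rfl
  have hext : ∀ x y : Additive (Us (ovr K V)),
      (((Additive.toMul x : Us (ovr K V)) : Kˣ) : K) = (((Additive.toMul y : Us (ovr K V)) : Kˣ) : K) →
      x = y := by
    intro x y hxy
    apply Additive.toMul.injective
    ext
    exact hxy
  have hττ : ∀ x, τ (τ x) = x := by
    intro x
    refine hext _ _ ?_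
    rw [hτv, hτv, hσσ]
  have htrc : ∀ x : Additive (Us (ovr K V)),
      (((Additive.toMul (trc 2 τ x) : Us (ovr K V)) : Kˣ) : K) =
      (((Additive.toMul x : Us (ovr K V)) : Kˣ) : K) *
        σ (((Additive.toMul x : Us (ovr K V)) : Kˣ) : K) := by
    intro x
    have e : trc 2 τ x = x + τ x := by
      rw [trc_apply, Finset.sum_range_succ, Finset.sum_range_one]
      rfl
    rw [e]
    rfl
  obtain ⟨-, -, hq⟩ := hb_gen τ hττ
  have hr := hb_rank τ hττ
  -- Hilbert 90
  have hle : (trc 2 τ).ker ≤ (dlt τ).range := by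
    intro x hx
    rw [AddMonoidHom.mem_ker] at hx
    have h1 := htrc x
    rw [hx] at h1
    obtain ⟨γ, hγ, hγ'⟩ := h90_units h hV ha hσ ((Additive.toMul x : Us (ovr K V)) : Kˣ)
      (fun W hW => (Additive.toMul x : Us (ovr K V)).2 W (by rwa [mem_ovr])) h1.symm
    have hγm : γ ∈ Us (ovr K V) := fun W hW => hγ W (by rwa [mem_ovr] at hW)
    refine ⟨Additive.ofMul ⟨γ, hγm⟩, ?_⟩
    rw [dlt_apply, sub_eq_iff_eq_add]
    refine hext _ _ ?_
    rw [hτv]
    exact hγ'.symm
  have hone : (dlt τ).range.relIndex (trc 2 τ).ker = 1 := AddSubgroup.relIndex_eq_one.2 hle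
  -- the invariants
  set g : Additive (Us V) →+ Additive (Us (ovr K V)) := MonoidHom.toAdditive (l1_g hun) with hgdef
  have hgv : ∀ x : Additive (Us V), (((Additive.toMul (g x) : Us (ovr K V)) : Kˣ) : K) =
      algebraMap F K (((Additive.toMul x : Us V) : Fˣ) : F) := fun x => rfl
  have hginj : Function.Injective g := fun x y hxy => by
    apply Additive.toMul.injective
    exact l1_g_inj hun (congrArg Additive.toMul hxy)
  have hgr : g.range = (dlt τ).ker := by
    ext x
    rw [AddMonoidHom.mem_range, AddMonoidHom.mem_ker, dlt_apply, sub_eq_zero]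
    constructor
    · rintro ⟨y, rfl⟩
      refine hext _ _ ?_
      rw [hτv, hgv, AlgEquiv.commutes]
    · intro hx
      have h1 : ∀ ρ : K ≃ₐ[F] K, ρ • ((Additive.toMul x : Us (ovr K V)) : Kˣ) =
          ((Additive.toMul x : Us (ovr K V)) : Kˣ) := by
        intro ρ
        rcases htwo ρ with rfl | rfl
        · exact one_smul _ _
        · ext
          have h2 := hτv x
          rw [hx] at h2
          exact h2.symm
      obtain ⟨y, hy⟩ := fixed_unit (F := F) ((Additive.toMul x : Us (ovr K V)) : Kˣ) h1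
      have hyV : y ∈ Us V := by
        rw [← l1_j_mem (K := K) hun, hy]
        exact (Additive.toMul x : Us (ovr K V)).2
      refine ⟨Additive.ofMul ⟨y, hyV⟩, ?_⟩
      refine hext _ _ ?_
      rw [hgv, ← hy]
      rfl
  have hrank1 : Module.finrank ℤ (dlt τ).ker.toIntSubmodule =
      Module.finrank ℤ (Additive (Us V)) := by
    have e : Additive (Us V) ≃+ (dlt τ).ker :=
      (AddMonoidHom.ofInjective hginj).trans (AddEquiv.addSubgroupCongr hgr)
    exact (e.toIntLinearEquiv.finrank_eq).symm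
  have hidx : (trc 2 τ).range.relIndex (dlt τ).ker = (NmU K V).relIndex (Us V) := by
    rw [← hgr, ← AddSubgroup.index_comap]
    have e : (trc 2 τ).range.comap g = Subgroup.toAddSubgroup ((NmU K V).subgroupOf (Us V)) := by
      ext x
      have hmem : x ∈ Subgroup.toAddSubgroup ((NmU K V).subgroupOf (Us V)) ↔
          (((Additive.toMul x : Us V) : Fˣ)) ∈ NmU K V := Iff.rfl
      rw [AddSubgroup.mem_comap, AddMonoidHom.mem_range, hmem]
      constructor
      · rintro ⟨y, hy⟩
        refine ⟨((Additive.toMul y : Us (ovr K V)) : Kˣ), fun W hW =>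
          (Additive.toMul y : Us (ovr K V)).2 W (by rwa [mem_ovr]), ?_⟩
        apply (algebraMap F K).injective
        rw [qe_norm_mul h hσ, ← htrc, hy, hgv]
      · rintro ⟨β, hβ, hβ'⟩
        have hβm : β ∈ Us (ovr K V) := fun W hW => hβ W (by rwa [mem_ovr] at hW)
        refine ⟨Additive.ofMul ⟨β, hβm⟩, ?_⟩
        refine hext _ _ ?_
        rw [htrc, hgv, ← hβ', qe_norm_mul h hσ]
        rfl
    rw [e, Subgroup.index_toAddSubgroup]
    rfl
  -- ranks
  have hu1 := us_rank V
  have hu2 := us_rank (ovr K V)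
  have hcard := card_ovr2 h V
  rw [hone, hidx, hrank1, one_mul] at hq
  rw [hrank1] at hr
  refine l1_arith (Fintype.card (PS V)) _ (Module.finrank ℤ (trc 2 τ).ker.toIntSubmodule) _
    (by omega) ?_ (by omega)
  have e1 : Fintype.card (PS V) - 1 = Module.finrank ℤ (Additive (Us V)) := by omega
  rw [e1]
  exact hq

end L1



end Pool.Agent.QR
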