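import Pool.Agent.Lib_helper17.QR.Defs
import Pool.Agent.Lib_helper35.RG.Defs
import Pool.Agent.Lib_helper17.RS.P_XD
import Pool.Agent.Lib_helper17.RS.P_UP1
import Pool.Agent.Lib_helper17.RS.P_UP2
import Pool.Agent.Lib_helper17.QRF.P_QF1
/-!
# QR, block NU: norms of `V`-units
-/

set_option autoImplicit false
set_option linter.unusedSectionVars false
set_option linter.unusedVariables false

namespace Pool.Agent.QR

open Pool.Agent.RSK Pool.Agent.RG
open NumberField IsDedekindDomain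

section Quad

variable {F K : Type} [Field F] [NumberField F] [Field K] [NumberField K] [Algebra F K]
  [IsGalois F K] {a : Fˣ} {α : K}

/-- the valuations of the norm -/
theorem nu_val (W : HeightOneSpectrum (𝓞 K)) (β : Kˣ)
    (h : ∀ σ : K ≃ₐ[F] K, ordv W (σ (β : K)) = 0) :
    ordv (W.under (𝓞 F)) (Algebra.norm F (β : K)) = 0 := by
  have hfin : FiniteDimensional F K := Module.Finite.of_restrictScalars_finite ℚ F K
  have hne : Algebra.norm F (β : K) ≠ 0 := Algebra.norm_ne_zero_iff.2 β.ne_zero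
  rw [xd_ordv_zero _ hne, ← up1_one, Algebra.norm_eq_prod_automorphisms, map_prod]
  refine Finset.prod_eq_one fun σ _ => ?_
  have h1 : σ (β : K) ≠ 0 := (map_ne_zero _).2 β.ne_zero
  exact (xd_ordv_zero W h1).1 (h σ)

/-- conjugates of `V`-units -/
theorem nu_conj (V : Finset (HeightOneSpectrum (𝓞 F))) (β : K)
    (hβ : ∀ W : HeightOneSpectrum (𝓞 K), W.under (𝓞 F) ∉ V → ordv W β = 0)
    (σ : K ≃ₐ[F] K) (W : HeightOneSpectrum (𝓞 K)) (hW : W.under (𝓞 F) ∉ V) :
    ordv W (σ β) = 0 := by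
  obtain ⟨W', rfl⟩ := (HeightOneSpectrum.equivOfRingEquiv
    (RingOfIntegers.mapRingEquiv σ.toRingEquiv)).surjective W
  rw [ordv_act σ W' β]
  refine hβ W' ?_
  rwa [under_equiv σ W'] at hW

theorem nmU_le (V : Finset (HeightOneSpectrum (𝓞 F))) : NmU K V ≤ Us V := by
  rintro x ⟨β, hβ, hN⟩ v hv
  obtain ⟨W, rfl⟩ := up1_surj (H := K) v
  rw [← hN]
  exact nu_val W β fun σ => nu_conj V (β : K) hβ σ W hv

theorem nmU_nm (h : QE F K a α) (V : Finset (HeightOneSpectrum (𝓞 F))) : NmU K V ≤ Nm a := by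
  rintro b ⟨β, hβ, hN⟩
  obtain ⟨x, y, hxy⟩ := qe_basis h (β : K)
  refine ⟨x, y, ?_⟩
  rw [← hN, hxy, qe_norm h]




end Quad

end Pool.Agent.QR
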