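import Pool.Agent.Lib_helper17.QR.Defs
import Pool.Agent.Lib_helper35.RG.Defs
import Pool.Agent.Lib_helper17.QRF.P_DC
import Pool.Agent.Lib_helper17.QRF.P_GV
import Pool.Agent.Lib_helper17.QRF.P_IG
import Pool.Agent.Lib_helper17.QRF.P_L1
import Pool.Agent.Lib_helper17.QRF.P_LO
import Pool.Agent.Lib_helper17.QRF.P_NU
import Pool.Agent.Lib_helper17.QRF.P_QF2
/-!
# Block L2 of QR (MP_dd9835_nt): `V ∪ {t_i}`-units which are squares at `V`
-/

set_option autoImplicit false
set_option linter.unusedSectionVars false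

namespace Pool.Agent.QR

open Pool.Agent.RSK Pool.Agent.RG
open NumberField IsDedekindDomain

section Units

variable {F : Type} [Field F] [NumberField F]

theorem l2_prod {V : Finset (HeightOneSpectrum (𝓞 F))} {k : ℕ} {b : Fin k → Fˣ}
    {t : Fin k → HeightOneSpectrum (𝓞 F)} (hd : Dual V b t) (i : Fin k) (J : Finset (Fin k)) :
    ∏ j ∈ J, b j ∈ Sqf (t i) ↔ i ∉ J := by
  classical
  by_cases hi : i ∈ J
  · have h1 : ∏ j ∈ J.erase i, b j ∈ Sqf (t i) :=
      Subgroup.prod_mem _ fun j hj => (hd.dual i j).2 (Finset.ne_of_mem_erase hj)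
    have h2 : b i ∉ Sqf (t i) := fun h => (hd.dual i i).1 h rfl
    rw [← Finset.mul_prod_erase J b hi, (Sqf (t i)).mul_mem_cancel_right h1]
    exact ⟨fun h => absurd h h2, fun h => absurd hi h⟩
  · refine ⟨fun _ => hi, fun _ => Subgroup.prod_mem _ fun j hj => (hd.dual i j).2 ?_⟩
    rintro rfl
    exact hi hj

theorem l2_mul {v : HeightOneSpectrum (𝓞 F)} (h2 : (2 : 𝓞 F) ∉ v.asIdeal) {c d : Fˣ}
    (hc : ordv v (c : F) = 0) (hd : ordv v (d : F) = 0) :
    c * d ∈ Sqf v ↔ (c ∈ Sqf v ↔ d ∈ Sqf v) := by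
  by_cases h : c ∈ Sqf v
  · rw [(Sqf v).mul_mem_cancel_left h]
    simp [h]
  · by_cases h' : d ∈ Sqf v
    · rw [(Sqf v).mul_mem_cancel_right h']
      simp [h']
    · simp only [h, h', iff_true]
      exact odd_units h2 (by rw [hc]; exact Even.zero) (by rw [hd]; exact Even.zero) h h'

theorem l2_ordv_prod {v : HeightOneSpectrum (𝓞 F)} {ι : Type} (J : Finset ι) (c : ι → Fˣ) :
    ordv v ((∏ j ∈ J, c j : Fˣ) : F) = ∑ j ∈ J, ordv v (c j : F) := by
  classical
  induction J using Finset.induction with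
  | empty => rw [Finset.prod_empty, Finset.sum_empty, Units.val_one, ordv_one]
  | insert j J hj ih => rw [Finset.prod_insert hj, Finset.sum_insert hj, ordv_mul, ih]

/-- Block L2. -/
theorem dual_inj {V : Finset (HeightOneSpectrum (𝓞 F))} (hV : Good V) {k : ℕ} {b : Fin k → Fˣ}
    {t : Fin k → HeightOneSpectrum (𝓞 F)} (hd : Dual V b t) {u : Fˣ} (hu : u ∈ Us (ext2 V t))
    (hs : u ∈ Sqs V) : ∃ y : Fˣ, u = y ^ 2 := by
  classical
  by_contra hcon
  have hns : ∀ y : Fˣ, u ≠ y ^ 2 := fun y hy => hcon ⟨y, hy⟩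
  obtain ⟨K, _, _, _, _, α, h⟩ := qe_exists u hns
  have hsub : V ⊆ ext2 V t := fun v hv => mem_ext2.2 (Or.inl hv)
  have hV2 : Good (ext2 V t) := good_mono hV hsub
  have hL1 := L1 h hV2 fun v hv => by
    rw [hu v hv]
    exact Even.zero
  obtain ⟨htinj, -⟩ := dual_card hd
  have hsq : ∀ P : PS V, u ∈ Sq P.pl := fun P => (Subgroup.mem_iInf.1 hs) P
  have htd : ∀ i, (2 : 𝓞 F) ∉ (t i).asIdeal := fun i h2 => hd.out i (hV.dya _ h2)
  have hge := idx_ge (I := {P : PS (ext2 V t) // u ∉ Sq P.pl}) (NmU K (ext2 V t)) (Us (ext2 V t))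
    (fun P => LN P.1.pl u) (fun P => (nmU_nm h _).trans le_sup_right) ?_ ?_
  · rw [← hL1] at hge
    have h0 : (NmU K (ext2 V t)).relIndex (Us (ext2 V t)) ≠ 0 := by
      intro h0
      rw [h0, mul_zero] at hL1
      exact (pow_ne_zero _ two_ne_zero) hL1.symm
    omega
  · intro e
    -- the local conditions
    let E : Fin k → Prop := fun i => ∀ (h1 : u ∉ Sq (PS.pl (S := ext2 V t)
      (Sum.inr ⟨t i, mem_ext2.2 (Or.inr ⟨i, rfl⟩)⟩))), e ⟨_, h1⟩
    have hcls : ∀ i, ∃ π : Fˣ, ordv (t i) (π : F) = 1 ∧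
        ∀ v : HeightOneSpectrum (𝓞 F), v ∉ V → v ≠ t i → ordv v (π : F) = 0 :=
      fun i => hV.cls (t i) (hd.out i)
    choose π hπ1 hπ2 using hcls
    let N : Finset (Fin k) := Finset.univ.filter fun i => Even (ordv (t i) (u : F)) ∧ ¬ E i
    let x' : Fˣ := ∏ i ∈ N, π i
    let J : Finset (Fin k) := Finset.univ.filter fun i => ¬ (x' ∈ Sqf (t i) ↔ E i)
    have hb0 : ∀ i j, ordv (t i) (b j : F) = 0 := fun i j => hd.mem j (t i) (hd.out i)
    have hbJ : ∀ i, ordv (t i) ((∏ j ∈ J, b j : Fˣ) : F) = 0 := fun i => by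
      rw [l2_ordv_prod]
      exact Finset.sum_eq_zero fun j _ => hb0 i j
    have hx' : ∀ i, ordv (t i) (x' : F) = if i ∈ N then 1 else 0 := by
      intro i
      rw [l2_ordv_prod]
      have : ∀ j ∈ N, ordv (t i) (π j : F) = if j = i then 1 else 0 := by
        intro j _
        by_cases hji : j = i
        · rw [if_pos hji, hji, hπ1]
        · rw [if_neg hji]
          exact hπ2 j (t i) (hd.out i) fun h => hji (htinj h.symm)
      rw [Finset.sum_congr rfl this, Finset.sum_ite_eq']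
    refine ⟨x' * ∏ j ∈ J, b j, ?_, ?_⟩
    · refine (Us _).mul_mem (Subgroup.prod_mem _ fun j _ v hv => ?_)
        (Subgroup.prod_mem _ fun j _ v hv => ?_)
      · refine hπ2 j v (fun h => hv (hsub h)) ?_
        rintro rfl
        exact hv (mem_ext2.2 (Or.inr ⟨j, rfl⟩))
      · exact hd.mem j v fun h => hv (hsub h)
    · rintro ⟨P, hP⟩
      show x' * ∏ j ∈ J, b j ∈ LN P.pl u ↔ e ⟨P, hP⟩
      obtain ⟨i, rfl⟩ : ∃ i, P = (Sum.inr ⟨t i, mem_ext2.2 (Or.inr ⟨i, rfl⟩)⟩ :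
          PS (ext2 V t)) := by
        rcases P with w | ⟨v, hv⟩
        · exact absurd (hsq (Sum.inl w)) hP
        · rcases mem_ext2.1 hv with h1 | ⟨i, rfl⟩
          · exact absurd (hsq (Sum.inr ⟨v, h1⟩)) hP
          · exact ⟨i, rfl⟩
      have hEi : E i ↔ e ⟨_, hP⟩ := ⟨fun h1 => h1 hP, fun h1 _ => h1⟩
      have hP' : u ∉ Sqf (t i) := hP
      show x' * ∏ j ∈ J, b j ∈ LN (Sum.inr (t i)) u ↔ _
      rw [← hEi]
      rcases Int.even_or_odd (ordv (t i) (u : F)) with hev | hodd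
      · rw [odd_inert (htd i) hev hP', ordv_mul, hbJ, add_zero, hx']
        by_cases hE : E i
        · rw [if_neg]
          · simp [hE]
          · intro h1
            exact (Finset.mem_filter.1 h1).2.2 hE
        · rw [if_pos (Finset.mem_filter.2 ⟨Finset.mem_univ _, hev, hE⟩)]
          simp [hE]
      · have hiN : i ∉ N := fun h1 =>
          (Int.not_even_iff_odd.2 hodd) (Finset.mem_filter.1 h1).2.1
        have hx0 : ordv (t i) (x' : F) = 0 := by rw [hx', if_neg hiN]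
        rw [odd_ram (htd i) hodd (by rw [ordv_mul, hbJ, hx0, add_zero]),
          l2_mul (htd i) hx0 (hbJ i), l2_prod hd]
        have hJ : i ∈ J ↔ ¬ (x' ∈ Sqf (t i) ↔ E i) := by
          simp [J]
        rw [hJ]
        tauto
  · intro h0
    rw [h0, mul_zero] at hL1
    exact (pow_ne_zero _ two_ne_zero) hL1.symm



end Units

end Pool.Agent.QR
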