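import Pool.Agent.Lib_helper17.QR.Defs
import Pool.Agent.Lib_helper35.RG.Defs
/-! Block LI of QR: archimedean places. -/

set_option autoImplicit false
set_option linter.unusedSectionVars false

namespace Pool.Agent.QR

open Pool.Agent.RSK Pool.Agent.RG
open NumberField IsDedekindDomain

section LI

variable {F : Type} [Field F] [NumberField F]

theorem li_im {w : InfinitePlace F} (hw : w.IsReal) (x : F) : (w.embedding x).im = 0 := by
  have h3 := InfinitePlace.isReal_iff.1 hw
  have h4 := ComplexEmbedding.isReal_iff.1 h3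
  have h5 := congrArg (fun φ : F →+* ℂ => φ x) h4
  exact Complex.conj_eq_iff_im.1 h5

theorem li_re_ne {w : InfinitePlace F} (hw : w.IsReal) (x : Fˣ) :
    (w.embedding (x : F)).re ≠ 0 := by
  intro h
  have h1 : w.embedding (x : F) = 0 := Complex.ext h (li_im hw _)
  exact x.ne_zero ((map_eq_zero _).1 h1)

theorem li_mem {w : InfinitePlace F} (c : Fˣ) :
    c ∈ Sqi w ↔ (w.IsReal → 0 < (w.embedding (c : F)).re) := Iff.rfl

theorem li_top {w : InfinitePlace F} (hw : ¬ w.IsReal) : Sqi w = ⊤ := by
  rw [eq_top_iff]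
  intro c _
  rw [li_mem]
  intro h
  exact absurd h hw

theorem sqi_index (w : InfinitePlace F) :
    (w.IsReal → (Sqi w).index = 2) ∧ (w.IsComplex → (Sqi w).index = 1) := by
  constructor
  · intro hw
    rw [Subgroup.index_eq_two_iff]
    refine ⟨-1, fun b => ?_⟩
    have hne := li_re_ne hw b
    rw [li_mem, li_mem]
    have e : (w.embedding ((b * -1 : Fˣ) : F)).re = -(w.embedding (b : F)).re := by
      rw [Units.val_mul, Units.val_neg, Units.val_one, mul_neg, mul_one, map_neg, Complex.neg_re]
    rw [e]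
    rcases lt_or_gt_of_ne hne with h | h
    · exact Or.inl ⟨fun _ => by linarith, fun h' => by linarith [h' hw]⟩
    · exact Or.inr ⟨fun _ => h, fun h' => by linarith [h' hw]⟩
  · intro hw
    have h : ¬ w.IsReal := InfinitePlace.not_isReal_iff_isComplex.2 hw
    rw [li_top h, Subgroup.index_top]

theorem ln_inf {w : InfinitePlace F} {a : Fˣ} (h : a ∉ Sqi w) :
    LN (Sum.inl w) a = Sqi w := by
  have hw : w.IsReal := by
    by_contra hw
    rw [li_top hw] at h
    exact h (Subgroup.mem_top _)
  have ha : (w.embedding (a : F)).re < 0 := by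
    rw [li_mem] at h
    push Not at h
    exact lt_of_le_of_ne h.2 (li_re_ne hw a)
  show Sqi w ⊔ Nm a = Sqi w
  rw [sup_eq_left]
  rintro b ⟨x, y, hb⟩
  rw [li_mem]
  intro _
  refine lt_of_le_of_ne ?_ (li_re_ne hw b).symm
  rw [hb, map_sub, map_pow, map_mul, map_pow, Complex.sub_re, pow_two, pow_two, Complex.mul_re,
    Complex.mul_re, Complex.mul_re, Complex.mul_im, li_im hw x, li_im hw y, li_im hw (a : F)]
  nlinarith [mul_self_nonneg (w.embedding x).re, mul_self_nonneg (w.embedding y).re]

end LI




end Pool.Agent.QR
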