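import Pool.Agent.Lib_helper17.QR.Defs
import Pool.Agent.Lib_helper35.RG.Defs
import Pool.Agent.Lib_helper17.QRF.P_LA
/-!
# QR, block LX: `[Fˣ : Sqf v] ≤ 4 (N v)^(v(2))`
-/

set_option autoImplicit false
set_option linter.unusedSectionVars false
set_option linter.unusedVariables false

namespace Pool.Agent.QR

open Pool.Agent.RSK Pool.Agent.RG
open NumberField IsDedekindDomain

section Loc

variable {F : Type} [Field F] [NumberField F]

theorem lx_prime (v : HeightOneSpectrum (𝓞 F)) {a b : 𝓞 F} {m : ℕ}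
    (h : a * b ∈ v.asIdeal ^ (2 * m + 1)) :
    a ∈ v.asIdeal ^ (m + 1) ∨ b ∈ v.asIdeal ^ (m + 1) := by
  by_contra hc
  push Not at hc
  obtain ⟨h1, h2⟩ := hc
  rw [← v.intValuation_le_pow_iff_mem, map_mul] at h
  rw [← v.intValuation_le_pow_iff_mem, not_le] at h1 h2
  have ha : v.intValuation a ≠ 0 := (lt_of_le_of_lt zero_le h1).ne'
  have hb : v.intValuation b ≠ 0 := (lt_of_le_of_lt zero_le h2).ne'
  rw [← WithZero.exp_log ha] at h h1
  rw [← WithZero.exp_log hb] at h h2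
  rw [← WithZero.exp_add, WithZero.exp_le_exp] at h
  rw [WithZero.exp_lt_exp] at h1 h2
  push_cast at h h1 h2
  omega

theorem lx_card (v : HeightOneSpectrum (𝓞 F)) (n : ℕ) :
    Nat.card (𝓞 F ⧸ v.asIdeal ^ n) = nv v ^ n := by
  have h : Ideal.absNorm (v.asIdeal ^ n) = nv v ^ n := by rw [map_pow]; rfl
  rw [← h, Ideal.absNorm_apply, Submodule.cardQuot_apply]

theorem lx_pow_ne (v : HeightOneSpectrum (𝓞 F)) (n : ℕ) : v.asIdeal ^ n ≠ ⊥ :=
  pow_ne_zero n v.ne_bot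

theorem lx_finite (v : HeightOneSpectrum (𝓞 F)) (n : ℕ) : Finite (𝓞 F ⧸ v.asIdeal ^ n) :=
  Ideal.finiteQuotientOfFreeOfNeBot _ (lx_pow_ne v n)

theorem lx_ker (v : HeightOneSpectrum (𝓞 F)) (m : ℕ)
    (f : (𝓞 F ⧸ v.asIdeal ^ (2 * m + 1)) →+* (𝓞 F ⧸ v.asIdeal ^ (m + 1)))
    (hf : Function.Surjective f) : Nat.card f.toAddMonoidHom.ker = nv v ^ m := by
  have hq : 0 < nv v := by
    rw [Nat.pos_iff_ne_zero]
    unfold nv
    rw [Ne, Ideal.absNorm_eq_zero_iff]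
    exact v.ne_bot
  have h1 := AddSubgroup.card_mul_index f.toAddMonoidHom.ker
  rw [AddSubgroup.index_ker, lx_card] at h1
  have h2 : Nat.card f.toAddMonoidHom.range = nv v ^ (m + 1) := by
    have h3 : f.toAddMonoidHom.range = ⊤ := AddMonoidHom.range_eq_top.2 hf
    rw [h3, AddSubgroup.card_top, lx_card]
  rw [h2] at h1
  refine Nat.eq_of_mul_eq_mul_right (pow_pos hq (m + 1)) ?_
  rw [h1, ← pow_add]
  congr 1
  omega

theorem lx_index (v : HeightOneSpectrum (𝓞 F)) (m : ℕ) :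
    (powMonoidHom 2 : (𝓞 F ⧸ v.asIdeal ^ (2 * m + 1))ˣ →*
      (𝓞 F ⧸ v.asIdeal ^ (2 * m + 1))ˣ).range.index ≤ 2 * nv v ^ m := by
  classical
  have := lx_finite v (2 * m + 1)
  have hle : v.asIdeal ^ (2 * m + 1) ≤ v.asIdeal ^ (m + 1) := Ideal.pow_le_pow_right (by omega)
  set f := Ideal.Quotient.factor hle with hfd
  have hf : Function.Surjective f := Ideal.Quotient.factor_surjective hle
  have hk := lx_ker v m f hf
  rw [Subgroup.index_range]
  have hx : ∀ x : (𝓞 F ⧸ v.asIdeal ^ (2 * m + 1))ˣ, x ^ 2 = 1 →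
      f (x : 𝓞 F ⧸ v.asIdeal ^ (2 * m + 1)) = 1 ∨ f (x : 𝓞 F ⧸ v.asIdeal ^ (2 * m + 1)) = -1 := by
    intro x hx
    obtain ⟨a, ha⟩ := Ideal.Quotient.mk_surjective (x : 𝓞 F ⧸ v.asIdeal ^ (2 * m + 1))
    have h1 : (x : 𝓞 F ⧸ v.asIdeal ^ (2 * m + 1)) ^ 2 = 1 := by
      rw [← Units.val_pow_eq_pow_val, hx, Units.val_one]
    have h2 : (a - 1) * (a + 1) ∈ v.asIdeal ^ (2 * m + 1) := by
      rw [← Ideal.Quotient.eq_zero_iff_mem]
      have e : (a - 1) * (a + 1) = a ^ 2 - 1 := by ring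
      rw [e, map_sub, map_pow, ha, h1, map_one, sub_self]
    rcases lx_prime v h2 with h | h
    · left
      rw [← ha, hfd, Ideal.Quotient.factor_mk]
      rw [← Ideal.Quotient.eq_zero_iff_mem, map_sub, map_one, sub_eq_zero] at h
      exact h
    · right
      rw [← ha, hfd, Ideal.Quotient.factor_mk]
      rw [← Ideal.Quotient.eq_zero_iff_mem, map_add, map_one] at h
      exact eq_neg_of_add_eq_zero_left h
  have hc : Nat.card (f.toAddMonoidHom.ker × Bool) = 2 * nv v ^ m := by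
    rw [Nat.card_prod, hk, mul_comm]
    simp
  rw [← hc]
  let Φ : (powMonoidHom 2 : (𝓞 F ⧸ v.asIdeal ^ (2 * m + 1))ˣ →*
      (𝓞 F ⧸ v.asIdeal ^ (2 * m + 1))ˣ).ker → f.toAddMonoidHom.ker × Bool := fun x =>
    if h : f ((x : (𝓞 F ⧸ v.asIdeal ^ (2 * m + 1))ˣ) : 𝓞 F ⧸ v.asIdeal ^ (2 * m + 1)) = 1 then
      (⟨((x : (𝓞 F ⧸ v.asIdeal ^ (2 * m + 1))ˣ) : 𝓞 F ⧸ v.asIdeal ^ (2 * m + 1)) - 1, by
        show f _ = 0
        rw [map_sub, h, map_one, sub_self]⟩, true)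
    else
      (⟨((x : (𝓞 F ⧸ v.asIdeal ^ (2 * m + 1))ˣ) : 𝓞 F ⧸ v.asIdeal ^ (2 * m + 1)) + 1, by
        show f _ = 0
        have h' := (hx x.1 x.2).resolve_left h
        rw [map_add, h', map_one, neg_add_cancel]⟩, false)
  have : Finite (f.toAddMonoidHom.ker × Bool) := inferInstance
  refine Nat.card_le_card_of_injective Φ ?_
  intro x y hxy
  apply Subtype.ext
  apply Units.ext
  by_cases h1 : f ((x : (𝓞 F ⧸ v.asIdeal ^ (2 * m + 1))ˣ) : 𝓞 F ⧸ v.asIdeal ^ (2 * m + 1)) = 1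
  · by_cases h2 : f ((y : (𝓞 F ⧸ v.asIdeal ^ (2 * m + 1))ˣ) : 𝓞 F ⧸ v.asIdeal ^ (2 * m + 1)) = 1
    · simp only [Φ, dif_pos h1, dif_pos h2, Prod.mk.injEq, Subtype.mk.injEq, sub_left_inj] at hxy
      exact hxy.1
    · simp only [Φ, dif_pos h1, dif_neg h2, Prod.mk.injEq, Bool.true_eq_false, and_false] at hxy
  · by_cases h2 : f ((y : (𝓞 F ⧸ v.asIdeal ^ (2 * m + 1))ˣ) : 𝓞 F ⧸ v.asIdeal ^ (2 * m + 1)) = 1
    · simp only [Φ, dif_neg h1, dif_pos h2, Prod.mk.injEq, Bool.false_eq_true, and_false] at hxy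
    · simp only [Φ, dif_neg h1, dif_neg h2, Prod.mk.injEq, Subtype.mk.injEq, add_left_inj] at hxy
      exact hxy.1

/-- units modulo `v^N` lift to `v`-units -/
theorem lx_unit (v : HeightOneSpectrum (𝓞 F)) {N : ℕ} (hN : N ≠ 0) (a : 𝓞 F) :
    IsUnit (Ideal.Quotient.mk (v.asIdeal ^ N) a) ↔ a ∉ v.asIdeal := by
  constructor
  · rintro h ha
    obtain ⟨b, hb⟩ := h.exists_right_inv
    obtain ⟨b, rfl⟩ := Ideal.Quotient.mk_surjective b
    rw [← map_mul, ← sub_eq_zero, ← map_one (Ideal.Quotient.mk (v.asIdeal ^ N)), ← map_sub,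
      Ideal.Quotient.eq_zero_iff_mem] at hb
    have h1 := Ideal.pow_le_self hN hb
    have h2 : (1 : 𝓞 F) ∈ v.asIdeal := by
      have e : (1 : 𝓞 F) = a * b - (a * b - 1) := by ring
      rw [e]
      exact sub_mem (Ideal.mul_mem_right _ _ ha) h1
    exact v.isPrime.ne_top ((Ideal.eq_top_iff_one _).2 h2)
  · intro ha
    have := v.isMaximal
    have h1 : IsCoprime (Ideal.span {a}) v.asIdeal := by
      obtain ⟨y, i, hi, hyi⟩ := v.isMaximal.exists_inv ha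
      exact Ideal.isCoprime_iff_exists.2 ⟨y * a, Ideal.mem_span_singleton'.2 ⟨y, rfl⟩, i, hi, hyi⟩
    have h2 : IsCoprime (Ideal.span {a}) (v.asIdeal ^ N) := h1.pow_right
    obtain ⟨i, hi, j, hj, hij⟩ := Ideal.isCoprime_iff_exists.1 h2
    obtain ⟨b, rfl⟩ := Ideal.mem_span_singleton'.1 hi
    refine IsUnit.of_mul_eq_one (Ideal.Quotient.mk _ b) ?_
    rw [← map_mul, ← sub_eq_zero, ← map_one (Ideal.Quotient.mk (v.asIdeal ^ N)), ← map_sub,
      Ideal.Quotient.eq_zero_iff_mem, ← hij]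
    have e : a * b - (b * a + j) = -j := by ring
    rw [e]
    exact neg_mem hj

/-- two `v`-units are in the same class if their difference is small -/
theorem lx_mk {v : HeightOneSpectrum (𝓞 F)} {a b y : Fˣ} (ha : v.valuation F (a : F) = 1)
    (h : v.valuation F ((a : F) - (b : F) * (y : F) ^ 2) < v.valuation F 4) :
    (a : Fˣ)⁻¹ * b ∈ Sqf v := by
  refine ⟨y, ?_⟩
  have e : ((a⁻¹ * b : Fˣ) : F) * (y : F) ^ 2 - 1 = -((a : F) - (b : F) * (y : F) ^ 2) * (a : F)⁻¹ := by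
    have h0 := a.ne_zero
    rw [Units.val_mul, Units.val_inv_eq_inv_val]
    field_simp
    ring
  rw [e, map_mul, Valuation.map_neg, map_inv₀, ha, inv_one, mul_one]
  exact h

theorem lx_val_two (v : HeightOneSpectrum (𝓞 F)) :
    v.valuation F 4 = WithZero.exp (-((2 * (ordv v (2 : F)).toNat : ℕ) : ℤ)) := by
  have h2 : v.valuation F 2 ≠ 0 := (map_ne_zero _).2 two_ne_zero
  have h1 : v.valuation F 2 ≤ 1 := by
    have h : v.valuation F (algebraMap (𝓞 F) F 2) ≤ 1 := v.valuation_le_one 2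
    rwa [map_ofNat] at h
  have h3 : WithZero.log (v.valuation F 2) ≤ 0 := by
    rw [← WithZero.exp_log h2, ← WithZero.exp_zero, WithZero.exp_le_exp] at h1
    exact h1
  have h4 : ((ordv v (2 : F)).toNat : ℤ) = -WithZero.log (v.valuation F 2) := by
    unfold ordv
    rw [Int.toNat_of_nonneg]
    omega
  have e : (4 : F) = 2 * 2 := by norm_num
  rw [e, map_mul]
  conv_lhs => rw [← WithZero.exp_log h2]
  rw [← WithZero.exp_add]
  congr 1
  push_cast
  rw [h4]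
  ring

theorem lx_lift (v : HeightOneSpectrum (𝓞 F)) {N : ℕ} (hN : N ≠ 0)
    (g : (𝓞 F ⧸ v.asIdeal ^ N)ˣ) :
    ∃ (L : Fˣ) (a : 𝓞 F), (L : F) = algebraMap (𝓞 F) F a ∧
      Ideal.Quotient.mk (v.asIdeal ^ N) a = g ∧ v.valuation F (L : F) = 1 := by
  obtain ⟨a, ha⟩ := Ideal.Quotient.mk_surjective (g : 𝓞 F ⧸ v.asIdeal ^ N)
  have hu : a ∉ v.asIdeal := (lx_unit v hN a).1 (ha ▸ g.isUnit)
  have ha0 : a ≠ 0 := fun h => hu (h ▸ zero_mem _)
  have ha1 : algebraMap (𝓞 F) F a ≠ 0 := by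
    rw [Ne, FaithfulSMul.algebraMap_eq_zero_iff]
    exact ha0
  exact ⟨Units.mk0 _ ha1, a, rfl, ha, v.valuation_eq_one_iff_notMem.2 hu⟩

theorem sqf_index_le (v : HeightOneSpectrum (𝓞 F)) :
    (Sqf v).index ≠ 0 ∧ (Sqf v).index ≤ 4 * nv v ^ (ordv v (2 : F)).toNat := by
  classical
  set m := (ordv v (2 : F)).toNat with hm
  have h4 : v.valuation F 4 = WithZero.exp (-((2 * m : ℕ) : ℤ)) := lx_val_two v
  have hN : 2 * m + 1 ≠ 0 := by omega
  have := lx_finite v (2 * m + 1)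
  choose L A hLA hA hL using lx_lift v hN
  obtain ⟨π', hπ'⟩ := v.valuation_exists_uniformizer F
  have hπ0 : π' ≠ 0 := by
    rintro rfl
    rw [map_zero] at hπ'
    exact WithZero.exp_ne_zero hπ'.symm
  set π : Fˣ := Units.mk0 π' hπ0 with hπd
  have hπ : v.valuation F (π : F) = WithZero.exp (-1 : ℤ) := hπ'
  set Q := (powMonoidHom 2 : (𝓞 F ⧸ v.asIdeal ^ (2 * m + 1))ˣ →*
      (𝓞 F ⧸ v.asIdeal ^ (2 * m + 1))ˣ).range with hQ
  let Ψ : ((𝓞 F ⧸ v.asIdeal ^ (2 * m + 1))ˣ ⧸ Q) × Bool → Fˣ ⧸ Sqf v := fun p =>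
    QuotientGroup.mk (π ^ (if p.2 then 1 else 0 : ℕ) * L p.1.out)
  have hΨ : Function.Surjective Ψ := by
    intro x
    obtain ⟨x, rfl⟩ := QuotientGroup.mk_surjective x
    have hx0 : v.valuation F (x : F) ≠ 0 := (map_ne_zero _).2 x.ne_zero
    -- the parity of the valuation
    obtain ⟨j, b, hjb⟩ : ∃ (j : ℤ) (b : Bool),
        -WithZero.log (v.valuation F (x : F)) = ((if b then 1 else 0 : ℕ) : ℤ) + 2 * j := by
      rcases Int.even_or_odd' (-WithZero.log (v.valuation F (x : F))) with ⟨j, hj | hj⟩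
      · exact ⟨j, false, by rw [hj]; simp⟩
      · exact ⟨j, true, by rw [hj]; simp; ring⟩
    set ε : ℕ := if b then 1 else 0 with hε
    set u : Fˣ := x * (π ^ ε)⁻¹ * (π ^ (-j)) ^ 2 with hu
    have hu1 : v.valuation F (u : F) = 1 := by
      rw [hu]
      simp only [Units.val_mul, Units.val_inv_eq_inv_val, Units.val_pow_eq_pow_val,
        Units.val_zpow_eq_zpow_val, map_mul, map_inv₀, map_pow, map_zpow₀, hπ]
      rw [← WithZero.exp_log hx0, ← WithZero.exp_nsmul, ← WithZero.exp_zsmul, ← WithZero.exp_nsmul,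
        ← WithZero.exp_neg, ← WithZero.exp_add, ← WithZero.exp_add, ← WithZero.exp_zero]
      congr 1
      simp only [nsmul_eq_mul, zsmul_eq_mul, Int.cast_id, Nat.cast_ofNat]
      have := hjb
      linarith
    obtain ⟨a, ha⟩ := v.exists_valuation_sub_lt_of_integer hu1.le
      (Units.mk0 (v.valuation F 4) ((map_ne_zero _).2 (by norm_num)))
    rw [Units.val_mk0] at ha
    have h41 : v.valuation F 4 ≤ 1 := by
      rw [h4, ← WithZero.exp_zero, WithZero.exp_le_exp]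
      omega
    have hav : v.valuation F (algebraMap (𝓞 F) F a) = 1 := by
      have e : algebraMap (𝓞 F) F a = (algebraMap (𝓞 F) F a - u) + u := by ring
      rw [e, Valuation.map_add_eq_of_lt_right _ (by rw [hu1]; exact ha.trans_le h41), hu1]
    have hau : a ∉ v.asIdeal := v.valuation_eq_one_iff_notMem.1 hav
    obtain ⟨g, hg⟩ := (lx_unit v hN a).2 hau
    obtain ⟨k, hk⟩ : ∃ k : (𝓞 F ⧸ v.asIdeal ^ (2 * m + 1))ˣ,
        g = (QuotientGroup.mk g : (𝓞 F ⧸ v.asIdeal ^ (2 * m + 1))ˣ ⧸ Q).out * k ^ 2 := by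
      have h1 : (QuotientGroup.mk ((QuotientGroup.mk g :
          (𝓞 F ⧸ v.asIdeal ^ (2 * m + 1))ˣ ⧸ Q).out) : (𝓞 F ⧸ v.asIdeal ^ (2 * m + 1))ˣ ⧸ Q) =
          QuotientGroup.mk g := QuotientGroup.out_eq' _
      rw [QuotientGroup.eq] at h1
      obtain ⟨k, hk⟩ := h1
      refine ⟨k, ?_⟩
      have hk' : k ^ 2 = ((QuotientGroup.mk g :
          (𝓞 F ⧸ v.asIdeal ^ (2 * m + 1))ˣ ⧸ Q).out)⁻¹ * g := hk
      rw [hk', mul_inv_cancel_left]
    set g' := (QuotientGroup.mk g : (𝓞 F ⧸ v.asIdeal ^ (2 * m + 1))ˣ ⧸ Q).out with hg'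
    refine ⟨(QuotientGroup.mk g, b), ?_⟩
    show QuotientGroup.mk (π ^ ε * L g') = QuotientGroup.mk x
    symm
    rw [QuotientGroup.eq]
    -- `u⁻¹ L g' ∈ Sqf v`
    have hmem : a - A g' * A k ^ 2 ∈ v.asIdeal ^ (2 * m + 1) := by
      rw [← Ideal.Quotient.eq_zero_iff_mem, map_sub, map_mul, map_pow, hA, hA, ← hg,
        ← Units.val_pow_eq_pow_val, ← Units.val_mul, ← hk, sub_self]
    have hv1 : v.valuation F (algebraMap (𝓞 F) F a - (L g' : F) * (L k : F) ^ 2) <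
        v.valuation F 4 := by
      rw [hLA, hLA, ← map_pow, ← map_mul, ← map_sub, v.valuation_of_algebraMap]
      refine lt_of_le_of_lt ((v.intValuation_le_pow_iff_mem _ _).2 hmem) ?_
      rw [h4, WithZero.exp_lt_exp]
      push_cast
      omega
    have hv2 : v.valuation F ((u : F) - (L g' : F) * (L k : F) ^ 2) < v.valuation F 4 := by
      have e : (u : F) - (L g' : F) * (L k : F) ^ 2 =
          -(algebraMap (𝓞 F) F a - u) + (algebraMap (𝓞 F) F a - (L g' : F) * (L k : F) ^ 2) := by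
        ring
      rw [e]
      refine Valuation.map_add_lt _ ?_ hv1
      rw [Valuation.map_neg]
      exact ha
    have hS := lx_mk hu1 hv2
    have e : x⁻¹ * (π ^ ε * L g') = (u⁻¹ * L g') * (π ^ (-j)) ^ 2 := by
      rw [hu]
      simp only [mul_inv, inv_inv, zpow_neg, inv_pow]
      have h : x⁻¹ * π ^ ε * (π ^ j) ^ 2 * L g' * ((π ^ j) ^ 2)⁻¹ =
          x⁻¹ * (π ^ ε * L g') * ((π ^ j) ^ 2 * ((π ^ j) ^ 2)⁻¹) := by
        simp only [mul_comm, mul_left_comm, mul_assoc]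
      rw [h, mul_inv_cancel, mul_one]
    rw [e]
    exact (Sqf v).mul_mem hS (sq_mem (Sum.inr v) _)
  have hfin : Finite (((𝓞 F ⧸ v.asIdeal ^ (2 * m + 1))ˣ ⧸ Q) × Bool) := inferInstance
  have hfin2 : Finite (Fˣ ⧸ Sqf v) := Finite.of_surjective Ψ hΨ
  constructor
  · exact Nat.card_pos.ne'
  · calc (Sqf v).index ≤ Nat.card (((𝓞 F ⧸ v.asIdeal ^ (2 * m + 1))ˣ ⧸ Q) × Bool) :=
        Nat.card_le_card_of_surjective Ψ hΨ
      _ = Q.index * 2 := by
        rw [Nat.card_prod]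
        simp [Subgroup.index]
      _ ≤ (2 * nv v ^ m) * 2 := Nat.mul_le_mul_right _ (lx_index v m)
      _ = 4 * nv v ^ m := by ring



end Loc

end Pool.Agent.QR
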