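import Pool.Agent.Lib_helper17.QR.Defs
import Pool.Agent.Lib_helper35.RG.Defs
import Pool.Agent.Lib_helper17.QRF.P_LI
import Pool.Agent.Lib_helper17.QRF.P_LX
set_option autoImplicit false

namespace Pool.Agent.QR

open Pool.Agent.RSK Pool.Agent.RG
open NumberField IsDedekindDomain

section LV

variable {F : Type} [Field F] [NumberField F]

/-- `ord_v(2)` is the exponent of `v` in the factorisation of the ideal `(2)`. -/
theorem lv_ord (v : HeightOneSpectrum (𝓞 F)) :
    (ordv v (2 : F)).toNat =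
      (Associates.mk v.asIdeal).count (Associates.mk (Ideal.span {(2 : 𝓞 F)})).factors := by
  have h : v.valuation F (2 : F) = v.intValuation (2 : 𝓞 F) := by
    have h1 := HeightOneSpectrum.valuation_of_algebraMap (K := F) v (2 : 𝓞 F)
    have h2 : algebraMap (𝓞 F) F (2 : 𝓞 F) = (2 : F) := map_ofNat _ 2
    rw [← h1]
    exact congrArg _ h2.symm
  unfold ordv
  rw [h, HeightOneSpectrum.intValuation_if_neg v (by norm_num)]
  simp

theorem lv_span_ne : (Ideal.span {(2 : 𝓞 F)}) ≠ 0 := by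
  simp

theorem lv_fac {V : Finset (HeightOneSpectrum (𝓞 F))}
    (hV : ∀ v : HeightOneSpectrum (𝓞 F), (2 : 𝓞 F) ∈ v.asIdeal → v ∈ V) :
    ∏ v ∈ V, v.maxPowDividing (Ideal.span {(2 : 𝓞 F)}) = Ideal.span {(2 : 𝓞 F)} := by
  classical
  rw [← finprod_eq_prod_of_mulSupport_subset]
  · exact Ideal.finprod_heightOneSpectrum_factorization lv_span_ne
  · intro v hv
    refine Finset.mem_coe.2 (hV v ?_)
    by_contra hc
    apply hv
    have h0 : (Associates.mk v.asIdeal).count
        (Associates.mk (Ideal.span {(2 : 𝓞 F)})).factors = 0 := by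
      by_contra h1
      have := (Associates.count_ne_zero_iff_dvd lv_span_ne v.irreducible).1 h1
      exact hc (Ideal.dvd_span_singleton.1 this)
    change v.asIdeal ^ _ = 1
    rw [h0, pow_zero]

theorem lv_norm {V : Finset (HeightOneSpectrum (𝓞 F))}
    (hV : ∀ v : HeightOneSpectrum (𝓞 F), (2 : 𝓞 F) ∈ v.asIdeal → v ∈ V) :
    ∏ v ∈ V, nv v ^ (ordv v (2 : F)).toNat = 2 ^ Module.finrank ℚ F := by
  have h1 := congrArg Ideal.absNorm (lv_fac hV)
  rw [map_prod] at h1
  have h2 : (Ideal.span {(2 : 𝓞 F)}).absNorm = 2 ^ Module.finrank ℤ (𝓞 F) := by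
    have := Ideal.absNorm_span_natCast (S := 𝓞 F) 2
    exact_mod_cast this
  rw [h2, RingOfIntegers.rank] at h1
  rw [← h1]
  refine Finset.prod_congr rfl fun v _ => ?_
  unfold HeightOneSpectrum.maxPowDividing nv
  rw [lv_ord, map_pow]

theorem lv_inf : ∏ w : InfinitePlace F, (Sqi w).index = 2 ^ InfinitePlace.nrRealPlaces F := by
  classical
  have h : ∀ w : InfinitePlace F, (Sqi w).index = if w.IsReal then 2 else 1 := by
    intro w
    split_ifs with hw
    · exact (sqi_index w).1 hw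
    · exact (sqi_index w).2 (InfinitePlace.not_isReal_iff_isComplex.1 hw)
  rw [Finset.prod_congr rfl fun w _ => h w, Finset.prod_ite, Finset.prod_const,
    Finset.prod_const_one, mul_one]
  congr 1
  rw [InfinitePlace.nrRealPlaces, Fintype.card_subtype]

theorem lv_cardInf : Fintype.card (InfinitePlace F) =
    InfinitePlace.nrRealPlaces F + InfinitePlace.nrComplexPlaces F := by
  exact InfinitePlace.card_eq_nrRealPlaces_add_nrComplexPlaces F

theorem sqs_index_le {V : Finset (HeightOneSpectrum (𝓞 F))}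
    (hV : ∀ v : HeightOneSpectrum (𝓞 F), (2 : 𝓞 F) ∈ v.asIdeal → v ∈ V) :
    (Sqs V).index ≠ 0 ∧ (Sqs V).index ≤ 4 ^ Fintype.card (PS V) := by
  have hne : ∀ P : PS V, (Sq P.pl).index ≠ 0 := by
    rintro (w | v)
    · change (Sqi w).index ≠ 0
      by_cases hw : w.IsReal
      · rw [(sqi_index w).1 hw]; norm_num
      · rw [(sqi_index w).2 (InfinitePlace.not_isReal_iff_isComplex.1 hw)]; norm_num
    · exact (sqf_index_le v.1).1
  refine ⟨Subgroup.index_iInf_ne_zero hne, ?_⟩
  have h1 : (Sqs V).index ≤ ∏ P : PS V, (Sq P.pl).index := Subgroup.index_iInf_le _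
  have h2 : ∏ P : PS V, (Sq P.pl).index =
      (∏ w : InfinitePlace F, (Sqi w).index) * ∏ v : V, (Sqf v.1).index := by
    rw [Fintype.prod_sum_type]
    rfl
  have h3 : ∏ v : V, (Sqf v.1).index ≤ 4 ^ V.card * 2 ^ Module.finrank ℚ F := by
    calc ∏ v : V, (Sqf v.1).index ≤ ∏ v : V, (4 * nv v.1 ^ (ordv v.1 (2 : F)).toNat) :=
          Finset.prod_le_prod' fun v _ => (sqf_index_le v.1).2
      _ = 4 ^ V.card * 2 ^ Module.finrank ℚ F := by
          rw [Finset.prod_coe_sort V fun v => 4 * nv v ^ (ordv v (2 : F)).toNat,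
            Finset.prod_mul_distrib, Finset.prod_const, lv_norm hV]
  have h4 : Fintype.card (PS V) = InfinitePlace.nrRealPlaces F + InfinitePlace.nrComplexPlaces F +
      V.card := by
    rw [Fintype.card_sum, lv_cardInf, Fintype.card_coe]
  calc (Sqs V).index ≤ ∏ P : PS V, (Sq P.pl).index := h1
    _ = 2 ^ InfinitePlace.nrRealPlaces F * ∏ v : V, (Sqf v.1).index := by rw [h2, lv_inf]
    _ ≤ 2 ^ InfinitePlace.nrRealPlaces F * (4 ^ V.card * 2 ^ Module.finrank ℚ F) :=
        Nat.mul_le_mul_left _ h3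
    _ = 4 ^ Fintype.card (PS V) := by
        rw [h4, ← InfinitePlace.card_add_two_mul_card_eq_rank F]
        rw [show (4 : ℕ) = 2 ^ 2 by norm_num, ← pow_mul, ← pow_mul, ← pow_add, ← pow_add]
        congr 1
        ring

end LV



end Pool.Agent.QR
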