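import Pool.Agent.Lib_helper17.QR.Defs
import Pool.Agent.Lib_helper35.RG.Defs
import Pool.Agent.Lib_helper17.QRF.P_DC
import Pool.Agent.Lib_helper17.QRF.P_L2
import Pool.Agent.Lib_helper17.QRF.P_LV
import Pool.Agent.Lib_helper17.QRF.P_UB
/-!
# Block L4 (QR): `dual_surj`
-/

set_option autoImplicit false
set_option linter.unusedSectionVars false

namespace Pool.Agent.QR

open Pool.Agent.RSK Pool.Agent.RG
open NumberField IsDedekindDomain

section Units

variable {F : Type} [Field F] [NumberField F]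

/-- Counting: if `S ∩ U` consists of elements of `N` and `[A : S] ≤ [U : U ∩ N]`, then `A = S U`. -/
theorem l4_count {A : Type} [CommGroup A] (N S U : Subgroup A) (h : S ⊓ U ≤ N)
    (h0 : S.index ≠ 0) (hle : S.index ≤ N.relIndex U) : S ⊔ U = ⊤ := by
  have h1 : N.relIndex U ∣ S.relIndex U := by
    rw [← Subgroup.inf_relIndex_right S U]
    exact Subgroup.relIndex_dvd_of_le_left U h
  have h2 : S.relIndex (S ⊔ U) * (S ⊔ U).index = S.index :=
    Subgroup.relIndex_mul_index le_sup_left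
  rw [Subgroup.relIndex_sup_left] at h2
  have h3 : S.relIndex U ≠ 0 := by
    intro h3
    rw [h3, zero_mul] at h2
    exact h0 h2.symm
  have h4 : N.relIndex U ≤ S.relIndex U := Nat.le_of_dvd (Nat.pos_of_ne_zero h3) h1
  have h5 : (S ⊔ U).index ≠ 0 := by
    intro h5
    rw [h5, mul_zero] at h2
    exact h0 h2.symm
  have h6 : S.relIndex U * (S ⊔ U).index ≤ S.relIndex U * 1 := by
    rw [h2, mul_one]
    exact hle.trans h4
  have h7 : (S ⊔ U).index ≤ 1 := Nat.le_of_mul_le_mul_left h6 (Nat.pos_of_ne_zero h3)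
  exact Subgroup.index_eq_one.1 (le_antisymm h7 (Nat.pos_of_ne_zero h5))

/-- Block L4. `Us V₂ / squares` embeds in `Fˣ / Sqs V` (`dual_inj`), it has order `2^{2k} = 4^k`
(`us_sq_index`, `dual_card`), and `[Fˣ : Sqs V] ≤ 4^k` (`sqs_index_le`). -/
theorem dual_surj {V : Finset (HeightOneSpectrum (𝓞 F))} (hV : Good V) {k : ℕ} {b : Fin k → Fˣ}
    {t : Fin k → HeightOneSpectrum (𝓞 F)} (hd : Dual V b t) (x : Fˣ) :
    ∃ u ∈ Us (ext2 V t), x * u ∈ Sqs V := by
  obtain ⟨h0, h1⟩ := sqs_index_le hV.dya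
  have h2 := us_sq_index (ext2 V t)
  rw [(dual_card hd).2] at h2
  have htop := l4_count ((powMonoidHom 2 : Fˣ →* Fˣ).range) (Sqs V) (Us (ext2 V t))
    (by
      rintro u ⟨hu1, hu2⟩
      obtain ⟨y, hy⟩ := dual_inj hV hd hu2 hu1
      exact ⟨y, hy.symm⟩) h0 (by
      rw [h2, pow_mul]
      rw [hd.card] at h1
      exact h1)
  have hx : x ∈ Sqs V ⊔ Us (ext2 V t) := by
    rw [htop]
    exact Subgroup.mem_top x
  obtain ⟨s, hs, u, hu, rfl⟩ := Subgroup.mem_sup.1 hx
  exact ⟨u⁻¹, inv_mem hu, by rwa [mul_inv_cancel_right]⟩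

end Units



end Pool.Agent.QR
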