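import Pool.Agent.Lib_helper17.QR.Defs
import Pool.Agent.Lib_helper35.RG.Defs
import Pool.Agent.Lib_helper17.QRF.P_DU
import Pool.Agent.Lib_helper17.QRF.P_L4
import Pool.Agent.Lib_helper17.QRF.P_LA
/-!
# Block C2 (QR): `c2_main`
-/

set_option autoImplicit false
set_option linter.unusedSectionVars false

namespace Pool.Agent.QR

open Pool.Agent.RSK Pool.Agent.RG
open NumberField IsDedekindDomain

section Prod

variable {F : Type} [Field F] [NumberField F]

/-- a unit outside `V` and the `t i` is in `Ev V (b i₀)` if and only if its valuation at `t i₀` is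
even -/
theorem c2_ev {V : Finset (HeightOneSpectrum (𝓞 F))} {k : ℕ} {b : Fin k → Fˣ}
    {t : Fin k → HeightOneSpectrum (𝓞 F)} (hd : Dual V b t) (i₀ : Fin k) {u : Fˣ}
    (hu : u ∈ Us (ext2 V t)) (he : Even (ordv (t i₀) (u : F))) : u ∈ Ev V (b i₀) := by
  intro s hs has
  by_cases h : s ∈ ext2 V t
  · rcases mem_ext2.1 h with h1 | ⟨i, rfl⟩
    · exact absurd h1 hs
    · have h2 : i₀ = i := by
        by_contra h3
        exact has ((hd.dual i i₀).2 h3)
      rw [← h2]
      exact he
  · rw [hu s h]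
    exact Even.zero

/-- Block C2. `Wa V a` has index at most 2: for `a` not a square choose an inert `t` and a dual
system with `t i₀ = t`; `x u ∈ Sqs V` with `u ∈ Us V₂` (`dual_surj`), and `u ∈ Ev V a` iff
`ordv t u` is even (the other `t i` are split). -/
theorem c2_main {V : Finset (HeightOneSpectrum (𝓞 F))} (hV : Good V) {a : Fˣ} (ha : a ∈ Us V)
    {x y : Fˣ} (hx : x ∉ Wa V a) (hy : y ∉ Wa V a) : x * y ∈ Wa V a := by
  by_cases hsq : ∃ z : Fˣ, a = z ^ 2
  · obtain ⟨z, hz⟩ := hsq
    refine absurd ?_ hx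
    refine Subgroup.mem_sup_right ?_
    intro s _ has
    refine absurd ?_ has
    rw [hz]
    exact sq_mem (Sum.inr s) z
  · push Not at hsq
    obtain ⟨t₀, ht, -, -, hat⟩ := inert_exists a hsq V
    obtain ⟨k, b, t, i₀, hd, hb, ht0, -⟩ := dual_exists hV ha ht hat ∅
    obtain ⟨u, hu, hxu⟩ := dual_surj hV hd x
    obtain ⟨w, hw, hyw⟩ := dual_surj hV hd y
    have key : ∀ {x u : Fˣ}, x ∉ Wa V a → u ∈ Us (ext2 V t) → x * u ∈ Sqs V →
        Odd (ordv (t i₀) (u : F)) := by
      intro x u hx hu hxu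
      rw [← Int.not_even_iff_odd]
      intro he
      refine hx ?_
      have h1 : u ∈ Ev V a := by
        rw [← hb]
        exact c2_ev hd i₀ hu he
      have h2 : x = (x * u) * u⁻¹ := by rw [mul_inv_cancel_right]
      rw [h2]
      exact mul_mem (Subgroup.mem_sup_left hxu) (inv_mem (Subgroup.mem_sup_right h1))
    have h1 := key hx hu hxu
    have h2 := key hy hw hyw
    have h3 : u * w ∈ Ev V a := by
      rw [← hb]
      refine c2_ev hd i₀ (mul_mem hu hw) ?_
      rw [ordv_mul]
      exact h1.add_odd h2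
    have h4 : x * y = (x * u) * (y * w) * (u * w)⁻¹ := by
      rw [mul_mul_mul_comm, mul_inv_cancel_right]
    rw [h4]
    exact mul_mem (mul_mem (Subgroup.mem_sup_left hxu) (Subgroup.mem_sup_left hyw))
      (inv_mem (Subgroup.mem_sup_right h3))

end Prod



end Pool.Agent.QR
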