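import Pool.Agent.Lib_helper17.QR.Defs
import Pool.Agent.Lib_helper35.RG.Defs
set_option autoImplicit false

namespace Pool.Agent.QR

open Pool.Agent.RSK Pool.Agent.RG
open NumberField IsDedekindDomain

variable {F : Type} [Field F] [NumberField F]

theorem ng_two {v : HeightOneSpectrum (𝓞 F)} (h2 : (2 : 𝓞 F) ∈ v.asIdeal) :
    v.valuation F 2 < 1 := by
  have h : v.valuation F (algebraMap (𝓞 F) F 2) < 1 := (v.valuation_lt_one_iff_mem 2).2 h2
  rwa [map_ofNat] at h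

theorem ng_four (v : HeightOneSpectrum (𝓞 F)) :
    v.valuation F 4 = v.valuation F 2 * v.valuation F 2 := by
  rw [← map_mul]
  norm_num

theorem ng_two_ne (v : HeightOneSpectrum (𝓞 F)) : v.valuation F 2 ≠ 0 :=
  (map_ne_zero _).2 (by norm_num)

theorem ng_ord_lt (v : HeightOneSpectrum (𝓞 F)) {x y : F} (hx : x ≠ 0) (hy : y ≠ 0) :
    ordv v x < ordv v y ↔ v.valuation F y < v.valuation F x := by
  unfold ordv
  rw [neg_lt_neg_iff, WithZero.log_lt_log ((map_ne_zero _).2 hy) ((map_ne_zero _).2 hx)]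

theorem ng_ord_mul (v : HeightOneSpectrum (𝓞 F)) {x y : F} (hx : x ≠ 0) (hy : y ≠ 0) :
    ordv v (x * y) = ordv v x + ordv v y := by
  unfold ordv
  rw [map_mul, WithZero.log_mul ((map_ne_zero _).2 hx) ((map_ne_zero _).2 hy)]
  ring

/-- Block NG: `1 + 4 ρ` with `ρ ≡ t² + t` is a square. -/
theorem dya_sq {v : HeightOneSpectrum (𝓞 F)} {c : Fˣ} {ρ t : F} (hc : (c : F) = 1 + 4 * ρ)
    (ht : v.valuation F t ≤ 1) (h : v.valuation F (ρ - (t ^ 2 + t)) < 1) (h0 : (2 : 𝓞 F) ∈ v.asIdeal) :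
    c ∈ Sqf v := by
  have h2 := ng_two h0
  have h2t : v.valuation F (2 * t) < 1 := by
    rw [map_mul]
    exact mul_lt_one_of_lt_of_le h2 ht
  have h1 : v.valuation F (1 + 2 * t) = 1 := by
    rw [Valuation.map_add_eq_of_lt_left _ (by rwa [map_one]), map_one]
  have hne : 1 + 2 * t ≠ 0 := by
    intro h3
    rw [h3, map_zero] at h1
    exact zero_ne_one h1
  refine ⟨(Units.mk0 _ hne)⁻¹, ?_⟩
  have e : (c : F) * (((Units.mk0 _ hne)⁻¹ : Fˣ) : F) ^ 2 - 1 =
      4 * (ρ - (t ^ 2 + t)) * ((1 + 2 * t)⁻¹) ^ 2 := by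
    rw [hc, Units.val_inv_eq_inv_val, Units.val_mk0]
    field_simp
    ring
  rw [e, map_mul, map_mul, map_pow, map_inv₀, h1, inv_one, one_pow, mul_one]
  have h4 : 0 < v.valuation F 4 := by
    rw [zero_lt_iff]
    exact (map_ne_zero _).2 (by norm_num)
  calc v.valuation F 4 * v.valuation F (ρ - (t ^ 2 + t)) < v.valuation F 4 * 1 :=
        (mul_lt_mul_iff_right₀ h4).2 h
    _ = _ := mul_one _

/-- Block NG: there is a `ρ` which is not of the form `t² + t` modulo `v` -/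
theorem dya_rho {v : HeightOneSpectrum (𝓞 F)} (h2 : (2 : 𝓞 F) ∈ v.asIdeal) :
    ∃ ρ : F, v.valuation F ρ ≤ 1 ∧ ∀ t : F, v.valuation F t ≤ 1 →
      v.valuation F (ρ - (t ^ 2 + t)) = 1 := by
  have hfin : Finite (𝓞 F ⧸ v.asIdeal) := Ideal.finiteQuotientOfFreeOfNeBot v.asIdeal v.ne_bot
  have hnt : (1 : 𝓞 F ⧸ v.asIdeal) ≠ 0 := by
    intro h
    have : (1 : 𝓞 F) ∈ v.asIdeal := by
      rw [← Ideal.Quotient.eq_zero_iff_mem, map_one]
      exact h
    exact v.isPrime.ne_top ((Ideal.eq_top_iff_one _).2 this)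
  have h20 : (2 : 𝓞 F ⧸ v.asIdeal) = 0 := by
    have h := Ideal.Quotient.eq_zero_iff_mem.2 h2
    rwa [map_ofNat] at h
  have hns : ¬ Function.Surjective (fun t : 𝓞 F ⧸ v.asIdeal => t ^ 2 + t) := by
    intro hs
    have hi := Finite.injective_iff_surjective.2 hs
    apply hnt
    apply hi
    change (1 : 𝓞 F ⧸ v.asIdeal) ^ 2 + 1 = 0 ^ 2 + 0
    rw [one_pow, one_add_one_eq_two, h20]
    ring
  rw [Function.Surjective] at hns
  push Not at hns
  obtain ⟨r', hr'⟩ := hns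
  obtain ⟨r, rfl⟩ := Ideal.Quotient.mk_surjective r'
  refine ⟨algebraMap (𝓞 F) F r, v.valuation_le_one r, fun t ht => ?_⟩
  obtain ⟨a, ha⟩ := v.exists_valuation_sub_lt_of_integer ht 1
  rw [Units.val_one] at ha
  have h1 : v.valuation F (algebraMap (𝓞 F) F (r - (a ^ 2 + a))) = 1 := by
    rw [v.valuation_eq_one_iff_notMem]
    intro hm
    apply hr' (Ideal.Quotient.mk _ a)
    have h3 := Ideal.Quotient.eq_zero_iff_mem.2 hm
    rw [map_sub, sub_eq_zero] at h3
    rw [h3]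
    simp
  have h2' : v.valuation F ((algebraMap (𝓞 F) F a - t) * (algebraMap (𝓞 F) F a + t + 1)) < 1 := by
    rw [map_mul]
    refine mul_lt_one_of_lt_of_le ha ?_
    refine (Valuation.map_add_le _ (Valuation.map_add_le _ (v.valuation_le_one a) ht) ?_)
    rw [map_one]
  have e : algebraMap (𝓞 F) F r - (t ^ 2 + t) = algebraMap (𝓞 F) F (r - (a ^ 2 + a)) +
      (algebraMap (𝓞 F) F a - t) * (algebraMap (𝓞 F) F a + t + 1) := by
    simp only [map_sub, map_add, map_pow]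
    ring
  rw [e, Valuation.map_add_eq_of_lt_left _ (by rwa [h1]), h1]

/-- Block NG (the FACT): `v(s² - 1) < v(4)` implies `v(s² - 1)` even: `s² - 1 = z (z + 2)`. -/
theorem dya_fact {v : HeightOneSpectrum (𝓞 F)} (h2 : (2 : 𝓞 F) ∈ v.asIdeal) {s d : Fˣ}
    (hd : (d : F) = (s : F) ^ 2 - 1) (hs : 0 ≤ ordv v (s : F))
    (h : ordv v (d : F) < 2 * ordv v (2 : F)) : Even (ordv v (d : F)) := by
  have hdz : (d : F) = ((s : F) - 1) * ((s : F) - 1 + 2) := by rw [hd]; ring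
  have hd0 := d.ne_zero
  have hz : (s : F) - 1 ≠ 0 := by
    intro h0; rw [hdz, h0, zero_mul] at hd0; exact hd0 rfl
  have hz2 : (s : F) - 1 + 2 ≠ 0 := by
    intro h0; rw [hdz, h0, mul_zero] at hd0; exact hd0 rfl
  rw [hdz, ng_ord_mul v hz hz2] at h ⊢
  rcases lt_or_ge (v.valuation F 2) (v.valuation F ((s : F) - 1)) with h3 | h3
  · have h4 : v.valuation F ((s : F) - 1 + 2) = v.valuation F ((s : F) - 1) :=
      Valuation.map_add_eq_of_lt_left _ h3
    have h5 : ordv v ((s : F) - 1 + 2) = ordv v ((s : F) - 1) := by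
      unfold ordv; rw [h4]
    rw [h5]
    exact ⟨_, rfl⟩
  · exfalso
    have h4 : v.valuation F ((s : F) - 1 + 2) ≤ v.valuation F 2 := Valuation.map_add_le _ h3 le_rfl
    have h20 : (2 : F) ≠ 0 := by norm_num
    have h5 : ordv v (2 : F) ≤ ordv v ((s : F) - 1) := by
      by_contra h6
      push Not at h6
      rw [ng_ord_lt v hz h20] at h6
      exact absurd h6 (not_lt.2 h3)
    have h6 : ordv v (2 : F) ≤ ordv v ((s : F) - 1 + 2) := by
      by_contra h6
      push Not at h6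
      rw [ng_ord_lt v hz2 h20] at h6
      exact absurd h6 (not_lt.2 h4)
    omega





end Pool.Agent.QR
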