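import Pool.Agent.Lib_helper17.QR.Defs
import Pool.Agent.Lib_helper35.RG.Defs
import Pool.Agent.Lib_helper17.QRF.P_NG
set_option autoImplicit false

namespace Pool.Agent.QR

open Pool.Agent.RSK Pool.Agent.RG
open NumberField IsDedekindDomain

variable {F : Type} [Field F] [NumberField F]

theorem n1_two {v : HeightOneSpectrum (𝓞 F)} (h2 : (2 : 𝓞 F) ∈ v.asIdeal) :
    v.valuation F 2 < 1 := by
  have h : v.valuation F (algebraMap (𝓞 F) F 2) < 1 := (v.valuation_lt_one_iff_mem 2).2 h2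
  rwa [map_ofNat] at h

theorem n1_four (v : HeightOneSpectrum (𝓞 F)) :
    v.valuation F 4 = v.valuation F 2 * v.valuation F 2 := by
  rw [← map_mul]
  norm_num

theorem n1_ord_lt (v : HeightOneSpectrum (𝓞 F)) {x y : F} (hx : x ≠ 0) (hy : y ≠ 0) :
    ordv v x < ordv v y ↔ v.valuation F y < v.valuation F x := by
  unfold ordv
  rw [neg_lt_neg_iff, WithZero.log_lt_log ((map_ne_zero _).2 hy) ((map_ne_zero _).2 hx)]

theorem n1_ord_mul (v : HeightOneSpectrum (𝓞 F)) {x y : F} (hx : x ≠ 0) (hy : y ≠ 0) :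
    ordv v (x * y) = ordv v x + ordv v y := by
  unfold ordv
  rw [map_mul, WithZero.log_mul ((map_ne_zero _).2 hx) ((map_ne_zero _).2 hy)]
  ring

theorem n1_ord_eq (v : HeightOneSpectrum (𝓞 F)) {x y : F}
    (h : v.valuation F x = v.valuation F y) : ordv v x = ordv v y := by
  unfold ordv; rw [h]

/-- if `z² + 2 z` has valuation at most `v(4)`, then `v(z) ≤ v(2)` (multiplicatively) -/
theorem n1_half (v : HeightOneSpectrum (𝓞 F)) {z : F}
    (h : v.valuation F (z ^ 2 + 2 * z) ≤ v.valuation F 4) : v.valuation F z ≤ v.valuation F 2 := by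
  by_contra h1
  push Not at h1
  have h3 : v.valuation F (2 * z) < v.valuation F (z ^ 2) := by
    have hz : 0 < v.valuation F z := lt_of_le_of_lt zero_le h1
    rw [map_mul, map_pow, sq]
    exact (mul_lt_mul_iff_left₀ hz).2 h1
  rw [Valuation.map_add_eq_of_lt_left _ h3, map_pow, sq, n1_four] at h
  exact absurd h (not_le.2 (mul_lt_mul'' h1 h1 zero_le zero_le))

/-- the case of a global equation -/
theorem n1_core {v : HeightOneSpectrum (𝓞 F)} (h2 : (2 : 𝓞 F) ∈ v.asIdeal) {a : Fˣ}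
    (ha : Odd (ordv v (a : F))) {ρ : F} (hρ : v.valuation F ρ ≤ 1)
    (hρ' : ∀ t : F, v.valuation F t ≤ 1 → v.valuation F (ρ - (t ^ 2 + t)) = 1) {x y : F}
    (hb : 1 + 4 * ρ = x ^ 2 - a * y ^ 2) : False := by
  have h21 := n1_two h2
  have h20 : (2 : F) ≠ 0 := by norm_num
  have h40 : (4 : F) ≠ 0 := by norm_num
  have ha0 := a.ne_zero
  have h4ρ : v.valuation F (4 * ρ) ≤ v.valuation F 4 := by
    rw [map_mul]
    exact mul_le_of_le_one_right' hρ
  have h41 : v.valuation F 4 < 1 := by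
    rw [n1_four]
    exact mul_lt_one_of_lt_of_le h21 h21.le
  have h1 : v.valuation F (1 + 4 * ρ) = 1 := by
    rw [Valuation.map_add_eq_of_lt_left _ (by rw [map_one]; exact h4ρ.trans_lt h41), map_one]
  -- a contradiction in the case of a small `a y²`
  have key : v.valuation F (a * y ^ 2) < v.valuation F 4 → False := by
    intro hy
    have e : (x - 1) ^ 2 + 2 * (x - 1) = 4 * ρ + a * y ^ 2 := by
      have : x ^ 2 = 1 + 4 * ρ + a * y ^ 2 := by rw [hb]; ring
      linear_combination this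
    have h3 : v.valuation F ((x - 1) ^ 2 + 2 * (x - 1)) ≤ v.valuation F 4 := by
      rw [e]
      exact Valuation.map_add_le _ h4ρ hy.le
    have h4 := n1_half v h3
    have h5 : v.valuation F ((x - 1) / 2) ≤ 1 := by
      rw [map_div₀]
      exact div_le_one_of_le₀ h4 zero_le
    have h6 := hρ' _ h5
    have e2 : ρ - (((x - 1) / 2) ^ 2 + (x - 1) / 2) = -(a * y ^ 2 / 4) := by
      linear_combination (-1 / 4 : F) * e
    rw [e2, Valuation.map_neg, map_div₀] at h6
    have h7 : v.valuation F (a * y ^ 2) / v.valuation F 4 < 1 := by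
      rw [div_lt_one₀ (lt_of_le_of_lt zero_le hy)]
      exact hy
    exact absurd h6 h7.ne
  by_cases hy0 : y = 0
  · apply key
    rw [hy0]
    rw [zero_pow two_ne_zero, mul_zero, map_zero, zero_lt_iff]
    exact (map_ne_zero _).2 h40
  have hay0 : (a : F) * y ^ 2 ≠ 0 := mul_ne_zero ha0 (pow_ne_zero 2 hy0)
  have hodd : Odd (ordv v ((a : F) * y ^ 2)) := by
    rw [n1_ord_mul v ha0 (pow_ne_zero 2 hy0), sq, n1_ord_mul v hy0 hy0]
    exact ha.add_even ⟨_, rfl⟩
  -- `v(x) = 1`
  have hay1 : v.valuation F ((a : F) * y ^ 2) ≠ 1 := by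
    intro h3
    have h4 : ordv v ((a : F) * y ^ 2) = 0 := by unfold ordv; rw [h3]; simp
    rw [h4] at hodd
    exact absurd hodd (by decide)
  have hx0 : x ≠ 0 := by
    intro h3
    rw [hb, h3, zero_pow two_ne_zero, zero_sub, Valuation.map_neg] at h1
    exact hay1 h1
  have hx2 : Even (ordv v (x ^ 2)) := by
    rw [sq, n1_ord_mul v hx0 hx0]; exact ⟨_, rfl⟩
  have hne : v.valuation F (x ^ 2) ≠ v.valuation F ((a : F) * y ^ 2) := by
    intro h3
    rw [n1_ord_eq v h3] at hx2
    exact (Int.not_even_iff_odd.2 hodd) hx2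
  have hmax : v.valuation F (x ^ 2 - a * y ^ 2) =
      max (v.valuation F (x ^ 2)) (v.valuation F ((a : F) * y ^ 2)) := by
    rw [sub_eq_add_neg, Valuation.map_add_of_distinct_val _ (by rwa [Valuation.map_neg]),
      Valuation.map_neg]
  rw [← hb, h1] at hmax
  have hay : v.valuation F ((a : F) * y ^ 2) < 1 :=
    lt_of_le_of_ne (by rw [hmax]; exact le_max_right _ _) hay1
  have hx1 : v.valuation F (x ^ 2) = 1 := by
    rcases max_choice (v.valuation F (x ^ 2)) (v.valuation F ((a : F) * y ^ 2)) with h3 | h3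
    · rw [← h3, ← hmax]
    · rw [h3] at hmax
      exact absurd hmax.symm hay1
  rcases lt_trichotomy (v.valuation F ((a : F) * y ^ 2)) (v.valuation F 4) with h3 | h3 | h3
  · exact key h3
  · have h4 := n1_ord_eq v h3
    have h5 : Even (ordv v (4 : F)) := by
      have : (4 : F) = 2 * 2 := by norm_num
      rw [this, n1_ord_mul v h20 h20]; exact ⟨_, rfl⟩
    rw [h4] at hodd
    exact (Int.not_even_iff_odd.2 hodd) h5
  · -- the FACT
    have e : x ^ 2 - 1 = 4 * ρ + a * y ^ 2 := by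
      linear_combination -hb
    have h4 : v.valuation F (x ^ 2 - 1) = v.valuation F ((a : F) * y ^ 2) := by
      rw [e, Valuation.map_add_eq_of_lt_right _ (h4ρ.trans_lt h3)]
    have hd0 : x ^ 2 - 1 ≠ 0 := by
      intro h5
      rw [h5, map_zero] at h4
      exact hay0 ((map_eq_zero _).1 h4.symm)
    have h5 := dya_fact h2 (s := Units.mk0 x hx0) (d := Units.mk0 _ hd0) rfl (by
      rw [Units.val_mk0]
      have h6 : v.valuation F x ≤ 1 := by
        by_contra h7
        push Not at h7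
        rw [map_pow] at hx1
        exact absurd hx1 (one_lt_pow₀ h7 two_ne_zero).ne'
      unfold ordv
      have h8 : WithZero.log (v.valuation F x) ≤ 0 := by
        rw [WithZero.log_le_iff_le_exp ((map_ne_zero _).2 hx0)]
        simpa using h6
      omega) (by
      rw [Units.val_mk0]
      have h6 : ordv v (4 : F) = 2 * ordv v (2 : F) := by
        have : (4 : F) = 2 * 2 := by norm_num
        rw [this, n1_ord_mul v h20 h20]; ring
      rw [← h6, n1_ord_lt v hd0 h40, h4]
      exact h3)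
    rw [Units.val_mk0, n1_ord_eq v h4] at h5
    exact (Int.not_even_iff_odd.2 hodd) h5

/-- Block N1: `v(a)` odd: `1 + 4 ρ` is not a local norm (`ρ` as in `dya_rho`). -/
theorem dya_non1 {v : HeightOneSpectrum (𝓞 F)} (h2 : (2 : 𝓞 F) ∈ v.asIdeal) {a : Fˣ}
    (ha : Odd (ordv v (a : F))) {ρ : F} (hρ : v.valuation F ρ ≤ 1)
    (hρ' : ∀ t : F, v.valuation F t ≤ 1 → v.valuation F (ρ - (t ^ 2 + t)) = 1) {b : Fˣ}
    (hb : (b : F) = 1 + 4 * ρ) : b ∉ LN (Sum.inr v) a := by
  intro hmem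
  unfold LN at hmem
  obtain ⟨s, hs, n, hn, hsn⟩ := Subgroup.mem_sup.1 hmem
  have hs' : s ∈ Sqf v := hs
  obtain ⟨c, hc⟩ := (Sqf v).inv_mem hs'
  obtain ⟨x, y, hxy⟩ := hn
  have h21 := n1_two h2
  have h40 : (4 : F) ≠ 0 := by norm_num
  have h40' : v.valuation F 4 ≠ 0 := (map_ne_zero _).2 h40
  set ε : F := ((s⁻¹ : Fˣ) : F) * (c : F) ^ 2 - 1 with hε
  have h1ρ : v.valuation F (1 + 4 * ρ) ≤ 1 := by
    refine Valuation.map_add_le _ (by rw [map_one]) ?_
    rw [map_mul]
    refine mul_le_one' ?_ hρ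
    rw [n1_four]
    exact mul_le_one' h21.le h21.le
  have hδ : v.valuation F (ε * (1 + 4 * ρ) / 4) < 1 := by
    rw [map_div₀, map_mul, div_lt_one₀ (zero_lt_iff.2 h40')]
    calc v.valuation F ε * v.valuation F (1 + 4 * ρ) ≤ v.valuation F ε * 1 := by gcongr
      _ < _ := by rw [mul_one]; exact hc
  have hbn : (b : F) = (s : F) * n := by rw [← hsn, Units.val_mul]
  have hs0 := s.ne_zero
  refine n1_core h2 ha (ρ := ρ + ε * (1 + 4 * ρ) / 4) (x := c * x) (y := c * y)
    (Valuation.map_add_le _ hρ hδ.le) ?_ ?_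
  · intro t ht
    have e : ρ + ε * (1 + 4 * ρ) / 4 - (t ^ 2 + t) = (ρ - (t ^ 2 + t)) + ε * (1 + 4 * ρ) / 4 := by
      ring
    rw [e, Valuation.map_add_eq_of_lt_left _ (by rw [hρ' t ht]; exact hδ), hρ' t ht]
  · have e : 1 + 4 * (ρ + ε * (1 + 4 * ρ) / 4) = (1 + ε) * (1 + 4 * ρ) := by
      field_simp
      ring
    rw [e, ← hb, hbn, hxy, hε, Units.val_inv_eq_inv_val]
    field_simp
    ring



end Pool.Agent.QR
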