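import Pool.Agent.Lib_helper17.QR.Defs
import Pool.Agent.Lib_helper35.RG.Defs
import Pool.Agent.Lib_helper17.QRF.P_LA
import Pool.Agent.Lib_helper17.QRF.P_NG
/-!
# QR, block N2 (dyadic places, `a = 1 + α`)
-/

set_option autoImplicit false
set_option linter.unusedSectionVars false
set_option linter.unusedVariables false

namespace Pool.Agent.QR

open Pool.Agent.RSK
open NumberField IsDedekindDomain

section Loc

variable {F : Type} [Field F] [NumberField F]

theorem n2_om (v : HeightOneSpectrum (𝓞 F)) {x y : F} (hx : x ≠ 0) (hy : y ≠ 0) :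
    ordv v (x * y) = ordv v x + ordv v y := ordv_mul v (Units.mk0 x hx) (Units.mk0 y hy)

theorem n2_ov (v : HeightOneSpectrum (𝓞 F)) {x : F} (hx : x ≠ 0) :
    v.valuation F x = WithZero.exp (-ordv v x) := by
  rw [ordv, neg_neg, WithZero.exp_log ((map_ne_zero _).2 hx)]

theorem n2_od (v : HeightOneSpectrum (𝓞 F)) {x y : F} (hx : x ≠ 0) (hy : y ≠ 0) :
    ordv v (x / y) = ordv v x - ordv v y := by
  have h := n2_om v (div_ne_zero hx hy) hy
  rw [div_mul_cancel₀ _ hy] at h
  omega

theorem n2_o1 (v : HeightOneSpectrum (𝓞 F)) {x : F} (h : v.valuation F x = 1) :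
    ordv v x = 0 := by
  rw [ordv, h, WithZero.log_one, neg_zero]

theorem n2_lt (v : HeightOneSpectrum (𝓞 F)) {x y : F} (hx : x ≠ 0) (hy : y ≠ 0)
    (h : ordv v x < ordv v y) : v.valuation F y < v.valuation F x := by
  rw [n2_ov v hx, n2_ov v hy, WithZero.exp_lt_exp]
  omega

theorem n2_lt1 (v : HeightOneSpectrum (𝓞 F)) {x : F} (hx : x ≠ 0) (h : 0 < ordv v x) :
    v.valuation F x < 1 := by
  rw [n2_ov v hx, ← WithZero.exp_zero, WithZero.exp_lt_exp]
  omega

theorem n2_add (v : HeightOneSpectrum (𝓞 F)) {x y : F} (hx : x ≠ 0)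
    (h : v.valuation F y < v.valuation F x) : x + y ≠ 0 ∧ ordv v (x + y) = ordv v x := by
  have h1 := Valuation.map_add_eq_of_lt_left _ h
  refine ⟨fun h0 => ?_, by rw [ordv, ordv, h1]⟩
  rw [h0, map_zero] at h1
  exact hx ((map_eq_zero _).1 h1.symm)

/-- the square of an integral element minus 1 -/
theorem n2_fact {v : HeightOneSpectrum (𝓞 F)} (h2 : (2 : 𝓞 F) ∈ v.asIdeal) {s : F} (hs : s ≠ 0)
    (h0 : 0 ≤ ordv v s) (hd : s ^ 2 - 1 ≠ 0) (h : ordv v (s ^ 2 - 1) < 2 * ordv v (2 : F)) :
    Even (ordv v (s ^ 2 - 1)) :=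
  dya_fact (s := Units.mk0 s hs) (d := Units.mk0 _ hd) h2 rfl h0 h

theorem n2_core {v : HeightOneSpectrum (𝓞 F)} (h2 : (2 : 𝓞 F) ∈ v.asIdeal) {α ρ X Y : F}
    (hα0 : α ≠ 0) (hα : Odd (ordv v α)) (h0 : 0 < ordv v α) (h1 : ordv v α < 2 * ordv v (2 : F))
    (hρ' : ∀ t : F, v.valuation F t ≤ 1 → v.valuation F (ρ - (t ^ 2 + t)) = 1)
    (hE : 1 + 4 / α * ρ = X ^ 2 - (1 + α) * Y ^ 2) : False := by
  have h20 : (2 : F) ≠ 0 := two_ne_zero
  have h40 : (4 : F) ≠ 0 := by norm_num
  have h4 : ordv v (4 : F) = 2 * ordv v (2 : F) := by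
    have : (4 : F) = 2 * 2 := by norm_num
    rw [this, n2_om v h20 h20]
    ring
  set e : ℤ := ordv v (2 : F) with he
  set m : ℤ := ordv v α with hm
  have hVρ : v.valuation F ρ = 1 := by
    have h := hρ' 0 (by rw [map_zero]; exact zero_le_one)
    simpa using h
  have hρ0 : ρ ≠ 0 := by
    rintro rfl
    rw [map_zero] at hVρ
    exact zero_ne_one hVρ
  have h4α : (4 / α : F) ≠ 0 := div_ne_zero h40 hα0
  set β : F := 4 / α * ρ with hβ
  have hβ0 : β ≠ 0 := mul_ne_zero h4α hρ0
  have hβv : ordv v β = 2 * e - m := by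
    rw [hβ, n2_om v h4α hρ0, n2_od v h40 hα0, n2_o1 v hVρ, h4]
    ring
  have hβ1 : v.valuation F β < 1 := n2_lt1 v hβ0 (by omega)
  have hB := n2_add v (one_ne_zero (α := F)) (y := β) (by rw [map_one]; exact hβ1)
  have ho1 : ordv v (1 : F) = 0 := ordv_one v
  rw [ho1] at hB
  obtain ⟨hB0, hBv⟩ := hB
  obtain ⟨m', hm'⟩ := hα
  by_cases hY : Y = 0
  · -- `Y = 0`
    rw [hY, zero_pow two_ne_zero, mul_zero, sub_zero] at hE
    have hX : X ≠ 0 := by
      rintro rfl
      rw [zero_pow two_ne_zero] at hE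
      exact hB0 hE
    have hXv : ordv v (X ^ 2) = 2 * ordv v X := by
      rw [sq, n2_om v hX hX]
      ring
    rw [hE, hXv] at hBv
    have hd : X ^ 2 - 1 = β := by rw [← hE]; ring
    have h3 := n2_fact h2 hX (by omega) (by rw [hd]; exact hβ0) (by rw [hd, hβv]; omega)
    rw [hd, hβv] at h3
    obtain ⟨r, hr⟩ := h3
    omega
  · have hYv : ordv v (Y ^ 2) = 2 * ordv v Y := by
      rw [sq, n2_om v hY hY]
      ring
    by_cases hz : X = Y
    · -- `z = 0`
      have h3 : 1 + β = -(α * Y ^ 2) := by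
        rw [hE, hz]
        ring
      have h4' : ordv v (1 + β) = m + 2 * ordv v Y := by
        rw [h3, ordv, Valuation.map_neg, ← ordv, n2_om v hα0 (pow_ne_zero 2 hY), hYv]
      omega
    · -- the general case
      set z : F := X / Y - 1 with hzd
      have hz0 : z ≠ 0 := by
        intro h
        rw [hzd, sub_eq_zero, div_eq_one_iff_eq hY] at h
        exact hz h
      set w : F := 1 / z with hw
      have hw0 : w ≠ 0 := one_div_ne_zero hz0
      set s : F := Y * z with hs
      have hs0 : s ≠ 0 := mul_ne_zero hY hz0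
      set u : F := 2 * w - α * w ^ 2 with hu
      have hsu : 1 + β = s ^ 2 * (1 + u) := by
        have hX : X = Y * (1 + z) := by
          rw [hzd]
          field_simp
          ring
        have hwz : w * z = 1 := by
          rw [hw]
          field_simp
        rw [hE, hX, hs, hu]
        have e1 : (Y * z) ^ 2 * (1 + (2 * w - α * w ^ 2)) =
            Y ^ 2 * (z ^ 2 + 2 * (w * z) * z - α * (w * z) ^ 2) := by ring
        rw [e1, hwz]
        ring
      set W : ℤ := ordv v w with hW
      have hsv : ordv v (s ^ 2) = 2 * ordv v s := by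
        rw [sq, n2_om v hs0 hs0]
        ring
      have hw2 : ordv v (w ^ 2) = 2 * W := by
        rw [sq, n2_om v hw0 hw0]
        ring
      have h2w : ordv v (2 * w) = e + W := n2_om v h20 hw0
      have hαw : ordv v (α * w ^ 2) = m + 2 * W := by
        rw [n2_om v hα0 (pow_ne_zero 2 hw0), hw2]
      have h2w0 : (2 * w : F) ≠ 0 := mul_ne_zero h20 hw0
      have hαw0 : α * w ^ 2 ≠ 0 := mul_ne_zero hα0 (pow_ne_zero 2 hw0)
      have hnαw0 : -(α * w ^ 2) ≠ 0 := neg_ne_zero.2 hαw0
      have hnαw : ordv v (-(α * w ^ 2)) = m + 2 * W := by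
        rw [ordv, Valuation.map_neg, ← ordv, hαw]
      -- the valuation of `u` if `W < e - m`
      have hu1 : W < e - m → u ≠ 0 ∧ ordv v u = m + 2 * W := by
        intro h
        have h3 := n2_add v hnαw0 (y := 2 * w) (by
          refine n2_lt v hnαw0 h2w0 ?_
          rw [hnαw, h2w]
          omega)
        rw [hnαw] at h3
        have e1 : -(α * w ^ 2) + 2 * w = u := by rw [hu]; ring
        rw [e1] at h3
        exact h3
      rcases lt_trichotomy (2 * W) (-m) with h3 | h3 | h3
      · -- (A)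
        obtain ⟨hu0, huv⟩ := hu1 (by omega)
        have h5 := n2_add v hu0 (y := 1) (n2_lt v hu0 one_ne_zero (by rw [huv, ho1]; omega))
        rw [add_comm u 1, huv] at h5
        have h6 : ordv v (s ^ 2 * (1 + u)) = 2 * ordv v s + (m + 2 * W) := by
          rw [n2_om v (pow_ne_zero 2 hs0) h5.1, hsv, h5.2]
        rw [← hsu, hBv] at h6
        omega
      · omega
      · -- (B)
        have hu2 : v.valuation F u < 1 := by
          rw [hu, sub_eq_add_neg]
          refine Valuation.map_add_lt _ (n2_lt1 v h2w0 (by omega)) ?_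
          exact n2_lt1 v hnαw0 (by omega)
        obtain ⟨h1u0, h1uv⟩ := n2_add v (one_ne_zero (α := F)) (y := u)
          (by rw [map_one]; exact hu2)
        rw [ho1] at h1uv
        have hsv0 : ordv v s = 0 := by
          have h6 : ordv v (s ^ 2 * (1 + u)) = 2 * ordv v s := by
            rw [n2_om v (pow_ne_zero 2 hs0) h1u0, hsv, h1uv, add_zero]
          rw [← hsu, hBv] at h6
          omega
        have hd : s ^ 2 - 1 = (β - u) / (1 + u) := by
          rw [eq_div_iff h1u0, sub_mul, ← hsu]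
          ring
        -- it suffices that `v(β - u)` is odd and `< 2 e`
        have key : β - u ≠ 0 → Odd (ordv v (β - u)) → ordv v (β - u) < 2 * e → False := by
          intro k0 k1 k2
          have k3 : ordv v (s ^ 2 - 1) = ordv v (β - u) := by
            rw [hd, n2_od v k0 h1u0, h1uv, sub_zero]
          have k4 := n2_fact h2 hs0 hsv0.ge (by rw [hd]; exact div_ne_zero k0 h1u0)
            (by rw [k3]; exact k2)
          rw [k3] at k4
          exact (Int.not_even_iff_odd.2 k1) k4
        by_cases h7 : W < e - m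
        · -- (B1)
          obtain ⟨hu0, huv⟩ := hu1 h7
          have hnu0 : -u ≠ 0 := neg_ne_zero.2 hu0
          have hnuv : ordv v (-u) = m + 2 * W := by
            rw [ordv, Valuation.map_neg, ← ordv, huv]
          have h8 := n2_add v hnu0 (y := β) (n2_lt v hnu0 hβ0 (by rw [hnuv, hβv]; omega))
          have e1 : -u + β = β - u := by ring
          rw [e1, hnuv] at h8
          refine key h8.1 ?_ (by rw [h8.2]; omega)
          rw [h8.2]
          exact ⟨m' + W, by omega⟩
        · -- (B2)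
          set t : F := α * w / 2 with ht
          have ht0 : t ≠ 0 := div_ne_zero (mul_ne_zero hα0 hw0) h20
          have htv : ordv v t = m + W - e := by
            rw [ht, n2_od v (mul_ne_zero hα0 hw0) h20, n2_om v hα0 hw0]
          have htV : v.valuation F t ≤ 1 := by
            rw [n2_ov v ht0, ← WithZero.exp_zero, WithZero.exp_le_exp]
            omega
          have h2V : v.valuation F (2 * t ^ 2) < 1 := by
            rw [map_mul, map_pow]
            calc v.valuation F 2 * v.valuation F t ^ 2 ≤ v.valuation F 2 * 1 := by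
                  gcongr
                  exact pow_le_one' htV 2
              _ < 1 := by
                  rw [mul_one]
                  exact n2_lt1 v h20 (by omega)
          have h8 : v.valuation F (ρ - t + t ^ 2) = 1 := by
            have e1 : ρ - t + t ^ 2 = (ρ - (t ^ 2 + t)) + 2 * t ^ 2 := by ring
            rw [e1, Valuation.map_add_eq_of_lt_left _ (by rw [hρ' t htV]; exact h2V), hρ' t htV]
          have h80 : ρ - t + t ^ 2 ≠ 0 := by
            intro h
            rw [h, map_zero] at h8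
            exact zero_ne_one h8
          have h9 : β - u = 4 / α * (ρ - t + t ^ 2) := by
            rw [hβ, hu, ht]
            field_simp
            ring
          have h10 : ordv v (β - u) = 2 * e - m := by
            rw [h9, n2_om v h4α h80, n2_od v h40 hα0, n2_o1 v h8, h4]
            ring
          refine key (by rw [h9]; exact mul_ne_zero h4α h80) ?_ (by rw [h10]; omega)
          rw [h10]
          exact ⟨e - m' - 1, by omega⟩

theorem dya_non2 {v : HeightOneSpectrum (𝓞 F)} (h2 : (2 : 𝓞 F) ∈ v.asIdeal) {a α : Fˣ}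
    (ha : (a : F) = 1 + α) (hα : Odd (ordv v (α : F))) (h0 : 0 < ordv v (α : F))
    (h1 : ordv v (α : F) < 2 * ordv v (2 : F)) {ρ : F} (hρ : v.valuation F ρ ≤ 1)
    (hρ' : ∀ t : F, v.valuation F t ≤ 1 → v.valuation F (ρ - (t ^ 2 + t)) = 1) {b : Fˣ}
    (hb : (b : F) = 1 + 4 / α * ρ) : b ∉ LN (Sum.inr v) a := by
  intro hLN
  obtain ⟨s, hs, n, ⟨x, y, hn⟩, hsn⟩ := Subgroup.mem_sup.1 hLN
  have hα0 : (α : F) ≠ 0 := α.ne_zero
  have h20 : (2 : F) ≠ 0 := two_ne_zero
  have h40 : (4 : F) ≠ 0 := by norm_num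
  have h4 : ordv v (4 : F) = 2 * ordv v (2 : F) := by
    have : (4 : F) = 2 * 2 := by norm_num
    rw [this, n2_om v h20 h20]
    ring
  obtain ⟨c, hc⟩ := sqf_prec ((Sqf v).inv_mem hs) (2 * ordv v (2 : F)).toNat
  set ε : F := ((s⁻¹ : Fˣ) : F) * (c : F) ^ 2 - 1 with hε
  -- `b` is a unit
  have h4α : (4 / (α : F)) ≠ 0 := div_ne_zero h40 hα0
  have h4αv : ordv v (4 / (α : F)) = 2 * ordv v (2 : F) - ordv v (α : F) := by
    rw [n2_od v h40 hα0, h4]
  have hbV : v.valuation F (b : F) = 1 := by
    have h3 : v.valuation F (4 / α * ρ) < 1 := by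
      rw [map_mul]
      calc v.valuation F (4 / (α : F)) * v.valuation F ρ ≤ v.valuation F (4 / (α : F)) * 1 := by
            gcongr
        _ < 1 := by
            rw [mul_one]
            exact n2_lt1 v h4α (by omega)
    rw [hb, Valuation.map_add_eq_of_lt_left _ (by rw [map_one]; exact h3), map_one]
  -- the perturbation
  have hδ : v.valuation F ((α : F) / 4 * (b : F) * ε) < 1 := by
    rw [map_mul, map_mul, hbV, mul_one]
    calc v.valuation F ((α : F) / 4) * v.valuation F ε ≤ v.valuation F ((α : F) / 4) *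
          WithZero.exp (-((2 * ordv v (2 : F)).toNat : ℤ)) := by
            gcongr
      _ < 1 := by
          rw [n2_ov v (div_ne_zero hα0 h40), n2_od v hα0 h40, h4, ← WithZero.exp_add,
            ← WithZero.exp_zero, WithZero.exp_lt_exp]
          omega
  refine n2_core (X := x * c) (Y := y * c) (α := (α : F))
    (ρ := ρ + (α : F) / 4 * (b : F) * ε) h2 hα0 hα h0 h1 (fun t ht => ?_) ?_
  · have e1 : ρ + (α : F) / 4 * (b : F) * ε - (t ^ 2 + t) =
        (ρ - (t ^ 2 + t)) + (α : F) / 4 * (b : F) * ε := by ring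
    rw [e1, Valuation.map_add_eq_of_lt_left _ (by rw [hρ' t ht]; exact hδ), hρ' t ht]
  · have e1 : (1 : F) + 4 / α * (ρ + (α : F) / 4 * (b : F) * ε) = (b : F) * (1 + ε) := by
      rw [hb]
      field_simp
      ring
    have e2 : (1 : F) + ε = ((s⁻¹ : Fˣ) : F) * (c : F) ^ 2 := by
      rw [hε]
      ring
    have e3 : (b : F) = (s : F) * (x ^ 2 - a * y ^ 2) := by
      rw [← hsn, Units.val_mul, hn]
    rw [e1, e2, e3, ← ha, Units.val_inv_eq_inv_val]
    have hs0 : (s : F) ≠ 0 := s.ne_zero
    field_simp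



end Loc

end Pool.Agent.QR
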