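import Pool.Agent.Lib_helper17.QR.Defs
import Pool.Agent.Lib_helper35.RG.Defs
import Pool.Agent.Lib_helper17.QRF.P_LA
import Pool.Agent.Lib_helper17.QRF.P_NG
set_option autoImplicit false
set_option linter.unusedSectionVars false
set_option linter.unusedVariables false

namespace Pool.Agent.QR

open Pool.Agent.RSK Pool.Agent.RG
open NumberField IsDedekindDomain

section Loc

variable {F : Type} [Field F] [NumberField F]

theorem n3_ordv_of_val {v : HeightOneSpectrum (𝓞 F)} {x y : F}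
    (h : v.valuation F x = v.valuation F y) : ordv v x = ordv v y := by
  unfold ordv
  rw [h]

theorem n3_even_sq {v : HeightOneSpectrum (𝓞 F)} {x : F} (hx : x ≠ 0) :
    Even (ordv v (x ^ 2)) := by
  have h := ordv_mul v (Units.mk0 x hx) (Units.mk0 x hx)
  have e : ((Units.mk0 x hx * Units.mk0 x hx : Fˣ) : F) = x ^ 2 := by
    rw [Units.val_mul, Units.val_mk0, pow_two]
  rw [e] at h
  rw [h]
  exact ⟨_, rfl⟩

theorem n3_even_mul {v : HeightOneSpectrum (𝓞 F)} {x y : F} (hx : x ≠ 0) (hy : y ≠ 0)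
    (h1 : Even (ordv v x)) (h2 : Even (ordv v y)) : Even (ordv v (x * y)) := by
  have h := ordv_mul v (Units.mk0 x hx) (Units.mk0 y hy)
  have e : ((Units.mk0 x hx * Units.mk0 y hy : Fˣ) : F) = x * y := by
    rw [Units.val_mul, Units.val_mk0, Units.val_mk0]
  rw [e, Units.val_mk0, Units.val_mk0] at h
  rw [h]
  exact h1.add h2

/-- the norm form has even valuation -/
theorem n3_form {v : HeightOneSpectrum (𝓞 F)} (h2 : (2 : 𝓞 F) ∈ v.asIdeal) {a : Fˣ} {ρ : F}
    (ha : (a : F) = 1 + 4 * ρ) (hρ : v.valuation F ρ ≤ 1) (hav : a ∉ Sqf v) (x y : F)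
    (hne : x ^ 2 - a * y ^ 2 ≠ 0) : Even (ordv v (x ^ 2 - a * y ^ 2)) := by
  by_cases hy : y = 0
  · subst hy
    have hx : x ≠ 0 := by
      rintro rfl
      exact hne (by ring)
    have e : x ^ 2 - a * (0 : F) ^ 2 = x ^ 2 := by ring
    rw [e]
    exact n3_even_sq hx
  -- `x = y (1 + z)`
  set z : F := x / y - 1 with hz
  have e : x ^ 2 - a * y ^ 2 = y ^ 2 * (z ^ 2 + 2 * z - 4 * ρ) := by
    rw [hz, ha]
    field_simp
    ring
  have hne' : z ^ 2 + 2 * z - 4 * ρ ≠ 0 := by
    intro h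
    rw [e, h, mul_zero] at hne
    exact hne rfl
  rw [e]
  refine n3_even_mul (pow_ne_zero 2 hy) hne' (n3_even_sq hy) ?_
  have h2v : v.valuation F 2 ≠ 0 := (map_ne_zero _).2 (by norm_num)
  have h4 : v.valuation F 4 = v.valuation F 2 * v.valuation F 2 := by
    rw [← map_mul]
    norm_num
  by_cases hz2 : v.valuation F 2 < v.valuation F z
  · -- `v(z) < v(2)`
    have hz0 : z ≠ 0 := by
      rintro h
      rw [h, map_zero] at hz2
      exact not_lt_zero hz2
    have hzv : v.valuation F z ≠ 0 := (map_ne_zero _).2 hz0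
    have hlt1 : v.valuation F (2 * z) < v.valuation F (z ^ 2) := by
      rw [map_mul, pow_two, map_mul]
      exact mul_lt_mul_of_pos_right hz2 (zero_lt_iff.2 hzv)
    have hlt2 : v.valuation F (-(4 * ρ)) < v.valuation F (z ^ 2) := by
      rw [Valuation.map_neg, map_mul, h4, pow_two, map_mul]
      calc v.valuation F 2 * v.valuation F 2 * v.valuation F ρ
          ≤ v.valuation F 2 * v.valuation F 2 * 1 := mul_le_mul_right hρ _
        _ = v.valuation F 2 * v.valuation F 2 := mul_one _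
        _ < v.valuation F z * v.valuation F z := mul_lt_mul'' hz2 hz2 zero_le zero_le
    have hlt : v.valuation F (2 * z + -(4 * ρ)) < v.valuation F (z ^ 2) :=
      Valuation.map_add_lt _ hlt1 hlt2
    have e1 : z ^ 2 + 2 * z - 4 * ρ = z ^ 2 + (2 * z + -(4 * ρ)) := by ring
    rw [e1, n3_ordv_of_val (Valuation.map_add_eq_of_lt_left _ hlt)]
    exact n3_even_sq hz0
  · -- `z = 2 t`
    push Not at hz2
    set t : F := z / 2 with ht
    have hzt : z = 2 * t := by
      rw [ht]
      field_simp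
    have htv : v.valuation F t ≤ 1 := by
      rw [ht, map_div₀]
      exact (div_le_one₀ (zero_lt_iff.2 h2v)).2 hz2
    have hρt : v.valuation F (ρ - (t ^ 2 + t)) = 1 := by
      refine le_antisymm ?_ ?_
      · refine Valuation.map_sub_le _ hρ (Valuation.map_add_le _ ?_ htv)
        rw [map_pow]
        exact pow_le_one₀ zero_le htv
      · by_contra hlt
        push Not at hlt
        exact hav (dya_sq ha htv hlt h2)
    have e1 : z ^ 2 + 2 * z - 4 * ρ = 2 ^ 2 * -(ρ - (t ^ 2 + t)) := by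
      rw [hzt]
      ring
    have e2 : v.valuation F (2 ^ 2 * -(ρ - (t ^ 2 + t))) = v.valuation F ((2 : F) ^ 2) := by
      rw [map_mul, Valuation.map_neg, hρt, mul_one]
    rw [e1, n3_ordv_of_val e2]
    exact n3_even_sq (by norm_num)

/-- Block N3: `a = 1 + 4 ρ` not a square: the local norms have even valuation. -/
theorem dya_non3 {v : HeightOneSpectrum (𝓞 F)} (h2 : (2 : 𝓞 F) ∈ v.asIdeal) {a : Fˣ} {ρ : F}
    (ha : (a : F) = 1 + 4 * ρ) (hρ : v.valuation F ρ ≤ 1) (hav : a ∉ Sqf v) {b : Fˣ}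
    (hb : b ∈ LN (Sum.inr v) a) : Even (ordv v (b : F)) := by
  unfold LN at hb
  rw [Subgroup.mem_sup] at hb
  obtain ⟨s, hs, m, hm, rfl⟩ := hb
  rw [ordv_mul]
  refine (sqf_even hs).add ?_
  obtain ⟨x, y, hxy⟩ := hm
  rw [hxy]
  exact n3_form h2 ha hρ hav x y (by rw [← hxy]; exact m.ne_zero)



end Loc

end Pool.Agent.QR
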