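import Pool.Agent.Lib_helper17.QR.Defs
import Pool.Agent.Lib_helper35.RG.Defs
/-! QR, block NF: the dyadic normal form -/

set_option autoImplicit false
set_option linter.unusedSectionVars false
set_option linter.unusedVariables false

namespace Pool.Agent.QR

open Pool.Agent.RSK Pool.Agent.RG
open NumberField IsDedekindDomain

section Loc

variable {F : Type} [Field F] [NumberField F]

/-- the normal form -/
def nf_P (v : HeightOneSpectrum (𝓞 F)) (b : Fˣ) : Prop :=
  Odd (ordv v ((b : Fˣ) : F)) ∨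
      (∃ α : Fˣ, ((b : Fˣ) : F) = 1 + α ∧ Odd (ordv v (α : F)) ∧ 0 < ordv v (α : F) ∧
        ordv v (α : F) < 2 * ordv v (2 : F)) ∨
      ∃ ρ : F, ((b : Fˣ) : F) = 1 + 4 * ρ ∧ v.valuation F ρ ≤ 1

theorem nf_val (v : HeightOneSpectrum (𝓞 F)) {x : F} (hx : x ≠ 0) :
    v.valuation F x = WithZero.exp (-(ordv v x)) := by
  unfold ordv
  rw [neg_neg, WithZero.exp_log ((map_ne_zero _).2 hx)]

/-- the residue field is perfect -/
theorem nf_perf {v : HeightOneSpectrum (𝓞 F)} (h2 : (2 : 𝓞 F) ∈ v.asIdeal) {x : F}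
    (hx : v.valuation F x ≤ 1) :
    ∃ t : F, v.valuation F t ≤ 1 ∧ v.valuation F (x - t ^ 2) < 1 := by
  obtain ⟨a, ha⟩ := v.exists_valuation_sub_lt_of_integer hx 1
  have hfin : Finite (𝓞 F ⧸ v.asIdeal) := Ideal.finiteQuotientOfFreeOfNeBot v.asIdeal v.ne_bot
  have h2' : (2 : 𝓞 F ⧸ v.asIdeal) = 0 := by
    have : (Ideal.Quotient.mk v.asIdeal) 2 = 0 := Ideal.Quotient.eq_zero_iff_mem.2 h2
    rwa [map_ofNat] at this
  have hpr : v.asIdeal.IsPrime := v.isPrime
  have hinj : Function.Injective (fun y : 𝓞 F ⧸ v.asIdeal => y ^ 2) := by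
    intro y z h
    have h' : y ^ 2 = z ^ 2 := h
    have e : (y - z) ^ 2 = 0 := by
      have : (y - z) ^ 2 = y ^ 2 - z ^ 2 - 2 * (z * (y - z)) := by ring
      rw [this, h', h2']
      ring
    exact sub_eq_zero.1 (pow_eq_zero_iff two_ne_zero |>.1 e)
  obtain ⟨y, hy⟩ := Finite.surjective_of_injective hinj (Ideal.Quotient.mk v.asIdeal a)
  obtain ⟨t, rfl⟩ := Ideal.Quotient.mk_surjective y
  refine ⟨algebraMap (𝓞 F) F t, v.valuation_le_one t, ?_⟩
  have h3 : t ^ 2 - a ∈ v.asIdeal := by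
    rw [← Ideal.Quotient.eq_zero_iff_mem, map_sub, map_pow, sub_eq_zero]
    exact hy
  have h4 : v.valuation F (algebraMap (𝓞 F) F (t ^ 2 - a)) < 1 :=
    (v.valuation_lt_one_iff_mem (K := F) _).2 h3
  have e : x - algebraMap (𝓞 F) F t ^ 2 =
      -(algebraMap (𝓞 F) F (t ^ 2 - a) + (algebraMap (𝓞 F) F a - x)) := by
    rw [map_sub, map_pow]
    ring
  rw [e, Valuation.map_neg]
  exact Valuation.map_add_lt _ h4 ha

theorem nf_step {v : HeightOneSpectrum (𝓞 F)} (h2 : (2 : 𝓞 F) ∈ v.asIdeal) (n : ℕ) :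
    ∀ k : ℤ, 1 ≤ k → 2 * ordv v (2 : F) ≤ k + n → ∀ (a : Fˣ) (α : F), (a : F) = 1 + α →
      v.valuation F α ≤ WithZero.exp (-k) → ∃ c : Fˣ, nf_P v (a * c ^ 2) := by
  have h20 : (2 : F) ≠ 0 := two_ne_zero
  have hv2 := nf_val v h20
  set e := ordv v (2 : F) with he
  have hv4 : v.valuation F 4 = WithZero.exp (-(2 * e)) := by
    have : (4 : F) = 2 * 2 := by norm_num
    rw [this, map_mul, hv2, ← WithZero.exp_add]
    congr 1
    ring
  have third : ∀ (a : Fˣ) (α : F), (a : F) = 1 + α →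
      v.valuation F α ≤ WithZero.exp (-(2 * e)) → ∃ c : Fˣ, nf_P v (a * c ^ 2) := by
    intro a α ha hα
    refine ⟨1, Or.inr (Or.inr ⟨α / 4, ?_, ?_⟩)⟩
    · rw [one_pow, mul_one, ha]
      have h4 : (4 : F) ≠ 0 := by norm_num
      field_simp
    · rw [map_div₀, hv4]
      refine div_le_one_of_le₀ hα ?_
      exact zero_le
  induction n with
  | zero =>
    intro k hk hn a α ha hα
    refine third a α ha (hα.trans (WithZero.exp_le_exp.2 ?_))
    push_cast at hn
    linarith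
  | succ n ih =>
    intro k hk hn a α ha hα
    rcases eq_or_ne α 0 with h0 | h0
    · refine third a α ha ?_
      rw [h0, map_zero]
      exact zero_le
    have hvα := nf_val v h0
    set j := ordv v α with hj
    have hkj : k ≤ j := by
      rw [hvα, WithZero.exp_le_exp] at hα
      linarith
    rcases le_or_gt (2 * e) j with h1 | h1
    · refine third a α ha ?_
      rw [hvα, WithZero.exp_le_exp]
      linarith
    rcases Int.even_or_odd j with hev | hodd
    swap
    · refine ⟨1, Or.inr (Or.inl ⟨Units.mk0 α h0, ?_, ?_, ?_, ?_⟩)⟩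
      · rw [one_pow, mul_one, ha, Units.val_mk0]
      · rw [Units.val_mk0]
        exact hodd
      · rw [Units.val_mk0, ← hj]
        linarith
      · rw [Units.val_mk0, ← hj]
        exact h1
    obtain ⟨i, hi⟩ := hev
    obtain ⟨π, hπ⟩ := v.valuation_exists_uniformizer F
    have hπ0 : π ≠ 0 := by
      intro h
      rw [h, map_zero] at hπ
      exact WithZero.exp_ne_zero hπ.symm
    have hπi : ∀ m : ℤ, v.valuation F (π ^ m) = WithZero.exp (-m) := by
      intro m
      rw [map_zpow₀, hπ, ← WithZero.exp_zsmul]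
      congr 1
      rw [smul_eq_mul]
      ring
    have hβ : v.valuation F (α / π ^ (i + i)) ≤ 1 := by
      rw [map_div₀, hπi, hvα, hi]
      exact (div_self WithZero.exp_ne_zero).le
    obtain ⟨t, ht, ht'⟩ := nf_perf h2 hβ
    set s := π ^ i * t with hs
    have hvs : v.valuation F s ≤ WithZero.exp (-i) := by
      rw [hs, map_mul, hπi]
      exact mul_le_of_le_one_right' ht
    have hi0 : 0 < i := by
      have : 0 < i + i := by rw [← hi]; linarith
      linarith
    have hs1 : v.valuation F s < 1 := by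
      refine lt_of_le_of_lt hvs ?_
      rw [← WithZero.exp_zero, WithZero.exp_lt_exp]
      linarith
    have h1s : v.valuation F (1 + s) = 1 := by
      rw [Valuation.map_add_eq_of_lt_left _ (by rw [map_one]; exact hs1), map_one]
    have h1s0 : 1 + s ≠ 0 := by
      intro h
      rw [h, map_zero] at h1s
      exact zero_ne_one h1s
    have hss : v.valuation F (α - s ^ 2) ≤ WithZero.exp (-(j + 1)) := by
      have e1 : α - s ^ 2 = π ^ (i + i) * (α / π ^ (i + i) - t ^ 2) := by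
        rw [hs, mul_pow, mul_sub, mul_div_cancel₀ _ (zpow_ne_zero _ hπ0), zpow_add₀ hπ0]
        ring
      rw [e1, map_mul, hπi, hi]
      have h5 : v.valuation F (α / π ^ (i + i) - t ^ 2) ≤ WithZero.exp (-1) := by
        rcases eq_or_ne (α / π ^ (i + i) - t ^ 2) 0 with h6 | h6
        · rw [h6, map_zero]
          exact zero_le
        · rw [nf_val v h6] at ht' ⊢
          rw [← WithZero.exp_zero, WithZero.exp_lt_exp] at ht'
          rw [WithZero.exp_le_exp]
          omega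
      have h7 : WithZero.exp (-(i + i + 1)) = WithZero.exp (-(i + i)) * WithZero.exp (-1) := by
        rw [← WithZero.exp_add]
        congr 1
        ring
      rw [h7]
      exact mul_le_mul_right h5 _
    have h2s : v.valuation F (2 * s) ≤ WithZero.exp (-(j + 1)) := by
      rw [map_mul, hv2]
      have h7 : WithZero.exp (-e) * WithZero.exp (-i) ≤ WithZero.exp (-(j + 1)) := by
        rw [← WithZero.exp_add, WithZero.exp_le_exp]
        omega
      exact (mul_le_mul_right hvs _).trans h7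
    set b : Fˣ := a * (Units.mk0 (1 + s) h1s0)⁻¹ ^ 2 with hb
    have hbα : (b : F) = 1 + (α - s ^ 2 - 2 * s) / (1 + s) ^ 2 := by
      rw [hb, Units.val_mul, Units.val_pow_eq_pow_val, Units.val_inv_eq_inv_val, Units.val_mk0, ha]
      field_simp
      ring
    have hvb : v.valuation F ((α - s ^ 2 - 2 * s) / (1 + s) ^ 2) ≤ WithZero.exp (-(k + 1)) := by
      rw [map_div₀, map_pow, h1s, one_pow, div_one]
      refine (Valuation.map_sub _ _ _).trans (max_le ?_ ?_)
      · refine hss.trans (WithZero.exp_le_exp.2 ?_)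
        linarith
      · refine h2s.trans (WithZero.exp_le_exp.2 ?_)
        linarith
    obtain ⟨c, hc⟩ := ih (k + 1) (by linarith) (by push_cast at hn; linarith) b _ hbα hvb
    refine ⟨(Units.mk0 (1 + s) h1s0)⁻¹ * c, ?_⟩
    have e2 : a * ((Units.mk0 (1 + s) h1s0)⁻¹ * c) ^ 2 = b * c ^ 2 := by
      rw [hb, mul_pow, mul_assoc]
    rw [e2]
    exact hc

theorem dya_normal {v : HeightOneSpectrum (𝓞 F)} (h2 : (2 : 𝓞 F) ∈ v.asIdeal) (a : Fˣ) :
    ∃ c : Fˣ, Odd (ordv v ((a * c ^ 2 : Fˣ) : F)) ∨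
      (∃ α : Fˣ, ((a * c ^ 2 : Fˣ) : F) = 1 + α ∧ Odd (ordv v (α : F)) ∧ 0 < ordv v (α : F) ∧
        ordv v (α : F) < 2 * ordv v (2 : F)) ∨
      ∃ ρ : F, ((a * c ^ 2 : Fˣ) : F) = 1 + 4 * ρ ∧ v.valuation F ρ ≤ 1 := by
  suffices h : ∃ c : Fˣ, nf_P v (a * c ^ 2) by exact h
  rcases Int.even_or_odd (ordv v (a : F)) with hev | hodd
  swap
  · refine ⟨1, Or.inl ?_⟩
    rw [one_pow, mul_one]
    exact hodd
  obtain ⟨i, hi⟩ := hev
  obtain ⟨π, hπ⟩ := v.valuation_exists_uniformizer F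
  have hπ0 : π ≠ 0 := by
    intro h
    rw [h, map_zero] at hπ
    exact WithZero.exp_ne_zero hπ.symm
  have hπi : ∀ m : ℤ, v.valuation F (π ^ m) = WithZero.exp (-m) := by
    intro m
    rw [map_zpow₀, hπ, ← WithZero.exp_zsmul]
    congr 1
    rw [smul_eq_mul]
    ring
  have hva := nf_val v a.ne_zero
  set c₁ : Fˣ := Units.mk0 (π ^ (-i)) (zpow_ne_zero _ hπ0) with hc₁
  have hu : v.valuation F ((a * c₁ ^ 2 : Fˣ) : F) = 1 := by
    rw [Units.val_mul, Units.val_pow_eq_pow_val, hc₁, Units.val_mk0, map_mul, map_pow, hπi, hva, hi,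
      sq, ← WithZero.exp_add, ← WithZero.exp_add, ← WithZero.exp_zero]
    congr 1
    ring
  obtain ⟨t, ht, ht'⟩ := nf_perf h2 hu.le
  have ht2 : v.valuation F (t ^ 2) = 1 := by
    have e1 : t ^ 2 = ((a * c₁ ^ 2 : Fˣ) : F) - (((a * c₁ ^ 2 : Fˣ) : F) - t ^ 2) := by ring
    rw [e1, Valuation.map_sub_eq_of_lt_left _ (by rw [hu]; exact ht'), hu]
  have ht0 : t ≠ 0 := by
    intro h
    rw [h, zero_pow two_ne_zero, map_zero] at ht2
    exact zero_ne_one ht2
  set c₂ : Fˣ := (Units.mk0 t ht0)⁻¹ with hc₂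
  have hb : (((a * c₁ ^ 2) * c₂ ^ 2 : Fˣ) : F) =
      1 + (((a * c₁ ^ 2 : Fˣ) : F) - t ^ 2) / t ^ 2 := by
    rw [Units.val_mul, Units.val_pow_eq_pow_val c₂, hc₂, Units.val_inv_eq_inv_val, Units.val_mk0]
    field_simp
    ring
  have hvb : v.valuation F ((((a * c₁ ^ 2 : Fˣ) : F) - t ^ 2) / t ^ 2) ≤ WithZero.exp (-1) := by
    rw [map_div₀, ht2, div_one]
    rcases eq_or_ne (((a * c₁ ^ 2 : Fˣ) : F) - t ^ 2) 0 with h6 | h6
    · rw [h6, map_zero]
      exact zero_le
    · rw [nf_val v h6] at ht' ⊢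
      rw [← WithZero.exp_zero, WithZero.exp_lt_exp] at ht'
      rw [WithZero.exp_le_exp]
      omega
  obtain ⟨c, hc⟩ := nf_step h2 (2 * ordv v (2 : F)).toNat 1 le_rfl
    (by have := Int.self_le_toNat (2 * ordv v (2 : F)); linarith) _ _ hb hvb
  refine ⟨c₁ * c₂ * c, ?_⟩
  have e2 : a * (c₁ * c₂ * c) ^ 2 = a * c₁ ^ 2 * c₂ ^ 2 * c ^ 2 := by
    rw [mul_pow, mul_pow]
    simp only [mul_assoc]
  rw [e2]
  exact hc

end Loc

end Pool.Agent.QR
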