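import Pool.Agent.Lib_helper17.QR.Defs
import Pool.Agent.Lib_helper35.RG.Defs
import Pool.Agent.Lib_helper17.QRF.P_LA
import Pool.Agent.Lib_helper17.QRF.P_LI
import Pool.Agent.Lib_helper17.QRF.P_LO
import Pool.Agent.Lib_helper17.QRF.P_N1
import Pool.Agent.Lib_helper17.QRF.P_N2
import Pool.Agent.Lib_helper17.QRF.P_N3
import Pool.Agent.Lib_helper17.QRF.P_NF
import Pool.Agent.Lib_helper17.QRF.P_NG
/-!
# QR, block NN: existence of local non-norms
-/

set_option autoImplicit false
set_option linter.unusedSectionVars false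
set_option linter.unusedVariables false

namespace Pool.Agent.QR

open Pool.Agent.RSK Pool.Agent.RG
open NumberField IsDedekindDomain

section NN

variable {F : Type} [Field F] [NumberField F]

theorem nn_unif (v : HeightOneSpectrum (𝓞 F)) : ∃ b : Fˣ, ordv v (b : F) = 1 := by
  obtain ⟨π, hπ⟩ := v.valuation_exists_uniformizer F
  have h0 : π ≠ 0 := by
    rintro rfl
    rw [map_zero] at hπ
    exact WithZero.zero_ne_coe hπ
  refine ⟨Units.mk0 π h0, ?_⟩
  unfold ordv
  rw [Units.val_mk0, hπ]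
  simp

theorem nn_lt_one {v : HeightOneSpectrum (𝓞 F)} {x : F} (hx : x ≠ 0) (h : 0 < ordv v x) :
    v.valuation F x < 1 := by
  have h0 : v.valuation F x ≠ 0 := (map_ne_zero _).2 hx
  unfold ordv at h
  rw [← WithZero.log_lt_log h0 one_ne_zero, WithZero.log_one]
  linarith

theorem nn_ne {v : HeightOneSpectrum (𝓞 F)} {x : F} (h : v.valuation F x < 1) : 1 + x ≠ 0 := by
  intro h0
  have e : x = -1 := by linear_combination h0
  rw [e, Valuation.map_neg, map_one] at h
  exact lt_irrefl _ h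

theorem nn_two_pos {v : HeightOneSpectrum (𝓞 F)} (h2 : (2 : 𝓞 F) ∈ v.asIdeal) :
    v.valuation F 2 < 1 := by
  have h : v.valuation F (algebraMap (𝓞 F) F 2) < 1 :=
    (v.valuation_lt_one_iff_mem (K := F) (2 : 𝓞 F)).2 h2
  rwa [map_ofNat] at h

theorem nn_four {v : HeightOneSpectrum (𝓞 F)} (h2 : (2 : 𝓞 F) ∈ v.asIdeal) :
    v.valuation F 4 < 1 := by
  have e : (4 : F) = 2 * 2 := by norm_num
  rw [e, map_mul]
  exact mul_lt_one_of_lt_of_le (nn_two_pos h2) (nn_two_pos h2).le

theorem nn_ln_sq (v : Pl F) (a c : Fˣ) : LN v (a * c ^ 2) = LN v a := by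
  have h : Nm (a * c ^ 2) = Nm a := by
    ext b
    constructor
    · rintro ⟨x, y, h⟩
      refine ⟨x, c * y, ?_⟩
      rw [h]
      push_cast
      ring
    · rintro ⟨x, y, h⟩
      refine ⟨x, (c : F)⁻¹ * y, ?_⟩
      have hc := c.ne_zero
      rw [h]
      push_cast
      field_simp
  unfold LN
  rw [h]

theorem nonnorm {v : Pl F} {a : Fˣ} (h : a ∉ Sq v) : ∃ b : Fˣ, b ∉ LN v a := by
  rcases v with w | v
  · refine ⟨a, ?_⟩
    rw [ln_inf h]
    exact h
  · have h' : a ∉ Sqf v := h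
    by_cases h2 : (2 : 𝓞 F) ∈ v.asIdeal
    · obtain ⟨ρ, hρ, hρ'⟩ := dya_rho h2
      obtain ⟨c, hc⟩ := dya_normal h2 a
      rcases hc with hc | ⟨α, hα, hodd, h0, h1⟩ | ⟨ρ₁, hρ₁, hρ₁'⟩
      · have hlt : v.valuation F (4 * ρ) < 1 := by
          rw [map_mul]
          exact mul_lt_one_of_lt_of_le (nn_four h2) hρ
        refine ⟨Units.mk0 (1 + 4 * ρ) (nn_ne hlt), ?_⟩
        rw [← nn_ln_sq (Sum.inr v) a c]
        exact dya_non1 h2 hc hρ hρ' (Units.val_mk0 _)
      · have h40 : v.valuation F (4 / (α : F)) < 1 := by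
          have e2 : (2 : F) ≠ 0 := by norm_num
          set t : Fˣ := Units.mk0 2 e2 with ht
          have e : (4 / (α : F)) = ((t * t * α⁻¹ : Fˣ) : F) := by
            rw [ht]
            push_cast
            rw [Units.val_mk0]
            ring
          rw [e]
          refine nn_lt_one (Units.ne_zero _) ?_
          rw [ordv_mul, ordv_mul, ordv_inv, ht, Units.val_mk0]
          linarith
        have hlt : v.valuation F (4 / (α : F) * ρ) < 1 := by
          rw [map_mul]
          exact mul_lt_one_of_lt_of_le h40 hρ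
        refine ⟨Units.mk0 (1 + 4 / (α : F) * ρ) (nn_ne hlt), ?_⟩
        rw [← nn_ln_sq (Sum.inr v) a c]
        exact dya_non2 h2 hα hodd h0 h1 hρ hρ' (Units.val_mk0 _)
      · obtain ⟨b, hb⟩ := nn_unif v
        refine ⟨b, fun hmem => ?_⟩
        have hav : a * c ^ 2 ∉ Sqf v := by
          intro hh
          refine h' ?_
          have hc2 : c ^ 2 ∈ Sqf v := sq_mem (Sum.inr v) c
          have := (Sqf v).mul_mem hh ((Sqf v).inv_mem hc2)
          rwa [mul_inv_cancel_right] at this
        rw [← nn_ln_sq (Sum.inr v) a c] at hmem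
        have he := dya_non3 h2 hρ₁ hρ₁' hav hmem
        rw [hb] at he
        exact absurd he (by decide)
    · by_cases ha : Even (ordv v (a : F))
      · obtain ⟨b, hb⟩ := nn_unif v
        refine ⟨b, fun hmem => ?_⟩
        have he := (odd_inert h2 ha h' b).1 hmem
        rw [hb] at he
        exact absurd he (by decide)
      · obtain ⟨c, hc0, hc⟩ := odd_exists (F := F) h2
        refine ⟨c, fun hmem => hc ?_⟩
        exact (odd_ram h2 (Int.not_even_iff_odd.1 ha) hc0).1 hmem

theorem hs_nondeg {v : Pl F} {a : Fˣ} (h : a ∉ Sq v) : ∃ b : Fˣ, hs v a b = 1 := by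
  obtain ⟨b, hb⟩ := nonnorm h
  refine ⟨b, ?_⟩
  unfold hs
  rw [if_neg hb]

end NN




end Pool.Agent.QR
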