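import Pool.Agent.Lib_helper17.QR.Defs
import Pool.Agent.Lib_helper35.RG.Defs
/-! # QR, block WA (helper67): weak approximation -/

set_option autoImplicit false
set_option linter.unusedSectionVars false
set_option linter.unusedVariables false

namespace Pool.Agent.QR

open Pool.Agent.RSK Pool.Agent.RG
open NumberField IsDedekindDomain

section Loc

variable {F : Type} [Field F] [NumberField F]

theorem wa_den (x : Fˣ) : ∃ (d : 𝓞 F) (b : Fˣ), d ≠ 0 ∧
    algebraMap (𝓞 F) F d = (x : F) * (b : F) ^ 2 := by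
  obtain ⟨a, b, hb, hx⟩ := IsFractionRing.div_surjective (A := 𝓞 F) (x : F)
  have hb0 : b ≠ 0 := nonZeroDivisors.ne_zero hb
  have hbk : algebraMap (𝓞 F) F b ≠ 0 := by simpa using hb0
  have hxb : (x : F) * algebraMap (𝓞 F) F b = algebraMap (𝓞 F) F a := by
    rw [← hx]
    field_simp
  have ha0 : a ≠ 0 := by
    rintro rfl
    rw [map_zero] at hxb
    exact mul_ne_zero x.ne_zero hbk hxb
  refine ⟨a * b, Units.mk0 _ hbk, mul_ne_zero ha0 hb0, ?_⟩
  rw [map_mul, ← hxb, Units.val_mk0]
  ring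

theorem wa_real {w : InfinitePlace F} (hw : w.IsReal) (x : F) : (w.embedding x).im = 0 := by
  have h3 := InfinitePlace.isReal_iff.1 hw
  have h4 := ComplexEmbedding.isReal_iff.1 h3
  have h5 := congrArg (fun φ : F →+* ℂ => φ x) h4
  exact Complex.conj_eq_iff_im.1 h5

theorem wa_abs {w : InfinitePlace F} (hw : w.IsReal) (x : F) : |(w.embedding x).re| = w x := by
  rw [← InfinitePlace.norm_embedding_eq w x]
  have h : w.embedding x = (((w.embedding x).re : ℝ) : ℂ) := by
    apply Complex.ext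
    · simp
    · rw [wa_real hw, Complex.ofReal_im]
  rw [h, Complex.norm_real, Real.norm_eq_abs, Complex.ofReal_re]

theorem wa_re_mul {w : InfinitePlace F} (hw : w.IsReal) (x y : F) :
    (w.embedding (x * y)).re = (w.embedding x).re * (w.embedding y).re := by
  rw [map_mul, Complex.mul_re, wa_real hw, wa_real hw, mul_zero, sub_zero]

theorem wa_inf (c : InfinitePlace F → Fˣ) : ∃ τ : F, ∀ w : InfinitePlace F, w.IsReal →
    0 < (w.embedding τ).re * (w.embedding (c w : F)).re := by
  have hd := NumberField.InfinitePlace.denseRange_algebraMap_pi F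
  have hne : Nonempty (InfinitePlace F) := inferInstance
  obtain ⟨w₀, hw₀⟩ := Finite.exists_min (fun w : InfinitePlace F => w (c w : F))
  have hpos : 0 < w₀ (c w₀ : F) := InfinitePlace.pos_iff.2 (c w₀).ne_zero
  obtain ⟨τ, hτ⟩ := hd.exists_dist_lt
    (fun w : InfinitePlace F => (WithAbs.equiv w.1).symm (c w : F)) hpos
  refine ⟨τ, fun w hw => ?_⟩
  have h1 : w ((c w : F) - τ) < w (c w : F) := by
    refine lt_of_lt_of_le ?_ (hw₀ w)
    have h2 := (dist_pi_lt_iff hpos).1 hτ w
    rw [dist_eq_norm] at h2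
    exact h2
  rw [← wa_abs hw, ← wa_abs hw, map_sub, Complex.sub_re] at h1
  have h3 := sq_lt_sq.2 h1
  nlinarith [sq_nonneg (w.embedding τ).re]

theorem wa_exp {γ : WithZero (Multiplicative ℤ)} (hγ : γ ≠ 0) : ∃ n : ℕ, ∀ m : ℕ, n ≤ m →
    WithZero.exp (-(m : ℤ)) < γ := by
  refine ⟨(1 - WithZero.log γ).toNat, fun m hm => ?_⟩
  rw [← WithZero.exp_log hγ, WithZero.exp_lt_exp]
  have := Int.self_le_toNat (1 - WithZero.log γ)
  have h2 : ((1 - WithZero.log γ).toNat : ℤ) ≤ (m : ℤ) := by exact_mod_cast hm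
  omega

theorem weak_approx (V : Finset (HeightOneSpectrum (𝓞 F))) (c : PS V → Fˣ) :
    ∃ x : Fˣ, ∀ P : PS V, x * c P ∈ Sq P.pl := by
  classical
  choose d b hd0 hdb using fun v : V => wa_den (c (Sum.inr v))⁻¹
  have hdk : ∀ v : V, algebraMap (𝓞 F) F (d v) ≠ 0 := fun v => by simpa using hd0 v
  have h4 : ∀ v : HeightOneSpectrum (𝓞 F), v.valuation F 4 ≠ 0 := fun v =>
    (map_ne_zero _).2 (by norm_num)
  choose n hn using fun v : V => wa_exp (γ := v.1.valuation F 4 *
    v.1.valuation F (algebraMap (𝓞 F) F (d v))) (mul_ne_zero (h4 v.1) ((map_ne_zero _).2 (hdk v)))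
  set N : ℕ := ∑ v : V, n v with hN
  have hNn : ∀ v : V, n v ≤ N := fun v =>
    Finset.single_le_sum (f := n) (fun _ _ => Nat.zero_le _) (Finset.mem_univ v)
  obtain ⟨y, hy⟩ := IsDedekindDomain.exists_forall_sub_mem_ideal (s := V)
    (fun v : HeightOneSpectrum (𝓞 F) => v.asIdeal) (fun _ => N) (fun v _ => v.prime)
    (fun v _ v' _ h => fun h' => h (HeightOneSpectrum.ext h')) d
  set m : ℕ := (∏ v ∈ V, nv v) ^ N with hm
  have hmV : ∀ v ∈ V, ((m : ℕ) : 𝓞 F) ∈ v.asIdeal ^ N := fun v hv => by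
    rw [hm, Nat.cast_pow]
    refine Ideal.pow_mem_pow ?_ N
    rw [Nat.cast_prod]
    refine Ideal.mem_of_dvd _ (Finset.dvd_prod_of_mem _ hv) ?_
    exact Ideal.absNorm_mem v.asIdeal
  have hm0 : 0 < m := by
    rw [hm]
    refine pow_pos (Finset.prod_pos fun v _ => ?_) N
    exact Nat.pos_of_ne_zero (fun h => v.ne_bot (Ideal.absNorm_eq_zero_iff.1 h))
  obtain ⟨τ, hτ⟩ := wa_inf (fun w : InfinitePlace F => c (Sum.inl w))
  have hmR : (0 : ℝ) < m := by exact_mod_cast hm0
  -- make `τ` nonzero and integral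
  obtain ⟨τ', hτ'⟩ : ∃ τ' : Fˣ, ∀ w : InfinitePlace F, w.IsReal →
      0 < (w.embedding (τ' : F)).re * (w.embedding (c (Sum.inl w) : F)).re := by
    by_cases h0 : τ = 0
    · refine ⟨1, fun w hw => ?_⟩
      have := hτ w hw
      rw [h0, map_zero, Complex.zero_re, zero_mul] at this
      exact absurd this (lt_irrefl _)
    · exact ⟨Units.mk0 τ h0, hτ⟩
  obtain ⟨t, e, ht0, hte⟩ := wa_den τ'
  have htk : algebraMap (𝓞 F) F t ≠ 0 := by simpa using ht0
  have ht : ∀ w : InfinitePlace F, w.IsReal →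
      0 < (w.embedding (algebraMap (𝓞 F) F t)).re * (w.embedding (c (Sum.inl w) : F)).re := by
    intro w hw
    rw [hte, wa_re_mul hw, pow_two, wa_re_mul hw]
    have h1 := hτ' w hw
    have h2 : (w.embedding (e : F)).re ≠ 0 := by
      intro h
      have h3 := wa_abs hw (e : F)
      rw [h, abs_zero] at h3
      exact (InfinitePlace.pos_iff.2 e.ne_zero).ne h3
    have h3 : 0 < (w.embedding (e : F)).re * (w.embedding (e : F)).re := mul_self_pos.2 h2
    nlinarith [mul_pos h1 h3]
  have htw : ∀ w : InfinitePlace F, 0 < w (algebraMap (𝓞 F) F t) := fun w =>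
    InfinitePlace.pos_iff.2 htk
  -- the multiple
  obtain ⟨r, hr⟩ : ∃ r : ℕ, ∀ w : InfinitePlace F,
      w (algebraMap (𝓞 F) F y) < r * m * w (algebraMap (𝓞 F) F t) := by
    choose r hr using fun w : InfinitePlace F =>
      exists_nat_gt (w (algebraMap (𝓞 F) F y) / (m * w (algebraMap (𝓞 F) F t)))
    refine ⟨∑ w, r w, fun w => ?_⟩
    have h1 := hr w
    rw [div_lt_iff₀ (mul_pos hmR (htw w)), ← mul_assoc] at h1
    refine h1.trans_le ?_
    have h2 : ((r w : ℕ) : ℝ) ≤ ((∑ w, r w : ℕ) : ℝ) := by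
      exact_mod_cast Finset.single_le_sum (f := r) (fun _ _ => Nat.zero_le _) (Finset.mem_univ w)
    have h3 := htw w
    gcongr
  set z : 𝓞 F := y + (r : 𝓞 F) * ((m : 𝓞 F) * t) with hz
  have hzk : algebraMap (𝓞 F) F z = algebraMap (𝓞 F) F y + r * (m * algebraMap (𝓞 F) F t) := by
    rw [hz, map_add, map_mul, map_mul, map_natCast, map_natCast]
  have hwrm : ∀ w : InfinitePlace F, w ((r : F) * (m * algebraMap (𝓞 F) F t)) =
      r * m * w (algebraMap (𝓞 F) F t) := fun w => by
    rw [map_mul, map_mul, ← mul_assoc]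
    congr 2
    · rw [← InfinitePlace.norm_embedding_eq, map_natCast, Complex.norm_natCast]
    · rw [← InfinitePlace.norm_embedding_eq, map_natCast, Complex.norm_natCast]
  have hz0 : algebraMap (𝓞 F) F z ≠ 0 := by
    intro h
    obtain ⟨w⟩ : Nonempty (InfinitePlace F) := inferInstance
    have h1 : algebraMap (𝓞 F) F y = -((r : F) * (m * algebraMap (𝓞 F) F t)) := by
      rw [hzk] at h
      exact eq_neg_of_add_eq_zero_left h
    have h2 := hr w
    rw [h1, ← hwrm w] at h2
    have h3 : w (-((r : F) * (m * algebraMap (𝓞 F) F t))) =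
        w ((r : F) * (m * algebraMap (𝓞 F) F t)) := by
      rw [← InfinitePlace.norm_embedding_eq, map_neg, norm_neg, InfinitePlace.norm_embedding_eq]
    rw [h3] at h2
    exact lt_irrefl _ h2
  refine ⟨Units.mk0 _ hz0, fun P => ?_⟩
  rcases P with w | v
  · -- archimedean places
    intro hw
    rw [Units.val_mul, Units.val_mk0, wa_re_mul hw, hzk, map_add, Complex.add_re]
    have h1 := ht w hw
    have h2 := hr w
    rw [← hwrm w, ← wa_abs hw, ← wa_abs hw] at h2
    have h5 : (w.embedding ((r : F) * (m * algebraMap (𝓞 F) F t))).re =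
        r * (m * (w.embedding (algebraMap (𝓞 F) F t)).re) := by
      rw [wa_re_mul hw, wa_re_mul hw, map_natCast, map_natCast, Complex.natCast_re,
        Complex.natCast_re]
    rw [h5] at h2 ⊢
    set A := (w.embedding (algebraMap (𝓞 F) F y)).re
    set B := (w.embedding (algebraMap (𝓞 F) F t)).re
    set C := (w.embedding ((c (Sum.inl w) : Fˣ) : F)).re
    have hrm : 0 < (r : ℝ) * m := by
      by_contra hc
      have h6 : (r : ℝ) * m = 0 := le_antisymm (not_lt.1 hc) (by positivity)
      rw [← mul_assoc, h6, zero_mul, abs_zero] at h2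
      exact absurd h2 (not_lt.2 (abs_nonneg A))
    have h6 : 0 < (A + r * (m * B)) * (r * (m * B)) := by
      have h7 := sq_lt_sq.2 h2
      rcases abs_lt.1 h2 with ⟨h8, h9⟩
      set D := (r : ℝ) * (m * B)
      rcases le_total 0 D with hD | hD
      · rw [abs_of_nonneg hD] at h8 h9
        have : 0 < D := by
          by_contra h
          have : D = 0 := le_antisymm (not_lt.1 h) hD
          rw [this] at h8 h9
          linarith
        exact mul_pos (by linarith) this
      · rw [abs_of_nonpos hD] at h8 h9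
        have : D < 0 := by
          by_contra h
          have : D = 0 := le_antisymm hD (not_lt.1 h)
          rw [this] at h8 h9
          linarith
        exact mul_pos_of_neg_of_neg (by linarith) this
    have h7 : 0 < ((A + r * (m * B)) * C) * ((r * m) * B ^ 2) := by
      have h8 := mul_pos h6 h1
      have h9 : (A + r * (m * B)) * (r * (m * B)) * (B * C) =
        ((A + r * (m * B)) * C) * ((r * m) * B ^ 2) := by ring
      rwa [h9] at h8
    exact pos_of_mul_pos_left h7 (by positivity)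
  · -- finite places
    refine ⟨(b v)⁻¹, ?_⟩
    have e1 : ((Units.mk0 _ hz0 * c (Sum.inr v) : Fˣ) : F) * (((b v)⁻¹ : Fˣ) : F) ^ 2 - 1 =
        (algebraMap (𝓞 F) F z - algebraMap (𝓞 F) F (d v)) * (algebraMap (𝓞 F) F (d v))⁻¹ := by
      rw [sub_mul, mul_inv_cancel₀ (hdk v)]
      congr 1
      rw [hdb v, Units.val_mul, Units.val_mk0, Units.val_inv_eq_inv_val, Units.val_inv_eq_inv_val]
      have h1 := (b v).ne_zero
      have h2 := (c (Sum.inr v)).ne_zero
      field_simp
    rw [e1, map_mul, map_inv₀]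
    have hdv : v.1.valuation F (algebraMap (𝓞 F) F (d v)) ≠ 0 := (map_ne_zero _).2 (hdk v)
    rw [← div_eq_mul_inv, div_lt_iff₀ (zero_lt_iff.2 hdv)]
    refine lt_of_le_of_lt ?_ (hn v N (hNn v))
    rw [← map_sub, HeightOneSpectrum.valuation_of_algebraMap,
      HeightOneSpectrum.intValuation_le_pow_iff_mem]
    have e2 : z - d v = (y - d v) + (r : 𝓞 F) * ((m : 𝓞 F) * t) := by
      rw [hz]
      ring
    rw [e2]
    refine Ideal.add_mem _ (hy v.1 v.2) (Ideal.mul_mem_left _ _ (Ideal.mul_mem_right _ _ ?_))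
    exact hmV v.1 v.2



end Loc

end Pool.Agent.QR
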