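import Pool.Agent.Lib_helper17.QR.Defs
import Pool.Agent.Lib_helper35.RG.Defs
import Pool.Agent.Lib_helper17.QRF.P_GV
import Pool.Agent.Lib_helper17.QRF.P_IG
import Pool.Agent.Lib_helper17.QRF.P_L1
import Pool.Agent.Lib_helper17.QRF.P_L4
import Pool.Agent.Lib_helper17.QRF.P_NN
import Pool.Agent.Lib_helper17.QRF.P_NU
import Pool.Agent.Lib_helper17.QRF.P_WA
/-! QR, block L5 (helper44) -/

set_option autoImplicit false
set_option linter.unusedSectionVars false
set_option linter.unusedVariables false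

namespace Pool.Agent.QR

open Pool.Agent.RSK Pool.Agent.RG
open NumberField IsDedekindDomain

section Hasse

variable {F K : Type} [Field F] [NumberField F] [Field K] [NumberField K] [Algebra F K]
  [IsGalois F K]

theorem l5_ins {V : Finset (HeightOneSpectrum (𝓞 F))} (P : PS V) : InS V P.pl := by
  rcases P with w | v
  · trivial
  · exact v.2

theorem l5_inj {V : Finset (HeightOneSpectrum (𝓞 F))} : Function.Injective (PS.pl (S := V)) := by
  rintro (w | v) (w' | v') h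
  · have h' : (Sum.inl w : Pl F) = Sum.inl w' := h
    rw [Sum.inl.inj h']
  · have h' : (Sum.inl w : Pl F) = Sum.inr v'.1 := h
    cases h'
  · have h' : (Sum.inr v.1 : Pl F) = Sum.inl w' := h
    cases h'
  · have h' : (Sum.inr v.1 : Pl F) = Sum.inr v'.1 := h
    rw [Subtype.ext (Sum.inr.inj h')]

theorem l5_lift {V : Finset (HeightOneSpectrum (𝓞 F))} {p : Pl F} (h : InS V p) :
    ∃ P : PS V, P.pl = p := by
  rcases p with w | v
  · exact ⟨Sum.inl w, rfl⟩
  · exact ⟨Sum.inr ⟨v, h⟩, rfl⟩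

/-- the set of the places of `V` which do not split in `F(√a)` -/
def l5S (V : Finset (HeightOneSpectrum (𝓞 F))) (a : Fˣ) : Set (Pl F) :=
  {p | InS V p ∧ a ∉ Sq p}

theorem l5_image (V : Finset (HeightOneSpectrum (𝓞 F))) (a : Fˣ) :
    l5S V a = PS.pl '' {P : PS V | a ∉ Sq P.pl} := by
  ext p
  constructor
  · rintro ⟨h1, h2⟩
    obtain ⟨P, rfl⟩ := l5_lift h1
    exact ⟨P, h2, rfl⟩
  · rintro ⟨P, h, rfl⟩
    exact ⟨l5_ins P, h⟩

theorem l5_fin (V : Finset (HeightOneSpectrum (𝓞 F))) (a : Fˣ) : (l5S V a).Finite := by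
  rw [l5_image]
  exact (Set.toFinite _).image _

theorem l5_card (V : Finset (HeightOneSpectrum (𝓞 F))) (a : Fˣ) :
    Nat.card {P : PS V // a ∉ Sq P.pl} = (l5S V a).ncard := by
  rw [l5_image, Set.ncard_image_of_injective _ l5_inj]
  rfl

theorem l5_ns {V : Finset (HeightOneSpectrum (𝓞 F))} {k : ℕ} {b : Fin k → Fˣ}
    {t : Fin k → HeightOneSpectrum (𝓞 F)} (hd : Dual V b t) (i₀ : Fin k) :
    Nat.card {P : PS (ext2 V t) // b i₀ ∉ Sq P.pl} =
      Nat.card {P : PS V // b i₀ ∉ Sq P.pl} + 1 := by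
  rw [l5_card, l5_card]
  have h1 : l5S (ext2 V t) (b i₀) = insert (Sum.inr (t i₀) : Pl F) (l5S V (b i₀)) := by
    ext p
    constructor
    · rintro ⟨h1, h2⟩
      rcases p with w | v
      · right
        exact ⟨trivial, h2⟩
      · have h3 : v ∈ ext2 V t := h1
        rw [mem_ext2] at h3
        rcases h3 with h3 | ⟨i, rfl⟩
        · right
          exact ⟨h3, h2⟩
        · left
          have h4 : ¬ (i₀ ≠ i) := fun h => h2 ((hd.dual i i₀).2 h)
          push Not at h4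
          rw [h4]
    · rintro (rfl | ⟨h1, h2⟩)
      · refine ⟨mem_ext2.2 (Or.inr ⟨i₀, rfl⟩), fun h => ?_⟩
        exact (hd.dual i₀ i₀).1 h rfl
      · refine ⟨?_, h2⟩
        rcases p with w | v
        · trivial
        · exact mem_ext2.2 (Or.inl h1)
  have h2 : (Sum.inr (t i₀) : Pl F) ∉ l5S V (b i₀) := by
    rintro ⟨h3, -⟩
    exact hd.out i₀ h3
  rw [h1, Set.ncard_insert_of_notMem h2 (l5_fin _ _)]

theorem l5_main {V : Finset (HeightOneSpectrum (𝓞 F))} (hV : Good V) {k : ℕ} {b : Fin k → Fˣ}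
    {t : Fin k → HeightOneSpectrum (𝓞 F)} (hd : Dual V b t) (i₀ : Fin k) {α : K}
    (h : QE F K (b i₀) α) :
    (∀ P : PS V, b i₀ ∉ Sq P.pl → (LN P.pl (b i₀)).index = 2) ∧
    ∀ u ∈ Us (ext2 V t), (∀ P : PS V, u ∈ LN P.pl (b i₀)) → u ∈ NmU K (ext2 V t) := by
  classical
  have hV2 : Good (ext2 V t) := good_mono hV (fun v hv => mem_ext2.2 (Or.inl hv))
  have hev : ∀ v : HeightOneSpectrum (𝓞 F), v ∉ ext2 V t → Even (ordv v (b i₀ : F)) := by
    intro v hv
    rw [hd.mem i₀ v (fun h' => hv (mem_ext2.2 (Or.inl h')))]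
    exact Even.zero
  have hL1 := L1 h hV2 hev
  rw [l5_ns hd i₀] at hL1
  have hidx : (NmU K (ext2 V t)).relIndex (Us (ext2 V t)) =
      2 ^ Nat.card {P : PS V // b i₀ ∉ Sq P.pl} := by
    rw [pow_succ] at hL1
    omega
  -- the groups
  set L : {P : PS V // b i₀ ∉ Sq P.pl} → Subgroup Fˣ := fun P => LN P.1.pl (b i₀) with hL
  set N : Subgroup Fˣ := ⨅ i, L i with hN
  have hne : ∀ i, L i ≠ ⊤ := by
    intro i hi
    obtain ⟨c, hc⟩ := nonnorm i.2
    exact hc (hi ▸ Subgroup.mem_top c : c ∈ L i)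
  have honto : ∀ c : {P : PS V // b i₀ ∉ Sq P.pl} → Fˣ, ∃ x : Fˣ, ∀ i, x * c i ∈ L i := by
    intro c
    obtain ⟨x, hx⟩ := weak_approx V
      (fun P => if hP : b i₀ ∉ Sq P.pl then c ⟨P, hP⟩ else 1)
    refine ⟨x, fun i => ?_⟩
    have h1 := hx i.1
    rw [dif_pos i.2] at h1
    exact (le_sup_left : Sq i.1.pl ≤ LN i.1.pl (b i₀)) h1
  have hNmU : NmU K (ext2 V t) ≤ N := by
    refine (nmU_nm h (ext2 V t)).trans (le_iInf fun i => ?_)
    exact (le_sup_right : Nm (b i₀) ≤ LN i.1.pl (b i₀))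
  have hSqs : Sqs V ≤ N := by
    refine le_iInf fun i => ?_
    exact (iInf_le _ i.1).trans (le_sup_left : Sq i.1.pl ≤ LN i.1.pl (b i₀))
  have htop : Us (ext2 V t) ⊔ N = ⊤ := by
    rw [eq_top_iff]
    intro x _
    obtain ⟨u, hu, hxu⟩ := dual_surj hV hd x
    have h1 : x = u⁻¹ * (x * u) := by
      rw [mul_comm x u, inv_mul_cancel_left]
    rw [h1]
    exact Subgroup.mul_mem_sup ((Us (ext2 V t)).inv_mem hu) (hSqs hxu)
  have hrel : N.relIndex (Us (ext2 V t)) = N.index := by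
    rw [← Subgroup.relIndex_sup_right, htop, Subgroup.relIndex_top_right]
  have h20 : (2 : ℕ) ^ Nat.card {P : PS V // b i₀ ∉ Sq P.pl} ≠ 0 := by positivity
  have hdvd : N.relIndex (Us (ext2 V t)) ∣ (NmU K (ext2 V t)).relIndex (Us (ext2 V t)) :=
    Subgroup.relIndex_dvd_of_le_left _ hNmU
  have hle : N.index ≤ 2 ^ Nat.card {P : PS V // b i₀ ∉ Sq P.pl} := by
    rw [← hrel, ← hidx]
    exact Nat.le_of_dvd (by rw [hidx]; positivity) hdvd
  have h0 : N.index ≠ 0 := by
    rw [← hrel]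
    intro h1
    rw [h1, zero_dvd_iff, hidx] at hdvd
    exact h20 hdvd
  have htwo := idx_two_each L hne honto hle h0
  refine ⟨fun P hP => htwo ⟨P, hP⟩, fun u hu hu' => ?_⟩
  -- the second statement
  have hge : 2 ^ Nat.card {P : PS V // b i₀ ∉ Sq P.pl} ≤ N.relIndex ⊤ := by
    refine idx_ge N ⊤ L (fun i => iInf_le _ i) (fun e => ?_) ?_
    · have hn : ∀ i : {P : PS V // b i₀ ∉ Sq P.pl}, ∃ c : Fˣ, c ∉ L i := fun i => nonnorm i.2
      choose c hc using hn
      obtain ⟨x, hx⟩ := honto (fun i => if e i then 1 else (c i)⁻¹)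
      refine ⟨x, Subgroup.mem_top x, fun i => ?_⟩
      have h1 := hx i
      by_cases he : e i
      · simp only [he, if_true, mul_one] at h1
        exact ⟨fun _ => he, fun _ => h1⟩
      · simp only [he, if_false] at h1
        refine ⟨fun h2 => (hc i ?_).elim, fun h2 => absurd h2 he⟩
        have h3 := (L i).mul_mem ((L i).inv_mem h1) h2
        have h4 : (x * (c i)⁻¹)⁻¹ * x = c i := by
          rw [mul_inv_rev, inv_inv, inv_mul_cancel_right]
        rwa [h4] at h3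
    · rw [Subgroup.relIndex_top_right]
      exact h0
  rw [Subgroup.relIndex_top_right] at hge
  have hNeq : N.relIndex (Us (ext2 V t)) = 2 ^ Nat.card {P : PS V // b i₀ ∉ Sq P.pl} := by
    rw [hrel]
    exact le_antisymm hle hge
  have hmul := Subgroup.relIndex_mul_relIndex (NmU K (ext2 V t)) (N ⊓ Us (ext2 V t))
    (Us (ext2 V t)) (le_inf hNmU (nmU_le _)) inf_le_right
  rw [Subgroup.inf_relIndex_right, hNeq, hidx] at hmul
  have hone : (NmU K (ext2 V t)).relIndex (N ⊓ Us (ext2 V t)) = 1 :=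
    Nat.eq_of_mul_eq_mul_right (Nat.pos_of_ne_zero h20) (by rw [hmul, one_mul])
  rw [Subgroup.relIndex_eq_one] at hone
  exact hone ⟨Subgroup.mem_iInf.2 fun i => hu' i.1, hu⟩



end Hasse

end Pool.Agent.QR
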