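import Pool.Agent.Lib_helper17.QR.Defs
import Pool.Agent.Lib_helper35.RG.Defs
import Pool.Agent.Lib_helper17.QRF.P_DU
import Pool.Agent.Lib_helper17.QRF.P_L4
import Pool.Agent.Lib_helper17.QRF.P_L5
import Pool.Agent.Lib_helper17.QRF.P_LA
import Pool.Agent.Lib_helper17.QRF.P_LO
import Pool.Agent.Lib_helper17.QRF.P_NU
import Pool.Agent.Lib_helper17.QRF.P_QF2
/-!
# QR, block D
-/

set_option autoImplicit false
set_option linter.unusedSectionVars false
set_option linter.unusedVariables false

namespace Pool.Agent.QR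

open Pool.Agent.RSK Pool.Agent.RG
open NumberField IsDedekindDomain

section Prod

variable {F : Type} [Field F] [NumberField F]

/-- Block D. -/
theorem d_main {V : Finset (HeightOneSpectrum (𝓞 F))} (hV : Good V) {a : Fˣ} (ha : a ∈ Us V)
    (P : PS V) {x : Fˣ} (hx : x ∈ Xv V P) (hxP : x ∈ LN P.pl a) : x ∈ Wa V a := by
  by_cases hsq : ∃ y : Fˣ, a = y ^ 2
  · obtain ⟨y, hy⟩ := hsq
    refine Subgroup.mem_sup_right ?_
    intro s _ hs
    exact absurd (by rw [hy]; exact sq_mem (Sum.inr s) y) hs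
  · push Not at hsq
    obtain ⟨t₀, ht₀, h2, -, hat⟩ := inert_exists a hsq V
    obtain ⟨k, b, t, i₀, hd, hb, ht, -⟩ := dual_exists hV ha ht₀ hat V
    obtain ⟨u, hu, hxu⟩ := dual_surj hV hd x
    have hxu' : ∀ Q : PS V, x * u ∈ Sq Q.pl := fun Q => (Subgroup.mem_iInf.1 hxu) Q
    have hx' : ∀ Q : PS V, Q ≠ P → x ∈ Sq Q.pl := fun Q hQ => (Subgroup.mem_iInf.1 hx) ⟨Q, hQ⟩
    have huL : ∀ Q : PS V, u ∈ LN Q.pl (b i₀) := by
      intro Q
      rw [hb]
      have h1 : x * u ∈ LN Q.pl a := Subgroup.mem_sup_left (hxu' Q)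
      have h3 : x ∈ LN Q.pl a := by
        by_cases hQ : Q = P
        · rw [hQ]; exact hxP
        · exact Subgroup.mem_sup_left (hx' Q hQ)
      exact (Subgroup.mul_mem_cancel_left _ h3).1 h1
    obtain ⟨K, _, _, _, _, α, hK⟩ := qe_exists a hsq
    have hK' : QE F K (b i₀) α := by rw [hb]; exact hK
    have hun : u ∈ NmU K (ext2 V t) := (l5_main hV hd i₀ hK').2 u hu huL
    have hum : u ∈ Nm a := nmU_nm hK (ext2 V t) hun
    have hev : Even (ordv t₀ (u : F)) := by
      refine (odd_inert h2 ?_ hat u).1 (Subgroup.mem_sup_right hum)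
      rw [ha t₀ ht₀]
      exact Even.zero
    have huE : u ∈ Ev V a := by
      intro s hs has
      by_cases hse : s ∈ ext2 V t
      · rcases mem_ext2.1 hse with h | ⟨i, rfl⟩
        · exact absurd h hs
        · by_cases hi : i₀ = i
          · subst hi
            rw [ht]
            exact hev
          · have h4 := (hd.dual i i₀).2 hi
            rw [hb] at h4
            exact absurd h4 has
      · rw [hu s hse]
        exact Even.zero
    have e : x = (x * u) * u⁻¹ := by group
    rw [e]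
    exact Subgroup.mul_mem_sup hxu (inv_mem huE)

end Prod

end Pool.Agent.QR

section

end
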