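import Pool.Agent.Lib_helper17.QR.Defs
import Pool.Agent.Lib_helper35.RG.Defs
import Pool.Agent.Lib_helper17.QRF.P_DU
import Pool.Agent.Lib_helper17.QRF.P_GV
import Pool.Agent.Lib_helper17.QRF.P_IG
import Pool.Agent.Lib_helper17.QRF.P_L1
import Pool.Agent.Lib_helper17.QRF.P_L4
import Pool.Agent.Lib_helper17.QRF.P_LA
import Pool.Agent.Lib_helper17.QRF.P_LO
import Pool.Agent.Lib_helper17.QRF.P_NN
import Pool.Agent.Lib_helper17.QRF.P_NU
import Pool.Agent.Lib_helper17.QRF.P_QF2
import Pool.Agent.Lib_helper17.QRF.P_WA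
/-!
# QR, block C1: the group `Wa V a` is not everything
-/

set_option autoImplicit false
set_option linter.unusedSectionVars false

namespace Pool.Agent.QR

open Pool.Agent.RSK Pool.Agent.RG
open NumberField IsDedekindDomain

section C1

variable {F : Type} [Field F] [NumberField F]

open scoped Classical in
theorem c1_prod {V : Finset (HeightOneSpectrum (𝓞 F))} (hV : Good V)
    (Z : Finset (HeightOneSpectrum (𝓞 F))) :
    ∃ c : Fˣ, ∀ s : HeightOneSpectrum (𝓞 F), s ∉ V →
      ordv s (c : F) = if s ∈ Z then 1 else 0 := by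
  induction Z using Finset.induction_on with
  | empty => exact ⟨1, fun s _ => by rw [Units.val_one, ordv_one]; simp⟩
  | insert v Z hv ih =>
    obtain ⟨c, hc⟩ := ih
    by_cases hvV : v ∈ V
    · refine ⟨c, fun s hs => ?_⟩
      rw [hc s hs]
      have hsv : s ≠ v := fun h => hs (h ▸ hvV)
      simp [hsv]
    · obtain ⟨π, hπ, hπ'⟩ := hV.cls v hvV
      refine ⟨π * c, fun s hs => ?_⟩
      rw [ordv_mul, hc s hs]
      by_cases hsv : s = v
      · subst hsv
        rw [hπ, if_neg hv, if_pos (Finset.mem_insert_self _ _), add_zero]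
      · rw [hπ' s hs hsv, zero_add]
        simp [hsv]

theorem c1_sq_of {v : Pl F} {x y : Fˣ} (h : x ^ 2 * y ∈ Sq v) : y ∈ Sq v :=
  ((Sq v).mul_mem_cancel_left (sq_mem v x)).1 h

theorem c1_main {V : Finset (HeightOneSpectrum (𝓞 F))} (hV : Good V) {a : Fˣ} (ha : a ∈ Us V)
    {t : HeightOneSpectrum (𝓞 F)} (ht : t ∉ V) (hat : a ∉ Sqf t) {π : Fˣ}
    (hπ : Odd (ordv t (π : F)))
    (hπ' : ∀ s : HeightOneSpectrum (𝓞 F), s ∉ V → s ≠ t → a ∉ Sqf s → Even (ordv s (π : F))) :
    π ∉ Wa V a := by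
  classical
  intro hW
  obtain ⟨y, hy, w, hw, hyw⟩ := Subgroup.mem_sup.1 hW
  -- the parities of `y`
  have hsum : ∀ s : HeightOneSpectrum (𝓞 F), ordv s (π : F) = ordv s (y : F) + ordv s (w : F) := by
    intro s
    rw [← hyw, ordv_mul]
  have hyt : Odd (ordv t (y : F)) := by
    have h1 := hw t ht hat
    have h2 := hsum t
    have h3 : ordv t (y : F) = ordv t (π : F) - ordv t (w : F) := by omega
    rw [h3]
    exact hπ.sub_even h1
  have hys : ∀ s : HeightOneSpectrum (𝓞 F), s ∉ V → s ≠ t → a ∉ Sqf s →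
      Even (ordv s (y : F)) := by
    intro s hs hst has
    have h1 := hw s hs has
    have h2 := hsum s
    have h3 : ordv s (y : F) = ordv s (π : F) - ordv s (w : F) := by omega
    rw [h3]
    exact (hπ' s hs hst has).sub h1
  -- `a` is not a square
  have hasq : ∀ z : Fˣ, a ≠ z ^ 2 := fun z hz => hat (by
    rw [hz]
    exact sq_mem (Sum.inr t) z)
  obtain ⟨K, iK, iN, iA, iG, α, hK⟩ := qe_exists a hasq
  obtain ⟨k, b, T, i₀, hd, hb, hT, -⟩ := dual_exists hV ha ht hat ∅
  obtain ⟨B, hB⟩ := us_exists y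
  set V₂ := ext2 V T with hV₂
  set V₃ := V₂ ∪ B with hV₃
  have hVV₂ : V ⊆ V₂ := fun v hv => mem_ext2.2 (Or.inl hv)
  have hV₂₃ : V₂ ⊆ V₃ := Finset.subset_union_left
  have hVV₃ : V ⊆ V₃ := hVV₂.trans hV₂₃
  have hG₃ : Good V₃ := good_mono hV hVV₃
  have hyU : y ∈ Us V₃ := hB V₃ Finset.subset_union_right
  have hL1 := L1 hK hG₃ (fun v hv => by
    have h1 : ordv v (a : F) = 0 := ha v (fun h => hv (hVV₃ h))
    rw [h1]
    exact Even.zero)
  -- inert places
  have hinert : ∀ s : HeightOneSpectrum (𝓞 F), s ∉ V → a ∉ Sqf s → ∀ x : Fˣ,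
      (x ∈ LN (Sum.inr s) a ↔ Even (ordv s (x : F))) := by
    intro s hs has x
    refine odd_inert (fun h2 => hs (hV.dya s h2)) ?_ has x
    have h1 : ordv s (a : F) = 0 := ha s hs
    rw [h1]
    exact Even.zero
  have hsplit : ∀ s : HeightOneSpectrum (𝓞 F), s ∈ V₂ → s ∉ V → a ∉ Sqf s → s = t := by
    intro s hs hsV has
    rcases mem_ext2.1 hs with h1 | ⟨i, rfl⟩
    · exact absurd h1 hsV
    · by_contra hne
      apply has
      rw [← hb, hd.dual]
      rintro rfl
      exact hne hT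
  -- all vectors are attained
  have hx : ∀ e : {P : PS V₃ // a ∉ Sq P.pl} → Prop, ∃ x ∈ Us V₃,
      ∀ P : {P : PS V₃ // a ∉ Sq P.pl}, x ∈ LN P.1.pl a ↔ e P := by
    intro e
    set Z : Finset (HeightOneSpectrum (𝓞 F)) := V₃.filter (fun s =>
      ∃ (hs : s ∈ V₃) (has : a ∉ Sqf s), ¬ e ⟨Sum.inr ⟨s, hs⟩, has⟩) with hZ
    obtain ⟨z, hz⟩ := c1_prod hV Z
    have hzU : z ∈ Us V₃ := by
      intro s hs
      rw [hz s (fun h => hs (hVV₃ h)), if_neg]
      intro h1
      exact hs (Finset.mem_filter.1 h1).1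
    -- the classes at the places of `V`
    have hd' : ∀ P : PS V, ∃ d : Fˣ, ∀ (Q : {P : PS V₃ // a ∉ Sq P.pl}), Q.1.pl = P.pl →
        (d ∈ LN P.pl a ↔ e Q) := by
      intro P
      by_cases hQ : ∃ Q : {P : PS V₃ // a ∉ Sq P.pl}, Q.1.pl = P.pl
      · obtain ⟨Q, hQ⟩ := hQ
        have huniq : ∀ Q' : {P : PS V₃ // a ∉ Sq P.pl}, Q'.1.pl = P.pl → Q' = Q := by
          rintro ⟨Q', h'⟩ h1
          have h2 : Q'.pl = Q.1.pl := h1.trans hQ.symm
          apply Subtype.ext
          rcases Q' with w' | w' <;> rcases hQ1 : Q.1 with w₁ | w₁ <;> rw [hQ1] at h2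
          · exact congrArg Sum.inl (Sum.inl_injective h2)
          · exact absurd h2 (by simp [PS.pl])
          · exact absurd h2 (by simp [PS.pl])
          · exact congrArg Sum.inr (Subtype.ext (Sum.inr_injective h2))
        by_cases he : e Q
        · refine ⟨1, fun Q' h' => ?_⟩
          rw [huniq Q' h']
          exact ⟨fun _ => he, fun _ => (LN P.pl a).one_mem⟩
        · obtain ⟨d, hd1⟩ := nonnorm (v := P.pl) (a := a) (by rw [← hQ]; exact Q.2)
          refine ⟨d, fun Q' h' => ?_⟩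
          rw [huniq Q' h']
          exact ⟨fun h1 => absurd h1 hd1, fun h1 => absurd h1 he⟩
      · exact ⟨1, fun Q h1 => absurd ⟨Q, h1⟩ hQ⟩
    choose d hd1 using hd'
    obtain ⟨x₁, hx₁⟩ := weak_approx V (fun P => z * d P)
    obtain ⟨u, hu, hxu⟩ := dual_surj hV hd x₁
    have hxu' : ∀ P : PS V, x₁ * u ∈ Sq P.pl := fun P => by
      have h1 : x₁ * u ∈ ⨅ P : PS V, Sq P.pl := hxu
      exact (Subgroup.mem_iInf.1 h1) P
    have hy' : ∀ P : PS V, y ∈ Sq P.pl := fun P => by
      have h1 : y ∈ ⨅ P : PS V, Sq P.pl := hy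
      exact (Subgroup.mem_iInf.1 h1) P
    have hzu : ∀ P : PS V, (z * u) * d P ∈ Sq P.pl := by
      intro P
      refine c1_sq_of (x := x₁) ?_
      have e1 : x₁ ^ 2 * ((z * u) * d P) = (x₁ * u) * (x₁ * (z * d P)) := by
        rw [pow_two]
        simp only [mul_comm, mul_left_comm, mul_assoc]
      rw [e1]
      exact (Sq P.pl).mul_mem (hxu' P) (hx₁ P)
    have hSqLN : ∀ v : Pl F, Sq v ≤ LN v a := fun v => le_sup_left
    have hzuLN : ∀ P : PS V, (z * u ∈ LN P.pl a ↔ d P ∈ LN P.pl a) := by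
      intro P
      have h1 := hSqLN _ (hzu P)
      constructor
      · intro h2
        exact ((LN P.pl a).mul_mem_cancel_left h2).1 h1
      · intro h2
        exact ((LN P.pl a).mul_mem_cancel_right h2).1 h1
    have hzuyLN : ∀ P : PS V, (z * u * y ∈ LN P.pl a ↔ d P ∈ LN P.pl a) := by
      intro P
      rw [← hzuLN P]
      exact (LN P.pl a).mul_mem_cancel_right (hSqLN _ (hy' P))
    have hut : ∀ s, s ∉ V₂ → ordv s (u : F) = 0 := hu
    -- `x = z u` or `x = z u y`
    have key : ∀ x : Fˣ, x ∈ Us V₃ → (∀ P : PS V, (x ∈ LN P.pl a ↔ d P ∈ LN P.pl a)) →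
        (∀ s : HeightOneSpectrum (𝓞 F), s ∉ V → s ≠ t → a ∉ Sqf s → s ∈ V₃ →
          (Even (ordv s (x : F)) ↔ Even (ordv s (z : F)))) →
        (∀ (htt : t ∈ V₃) (hat' : a ∉ Sqf t),
          (Even (ordv t (x : F)) ↔ e ⟨Sum.inr ⟨t, htt⟩, hat'⟩)) →
        ∀ P : {P : PS V₃ // a ∉ Sq P.pl}, x ∈ LN P.1.pl a ↔ e P := by
      intro x hxU hxP hxs hxt P
      obtain ⟨P, hP⟩ := P
      rcases P with P | ⟨s, hs⟩
      · have h1 := hxP (Sum.inl P)
        have h2 := hd1 (Sum.inl P) ⟨Sum.inl P, hP⟩ rfl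
        exact h1.trans h2
      · by_cases hsV : s ∈ V
        · have h1 := hxP (Sum.inr ⟨s, hsV⟩)
          have h2 := hd1 (Sum.inr ⟨s, hsV⟩) ⟨Sum.inr ⟨s, hs⟩, hP⟩ rfl
          exact h1.trans h2
        · have hsq : a ∉ Sqf s := hP
          have h1 : x ∈ LN (Sum.inr s) a ↔ Even (ordv s (x : F)) := hinert s hsV hsq x
          refine h1.trans ?_
          by_cases hst : s = t
          · subst hst
            exact hxt hs hsq
          · rw [hxs s hsV hst hsq hs, hz s hsV]
            by_cases hsZ : s ∈ Z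
            · rw [if_pos hsZ]
              obtain ⟨-, h2, h3, h4⟩ := Finset.mem_filter.1 hsZ
              constructor
              · intro h5
                exact absurd h5 (by decide)
              · intro h5
                exact absurd h5 h4
            · rw [if_neg hsZ]
              constructor
              · intro _
                by_contra h5
                exact hsZ (Finset.mem_filter.2 ⟨hs, hs, hsq, h5⟩)
              · intro _
                exact Even.zero
    have huU : u ∈ Us V₃ := fun s hs => hut s (fun h => hs (hV₂₃ h))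
    have hzuU : z * u ∈ Us V₃ := (Us V₃).mul_mem hzU huU
    have hs0 : ∀ s : HeightOneSpectrum (𝓞 F), s ∉ V → s ≠ t → a ∉ Sqf s →
        ordv s (u : F) = 0 := by
      intro s hs hst has
      exact hut s (fun h => hst (hsplit s h hs has))
    have htV₃ : t ∈ V₃ := hV₂₃ (mem_ext2.2 (Or.inr ⟨i₀, hT⟩))
    by_cases hpar : (Even (ordv t ((z * u : Fˣ) : F)) ↔ e ⟨Sum.inr ⟨t, htV₃⟩, hat⟩)
    · refine ⟨z * u, hzuU, key _ hzuU hzuLN ?_ (fun _ _ => hpar)⟩
      intro s hs hst has _
      rw [ordv_mul, hs0 s hs hst has, add_zero]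
    · refine ⟨z * u * y, (Us V₃).mul_mem hzuU hyU, key _ ((Us V₃).mul_mem hzuU hyU) hzuyLN ?_ ?_⟩
      · intro s hs hst has _
        rw [ordv_mul, ordv_mul, hs0 s hs hst has, add_zero, Int.even_add]
        have h1 := hys s hs hst has
        tauto
      · intro _ _
        rw [ordv_mul, Int.even_add]
        have h1 : ¬ Even (ordv t (y : F)) := Int.not_even_iff_odd.2 hyt
        tauto
  have hN : ∀ P : {P : PS V₃ // a ∉ Sq P.pl}, NmU K V₃ ≤ LN P.1.pl a := fun P =>
    (nmU_nm hK V₃).trans le_sup_right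
  have h0 : (NmU K V₃).relIndex (Us V₃) ≠ 0 := by
    intro h0
    rw [h0, mul_zero] at hL1
    exact absurd hL1.symm (by positivity)
  have hge := idx_ge (NmU K V₃) (Us V₃) (fun P : {P : PS V₃ // a ∉ Sq P.pl} => LN P.1.pl a) hN hx h0
  omega

end C1



end Pool.Agent.QR
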