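import Pool.Agent.Lib_helper17.QR.Defs
import Pool.Agent.Lib_helper35.RG.Defs
import Pool.Agent.Lib_helper17.QRF.P_LO
/-!
# QR block RH: `rho_mul_right`, `rho_mul_left`
-/

set_option autoImplicit false
set_option linter.unusedSectionVars false
set_option linter.unusedVariables false

namespace Pool.Agent.QR

open Pool.Agent.RSK Pool.Agent.RG
open NumberField IsDedekindDomain

section Prod

variable {F : Type} [Field F] [NumberField F]

open scoped Classical in
theorem RH_fin (V : Finset (HeightOneSpectrum (𝓞 F))) (a x : Fˣ) :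
    Function.HasFiniteSupport fun s : HeightOneSpectrum (𝓞 F) =>
      if s ∉ V ∧ a ∉ Sqf s then (ordv s (x : F) : ZMod 2) else 0 := by
  show (Function.support _).Finite
  refine Set.Finite.subset (dvx_finite x) fun s hs => ?_
  rw [Function.mem_support] at hs ⊢
  intro h0
  apply hs
  have h1 : ordv s (x : F) = 0 := h0
  rw [h1]
  simp

theorem rho_mul_right (V : Finset (HeightOneSpectrum (𝓞 F))) (a x y : Fˣ) :
    rho V a (x * y) = rho V a x + rho V a y := by
  classical
  unfold rho
  rw [← finsum_add_distrib (RH_fin V a x) (RH_fin V a y)]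
  refine finsum_congr fun s => ?_
  rw [ordv_mul]
  split_ifs
  · push_cast
    rfl
  · rw [add_zero]



theorem rho_mul_left {V : Finset (HeightOneSpectrum (𝓞 F))} (hV : Good V) {a b : Fˣ}
    (ha : a ∈ Us V) (hb : b ∈ Us V) (x : Fˣ) :
    rho V (a * b) x = rho V a x + rho V b x := by
  classical
  unfold rho
  rw [← finsum_add_distrib (RH_fin V a x) (RH_fin V b x)]
  refine finsum_congr fun s => ?_
  by_cases hs : s ∈ V
  · simp [hs]
  · have h2 : (2 : 𝓞 F) ∉ s.asIdeal := fun h => hs (hV.dya s h)
    have hev : ∀ x : Fˣ, x ∈ Us V → Even (ordv s (x : F)) := fun x hx => by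
      have h0 : ordv s (x : F) = 0 := hx s hs
      rw [h0]
      exact Even.zero
    by_cases h1 : a ∈ Sqf s
    · have h3 : a * b ∈ Sqf s ↔ b ∈ Sqf s := (Sqf s).mul_mem_cancel_left h1
      simp [hs, h1, h3]
    · by_cases h4 : b ∈ Sqf s
      · have h3 : a * b ∈ Sqf s ↔ a ∈ Sqf s := (Sqf s).mul_mem_cancel_right h4
        simp [hs, h4, h3]
      · have h3 : a * b ∈ Sqf s := odd_units h2 (hev a ha) (hev b hb) h1 h4
        simp only [hs, h1, h4, h3, not_true_eq_false, not_false_eq_true, and_false, and_true,
          if_true, if_false]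
        rw [← two_mul, show (2 : ZMod 2) = 0 from rfl, zero_mul]



end Prod

end Pool.Agent.QR
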