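import Pool.Agent.Lib_helper17.QR.Defs
import Pool.Agent.Lib_helper35.RG.Defs
import Pool.Agent.Lib_helper17.QRF.P_C1
import Pool.Agent.Lib_helper17.QRF.P_C2
import Pool.Agent.Lib_helper17.QRF.P_GV
import Pool.Agent.Lib_helper17.QRF.P_RH
/-!
# Block K1 of QR (MP_dd9835_nt): the kernel of `rho`
-/

set_option autoImplicit false
set_option linter.unusedSectionVars false

namespace Pool.Agent.QR

open Pool.Agent.RSK Pool.Agent.RG
open NumberField IsDedekindDomain

section Prod

variable {F : Type} [Field F] [NumberField F]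

theorem k1_us_wa {V : Finset (HeightOneSpectrum (𝓞 F))} {a x : Fˣ} (hx : x ∈ Us V) :
    x ∈ Wa V a := by
  refine Subgroup.mem_sup_right fun s hs _ => ?_
  rw [hx s hs]
  exact Even.zero

theorem k1_us_rho {V : Finset (HeightOneSpectrum (𝓞 F))} {a x : Fˣ} (hx : x ∈ Us V) :
    rho V a x = 0 := by
  classical
  unfold rho
  refine finsum_eq_zero_of_forall_eq_zero fun s => ?_
  split_ifs with h
  · rw [hx s h.1, Int.cast_zero]
  · rfl

theorem k1_pi {V : Finset (HeightOneSpectrum (𝓞 F))} (hV : Good V) {a : Fˣ} (ha : a ∈ Us V)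
    {s : HeightOneSpectrum (𝓞 F)} (hs : s ∉ V) {π : Fˣ} (h1 : ordv s (π : F) = 1)
    (h2 : ∀ u : HeightOneSpectrum (𝓞 F), u ∉ V → u ≠ s → ordv u (π : F) = 0) :
    π ∈ Wa V a ↔ rho V a π = 0 := by
  classical
  have hrho : rho V a π = if a ∉ Sqf s then 1 else 0 := by
    unfold rho
    rw [finsum_eq_single _ s]
    · by_cases h : a ∈ Sqf s
      · rw [if_neg (fun h' => h'.2 h), if_neg (not_not.2 h)]
      · rw [if_pos ⟨hs, h⟩, if_pos h, h1, Int.cast_one]
    · intro u hu
      split_ifs with h
      · rw [h2 u h.1 hu, Int.cast_zero]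
      · rfl
  by_cases h : a ∈ Sqf s
  · rw [if_neg (not_not.2 h)] at hrho
    refine ⟨fun _ => hrho, fun _ => Subgroup.mem_sup_right fun u hu hau => ?_⟩
    have hus : u ≠ s := by
      rintro rfl
      exact hau h
    rw [h2 u hu hus]
    exact Even.zero
  · rw [if_pos h] at hrho
    refine ⟨fun h' => ?_, fun h' => ?_⟩
    · exact absurd h' (c1_main hV ha hs h (by rw [h1]; exact odd_one) fun u hu hus _ => by
        rw [h2 u hu hus]
        exact Even.zero)
    · rw [hrho] at h'
      exact absurd h' one_ne_zero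

/-- Block K1. -/
theorem k1_main {V : Finset (HeightOneSpectrum (𝓞 F))} (hV : Good V) {a : Fˣ} (ha : a ∈ Us V)
    (x : Fˣ) : x ∈ Wa V a ↔ rho V a x = 0 := by
  classical
  -- both sides as homomorphisms
  have hW : ∀ y z : Fˣ, (y * z ∈ Wa V a ↔ (y ∈ Wa V a ↔ z ∈ Wa V a)) := by
    intro y z
    by_cases hy : y ∈ Wa V a
    · rw [(Wa V a).mul_mem_cancel_left hy]
      simp [hy]
    · by_cases hz : z ∈ Wa V a
      · rw [(Wa V a).mul_mem_cancel_right hz]
        simp [hz]
      · simp only [hy, hz, iff_true]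
        exact c2_main hV ha hy hz
  have h01 : ∀ c : ZMod 2, c = 0 ∨ c = 1 := by decide
  have hR : ∀ y z : Fˣ, (rho V a (y * z) = 0 ↔ (rho V a y = 0 ↔ rho V a z = 0)) := by
    intro y z
    rw [rho_mul_right]
    rcases h01 (rho V a y) with h | h <;> rcases h01 (rho V a z) with h' | h' <;> rw [h, h'] <;>
      decide
  -- the set where the two sides agree is a subgroup
  let H : Subgroup Fˣ :=
    { carrier := {y | y ∈ Wa V a ↔ rho V a y = 0}
      one_mem' := by
        have h1 : (1 : Fˣ) ∈ Us V := (Us V).one_mem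
        exact ⟨fun _ => k1_us_rho h1, fun _ => k1_us_wa h1⟩
      mul_mem' := by
        intro y z hy hz
        show y * z ∈ Wa V a ↔ rho V a (y * z) = 0
        rw [hW, hR]
        exact iff_congr hy hz
      inv_mem' := by
        intro y hy
        show y⁻¹ ∈ Wa V a ↔ rho V a y⁻¹ = 0
        have h1 : (1 : Fˣ) ∈ Us V := (Us V).one_mem
        have h2 := hR y y⁻¹
        rw [mul_inv_cancel] at h2
        have h3 := h2.1 (k1_us_rho h1)
        rw [inv_mem_iff, ← h3]
        exact hy }
  have hU : ∀ y ∈ Us V, y ∈ H := fun y hy => ⟨fun _ => k1_us_rho hy, fun _ => k1_us_wa hy⟩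
  -- induction on the support
  have key : ∀ (T : Finset (HeightOneSpectrum (𝓞 F))) (y : Fˣ),
      (∀ s : HeightOneSpectrum (𝓞 F), s ∉ V → s ∉ T → ordv s (y : F) = 0) → y ∈ H := by
    intro T
    induction T using Finset.induction with
    | empty => exact fun y hy => hU y fun s hs => hy s hs (Finset.notMem_empty s)
    | insert s T hsT ih =>
      intro y hy
      by_cases hs : s ∈ V
      · refine ih y fun u hu huT => hy u hu fun h => ?_
        rcases Finset.mem_insert.1 h with h | h
        · exact hu (h ▸ hs)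
        · exact huT h
      · obtain ⟨π, h1, h2⟩ := hV.cls s hs
        have hπ : π ∈ H := k1_pi hV ha hs h1 h2
        have hz : ∀ (u : HeightOneSpectrum (𝓞 F)) (z : Fˣ) (n : ℤ),
            ordv u ((z ^ n : Fˣ) : F) = n * ordv u (z : F) := by
          intro u z n
          induction n using Int.induction_on with
          | zero => rw [zpow_zero, Units.val_one, ordv_one, zero_mul]
          | succ m ihm => rw [zpow_add_one, ordv_mul, ihm]; ring
          | pred m ihm => rw [zpow_sub_one, ordv_mul, ordv_inv, ihm]; ring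
        have hy' : y * π ^ (-ordv s (y : F)) ∈ H := by
          refine ih _ fun u hu huT => ?_
          rw [ordv_mul, hz]
          by_cases hus : u = s
          · rw [hus, h1]
            ring
          · rw [h2 u hu hus, hy u hu fun h => (Finset.mem_insert.1 h).elim hus huT]
            ring
        have h3 := H.mul_mem hy' (H.zpow_mem hπ (ordv s (y : F)))
        rwa [mul_assoc, ← zpow_add, neg_add_cancel, zpow_zero, mul_one] at h3
  obtain ⟨B, hB⟩ := us_exists x
  exact key B x fun s hs hsB => hB (V ∪ B) Finset.subset_union_right s fun h =>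
    (Finset.mem_union.1 h).elim hs hsB



end Prod

end Pool.Agent.QR
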