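import Pool.Agent.Lib_helper17.QR.Defs
import Pool.Agent.Lib_helper35.RG.Defs
import Pool.Agent.Lib_helper17.QRF.P_DC
import Pool.Agent.Lib_helper17.QRF.P_DU
import Pool.Agent.Lib_helper17.QRF.P_K1
import Pool.Agent.Lib_helper17.QRF.P_L4
import Pool.Agent.Lib_helper17.QRF.P_LA
import Pool.Agent.Lib_helper17.QRF.P_UB
set_option autoImplicit false

namespace Pool.Agent.QR

open Pool.Agent.RSK Pool.Agent.RG
open NumberField IsDedekindDomain

section Prod

variable {F : Type} [Field F] [NumberField F]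

/-- the valuation as a homomorphism -/
noncomputable def e1_hom (v : HeightOneSpectrum (𝓞 F)) : Fˣ →* Multiplicative ℤ where
  toFun x := Multiplicative.ofAdd (ordv v (x : F))
  map_one' := by rw [Units.val_one, ordv_one]; rfl
  map_mul' x y := by rw [ordv_mul, ofAdd_add]

theorem e1_prod (v : HeightOneSpectrum (𝓞 F)) {ι : Type} (s : Finset ι) (f : ι → Fˣ) :
    ordv v ((∏ i ∈ s, f i : Fˣ) : F) = ∑ i ∈ s, ordv v (f i : F) := by
  have h := map_prod (e1_hom v) f s
  have h2 := congrArg Multiplicative.toAdd h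
  rw [toAdd_prod] at h2
  exact h2

theorem e1_zpow (v : HeightOneSpectrum (𝓞 F)) (x : Fˣ) (n : ℤ) :
    ordv v ((x ^ n : Fˣ) : F) = n * ordv v (x : F) := by
  have h := map_zpow (e1_hom v) x n
  have h2 := congrArg Multiplicative.toAdd h
  rw [toAdd_zpow, smul_eq_mul] at h2
  exact h2

/-- there is a `V`-unit which is not a square -/
theorem e1_nonsq (V : Finset (HeightOneSpectrum (𝓞 F))) :
    ∃ a ∈ Us V, ∀ y : Fˣ, a ≠ y ^ 2 := by
  by_contra hcon
  push Not at hcon
  have h1 : ((powMonoidHom 2 : Fˣ →* Fˣ).range).relIndex (Us V) = 1 := by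
    rw [Subgroup.relIndex_eq_one]
    intro a ha
    obtain ⟨y, hy⟩ := hcon a ha
    exact ⟨y, hy.symm⟩
  have h2 := us_sq_index V
  rw [h1] at h2
  have h3 : 0 < Fintype.card (PS V) := by
    have : Nonempty (PS V) := ⟨Sum.inl (Classical.arbitrary (InfinitePlace F))⟩
    exact Fintype.card_pos
  have h4 : 1 < 2 ^ Fintype.card (PS V) := Nat.one_lt_two_pow h3.ne'
  omega

/-- for a unit `u` outside `V` and the `t_i` the reciprocity map is the valuation at `t_i` -/
theorem e1_rho {V : Finset (HeightOneSpectrum (𝓞 F))} {k : ℕ} {b : Fin k → Fˣ}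
    {t : Fin k → HeightOneSpectrum (𝓞 F)} (hd : Dual V b t) {u : Fˣ} (hu : u ∈ Us (ext2 V t))
    (i : Fin k) : rho V (b i) u = (ordv (t i) (u : F) : ZMod 2) := by
  unfold rho
  rw [finsum_eq_single _ (t i)]
  · rw [if_pos]
    exact ⟨hd.out i, fun h => ((hd.dual i i).1 h) rfl⟩
  · intro s hs
    split_ifs with h
    · by_cases hst : ∃ j, t j = s
      · obtain ⟨j, rfl⟩ := hst
        exact absurd ((hd.dual j i).2 fun hij => hs (by rw [hij])) h.2
      · rw [hu s fun hmem => ?_, Int.cast_zero]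
        rcases mem_ext2.1 hmem with h1 | h1
        · exact h.1 h1
        · exact hst h1
    · rfl

theorem e1_sqs_le_wa (V : Finset (HeightOneSpectrum (𝓞 F))) (a : Fˣ) : Sqs V ≤ Wa V a := le_sup_left

/-- Block E1 -/
theorem e1_main {V : Finset (HeightOneSpectrum (𝓞 F))} (hV : Good V) {x : Fˣ}
    (h : ∀ a ∈ Us V, x ∈ Wa V a) : ∃ u ∈ Us V, x * u ∈ Sqs V := by
  classical
  obtain ⟨a, ha, hna⟩ := e1_nonsq V
  obtain ⟨t0, ht0, -, -, hat0⟩ := inert_exists a hna V
  obtain ⟨k, b, t, i₀, hd, -, -, -⟩ := dual_exists hV ha ht0 hat0 ∅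
  obtain ⟨u, hu, hxu⟩ := dual_surj hV hd x
  have hinj := (dual_card hd).1
  have hev : ∀ i, Even (ordv (t i) (u : F)) := by
    intro i
    have h1 : u ∈ Wa V (b i) := by
      have h2 : x⁻¹ * (x * u) ∈ Wa V (b i) :=
        (Wa V (b i)).mul_mem ((Wa V (b i)).inv_mem (h _ (hd.mem i))) (e1_sqs_le_wa V _ hxu)
      rwa [inv_mul_cancel_left] at h2
    have h3 := (k1_main hV (hd.mem i) u).1 h1
    rw [e1_rho hd hu] at h3
    exact even_iff_two_dvd.2 (by simpa using (ZMod.intCast_zmod_eq_zero_iff_dvd _ 2).1 h3)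
  choose m hm using hev
  choose π hπ1 hπ2 using fun i => hV.cls (t i) (hd.out i)
  have hval : ∀ s : HeightOneSpectrum (𝓞 F), s ∉ V →
      ordv s ((u * (∏ i, π i ^ (-m i)) ^ 2 : Fˣ) : F) = 0 := by
    intro s hs
    have e : (∏ i, π i ^ (-m i)) ^ 2 = (∏ i, π i ^ (-m i)) * (∏ i, π i ^ (-m i)) := sq _
    rw [e, ordv_mul, ordv_mul, e1_prod]
    by_cases hst : ∃ j, t j = s
    · obtain ⟨j, rfl⟩ := hst
      have h1 : ∑ i, ordv (t j) ((π i ^ (-m i) : Fˣ) : F) = -m j := by
        rw [Finset.sum_eq_single j]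
        · rw [e1_zpow, hπ1, mul_one]
        · intro i _ hij
          rw [e1_zpow, hπ2 i (t j) hs fun h => hij (hinj h).symm, mul_zero]
        · exact fun h => absurd (Finset.mem_univ j) h
      rw [h1, hm j]
      ring
    · have h1 : ∑ i, ordv s ((π i ^ (-m i) : Fˣ) : F) = 0 := by
        refine Finset.sum_eq_zero fun i _ => ?_
        rw [e1_zpow, hπ2 i s hs fun h => hst ⟨i, h.symm⟩, mul_zero]
      rw [h1, hu s fun hmem => ?_]
      · rfl
      · rcases mem_ext2.1 hmem with h2 | h2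
        · exact hs h2
        · exact hst h2
  refine ⟨u * (∏ i, π i ^ (-m i)) ^ 2, hval, ?_⟩
  rw [← mul_assoc]
  refine (Sqs V).mul_mem hxu ?_
  rw [Sqs, Subgroup.mem_iInf]
  exact fun P => sq_mem P.pl _

end Prod



end Pool.Agent.QR
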