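import Pool.Agent.Lib_helper17.QR.Defs
import Pool.Agent.Lib_helper35.RG.Defs
import Pool.Agent.Lib_helper17.QRF.P_E1
import Pool.Agent.Lib_helper17.QRF.P_L1
import Pool.Agent.Lib_helper17.QRF.P_LA
import Pool.Agent.Lib_helper17.QRF.P_NN
import Pool.Agent.Lib_helper17.QRF.P_NU
import Pool.Agent.Lib_helper17.QRF.P_QF2
import Pool.Agent.Lib_helper17.QRF.P_WA
/-!
# QR, block E2
-/

set_option autoImplicit false
set_option linter.unusedSectionVars false

namespace Pool.Agent.QR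

open Pool.Agent.RSK Pool.Agent.RG
open NumberField IsDedekindDomain

section E2

variable {F : Type} [Field F] [NumberField F]

/-- every class at `P` contains a `V`-unit which is a square at the other places of `V` -/
theorem e2_unit {V : Finset (HeightOneSpectrum (𝓞 F))} (hV : Good V) (P : PS V)
    (h : ∀ x ∈ Xv V P, ∀ a ∈ Us V, x ∈ Wa V a) (x : Fˣ) :
    ∃ u ∈ Us V, x * u ∈ Sq P.pl ∧ u ∈ Xv V P := by
  classical
  obtain ⟨x', hx'⟩ := weak_approx V (fun Q => if Q = P then x else 1)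
  have h1 : x' * x ∈ Sq P.pl := by
    have h2 := hx' P
    simpa using h2
  have h2 : ∀ Q : PS V, Q ≠ P → x' ∈ Sq Q.pl := by
    intro Q hQ
    have h3 := hx' Q
    simpa [hQ] using h3
  have h3 : x' ∈ Xv V P := by
    unfold Xv
    rw [Subgroup.mem_iInf]
    exact fun Q => h2 Q.1 Q.2
  obtain ⟨u, hu, hxu⟩ := e1_main hV (h x' h3)
  unfold Sqs at hxu
  rw [Subgroup.mem_iInf] at hxu
  refine ⟨u, hu, ?_, ?_⟩
  · -- `x u = (x' x) (x' u) / x'²`
    have h4 := (Sq P.pl).mul_mem (Subgroup.mul_mem _ h1 (hxu P)) (Subgroup.inv_mem _ (sq_mem P.pl x'))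
    have e : x' * x * (x' * u) * (x' ^ 2)⁻¹ = x * u := by
      rw [mul_inv_eq_iff_eq_mul, pow_two]
      ac_rfl
    rwa [e] at h4
  · unfold Xv
    rw [Subgroup.mem_iInf]
    intro Q
    exact (Subgroup.mul_mem_cancel_left _ (h2 Q.1 Q.2)).1 (hxu Q.1)

theorem e2_main {V : Finset (HeightOneSpectrum (𝓞 F))} (hV : Good V) (P : PS V)
    (h : ∀ x ∈ Xv V P, ∀ a ∈ Us V, x ∈ Wa V a) (x : Fˣ) : x ∈ Sq P.pl := by
  by_contra hx
  obtain ⟨u, hu, hxu, huX⟩ := e2_unit hV P h x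
  have huP : u ∉ Sq P.pl := fun hcon => hx ((Subgroup.mul_mem_cancel_right _ hcon).1 hxu)
  have hns : ∀ y : Fˣ, u ≠ y ^ 2 := by
    rintro y rfl
    exact huP (sq_mem P.pl y)
  obtain ⟨K, _, _, _, _, α, hK⟩ := qe_exists u hns
  have hev : ∀ v : HeightOneSpectrum (𝓞 F), v ∉ V → Even (ordv v (u : F)) := by
    intro v hv
    rw [hu v hv]
    exact Even.zero
  have hL := L1 hK hV hev
  have hcard : Nat.card {Q : PS V // u ∉ Sq Q.pl} = 1 := by
    rw [Nat.card_eq_one_iff_unique]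
    have key : ∀ Q : PS V, u ∉ Sq Q.pl → Q = P := by
      intro Q hQ
      by_contra hne
      apply hQ
      unfold Xv at huX
      rw [Subgroup.mem_iInf] at huX
      exact huX ⟨Q, hne⟩
    refine ⟨⟨fun a b => Subtype.ext ?_⟩, ⟨⟨P, huP⟩⟩⟩
    rw [key _ a.2, key _ b.2]
  rw [hcard] at hL
  have hrel : (NmU K V).relIndex (Us V) = 1 := by omega
  have hle : Us V ≤ NmU K V := Subgroup.relIndex_eq_one.1 hrel
  obtain ⟨b, hb⟩ := nonnorm huP
  apply hb
  obtain ⟨u', hu', hbu', -⟩ := e2_unit hV P h b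
  have h1 : u' ∈ LN P.pl u := by
    unfold LN
    exact Subgroup.mem_sup_right (nmU_nm hK V (hle hu'))
  have h2 : b * u' ∈ LN P.pl u := by
    unfold LN
    exact Subgroup.mem_sup_left hbu'
  exact (Subgroup.mul_mem_cancel_right _ h1).1 h2



end E2

end Pool.Agent.QR
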