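import Pool.Agent.Lib_helper17.QR.Defs
import Pool.Agent.Lib_helper35.RG.Defs
import Pool.Agent.Lib_helper17.QRF.P_LA
/-!
# Block LT of the project QR: a local square makes the local norm group everything
-/

set_option autoImplicit false
set_option linter.unusedSectionVars false
set_option linter.unusedVariables false

namespace Pool.Agent.QR

open Pool.Agent.RSK Pool.Agent.RG
open NumberField IsDedekindDomain

section Loc

variable {F : Type} [Field F] [NumberField F]

/-- exponentials are eventually small -/
theorem lt_small (z w : WithZero (Multiplicative ℤ)) (hw : w ≠ 0) :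
    ∃ n : ℕ, WithZero.exp (-(n : ℤ)) * z < w := by
  by_cases hz : z = 0
  · exact ⟨0, by rw [hz, mul_zero]; exact zero_lt_iff.2 hw⟩
  · refine ⟨(WithZero.log z - WithZero.log w).toNat + 1, ?_⟩
    rw [← WithZero.exp_log hz, ← WithZero.exp_log hw, ← WithZero.exp_add, WithZero.exp_lt_exp]
    have h := Int.self_le_toNat (WithZero.log z - WithZero.log w)
    simp only [WithZero.exp_log hz, WithZero.exp_log hw]
    push_cast
    omega

theorem ln_top {v : Pl F} {a : Fˣ} (h : a ∈ Sq v) : LN v a = ⊤ := by
  rw [eq_top_iff]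
  rintro b -
  rcases v with w | v
  · -- archimedean places
    have ha : a ∈ Sqi w := h
    by_cases hw : w.IsReal
    · by_cases hb : 0 < (w.embedding (b : F)).re
      · exact Subgroup.mem_sup_left (show b ∈ Sqi w from fun _ => hb)
      · have him : ∀ x : F, (w.embedding x).im = 0 := fun x => by
          have h3 := InfinitePlace.isReal_iff.1 hw
          have h4 := ComplexEmbedding.isReal_iff.1 h3
          have h5 := congrArg (fun φ : F →+* ℂ => φ x) h4
          exact Complex.conj_eq_iff_im.1 h5
        have hb0 : (w.embedding (b : F)).re ≠ 0 := by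
          intro h0
          have h1 : w.embedding (b : F) = 0 := Complex.ext h0 (him _)
          exact b.ne_zero ((map_eq_zero _).1 h1)
        have hb1 : (w.embedding (b : F)).re < 0 := lt_of_le_of_ne (not_lt.1 hb) hb0
        have hna : -a ∈ Nm a := ⟨0, 1, by rw [Units.val_neg]; ring⟩
        have hab : b * (-a)⁻¹ ∈ Sqi w := by
          have h6 : b * -a ∈ Sqi w := fun _ => by
            rw [Units.val_mul, Units.val_neg, map_mul, map_neg, Complex.mul_re, him, zero_mul,
              sub_zero, Complex.neg_re]
            exact mul_pos_of_neg_of_neg hb1 (neg_neg_of_pos (ha hw))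
          have h7 : ((-a)⁻¹) ^ 2 ∈ Sqi w := fun _ => by
            rw [Units.val_pow_eq_pow_val, map_pow, pow_two, Complex.mul_re, him, zero_mul,
              sub_zero]
            refine mul_self_pos.2 ?_
            intro h0
            have h1 : w.embedding (((-a)⁻¹ : Fˣ) : F) = 0 := Complex.ext h0 (him _)
            exact ((-a)⁻¹ : Fˣ).ne_zero ((map_eq_zero _).1 h1)
          have h8 := (Sqi w).mul_mem h6 h7
          have h9 : b * -a * (-a)⁻¹ ^ 2 = b * (-a)⁻¹ := by
            rw [pow_two, ← mul_assoc, mul_assoc b, mul_inv_cancel, mul_one]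
          rwa [h9] at h8
        have h10 : b = b * (-a)⁻¹ * -a := by rw [inv_mul_cancel_right]
        rw [h10]
        exact Subgroup.mul_mem_sup hab hna
    · exact Subgroup.mem_sup_left (show b ∈ Sqi w from fun h' => absurd h' hw)
  · -- finite places
    have ha : a ∈ Sqf v := h
    have h4 : v.valuation F 4 ≠ 0 := (map_ne_zero _).2 (by norm_num)
    obtain ⟨n, hn⟩ := lt_small (v.valuation F ((((b : F) - 1) / 2) ^ 2 / b)) (v.valuation F 4) h4
    obtain ⟨c, hc⟩ := sqf_prec ha n
    have hb0 : (b : F) ≠ 0 := b.ne_zero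
    set ε : F := (a : F) * (c : F) ^ 2 - 1 with hε
    set δ : F := ε * ((((b : F) - 1) / 2) ^ 2 / b) with hδ
    have h1 : v.valuation F δ < v.valuation F 4 := by
      rw [hδ, map_mul]
      exact (mul_le_mul_left hc _).trans_lt hn
    have h41 : v.valuation F 4 ≤ 1 := by
      have h : v.valuation F (algebraMap (𝓞 F) F 4) ≤ 1 := v.valuation_le_one 4
      rwa [map_ofNat] at h
    have h2 : 1 - δ ≠ 0 := by
      intro h0
      have h3 : δ = 1 := (sub_eq_zero.1 h0).symm
      rw [h3, map_one] at h1
      exact absurd h1 (not_lt.2 h41)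
    set d : Fˣ := Units.mk0 (1 - δ) h2 with hd
    have hdS : d ∈ Sqf v := by
      refine ⟨1, ?_⟩
      have e : (d : F) * ((1 : Fˣ) : F) ^ 2 - 1 = -δ := by
        rw [hd, Units.val_mk0, Units.val_one]
        ring
      rw [e, Valuation.map_neg]
      exact h1
    have hdN : b * d ∈ Nm a := by
      refine ⟨((b : F) + 1) / 2, (c : F) * (((b : F) - 1) / 2), ?_⟩
      rw [Units.val_mul, hd, Units.val_mk0, hδ, hε]
      field_simp
      ring
    have e : b = d⁻¹ * (b * d) := by
      rw [mul_comm b d, inv_mul_cancel_left]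
    rw [e]
    exact Subgroup.mul_mem_sup (show d⁻¹ ∈ Sq (Sum.inr v) from (Sqf v).inv_mem hdS) hdN

theorem hs_of_sq {v : Pl F} {a : Fˣ} (h : a ∈ Sq v) (b : Fˣ) : hs v a b = 0 := by
  unfold hs
  rw [if_pos]
  rw [ln_top h]
  exact Subgroup.mem_top b

end Loc




end Pool.Agent.QR
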