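import Pool.Agent.Lib_helper17.QR.Defs
import Pool.Agent.Lib_helper35.RG.Defs
import Pool.Agent.Lib_helper17.QRF.P_LA
import Pool.Agent.Lib_helper17.QRF.P_LI
import Pool.Agent.Lib_helper17.QRF.P_LT
/-! Block LY of QR: symmetry of the Hilbert symbol. -/

set_option autoImplicit false
set_option linter.unusedSectionVars false

namespace Pool.Agent.QR

open Pool.Agent.RSK Pool.Agent.RG
open NumberField IsDedekindDomain

section LY

variable {F : Type} [Field F] [NumberField F]

theorem ly_small {m : WithZero (Multiplicative ℤ)} (hm : m ≠ 0) :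
    ∃ n : ℕ, WithZero.exp (-(n : ℤ)) < m := by
  refine ⟨(-WithZero.log m).toNat + 1, ?_⟩
  rw [← WithZero.exp_log hm, WithZero.exp_lt_exp]
  rw [WithZero.log_exp]
  have := Int.self_le_toNat (-WithZero.log m)
  push_cast
  omega

/-- the finite places -/
theorem ly_fin {v : HeightOneSpectrum (𝓞 F)} {a b : Fˣ} (h : b ∈ LN (Sum.inr v) a) :
    a ∈ LN (Sum.inr v) b := by
  obtain ⟨s, hs, n, ⟨x, y, hn⟩, hb⟩ := Subgroup.mem_sup.1 h
  have hs0 := s.ne_zero
  have hb0 := b.ne_zero
  have ha0 := a.ne_zero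
  have hbF : (b : F) = s * n := by rw [← hb, Units.val_mul]
  by_cases hy : y = 0
  · -- `b` is a local square
    have hx : x ≠ 0 := by
      rintro rfl
      apply n.ne_zero
      rw [hn, hy]
      ring
    have hbs : b ∈ Sq (Sum.inr v : Pl F) := by
      have e : b = s * (Units.mk0 x hx) ^ 2 := by
        ext
        rw [hbF, Units.val_mul, Units.val_pow_eq_pow_val, Units.val_mk0, hn, hy]
        ring
      rw [e]
      exact mul_mem hs (sq_mem _ _)
    rw [ln_top hbs]
    exact Subgroup.mem_top _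
  · -- the main case
    have hs' : s⁻¹ ∈ Sqf v := inv_mem hs
    set V := v.valuation F with hV
    have hVa : V (a : F) ≠ 0 := (map_ne_zero _).2 ha0
    have hVb : V (b : F) ≠ 0 := (map_ne_zero _).2 hb0
    have hVs : V (s : F) ≠ 0 := (map_ne_zero _).2 hs0
    have hVy : V y ≠ 0 := (map_ne_zero _).2 hy
    have hV4 : V 4 ≠ 0 := (map_ne_zero _).2 (by norm_num)
    -- the valuation of `E = b (c⁻¹ y⁻¹)²`
    have hm1 : V (b : F) * (V (s : F))⁻¹ * (V y ^ 2)⁻¹ ≠ 0 :=
      mul_ne_zero (mul_ne_zero hVb (inv_ne_zero hVs)) (inv_ne_zero (pow_ne_zero _ hVy))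
    obtain ⟨n1, hn1⟩ := ly_small (m := V 4 * V (a : F) *
      (V (b : F) * (V (s : F))⁻¹ * (V y ^ 2)⁻¹)⁻¹)
      (mul_ne_zero (mul_ne_zero hV4 hVa) (inv_ne_zero hm1))
    obtain ⟨c, hc⟩ := sqf_prec hs' (n1 + 1)
    set ε : F := ((s⁻¹ : Fˣ) : F) * (c : F) ^ 2 - 1 with hε
    have hc0 := c.ne_zero
    have hVc : V (c : F) ≠ 0 := (map_ne_zero _).2 hc0
    have hε1 : V ε < 1 := by
      refine lt_of_le_of_lt hc ?_
      rw [← WithZero.exp_zero, WithZero.exp_lt_exp]
      push_cast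
      omega
    have hε2 : V ε < V 4 * V (a : F) * (V (b : F) * (V (s : F))⁻¹ * (V y ^ 2)⁻¹)⁻¹ := by
      refine lt_of_le_of_lt (hc.trans ?_) hn1
      rw [WithZero.exp_le_exp]
      push_cast
      omega
    -- the valuation of `c`
    have hcc : (V (s : F))⁻¹ * V (c : F) ^ 2 = 1 := by
      have e1 : ((s⁻¹ : Fˣ) : F) * (c : F) ^ 2 = ε + 1 := by rw [hε]; ring
      have e2 : V (((s⁻¹ : Fˣ) : F) * (c : F) ^ 2) = 1 := by
        rw [e1, Valuation.map_add_eq_of_lt_right _ (by rw [map_one]; exact hε1), map_one]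
      rw [map_mul, map_pow, Units.val_inv_eq_inv_val, map_inv₀] at e2
      exact e2
    have hcs : V (c : F) ^ 2 = V (s : F) := by
      rw [inv_mul_eq_one₀ hVs] at hcc
      exact hcc.symm
    set E : F := (b : F) * ((c : F)⁻¹ * y⁻¹) ^ 2 with hE
    have hVE : V E = V (b : F) * (V (s : F))⁻¹ * (V y ^ 2)⁻¹ := by
      rw [hE, map_mul, map_pow, map_mul, map_inv₀, map_inv₀, mul_pow, inv_pow, inv_pow, hcs,
        mul_assoc]
    set D : F := (x * y⁻¹) ^ 2 - E with hD
    have haD : (a : F) = D - E * ε := by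
      have e1 : ((s : F))⁻¹ * (c : F) ^ 2 = 1 + ε := by
        rw [hε, Units.val_inv_eq_inv_val]; ring
      have e2 : (a : F) * y ^ 2 = x ^ 2 - b * (s : F)⁻¹ := by
        rw [hbF, hn]
        field_simp
        ring
      have e3 : (a : F) = (x * y⁻¹) ^ 2 - b * (s : F)⁻¹ * (y⁻¹) ^ 2 := by
        have : (a : F) = ((a : F) * y ^ 2) * (y⁻¹) ^ 2 := by field_simp
        rw [this, e2]
        ring
      have e4 : (s : F)⁻¹ = (1 + ε) * ((c : F)⁻¹) ^ 2 := by
        rw [← e1]
        field_simp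
      rw [e3, e4, hD, hE]
      ring
    have hEε : V (E * ε) < V 4 * V (a : F) := by
      rw [map_mul, hVE]
      have h1 := mul_lt_mul_of_pos_left hε2 (zero_lt_iff.2 hm1)
      refine lt_of_lt_of_eq h1 ?_
      rw [mul_comm, mul_assoc, inv_mul_cancel₀ hm1, mul_one]
    have hEa : V (E * ε) < V (a : F) := by
      refine hEε.trans_le ?_
      calc V 4 * V (a : F) ≤ 1 * V (a : F) := mul_le_mul_left (val_four_le v) _
        _ = V (a : F) := one_mul _
    have hDa : V D = V (a : F) := by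
      have e : D = (a : F) + E * ε := by rw [haD]; ring
      rw [e, Valuation.map_add_eq_of_lt_left _ hEa]
    have hD0 : D ≠ 0 := by
      intro h0
      rw [h0, map_zero] at hDa
      exact hVa hDa.symm
    set d : Fˣ := Units.mk0 D hD0 with hd
    have hdN : d ∈ Nm b := ⟨x * y⁻¹, (c : F)⁻¹ * y⁻¹, by rw [hd, Units.val_mk0, hD, hE]⟩
    have hdS : a * d⁻¹ ∈ Sqf v := by
      refine ⟨1, ?_⟩
      have e : ((a * d⁻¹ : Fˣ) : F) * ((1 : Fˣ) : F) ^ 2 - 1 = -(E * ε * D⁻¹) := by
        rw [Units.val_mul, Units.val_one, Units.val_inv_eq_inv_val, hd, Units.val_mk0, haD]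
        field_simp
        ring
      rw [e, Valuation.map_neg, map_mul, map_inv₀]
      change V (E * ε) * (V D)⁻¹ < V 4
      rw [hDa]
      calc V (E * ε) * (V (a : F))⁻¹ < V 4 * V (a : F) * (V (a : F))⁻¹ :=
            mul_lt_mul_of_pos_right hEε (zero_lt_iff.2 (inv_ne_zero hVa))
        _ = V 4 := by rw [mul_assoc, mul_inv_cancel₀ hVa, mul_one]
    have e : a = (a * d⁻¹) * d := by group
    rw [e]
    exact Subgroup.mul_mem_sup hdS hdN

theorem ln_symm {v : Pl F} {a b : Fˣ} (h : b ∈ LN v a) : a ∈ LN v b := by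
  rcases v with w | v
  · by_cases hb : b ∈ Sqi w
    · have hb' : b ∈ Sq (Sum.inl w : Pl F) := hb
      rw [ln_top hb']
      exact Subgroup.mem_top _
    · rw [ln_inf hb]
      by_contra ha
      rw [ln_inf ha] at h
      exact hb h
  · exact ly_fin h

theorem hs_symm (v : Pl F) (a b : Fˣ) : hs v a b = hs v b a := by
  classical
  unfold hs
  by_cases h : b ∈ LN v a
  · rw [if_pos h, if_pos (ln_symm h)]
  · rw [if_neg h, if_neg (fun h' => h (ln_symm h'))]

end LY




end Pool.Agent.QR
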