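import Pool.Agent.Lib_helper17.QR.Defs
import Pool.Agent.Lib_helper35.RG.Defs
import Pool.Agent.Lib_helper17.QRF.P_DU
import Pool.Agent.Lib_helper17.QRF.P_GV
import Pool.Agent.Lib_helper17.QRF.P_L5
import Pool.Agent.Lib_helper17.QRF.P_LA
import Pool.Agent.Lib_helper17.QRF.P_LO
import Pool.Agent.Lib_helper17.QRF.P_LT
import Pool.Agent.Lib_helper17.QRF.P_LY
import Pool.Agent.Lib_helper17.QRF.P_QF1
import Pool.Agent.Lib_helper17.QRF.P_QF2
set_option autoImplicit false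

namespace Pool.Agent.QR

open Pool.Agent.RSK Pool.Agent.RG
open NumberField IsDedekindDomain

section Hasse2

variable {F : Type} [Field F] [NumberField F]

theorem hn_nm_top {a : Fˣ} {c : Fˣ} (hc : a = c ^ 2) (b : Fˣ) : b ∈ Nm a := by
  refine ⟨((b : F) + 1) / 2, ((b : F) - 1) / 2 * ((c⁻¹ : Fˣ) : F), ?_⟩
  have hc0 : (c : F) ≠ 0 := c.ne_zero
  rw [hc, Units.val_pow_eq_pow_val, Units.val_inv_eq_inv_val]
  field_simp
  ring

/-- a good set with all we need -/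
theorem hn_setup (a : Fˣ) (ha : ∀ y : Fˣ, a ≠ y ^ 2) (B : Finset (HeightOneSpectrum (𝓞 F))) :
    ∃ V : Finset (HeightOneSpectrum (𝓞 F)), B ⊆ V ∧
      (∀ P : PS V, a ∉ Sq P.pl → (LN P.pl a).index = 2) ∧
      ∀ u ∈ Us V, (∀ P : PS V, u ∈ LN P.pl a) → u ∈ Nm a := by
  classical
  obtain ⟨B1, hB1⟩ := us_exists a
  obtain ⟨V, hBV, hV⟩ := good_exists (B ∪ B1)
  have haV : a ∈ Us V := hB1 V (Finset.union_subset_right hBV)
  obtain ⟨t0, ht0, -, -, hat0⟩ := inert_exists a ha V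
  obtain ⟨k, b, t, i₀, hd, hb, -, -⟩ := dual_exists hV haV ht0 hat0 ∅
  obtain ⟨K, i1, i2, i3, i4, α, hq⟩ := qe_exists a ha
  obtain ⟨h1, h2⟩ := l5_main (K := K) hV hd i₀ (α := α) (by rw [hb]; exact hq)
  rw [hb] at h1 h2
  refine ⟨V, Finset.union_subset_left hBV, h1, fun u hu huP => ?_⟩
  have hu2 : u ∈ Us (ext2 V t) := fun v hv => hu v fun h => hv (mem_ext2.2 (Or.inl h))
  obtain ⟨β, -, hβ⟩ := h2 u hu2 huP
  exact (nm_iff hq u).2 ⟨β, hβ⟩

theorem hn_not_sq {v : Pl F} {a : Fˣ} (ha : a ∉ Sq v) (y : Fˣ) : a ≠ y ^ 2 := by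
  rintro rfl
  exact ha (sq_mem v y)

/-- Block HN -/
theorem ln_index (v : Pl F) (a : Fˣ) (ha : a ∉ Sq v) : (LN v a).index = 2 := by
  classical
  cases v with
  | inl w =>
    obtain ⟨V, -, h, -⟩ := hn_setup a (hn_not_sq ha) ∅
    exact h (Sum.inl w) ha
  | inr v =>
    obtain ⟨V, hV, h, -⟩ := hn_setup a (hn_not_sq ha) {v}
    exact h (Sum.inr ⟨v, hV (Finset.mem_singleton_self v)⟩) ha

theorem hn_hs_iff (v : Pl F) (a b : Fˣ) : hs v a b = 0 ↔ b ∈ LN v a := by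
  unfold hs
  split_ifs with h
  · simp [h]
  · simp [h]

theorem hasse (a b : Fˣ) (h : ∀ v : Pl F, hs v a b = 0) : b ∈ Nm a := by
  classical
  by_cases ha : ∃ y : Fˣ, a = y ^ 2
  · obtain ⟨c, hc⟩ := ha
    exact hn_nm_top hc b
  · push Not at ha
    obtain ⟨B, hB⟩ := us_exists b
    obtain ⟨V, hV, -, h2⟩ := hn_setup a ha B
    exact h2 b (hB V hV) fun P => (hn_hs_iff _ _ _).1 (h P.pl)

theorem hs_mul_right (v : Pl F) (a b c : Fˣ) : hs v a (b * c) = hs v a b + hs v a c := by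
  by_cases ha : a ∈ Sq v
  · rw [hs_of_sq ha, hs_of_sq ha, hs_of_sq ha, add_zero]
  · have h2 := ln_index v a ha
    have h3 := Subgroup.mul_mem_iff_of_index_two h2 (a := b) (b := c)
    unfold hs
    by_cases hb : b ∈ LN v a <;> by_cases hc : c ∈ LN v a <;> simp [h3, hb, hc]
    exact (CharTwo.add_self_eq_zero 1).symm

theorem hs_mul_left (v : Pl F) (a b c : Fˣ) : hs v (a * b) c = hs v a c + hs v b c := by
  rw [hs_symm v (a * b) c, hs_mul_right, hs_symm v c a, hs_symm v c b]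

theorem hs_finite (a b : Fˣ) : {v : Pl F | hs v a b ≠ 0}.Finite := by
  classical
  obtain ⟨B1, hB1⟩ := us_exists a
  obtain ⟨B2, hB2⟩ := us_exists b
  obtain ⟨V, hBV, hV⟩ := good_exists (B1 ∪ B2)
  have haV : a ∈ Us V := hB1 V (Finset.union_subset_left hBV)
  have hbV : b ∈ Us V := hB2 V (Finset.union_subset_right hBV)
  have hfin : (Set.range (Sum.inl : InfinitePlace F → Pl F) ∪ Sum.inr '' (V : Set (HeightOneSpectrum (𝓞 F)))).Finite :=
    (Set.finite_range _).union (V.finite_toSet.image _)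
  refine hfin.subset ?_
  rintro (w | v) hv
  · exact Or.inl ⟨w, rfl⟩
  · refine Or.inr ⟨v, ?_, rfl⟩
    by_contra hvV
    have hvV' : v ∉ V := fun h => hvV (Finset.mem_coe.2 h)
    apply hv
    rw [hn_hs_iff]
    by_cases has : a ∈ Sqf v
    · exact (hn_hs_iff _ _ _).1 (hs_of_sq (v := Sum.inr v) has b)
    · refine (odd_inert (fun h => hvV' (hV.dya v h)) ?_ has b).2 ?_
      · rw [haV v hvV']; exact Even.zero
      · rw [hbV v hvV']; exact Even.zero

end Hasse2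







end Pool.Agent.QR
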