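import Pool.Agent.Lib_helper17.QR.Defs
import Pool.Agent.Lib_helper35.RG.Defs
import Pool.Agent.Lib_helper17.QRF.P_D
import Pool.Agent.Lib_helper17.QRF.P_E2
import Pool.Agent.Lib_helper17.QRF.P_HN
import Pool.Agent.Lib_helper17.QRF.P_K1
import Pool.Agent.Lib_helper17.QRF.P_LT
import Pool.Agent.Lib_helper17.QRF.P_RH
/-! QR, block E3 (helper44) -/

set_option autoImplicit false
set_option linter.unusedSectionVars false
set_option linter.unusedVariables false

namespace Pool.Agent.QR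

open Pool.Agent.RSK Pool.Agent.RG
open NumberField IsDedekindDomain

section Prod

variable {F : Type} [Field F] [NumberField F]

/-- the dichotomy -/
theorem e3_dich {V : Finset (HeightOneSpectrum (𝓞 F))} (hV : Good V) {a : Fˣ} (ha : a ∈ Us V)
    (P : PS V) {x : Fˣ} (hx : x ∈ Xv V P) (hxW : x ∈ Wa V a) (hxP : x ∉ LN P.pl a) :
    Xv V P ≤ Wa V a := by
  intro y hy
  have haP : a ∉ Sq P.pl := by
    intro h
    rw [ln_top h] at hxP
    exact hxP (Subgroup.mem_top x)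
  by_cases hyP : y ∈ LN P.pl a
  · exact d_main hV ha P hy hyP
  · have h2 := ln_index P.pl a haP
    have h3 : x * y ∈ LN P.pl a := by
      rw [Subgroup.mul_mem_iff_of_index_two h2]
      exact ⟨fun h => absurd h hxP, fun h => absurd h hyP⟩
    have h4 := d_main hV ha P ((Xv V P).mul_mem hx hy) h3
    have h5 := (Wa V a).mul_mem ((Wa V a).inv_mem hxW) h4
    rwa [inv_mul_cancel_left] at h5

theorem e3_iff {V : Finset (HeightOneSpectrum (𝓞 F))} (hV : Good V) {a : Fˣ} (ha : a ∈ Us V)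
    (P : PS V) {x₁ : Fˣ} (hx₁ : x₁ ∈ Xv V P) (hx₁W : x₁ ∉ Wa V a) {y : Fˣ} (hy : y ∈ Xv V P) :
    y ∈ LN P.pl a ↔ y ∈ Wa V a := by
  refine ⟨fun h => d_main hV ha P hy h, fun h => ?_⟩
  by_contra hcon
  exact hx₁W (e3_dich hV ha P hy h hcon hx₁)

theorem e3_main {V : Finset (HeightOneSpectrum (𝓞 F))} (hV : Good V) {a : Fˣ} (ha : a ∈ Us V)
    (P : PS V) {x : Fˣ} (hx : x ∈ Xv V P) (hxW : x ∈ Wa V a) : x ∈ LN P.pl a := by
  classical
  by_contra hxP
  have haP : a ∉ Sq P.pl := by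
    intro h
    rw [ln_top h] at hxP
    exact hxP (Subgroup.mem_top x)
  have hle := e3_dich hV ha P hx hxW hxP
  -- there are `a₁` and `x₁`
  have hex : ∃ x₁ ∈ Xv V P, ∃ a₁ ∈ Us V, x₁ ∉ Wa V a₁ := by
    by_contra hcon
    push Not at hcon
    exact haP (e2_main hV P hcon a)
  obtain ⟨x₁, hx₁, a₁, ha₁, hxa⟩ := hex
  have hprod : a₁ * a ∈ Us V := (Us V).mul_mem ha₁ ha
  have hW : ∀ y ∈ Xv V P, (y ∈ Wa V (a₁ * a) ↔ y ∈ Wa V a₁) := by
    intro y hy
    rw [k1_main hV hprod, k1_main hV ha₁, rho_mul_left hV ha₁ ha,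
      (k1_main hV ha y).1 (hle hy), add_zero]
  have h1 := e3_iff hV ha₁ P hx₁ hxa hx
  have h2 := e3_iff hV hprod P hx₁ (fun h => hxa ((hW x₁ hx₁).1 h)) hx
  have h3 : hs P.pl (a₁ * a) x = hs P.pl a₁ x := by
    unfold hs
    rw [if_congr (h2.trans ((hW x hx).trans h1.symm)) rfl rfl]
  rw [hs_mul_left] at h3
  have h4 : hs P.pl a x = 0 := by simpa using h3
  unfold hs at h4
  rw [if_neg hxP] at h4
  exact one_ne_zero h4



end Prod

end Pool.Agent.QR
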