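import Pool.Agent.Lib_helper17.QR.Defs
import Pool.Agent.Lib_helper35.RG.Defs
import Pool.Agent.Lib_helper17.RS.P_UP1
import Pool.Agent.Lib_helper17.RS.P_UP2
import Pool.Agent.Lib_helper17.RS.P_UP3
import Pool.Agent.Lib_helper17.QRF.P_HN
import Pool.Agent.Lib_helper17.QRF.P_LA
import Pool.Agent.Lib_helper17.QRF.P_PI
import Pool.Agent.Lib_helper17.QRF.P_QF1
/-!
# QR, block HU: the Hilbert symbol at an unramified inert place
-/

set_option autoImplicit false
set_option linter.unusedSectionVars false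
set_option linter.unusedVariables false

namespace Pool.Agent.QR

open Pool.Agent.RSK Pool.Agent.RG
open NumberField IsDedekindDomain

section HU

variable {F K : Type} [Field F] [NumberField F] [Field K] [NumberField K] [Algebra F K]
  [IsGalois F K] {a : Fˣ} {α : K}

theorem hu_unif (v : HeightOneSpectrum (𝓞 F)) : ∃ b : Fˣ, ordv v (b : F) = 1 := by
  obtain ⟨π, hπ⟩ := v.valuation_exists_uniformizer F
  have h0 : π ≠ 0 := by
    rintro rfl
    rw [map_zero] at hπ
    exact WithZero.zero_ne_coe hπ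
  refine ⟨Units.mk0 π h0, ?_⟩
  unfold ordv
  rw [Units.val_mk0, hπ]
  simp

/-- the elements of even valuation -/
def hu_ev (v : HeightOneSpectrum (𝓞 F)) : Subgroup Fˣ where
  carrier := {x | Even (ordv v (x : F))}
  one_mem' := by
    show Even (ordv v ((1 : Fˣ) : F))
    rw [Units.val_one, ordv_one]
    exact Even.zero
  mul_mem' := fun {x y} hx hy => by
    show Even (ordv v ((x * y : Fˣ) : F))
    rw [ordv_mul]
    exact Even.add hx hy
  inv_mem' := fun {x} hx => by
    show Even (ordv v ((x⁻¹ : Fˣ) : F))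
    rw [ordv_inv]
    exact Even.neg hx

theorem hu_nm (h : QE F K a α) {v : HeightOneSpectrum (𝓞 F)}
    (hv : ∀ W : HeightOneSpectrum (𝓞 K), W.under (𝓞 F) = v → Algebra.IsUnramifiedAt (𝓞 F) W.asIdeal)
    (hav : a ∉ Sqf v) : Nm a ≤ hu_ev v := by
  intro b hb
  obtain ⟨β, hβ⟩ := (nm_iff h b).1 hb
  obtain ⟨W', hW'⟩ := dn_surj (F := F) (H := K) (Sum.inr v)
  rcases W' with w | W
  · exact absurd hW' (by simp [dn])
  · have hW : W.under (𝓞 F) = v := Sum.inr.inj hW'
    have hns : ¬ (∀ σ : K ≃ₐ[F] K, act σ (Sum.inr W : Pl K) = Sum.inr W → σ = 1) := by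
      intro hh
      have h1 := (split_iff h (Sum.inr W)).1 hh
      rw [hW'] at h1
      exact hav h1
    push Not at hns
    obtain ⟨σ, hσ, hσ1⟩ := hns
    have hσ' : HeightOneSpectrum.equivOfRingEquiv
        (RingOfIntegers.mapRingEquiv σ.toRingEquiv) W = W := Sum.inr.inj hσ
    have h2 := qe_norm_mul h hσ1 (β : K)
    rw [hβ] at h2
    have h3 : ordv W (algebraMap F K (b : F)) = ordv v (b : F) := by
      rw [ordv_unr (hv W hW), hW]
    have h4 : ordv W (σ (β : K)) = ordv W (β : K) := by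
      have := ordv_act σ W (β : K)
      rwa [hσ'] at this
    have h5 : ordv W ((β : K) * σ (β : K)) = ordv W (β : K) + ordv W (σ (β : K)) := by
      have := ordv_mul W β (Units.map (σ : K →* K) β)
      simpa using this
    show Even (ordv v (b : F))
    rw [← h3, h2, h5, h4]
    exact ⟨_, rfl⟩

theorem hs_unr (h : QE F K a α) {v : HeightOneSpectrum (𝓞 F)}
    (hv : ∀ W : HeightOneSpectrum (𝓞 K), W.under (𝓞 F) = v → Algebra.IsUnramifiedAt (𝓞 F) W.asIdeal)
    (hav : a ∉ Sqf v) (b : Fˣ) : hs (Sum.inr v) a b = (ordv v (b : F) : ZMod 2) := by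
  have hle : LN (Sum.inr v) a ≤ hu_ev v := by
    refine sup_le ?_ (hu_nm h hv hav)
    intro c hc
    exact sqf_even hc
  have h2 : (LN (Sum.inr v) a).index = 2 := ln_index (Sum.inr v) a hav
  obtain ⟨π, hπ⟩ := hu_unif v
  have hπ' : π ∉ LN (Sum.inr v) a := by
    intro hh
    have h1 : Even (ordv v (π : F)) := hle hh
    rw [hπ] at h1
    exact absurd h1 (by decide)
  have hiff : b ∈ LN (Sum.inr v) a ↔ Even (ordv v (b : F)) := by
    refine ⟨fun hh => hle hh, fun he => ?_⟩
    by_contra hb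
    have h3 := (Subgroup.mul_mem_iff_of_index_two h2 (a := b) (b := π)).2
      ⟨fun hh => absurd hh hb, fun hh => absurd hh hπ'⟩
    have h4 : Even (ordv v ((b * π : Fˣ) : F)) := hle h3
    rw [ordv_mul, hπ] at h4
    have h5 : Odd (ordv v (b : F) + 1) := he.add_odd (by decide)
    exact (Int.not_even_iff_odd.2 h5) h4
  unfold hs
  by_cases hb : b ∈ LN (Sum.inr v) a
  · rw [if_pos hb]
    have he := hiff.1 hb
    obtain ⟨n, hn⟩ := he
    rw [hn]
    push_cast
    exact (CharTwo.add_self_eq_zero _).symm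
  · rw [if_neg hb]
    have he : Odd (ordv v (b : F)) := Int.not_even_iff_odd.1 (fun hh => hb (hiff.2 hh))
    obtain ⟨n, hn⟩ := he
    rw [hn]
    push_cast
    rw [show (2 : ZMod 2) = 0 from rfl, zero_mul, zero_add]

end HU



end Pool.Agent.QR
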