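import Pool.Agent.Lib_helper17.QR.Defs
import Pool.Agent.Lib_helper35.RG.Defs
import Pool.Agent.Lib_helper17.QRF.P_LA
import Pool.Agent.Lib_helper17.QRF.P_LO
import Pool.Agent.Lib_helper17.QRF.P_LT
/-!
# Block LB (QR): elementary properties of the symbols
-/

set_option autoImplicit false

namespace Pool.Agent.QR

open Pool.Agent.RSK Pool.Agent.RG
open NumberField IsDedekindDomain

section Loc

variable {F : Type} [Field F] [NumberField F]

theorem lb_zero {v : Pl F} {a b : Fˣ} (h : b ∈ LN v a) : hs v a b = 0 := by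
  unfold hs
  rw [if_pos h]

/-- global norms have trivial symbols -/
theorem hs_of_nm {a b : Fˣ} (h : b ∈ Nm a) (v : Pl F) : hs v a b = 0 :=
  lb_zero ((le_sup_right : Nm a ≤ Sq v ⊔ Nm a) h)

theorem hs_congr {v : Pl F} {a b c : Fˣ} (h : b * c ∈ Sq v) : hs v a b = hs v a c := by
  have h1 : b * c ∈ LN v a := (le_sup_left : Sq v ≤ Sq v ⊔ Nm a) h
  have h2 : b ∈ LN v a ↔ c ∈ LN v a := by
    constructor
    · intro hb
      exact (Subgroup.mul_mem_cancel_left _ hb).1 h1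
    · intro hc
      exact (Subgroup.mul_mem_cancel_right _ hc).1 h1
  unfold hs
  by_cases hb : b ∈ LN v a
  · rw [if_pos hb, if_pos (h2.1 hb)]
  · rw [if_neg hb, if_neg fun hc => hb (h2.2 hc)]

theorem hs_sq_right (v : Pl F) (a b : Fˣ) : hs v a (b ^ 2) = 0 := by
  refine hs_of_nm ⟨(b : F), 0, ?_⟩ v
  rw [Units.val_pow_eq_pow_val]
  ring

theorem hs_sq_left (v : Pl F) (a b : Fˣ) : hs v (a ^ 2) b = 0 := by
  refine lb_zero ?_
  rw [ln_top (sq_mem v a)]
  exact Subgroup.mem_top b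

/-- (Q6), places not above `2`: `F(√a)` is unramified and inert at `v`. -/
theorem hs_odd {v : HeightOneSpectrum (𝓞 F)} (h2 : (2 : 𝓞 F) ∉ v.asIdeal) {a : Fˣ}
    (ha : Even (ordv v (a : F))) (hav : a ∉ Sqf v) (b : Fˣ) :
    hs (Sum.inr v) a b = (ordv v (b : F) : ZMod 2) := by
  have h1 := odd_inert h2 ha hav b
  unfold hs
  by_cases hb : Even (ordv v (b : F))
  · rw [if_pos (h1.2 hb)]
    obtain ⟨n, hn⟩ := hb
    rw [hn, Int.cast_add, CharTwo.add_self_eq_zero]
  · rw [if_neg fun h => hb (h1.1 h)]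
    obtain ⟨n, hn⟩ := Int.not_even_iff_odd.1 hb
    rw [hn, Int.cast_add, Int.cast_mul, Int.cast_ofNat, Int.cast_one]
    have h3 : (2 : ZMod 2) = 0 := rfl
    rw [h3, zero_mul, zero_add]







end Loc

end Pool.Agent.QR
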