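import Pool.Agent.Lib_helper17.QR.Defs
import Pool.Agent.Lib_helper35.RG.Defs
import Pool.Agent.Lib_helper17.QRF.P_LA
import Pool.Agent.Lib_helper17.QRF.P_LO
/-!
# QR, block LS: the index of the local squares at the odd places
-/

set_option autoImplicit false
set_option linter.unusedSectionVars false
set_option linter.unusedVariables false

namespace Pool.Agent.QR

open Pool.Agent.RSK Pool.Agent.RG
open NumberField IsDedekindDomain

section Loc

variable {F : Type} [Field F] [NumberField F]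

/-- the elements of even valuation -/
def ls_E (v : HeightOneSpectrum (𝓞 F)) : Subgroup Fˣ where
  carrier := {x | Even (ordv v (x : F))}
  one_mem' := by
    show Even (ordv v ((1 : Fˣ) : F))
    rw [Units.val_one, ordv_one]
    exact Even.zero
  mul_mem' := fun {x y} hx hy => by
    show Even (ordv v ((x * y : Fˣ) : F))
    rw [ordv_mul]
    exact Even.add hx hy
  inv_mem' := fun {x} hx => by
    show Even (ordv v ((x⁻¹ : Fˣ) : F))
    rw [ordv_inv]
    exact Even.neg hx

theorem ls_mem (v : HeightOneSpectrum (𝓞 F)) (x : Fˣ) : x ∈ ls_E v ↔ Even (ordv v (x : F)) :=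
  Iff.rfl

theorem ls_unif (v : HeightOneSpectrum (𝓞 F)) : ∃ π : Fˣ, ordv v (π : F) = 1 := by
  obtain ⟨π, hπ⟩ := v.valuation_exists_uniformizer F
  have h0 : π ≠ 0 := by
    rintro rfl
    rw [map_zero] at hπ
    exact (WithZero.exp_ne_zero (a := (-1 : ℤ))) hπ.symm
  refine ⟨Units.mk0 π h0, ?_⟩
  unfold ordv
  rw [Units.val_mk0, hπ, WithZero.log_exp]
  norm_num

theorem ls_indexE (v : HeightOneSpectrum (𝓞 F)) : (ls_E v).index = 2 := by
  obtain ⟨π, hπ⟩ := ls_unif v
  rw [Subgroup.index_eq_two_iff]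
  refine ⟨π, fun b => ?_⟩
  rw [ls_mem, ls_mem, ordv_mul, hπ]
  rcases Int.even_or_odd (ordv v (b : F)) with h | h
  · exact Or.inr ⟨h, by rw [Int.not_even_iff_odd]; exact h.add_one⟩
  · exact Or.inl ⟨h.add_one, by rw [Int.not_even_iff_odd]; exact h⟩

theorem sqf_index {v : HeightOneSpectrum (𝓞 F)} (h2 : (2 : 𝓞 F) ∉ v.asIdeal) :
    (Sqf v).index = 4 := by
  have hle : Sqf v ≤ ls_E v := fun c hc => sqf_even hc
  have h1 := Subgroup.relIndex_mul_index hle
  have h3 : (Sqf v).relIndex (ls_E v) = 2 := by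
    rw [Subgroup.relIndex, Subgroup.index_eq_two_iff]
    obtain ⟨c, hc, hc'⟩ := odd_exists h2
    have hcE : Even (ordv v (c : F)) := by rw [hc]; exact Even.zero
    refine ⟨⟨c, hcE⟩, fun b => ?_⟩
    rw [Subgroup.mem_subgroupOf, Subgroup.mem_subgroupOf]
    have hb : Even (ordv v ((b : Fˣ) : F)) := b.2
    by_cases h : (b : Fˣ) ∈ Sqf v
    · refine Or.inr ⟨h, fun h4 => hc' ?_⟩
      have h5 := (Sqf v).mul_mem ((Sqf v).inv_mem h) h4
      have h6 : (b : Fˣ)⁻¹ * ((b * ⟨c, hcE⟩ : ls_E v) : Fˣ) = c := by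
        rw [Subgroup.coe_mul, inv_mul_cancel_left]
      rwa [h6] at h5
    · refine Or.inl ⟨?_, h⟩
      have h5 := odd_units h2 hb hcE h hc'
      exact h5
  rw [h3, ls_indexE] at h1
  rw [← h1]



end Loc

end Pool.Agent.QR
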