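import Pool.Agent.Lib_helper17.QR.Defs
import Pool.Agent.Lib_helper35.RG.Defs
import Pool.Agent.Lib_helper17.QRF.P_D
import Pool.Agent.Lib_helper17.QRF.P_E3
import Pool.Agent.Lib_helper17.QRF.P_K1
import Pool.Agent.Lib_helper17.QRF.P_LB
import Pool.Agent.Lib_helper17.QRF.P_RH
import Pool.Agent.Lib_helper17.QRF.P_WA
/-!
# QR, block PF1
-/

set_option autoImplicit false
set_option linter.unusedSectionVars false
set_option linter.unusedVariables false

namespace Pool.Agent.QR

open Pool.Agent.RSK Pool.Agent.RG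
open NumberField IsDedekindDomain

section Prod

variable {F : Type} [Field F] [NumberField F]

theorem pf1_rho_one (V : Finset (HeightOneSpectrum (𝓞 F))) (a : Fˣ) : rho V a 1 = 0 := by
  have h := rho_mul_right V a 1 1
  rw [mul_one] at h
  have h2 : rho V a 1 + 0 = rho V a 1 + rho V a 1 := by rw [add_zero]; exact h
  exact (add_left_cancel h2).symm

theorem pf1_rho_prod (V : Finset (HeightOneSpectrum (𝓞 F))) (a : Fˣ) {ι : Type} (s : Finset ι)
    (f : ι → Fˣ) : rho V a (∏ i ∈ s, f i) = ∑ i ∈ s, rho V a (f i) := by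
  classical
  induction s using Finset.induction_on with
  | empty => simp [pf1_rho_one]
  | insert i s hi ih => rw [Finset.prod_insert hi, Finset.sum_insert hi, rho_mul_right, ih]

theorem pf1_z2 (x y : ZMod 2) (h : x = 0 ↔ y = 0) : x = y := by
  revert x y
  decide

theorem pf1_hs (v : Pl F) (a b : Fˣ) : hs v a b = 0 ↔ b ∈ LN v a := by
  unfold hs
  split_ifs with h
  · simp [h]
  · simp [h]

/-- Block PF1. -/
theorem sum_hs {V : Finset (HeightOneSpectrum (𝓞 F))} (hV : Good V) {a : Fˣ} (ha : a ∈ Us V)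
    (x : Fˣ) : ∑ P : PS V, hs P.pl a x = rho V a x := by
  classical
  have hw : ∀ P : PS V, ∃ z : Fˣ, ∀ Q : PS V, z * (if Q = P then x else 1) ∈ Sq Q.pl :=
    fun P => weak_approx V (fun Q => if Q = P then x else 1)
  choose z hz using hw
  have hzP : ∀ P : PS V, x * z P ∈ Sq P.pl := by
    intro P
    have h := hz P P
    rw [if_pos rfl] at h
    rwa [mul_comm]
  have hzQ : ∀ P Q : PS V, Q ≠ P → z P ∈ Sq Q.pl := by
    intro P Q hQ
    have h := hz P Q
    rwa [if_neg hQ, mul_one] at h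
  have hX : ∀ P : PS V, z P ∈ Xv V P := fun P =>
    Subgroup.mem_iInf.2 (fun Q => hzQ P Q.1 Q.2)
  have h1 : ∀ P : PS V, rho V a (z P) = hs P.pl a x := by
    intro P
    rw [hs_congr (hzP P)]
    refine pf1_z2 _ _ ?_
    rw [pf1_hs, ← k1_main hV ha]
    exact ⟨fun h => e3_main hV ha P (hX P) h, fun h => d_main hV ha P (hX P) h⟩
  have h2 : x * ∏ P : PS V, z P ∈ Sqs V := by
    refine Subgroup.mem_iInf.2 (fun Q => ?_)
    rw [← Finset.mul_prod_erase Finset.univ z (Finset.mem_univ Q), ← mul_assoc]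
    refine mul_mem (hzP Q) (Subgroup.prod_mem _ (fun P hP => ?_))
    exact hzQ P Q (Finset.ne_of_mem_erase hP).symm
  have h3 : rho V a (x * ∏ P : PS V, z P) = 0 :=
    (k1_main hV ha _).1 (Subgroup.mem_sup_left h2)
  rw [rho_mul_right, pf1_rho_prod] at h3
  rw [Finset.sum_congr rfl (fun P _ => h1 P)] at h3
  have h4 : ∀ u w : ZMod 2, u + w = 0 → w = u := by decide
  exact h4 _ _ h3

end Prod

end Pool.Agent.QR

section

end
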