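import Pool.Agent.Lib_helper17.QR.Defs
import Pool.Agent.Lib_helper35.RG.Defs
import Pool.Agent.Lib_helper17.QRF.P_GV
import Pool.Agent.Lib_helper17.QRF.P_LB
import Pool.Agent.Lib_helper17.QRF.P_LT
import Pool.Agent.Lib_helper17.QRF.P_PF1
/-!
# QR block PF2: the product formula
-/

set_option autoImplicit false

namespace Pool.Agent.QR

open Pool.Agent.RSK Pool.Agent.RG
open NumberField IsDedekindDomain

section Prod

variable {F : Type} [Field F] [NumberField F]

theorem pf2_inj (V : Finset (HeightOneSpectrum (𝓞 F))) :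
    Function.Injective (PS.pl (S := V)) := by
  rintro (w | v) (w' | v') h
  · have h1 : (Sum.inl w : Pl F) = Sum.inl w' := h
    rw [Sum.inl.inj h1]
  · have h1 : (Sum.inl w : Pl F) = Sum.inr v'.1 := h
    cases h1
  · have h1 : (Sum.inr v.1 : Pl F) = Sum.inl w' := h
    cases h1
  · have h1 : (Sum.inr v.1 : Pl F) = Sum.inr v'.1 := h
    rw [Subtype.ext (Sum.inr.inj h1)]

theorem product_formula (a b : Fˣ) : ∑ᶠ v : Pl F, hs v a b = 0 := by
  classical
  obtain ⟨Ba, hBa⟩ := us_exists a
  obtain ⟨Bb, hBb⟩ := us_exists b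
  obtain ⟨V, hBV, hV⟩ := good_exists (Ba ∪ Bb)
  have ha : a ∈ Us V := hBa V (Finset.subset_union_left.trans hBV)
  have hb : b ∈ Us V := hBb V (Finset.subset_union_right.trans hBV)
  have hout : ∀ s : HeightOneSpectrum (𝓞 F), s ∉ V → hs (Sum.inr s) a b = 0 := by
    intro s hs'
    by_cases has : a ∈ Sqf s
    · exact hs_of_sq (v := Sum.inr s) has b
    · have h2 : (2 : 𝓞 F) ∉ s.asIdeal := fun h => hs' (hV.dya s h)
      have h3 : Even (ordv s (a : F)) := by
        rw [ha s hs']
        exact Even.zero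
      rw [hs_odd h2 h3 has b, hb s hs', Int.cast_zero]
  have hsupp : Function.support (fun v : Pl F => hs v a b) ⊆
      ((Finset.univ.image (PS.pl (S := V)) : Finset (Pl F)) : Set (Pl F)) := by
    intro v hv
    rw [Finset.mem_coe, Finset.mem_image]
    rcases v with w | s
    · exact ⟨Sum.inl w, Finset.mem_univ _, rfl⟩
    · by_cases hsV : s ∈ V
      · exact ⟨Sum.inr ⟨s, hsV⟩, Finset.mem_univ _, rfl⟩
      · exact absurd (hout s hsV) hv
  rw [finsum_eq_sum_of_support_subset _ hsupp,
    Finset.sum_image (fun P _ Q _ h => pf2_inj V h), sum_hs hV ha b]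
  unfold rho
  refine finsum_eq_zero_of_forall_eq_zero fun s => ?_
  split_ifs with h
  · rw [hb s h.1, Int.cast_zero]
  · rfl



end Prod

end Pool.Agent.QR
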