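import Pool.Agent.Lib_helper17.QR.Defs
import Pool.Agent.Lib_helper35.RG.Defs
import Pool.Agent.Lib_helper17.QRF.P_LA
import Pool.Agent.Lib_helper17.QRF.P_LI
import Pool.Agent.Lib_helper17.QRF.P_LT
import Pool.Agent.Lib_helper17.QRF.P_SF2
/-! Block SP of QR: split places. -/

set_option autoImplicit false
set_option linter.unusedSectionVars false

namespace Pool.Agent.QR

open Pool.Agent.RSK Pool.Agent.RG
open NumberField IsDedekindDomain

section SP

variable {F K : Type} [Field F] [NumberField F] [Field K] [NumberField K] [Algebra F K]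
  [IsGalois F K]

theorem sp_small {m : WithZero (Multiplicative ℤ)} (hm : m ≠ 0) :
    ∃ n : ℕ, WithZero.exp (-(n : ℤ)) < m := by
  refine ⟨(-WithZero.log m).toNat + 1, ?_⟩
  rw [← WithZero.exp_log hm, WithZero.exp_lt_exp]
  rw [WithZero.log_exp]
  have := Int.self_le_toNat (-WithZero.log m)
  push_cast
  omega

/-- approximation of `x² - b y²` at a split finite place -/
theorem sp_approx (hK : Nat.card (K ≃ₐ[F] K) = 2) (W : HeightOneSpectrum (𝓞 K))
    (hW : ∀ σ : K ≃ₐ[F] K, act σ (Sum.inr W) = Sum.inr W → σ = 1) (b : F) (x y : K)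
    {δ : WithZero (Multiplicative ℤ)} (hδ : δ ≠ 0) :
    ∃ x' y' : F, W.valuation K ((x ^ 2 - algebraMap F K b * y ^ 2) -
      algebraMap F K (x' ^ 2 - b * y' ^ 2)) < δ := by
  set V := W.valuation K with hV
  -- approximate a square
  have key : ∀ (z : K) (η : WithZero (Multiplicative ℤ)), η ≠ 0 →
      ∃ z' : F, V (z ^ 2 - algebraMap F K (z' ^ 2)) < η := by
    intro z η hη
    have hC : max (V z) 1 ≠ 0 := by
      intro h
      have h1 : (1 : WithZero (Multiplicative ℤ)) ≤ max (V z) 1 := le_max_right _ _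
      rw [h] at h1
      exact one_ne_zero (le_zero_iff.1 h1)
    obtain ⟨n, hn⟩ := sp_small (m := η * (max (V z) 1)⁻¹) (mul_ne_zero hη (inv_ne_zero hC))
    obtain ⟨z', hz'⟩ := split_dense hK W hW z n
    refine ⟨z', ?_⟩
    have e : z ^ 2 - algebraMap F K (z' ^ 2) =
        (z - algebraMap F K z') * (z + z - (z - algebraMap F K z')) := by
      rw [map_pow]
      ring
    have h1 : V (z + z - (z - algebraMap F K z')) ≤ max (V z) 1 := by
      refine (Valuation.map_sub _ _ _).trans (max_le ?_ ?_)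
      · exact (Valuation.map_add _ _ _).trans (by rw [max_self]; exact le_max_left _ _)
      · refine (hz'.trans ?_).trans (le_max_right _ _)
        rw [← WithZero.exp_zero, WithZero.exp_le_exp]
        omega
    rw [e, map_mul]
    calc V (z - algebraMap F K z') * V (z + z - (z - algebraMap F K z'))
        ≤ WithZero.exp (-(n : ℤ)) * max (V z) 1 := mul_le_mul' hz' h1
      _ < η * (max (V z) 1)⁻¹ * max (V z) 1 := mul_lt_mul_of_pos_right hn (zero_lt_iff.2 hC)
      _ = η := by rw [mul_assoc, inv_mul_cancel₀ hC, mul_one]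
  obtain ⟨x', hx'⟩ := key x δ hδ
  have hB : max (V (algebraMap F K b)) 1 ≠ 0 := by
    intro h
    have h1 : (1 : WithZero (Multiplicative ℤ)) ≤ max (V (algebraMap F K b)) 1 :=
      le_max_right _ _
    rw [h] at h1
    exact one_ne_zero (le_zero_iff.1 h1)
  obtain ⟨y', hy'⟩ := key y (δ * (max (V (algebraMap F K b)) 1)⁻¹)
    (mul_ne_zero hδ (inv_ne_zero hB))
  refine ⟨x', y', ?_⟩
  have e : (x ^ 2 - algebraMap F K b * y ^ 2) - algebraMap F K (x' ^ 2 - b * y' ^ 2) =
      (x ^ 2 - algebraMap F K (x' ^ 2)) -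
        algebraMap F K b * (y ^ 2 - algebraMap F K (y' ^ 2)) := by
    simp only [map_sub, map_mul, map_pow]
    ring
  rw [e]
  refine Valuation.map_sub_lt _ hx' ?_
  rw [map_mul]
  calc V (algebraMap F K b) * V (y ^ 2 - algebraMap F K (y' ^ 2))
      ≤ max (V (algebraMap F K b)) 1 * V (y ^ 2 - algebraMap F K (y' ^ 2)) :=
        mul_le_mul' (le_max_left _ _) le_rfl
    _ < max (V (algebraMap F K b)) 1 * (δ * (max (V (algebraMap F K b)) 1)⁻¹) :=
        mul_lt_mul_of_pos_left hy' (zero_lt_iff.2 hB)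
    _ = δ := by rw [mul_left_comm, mul_inv_cancel₀ hB, mul_one]

theorem sp_four (hK : Nat.card (K ≃ₐ[F] K) = 2) (W : HeightOneSpectrum (𝓞 K))
    (hW : ∀ σ : K ≃ₐ[F] K, act σ (Sum.inr W) = Sum.inr W → σ = 1) :
    W.valuation K 4 = (W.under (𝓞 F)).valuation F 4 := by
  rw [← split_val hK W hW]
  congr 1
  exact (map_ofNat (algebraMap F K) 4).symm

theorem sp_sqf (hK : Nat.card (K ≃ₐ[F] K) = 2) (W : HeightOneSpectrum (𝓞 K))
    (hW : ∀ σ : K ≃ₐ[F] K, act σ (Sum.inr W) = Sum.inr W → σ = 1) (b : Fˣ) :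
    Units.map (algebraMap F K : F →* K) b ∈ Sqf W ↔ b ∈ Sqf (W.under (𝓞 F)) := by
  have h4K : W.valuation K 4 ≠ 0 := (map_ne_zero _).2 (by norm_num)
  have h41 : W.valuation K 4 ≤ 1 := val_four_le W
  constructor
  · rintro ⟨y, hy⟩
    change W.valuation K (algebraMap F K (b : F) * (y : K) ^ 2 - 1) < W.valuation K 4 at hy
    have hb0 : algebraMap F K (b : F) ≠ 0 := (map_ne_zero _).2 b.ne_zero
    have hVb : W.valuation K (algebraMap F K (b : F)) ≠ 0 := (map_ne_zero _).2 hb0
    obtain ⟨z, z', hz⟩ := sp_approx hK W hW 0 (y : K) 0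
      (δ := W.valuation K 4 * (W.valuation K (algebraMap F K (b : F)))⁻¹)
      (mul_ne_zero h4K (inv_ne_zero hVb))
    simp only [map_zero, zero_mul, sub_zero] at hz
    have h1 : W.valuation K (algebraMap F K ((b : F) * z ^ 2 - 1)) < W.valuation K 4 := by
      have e : algebraMap F K ((b : F) * z ^ 2 - 1) =
          (algebraMap F K (b : F) * (y : K) ^ 2 - 1) -
            algebraMap F K (b : F) * ((y : K) ^ 2 - algebraMap F K (z ^ 2)) := by
        simp only [map_sub, map_mul, map_pow, map_one]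
        ring
      rw [e]
      refine Valuation.map_sub_lt _ hy ?_
      rw [map_mul]
      calc W.valuation K (algebraMap F K (b : F)) *
            W.valuation K ((y : K) ^ 2 - algebraMap F K (z ^ 2))
          < W.valuation K (algebraMap F K (b : F)) *
            (W.valuation K 4 * (W.valuation K (algebraMap F K (b : F)))⁻¹) :=
            mul_lt_mul_of_pos_left hz (zero_lt_iff.2 hVb)
        _ = W.valuation K 4 := by rw [mul_left_comm, mul_inv_cancel₀ hVb, mul_one]
    rw [split_val hK W hW, sp_four hK W hW] at h1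
    have hz0 : z ≠ 0 := by
      rintro rfl
      have e : (b : F) * 0 ^ 2 - 1 = -1 := by ring
      rw [e, Valuation.map_neg, map_one] at h1
      exact absurd (h1.trans_le (val_four_le _)) (lt_irrefl _)
    exact ⟨Units.mk0 z hz0, h1⟩
  · rintro ⟨y, hy⟩
    refine ⟨Units.map (algebraMap F K : F →* K) y, ?_⟩
    have e : ((Units.map (algebraMap F K : F →* K) b : Kˣ) : K) *
        ((Units.map (algebraMap F K : F →* K) y : Kˣ) : K) ^ 2 - 1 =
        algebraMap F K ((b : F) * (y : F) ^ 2 - 1) := by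
      simp only [map_sub, map_mul, map_pow, map_one]
      rfl
    rw [e, split_val hK W hW, sp_four hK W hW]
    exact hy

/-- the reality of a split archimedean place -/
theorem sp_real {w : InfinitePlace K}
    (hW : ∀ σ : K ≃ₐ[F] K, act σ (Sum.inl w) = Sum.inl w → σ = 1) :
    (w.comap (algebraMap F K)).IsReal ↔ w.IsReal := by
  have h1 : MulAction.stabilizer (K ≃ₐ[F] K) w = ⊥ := by
    rw [eq_bot_iff]
    intro σ hσ
    rw [Subgroup.mem_bot]
    exact hW σ (congrArg Sum.inl (MulAction.mem_stabilizer_iff.1 hσ))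
  have h2 := InfinitePlace.isUnramified_iff_stabilizer_eq_bot.2 h1
  constructor
  · intro h
    rcases InfinitePlace.isUnramified_iff.1 h2 with h3 | h3
    · exact h3
    · exact absurd h (InfinitePlace.not_isReal_iff_isComplex.2 h3)
  · intro h
    exact h.comap _

theorem sp_sqi {w : InfinitePlace K}
    (hW : ∀ σ : K ≃ₐ[F] K, act σ (Sum.inl w) = Sum.inl w → σ = 1) (b : Fˣ) :
    Units.map (algebraMap F K : F →* K) b ∈ Sqi w ↔ b ∈ Sqi (w.comap (algebraMap F K)) := by
  show (w.IsReal → 0 < (w.embedding (algebraMap F K (b : F))).re) ↔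
    ((w.comap (algebraMap F K)).IsReal →
      0 < ((w.comap (algebraMap F K)).embedding (b : F)).re)
  rw [← sp_real hW]
  refine forall_congr' fun h => ?_
  rw [InfinitePlace.comap_embedding_of_isReal _ h]
  rfl

theorem sq_split {W : Pl K} (hK : Nat.card (K ≃ₐ[F] K) = 2)
    (hW : ∀ σ : K ≃ₐ[F] K, act σ W = W → σ = 1) (b : Fˣ) :
    Units.map (algebraMap F K : F →* K) b ∈ Sq W ↔ b ∈ Sq (dn F W) := by
  rcases W with w | W
  · exact sp_sqi hW b
  · exact sp_sqf hK W hW b

/-- norms at a split finite place -/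
theorem sp_ln_fin (hK : Nat.card (K ≃ₐ[F] K) = 2) (W : HeightOneSpectrum (𝓞 K))
    (hW : ∀ σ : K ≃ₐ[F] K, act σ (Sum.inr W) = Sum.inr W → σ = 1) (b c : Fˣ) :
    Units.map (algebraMap F K : F →* K) c ∈
      LN (Sum.inr W) (Units.map (algebraMap F K : F →* K) b) ↔
      c ∈ LN (Sum.inr (W.under (𝓞 F))) b := by
  have h4K : W.valuation K 4 ≠ 0 := (map_ne_zero _).2 (by norm_num)
  have h41 : W.valuation K 4 ≤ 1 := val_four_le W
  constructor
  · intro h
    obtain ⟨s, hs, n, ⟨x, y, hn⟩, hc⟩ := Subgroup.mem_sup.1 h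
    change (n : K) = x ^ 2 - algebraMap F K (b : F) * y ^ 2 at hn
    have hn0 : W.valuation K (n : K) ≠ 0 := (map_ne_zero _).2 n.ne_zero
    obtain ⟨x', y', hxy⟩ := sp_approx hK W hW (b : F) x y
      (δ := W.valuation K 4 * W.valuation K (n : K)) (mul_ne_zero h4K hn0)
    rw [← hn] at hxy
    set m : F := x' ^ 2 - b * y' ^ 2 with hm
    have h1 : W.valuation K ((n : K) - algebraMap F K m) < W.valuation K (n : K) := by
      refine hxy.trans_le ?_
      calc W.valuation K 4 * W.valuation K (n : K) ≤ 1 * W.valuation K (n : K) :=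
            mul_le_mul_left h41 _
        _ = _ := one_mul _
    have h2 : W.valuation K (algebraMap F K m) = W.valuation K (n : K) := by
      have e : algebraMap F K m = (n : K) - ((n : K) - algebraMap F K m) := by ring
      rw [e]
      exact Valuation.map_sub_eq_of_lt_left _ h1
    have hm0 : m ≠ 0 := by
      intro h0
      rw [h0, map_zero, map_zero] at h2
      exact hn0 h2.symm
    set d : Fˣ := Units.mk0 m hm0 with hd
    have hdN : d ∈ Nm b := ⟨x', y', rfl⟩
    have hdK : algebraMap F K m ≠ 0 := (map_ne_zero _).2 hm0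
    have hnd : n * (Units.map (algebraMap F K : F →* K) d)⁻¹ ∈ Sqf W := by
      refine ⟨1, ?_⟩
      have e : ((n * (Units.map (algebraMap F K : F →* K) d)⁻¹ : Kˣ) : K) *
          ((1 : Kˣ) : K) ^ 2 - 1 = ((n : K) - algebraMap F K m) * (algebraMap F K m)⁻¹ := by
        rw [Units.val_mul, Units.val_one, Units.val_inv_eq_inv_val]
        change (n : K) * (algebraMap F K m)⁻¹ * 1 ^ 2 - 1 = _
        field_simp
      rw [e, map_mul, map_inv₀, h2]
      calc W.valuation K ((n : K) - algebraMap F K m) * (W.valuation K (n : K))⁻¹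
          < W.valuation K 4 * W.valuation K (n : K) * (W.valuation K (n : K))⁻¹ :=
            mul_lt_mul_of_pos_right hxy (zero_lt_iff.2 (inv_ne_zero hn0))
        _ = W.valuation K 4 := by rw [mul_assoc, mul_inv_cancel₀ hn0, mul_one]
    have hcd : Units.map (algebraMap F K : F →* K) (c * d⁻¹) ∈ Sqf W := by
      have e : Units.map (algebraMap F K : F →* K) (c * d⁻¹) =
          s * (n * (Units.map (algebraMap F K : F →* K) d)⁻¹) := by
        rw [map_mul, map_inv, ← hc, mul_assoc]
      rw [e]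
      exact mul_mem hs hnd
    rw [sp_sqf hK W hW] at hcd
    have e : c = (c * d⁻¹) * d := by group
    rw [e]
    exact Subgroup.mul_mem_sup hcd hdN
  · intro h
    obtain ⟨s, hs, n, ⟨x, y, hn⟩, hc⟩ := Subgroup.mem_sup.1 h
    rw [← hc, map_mul]
    refine Subgroup.mul_mem_sup ((sp_sqf hK W hW s).2 hs) ⟨algebraMap F K x, algebraMap F K y, ?_⟩
    change algebraMap F K (n : F) = algebraMap F K x ^ 2 - algebraMap F K (b : F) *
      algebraMap F K y ^ 2
    rw [hn, map_sub, map_mul, map_pow, map_pow]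

theorem sp_ln {W : Pl K} (hK : Nat.card (K ≃ₐ[F] K) = 2)
    (hW : ∀ σ : K ≃ₐ[F] K, act σ W = W → σ = 1) (b c : Fˣ) :
    Units.map (algebraMap F K : F →* K) c ∈ LN W (Units.map (algebraMap F K : F →* K) b) ↔
      c ∈ LN (dn F W) b := by
  rcases W with w | W
  · by_cases hb : b ∈ Sqi (w.comap (algebraMap F K))
    · have hb' : Units.map (algebraMap F K : F →* K) b ∈ Sq (Sum.inl w : Pl K) :=
        (sp_sqi hW b).2 hb
      have hb'' : b ∈ Sq (dn F (Sum.inl w : Pl K)) := hb
      rw [ln_top hb', ln_top hb'']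
      exact ⟨fun _ => Subgroup.mem_top _, fun _ => Subgroup.mem_top _⟩
    · have hb' : Units.map (algebraMap F K : F →* K) b ∉ Sqi w := fun h =>
        hb ((sp_sqi hW b).1 h)
      show Units.map (algebraMap F K : F →* K) c ∈
        LN (Sum.inl w) (Units.map (algebraMap F K : F →* K) b) ↔
        c ∈ LN (Sum.inl (w.comap (algebraMap F K))) b
      rw [ln_inf hb, ln_inf hb']
      exact sp_sqi hW c
  · exact sp_ln_fin hK W hW b c

theorem hs_split {W : Pl K} (hK : Nat.card (K ≃ₐ[F] K) = 2)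
    (hW : ∀ σ : K ≃ₐ[F] K, act σ W = W → σ = 1) (b c : Fˣ) :
    hs W (Units.map (algebraMap F K : F →* K) b) (Units.map (algebraMap F K : F →* K) c) =
      hs (dn F W) b c := by
  classical
  unfold hs
  by_cases h : c ∈ LN (dn F W) b
  · rw [if_pos h, if_pos ((sp_ln hK hW b c).2 h)]
  · rw [if_neg h, if_neg (fun h' => h ((sp_ln hK hW b c).1 h'))]

end SP




end Pool.Agent.QR
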