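import Pool.Agent.Lib_helper17.QRF.P_C1
import Pool.Agent.Lib_helper17.QRF.P_C2
import Pool.Agent.Lib_helper17.QRF.P_CH
import Pool.Agent.Lib_helper17.QRF.P_D
import Pool.Agent.Lib_helper17.QRF.P_DC
import Pool.Agent.Lib_helper17.QRF.P_DQ
import Pool.Agent.Lib_helper17.QRF.P_DU
import Pool.Agent.Lib_helper17.QRF.P_E1
import Pool.Agent.Lib_helper17.QRF.P_E2
import Pool.Agent.Lib_helper17.QRF.P_E3
import Pool.Agent.Lib_helper17.QRF.P_GV
import Pool.Agent.Lib_helper17.QRF.P_HG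
import Pool.Agent.Lib_helper17.QRF.P_HN
import Pool.Agent.Lib_helper17.QRF.P_HT
import Pool.Agent.Lib_helper17.QRF.P_HU
import Pool.Agent.Lib_helper17.QRF.P_IG
import Pool.Agent.Lib_helper17.QRF.P_K1
import Pool.Agent.Lib_helper17.QRF.P_L1
import Pool.Agent.Lib_helper17.QRF.P_L2
import Pool.Agent.Lib_helper17.QRF.P_L4
import Pool.Agent.Lib_helper17.QRF.P_L5
import Pool.Agent.Lib_helper17.QRF.P_LA
import Pool.Agent.Lib_helper17.QRF.P_LB
import Pool.Agent.Lib_helper17.QRF.P_LI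
import Pool.Agent.Lib_helper17.QRF.P_LO
import Pool.Agent.Lib_helper17.QRF.P_LS
import Pool.Agent.Lib_helper17.QRF.P_LT
import Pool.Agent.Lib_helper17.QRF.P_LV
import Pool.Agent.Lib_helper17.QRF.P_LX
import Pool.Agent.Lib_helper17.QRF.P_LY
import Pool.Agent.Lib_helper17.QRF.P_N1
import Pool.Agent.Lib_helper17.QRF.P_N2
import Pool.Agent.Lib_helper17.QRF.P_N3
import Pool.Agent.Lib_helper17.QRF.P_NF
import Pool.Agent.Lib_helper17.QRF.P_NG
import Pool.Agent.Lib_helper17.QRF.P_NN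
import Pool.Agent.Lib_helper17.QRF.P_NU
import Pool.Agent.Lib_helper17.QRF.P_PC
import Pool.Agent.Lib_helper17.QRF.P_PF1
import Pool.Agent.Lib_helper17.QRF.P_PF2
import Pool.Agent.Lib_helper17.QRF.P_PI
import Pool.Agent.Lib_helper17.QRF.P_PU
import Pool.Agent.Lib_helper17.QRF.P_QF1
import Pool.Agent.Lib_helper17.QRF.P_QF2
import Pool.Agent.Lib_helper17.QRF.P_RH
import Pool.Agent.Lib_helper17.QRF.P_SF1
import Pool.Agent.Lib_helper17.QRF.P_SF2
import Pool.Agent.Lib_helper17.QRF.P_SF3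
import Pool.Agent.Lib_helper17.QRF.P_SP
import Pool.Agent.Lib_helper17.QRF.P_UB
import Pool.Agent.Lib_helper17.QRF.P_US
import Pool.Agent.Lib_helper17.QRF.P_WA

/-!
# Quadratic reciprocity and the Hasse norm theorem for quadratic extensions of a number field (QR)

All statements of `QR/W.lean` and `QR/Exp.lean`, proved.
-/
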